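/-
LG/Anj (S)  MP_022f22_nt, Lehmer problem in E^g, board modleg. Paper proof: /team-store/lehmer_eg_proof.md
Choice of a0, D0, j0.  j0 = floor(δ log D/(2 log Q)): Q^(2 j0) <= D^δ.  For D large δ log D/(2 log Q) >= 2, so j0 >= 1 and j0 >= δ log D/(4 log Q).  a0 with Λ 4^a0 δ/(8 log Q) >= R + 1 (4^a0 unbounded); then for log D >= R' (and log D >= 0):
Λ 4^a0 j0/2 >= (R+1) log D >= R log D + R'.
-/
import Mathlib

open NumberField IsDedekindDomain Polynomial Height Filter Topology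

namespace LEG

theorem ana_j (Q : ℕ) (hQ : 2 ≤ Q) (δ Λ R : ℝ) (hδ : 0 < δ) (hΛ : 0 < Λ) :
    ∃ a0 : ℕ, ∀ R' : ℝ, ∃ D0 : ℕ, ∀ D : ℕ, D0 ≤ D → ∃ j0 : ℕ, 1 ≤ j0 ∧
      (Q : ℝ) ^ (2 * j0) ≤ (D : ℝ) ^ δ ∧
      R * Real.log D + R' ≤ Λ * ((4 : ℝ) ^ a0 * j0 / 2) := by

  have hQ1 : (1 : ℝ) < Q := by exact_mod_cast (by omega : 1 < Q)
  have hQ0 : (0 : ℝ) < Q := by linarith
  have hq : 0 < Real.log Q := Real.log_pos hQ1
  obtain ⟨a0, ha0⟩ := pow_unbounded_of_one_lt ((R + 1) * (8 * Real.log Q) / (Λ * δ))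
    (by norm_num : (1 : ℝ) < 4)
  refine ⟨a0, fun R' => ?_⟩
  refine ⟨⌈Real.exp (max R' (4 * Real.log Q / δ))⌉₊, fun D hD => ?_⟩
  have hDr : Real.exp (max R' (4 * Real.log Q / δ)) ≤ D := Nat.ceil_le.1 hD
  have hD0 : (0 : ℝ) < D := lt_of_lt_of_le (Real.exp_pos _) hDr
  have hlog : max R' (4 * Real.log Q / δ) ≤ Real.log D := by
    rw [Real.le_log_iff_exp_le hD0]
    exact hDr
  have h1 : R' ≤ Real.log D := (le_max_left _ _).trans hlog
  have h2 : 4 * Real.log Q / δ ≤ Real.log D := (le_max_right _ _).trans hlog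
  have h3 : 4 * Real.log Q ≤ δ * Real.log D := by
    rw [div_le_iff₀ hδ] at h2
    linarith
  have hx2 : 2 ≤ δ * Real.log D / (2 * Real.log Q) := by
    rw [le_div_iff₀ (by positivity)]
    linarith
  have hD' : 0 < Real.log D := by
    have : 0 < 4 * Real.log Q / δ := by positivity
    linarith
  refine ⟨⌊δ * Real.log D / (2 * Real.log Q)⌋₊, ?_, ?_, ?_⟩
  · apply Nat.le_floor
    push_cast
    linarith
  · have hf : ((⌊δ * Real.log D / (2 * Real.log Q)⌋₊ : ℕ) : ℝ) ≤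
        δ * Real.log D / (2 * Real.log Q) := Nat.floor_le (by linarith)
    rw [le_div_iff₀ (by positivity)] at hf
    rw [Real.rpow_def_of_pos hD0, ← Real.exp_log hQ0, ← Real.exp_nat_mul, Real.exp_le_exp,
      Real.exp_log hQ0]
    push_cast
    nlinarith [hf]
  · have hf : δ * Real.log D / (2 * Real.log Q) <
        ((⌊δ * Real.log D / (2 * Real.log Q)⌋₊ : ℕ) : ℝ) + 1 := Nat.lt_floor_add_one _
    set j0 : ℝ := ((⌊δ * Real.log D / (2 * Real.log Q)⌋₊ : ℕ) : ℝ) with hj0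
    have hj : δ * Real.log D / (4 * Real.log Q) ≤ j0 := by
      have h4 : δ * Real.log D / (4 * Real.log Q) = (δ * Real.log D / (2 * Real.log Q)) / 2 := by
        field_simp
        ring
      rw [h4]
      linarith
    have h5 : (R + 1) * (8 * Real.log Q) ≤ 4 ^ a0 * (Λ * δ) := by
      have := ha0.le
      rw [div_le_iff₀ (by positivity)] at this
      exact this
    have h6 : (R + 1) * Real.log D ≤ Λ * ((4 : ℝ) ^ a0 * j0 / 2) := by
      have h7 : Λ * ((4 : ℝ) ^ a0 * (δ * Real.log D / (4 * Real.log Q)) / 2) ≤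
          Λ * ((4 : ℝ) ^ a0 * j0 / 2) := by
        gcongr
      refine le_trans ?_ h7
      have h8 : Λ * ((4 : ℝ) ^ a0 * (δ * Real.log D / (4 * Real.log Q)) / 2) =
          (4 ^ a0 * (Λ * δ)) * Real.log D / (8 * Real.log Q) := by
        field_simp
        ring
      rw [h8, le_div_iff₀ (by positivity)]
      nlinarith [mul_le_mul_of_nonneg_right h5 hD'.le]
    nlinarith [h6, h1]

end LEG
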