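/-
LG/Kap (S)  MP_022f22_nt, Lehmer problem in E^g, board modleg. Paper proof: /team-store/lehmer_eg_proof.md
Choice of Y and κ.  Y = ceil(D Q^(nm g)/ω^g) (natural numbers: (D Q^(nm g) + ω^g - 1)/ω^g), so Y <= D Q^(nm g)/ω^g + 1 <= 2 D Q^(nm g)/ω^g as D >= ω^g.  κ = least natural number with 4^κ >= max(M0 (2Y^3ω+2), 4^a0)
(or κ with 4^(κ-1) < M0(2Y^3ω+2) + 4^a0 <= 4^κ): 4^κ <= 4 (M0 (2 Y^3 ω + 2) + 4^a0) <= 4 (M0 (16 T^3 ω + 2) + 4^a0), T = D Q^(nm g)/ω^g >= 1; T^3 ω >= 1: <= 4 (18 M0 + 4^a0) T^3 ω.  T^3 Q^nm = (D/ω^g)^3 (Q^nm)^(3g+1).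
-/
import Mathlib

open NumberField IsDedekindDomain Polynomial Height Filter Topology

namespace LEG

theorem kap (g Q M0 a0 D ω nm : ℕ) (hQ : 1 ≤ Q) (hω : 1 ≤ ω) (hωD : ω ^ g ≤ D) :
    ∃ Y κ : ℕ, D * Q ^ (nm * g) ≤ Y * ω ^ g ∧ a0 ≤ κ ∧ M0 * (2 * Y ^ 3 * ω + 2) ≤ 4 ^ κ ∧
      (4 : ℝ) ^ κ * (Q : ℝ) ^ nm ≤ 4 * (18 * (M0 : ℝ) + 4 ^ a0) * ((D : ℝ) / (ω : ℝ) ^ g) ^ 3 *
        (ω : ℝ) * ((Q : ℝ) ^ nm) ^ (3 * g + 1) := by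
  obtain ⟨P, hP⟩ : ∃ P, P = ω ^ g := ⟨_, rfl⟩
  obtain ⟨N, hN⟩ : ∃ N, N = D * Q ^ (nm * g) := ⟨_, rfl⟩
  have hP1 : 1 ≤ P := by rw [hP]; exact Nat.one_le_pow _ _ hω
  have hPD : P ≤ D := by rw [hP]; exact hωD
  have hq1 : 1 ≤ Q ^ (nm * g) := Nat.one_le_pow _ _ hQ
  have hPN : P ≤ N := by
    rw [hN]
    exact hPD.trans (Nat.le_mul_of_pos_right _ hq1)
  obtain ⟨Y, hY⟩ : ∃ Y, Y = (N + P - 1) / P := ⟨_, rfl⟩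
  have hY1 : Y * P ≤ N + P - 1 := by rw [hY]; exact Nat.div_mul_le_self _ _
  have hY2 : N ≤ Y * P := by
    have h1 := Nat.lt_div_mul_add (a := N + P - 1) (b := P) hP1
    rw [← hY] at h1
    omega
  have hY3 : Y * P ≤ 2 * N := by omega
  obtain ⟨B, hB⟩ : ∃ B, B = M0 * (2 * Y ^ 3 * ω + 2) + 4 ^ a0 := ⟨_, rfl⟩
  have hB1 : 1 ≤ B := by
    rw [hB]
    have := Nat.one_le_pow a0 4 (by norm_num)
    omega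
  obtain ⟨κ, hκ1, hκ2⟩ : ∃ κ : ℕ, B ≤ 4 ^ κ ∧ 4 ^ κ ≤ 4 * B := by
    classical
    have hex : ∃ κ : ℕ, B ≤ 4 ^ κ := ⟨B, (Nat.lt_pow_self (by norm_num)).le⟩
    refine ⟨Nat.find hex, Nat.find_spec hex, ?_⟩
    rcases Nat.eq_zero_or_pos (Nat.find hex) with h | h
    · rw [h]
      omega
    · have h1 := Nat.find_min hex (m := Nat.find hex - 1) (by omega)
      have h2 : 4 ^ Nat.find hex = 4 * 4 ^ (Nat.find hex - 1) := by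
        rw [← pow_succ', Nat.sub_add_cancel h]
      rw [h2]
      omega
  refine ⟨Y, κ, by rw [← hN, ← hP]; exact hY2, ?_, (le_of_le_of_eq (Nat.le_add_right _ _) hB.symm).trans hκ1, ?_⟩
  · have h1 : 4 ^ a0 ≤ 4 ^ κ := by rw [hB] at hκ1; omega
    exact (Nat.pow_le_pow_iff_right (by norm_num)).1 h1
  have hP0 : (1 : ℝ) ≤ P := by exact_mod_cast hP1
  have hPpos : (0 : ℝ) < P := by linarith
  have hω0 : (1 : ℝ) ≤ ω := by exact_mod_cast hω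
  have hM0 : (0 : ℝ) ≤ M0 := Nat.cast_nonneg _
  obtain ⟨T, hT⟩ : ∃ T : ℝ, T = (N : ℝ) / P := ⟨_, rfl⟩
  have hT1 : 1 ≤ T := by
    rw [hT, le_div_iff₀ hPpos, one_mul]
    exact_mod_cast hPN
  have hYT : (Y : ℝ) ≤ 2 * T := by
    rw [hT, ← mul_div_assoc, le_div_iff₀ hPpos]
    exact_mod_cast hY3
  have hY0 : (0 : ℝ) ≤ Y := Nat.cast_nonneg _
  have hY3' : (Y : ℝ) ^ 3 ≤ 8 * T ^ 3 := by
    have h1 := pow_le_pow_left₀ hY0 hYT 3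
    calc (Y : ℝ) ^ 3 ≤ (2 * T) ^ 3 := h1
      _ = 8 * T ^ 3 := by ring
  have hTω : 1 ≤ T ^ 3 * ω := by
    have h1 : 1 ≤ T ^ 3 := one_le_pow₀ hT1
    nlinarith
  have h4 : (4 : ℝ) ^ κ ≤ 4 * (18 * (M0 : ℝ) + 4 ^ a0) * (T ^ 3 * ω) := by
    have h1 : (4 : ℝ) ^ κ ≤ 4 * ((M0 : ℝ) * (2 * (Y : ℝ) ^ 3 * ω + 2) + 4 ^ a0) := by
      rw [hB] at hκ2
      exact_mod_cast hκ2
    have h2 : 2 * (Y : ℝ) ^ 3 * ω + 2 ≤ 18 * (T ^ 3 * ω) := by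
      have h3 : (Y : ℝ) ^ 3 * ω ≤ 8 * T ^ 3 * ω :=
        mul_le_mul_of_nonneg_right hY3' (by linarith)
      nlinarith
    have h3 : (4 : ℝ) ^ a0 ≤ 4 ^ a0 * (T ^ 3 * ω) := by
      have h5 : (0 : ℝ) ≤ 4 ^ a0 := by positivity
      nlinarith
    have h5 : (M0 : ℝ) * (2 * (Y : ℝ) ^ 3 * ω + 2) ≤ M0 * (18 * (T ^ 3 * ω)) :=
      mul_le_mul_of_nonneg_left h2 hM0
    nlinarith
  have hq0 : (0 : ℝ) ≤ (Q : ℝ) ^ nm := by positivity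
  refine (mul_le_mul_of_nonneg_right h4 hq0).trans (le_of_eq ?_)
  have hTe : T = (D : ℝ) / (ω : ℝ) ^ g * ((Q : ℝ) ^ nm) ^ g := by
    rw [hT, hN, hP]
    push_cast
    rw [pow_mul]
    ring
  rw [hTe]
  ring

end LEG
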