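/-
LG/Ana (M)  MP_022f22_nt, Lehmer problem in E^g, board modleg. Paper proof: /team-store/lehmer_eg_proof.md
Parameters (paper 6).  E := 5 (3 g + 1) δ.  ana_j with R = 1 + 3 g C1 (4 + E) gives a0; M0 = 2^(g+2) 4^(a0 g), C4 = 4 (18 M0 + 4^a0) (Q^M0)^(3g+1) >= 1, R' = log M0 + 3 g C1 log C4 + 1; D0 also large so that the condition on b' holds:
b' = least natural number with Q^b' >= D^(3δ) (b' = ceil(3δ log D/log Q)): Q^b' <= Q D^(3δ);  M0 D^δ ((Q^b')^(-1) + C2 D^(-3δ)) <= M0 (1 + C2) D^(-2δ) <= 1 for D large.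
kap: 4^κ Q^nm <= C4 (D/ω^g)^3 ω D^E =: Z (use Q^nm <= Q^M0 D^(5δ)), Z <= C4 D^(4+E) (ω <= ω^g <= D), so κ <= κ log 4 <= log Z <= log C4 + (4+E) log D.  log(M0 D) + 3gκC1 + 1 <= R log D + R' <= Λ 4^a0 j0/2, so 1 <= 4^κ Q^nm h <= Z h (h > 0 follows);
c = 1/C4: c D^(-E) ω^(-1) (ω^g/D)^3 = 1/Z <= h.
-/
import Mathlib
import Pool.Agent.Work.MP_022f22_nt.LG.Kap
import Pool.Agent.Work.MP_022f22_nt.LG.Anj

open NumberField IsDedekindDomain Polynomial Height Filter Topology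

namespace LEG

theorem ana (g : ℕ) (hg : 1 ≤ g) (Q : ℕ) (hQ : 2 ≤ Q) (Λ C1 C2 δ : ℝ) (hΛ : 0 < Λ)
    (hC1 : 0 ≤ C1) (hC2 : 0 < C2) (hδ : 0 < δ) :
    ∃ (a0 D0 : ℕ) (c : ℝ), 0 < c ∧ ∀ D : ℕ, D0 ≤ D → ∃ j0 b' : ℕ, 1 ≤ j0 ∧
      (Q : ℝ) ^ (2 * j0) ≤ (D : ℝ) ^ δ ∧ (Q : ℝ) ^ b' ≤ Q * (D : ℝ) ^ (3 * δ) ∧
      (2 : ℝ) ^ (g + 2) * 4 ^ (a0 * g) * (D : ℝ) ^ δ *
        (((Q : ℝ) ^ b')⁻¹ + C2 * (D : ℝ) ^ (-(3 * δ))) ≤ 1 ∧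
      ∀ ω nm : ℕ, 1 ≤ ω → ω ^ g ≤ D →
        (Q : ℝ) ^ nm ≤ (Q : ℝ) ^ (2 ^ (g + 2) * 4 ^ (a0 * g)) * (D : ℝ) ^ (5 * δ) →
        ∃ Y κ : ℕ, D * Q ^ (nm * g) ≤ Y * ω ^ g ∧ a0 ≤ κ ∧
          2 ^ (g + 2) * 4 ^ (a0 * g) * (2 * Y ^ 3 * ω + 2) ≤ 4 ^ κ ∧
          ∀ h : ℝ, Λ * ((4 : ℝ) ^ a0 * j0 / 2) ≤
              Real.log (2 ^ (g + 2) * 4 ^ (a0 * g) * (D : ℝ)) + 3 * g * κ * C1 +
                (4 : ℝ) ^ κ * (Q : ℝ) ^ nm * h →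
            c * (D : ℝ) ^ (-(5 * (3 * g + 1) * δ)) * (ω : ℝ)⁻¹ * ((ω : ℝ) ^ g / D) ^ 3 ≤ h := by
  classical
  obtain ⟨a0, ha0⟩ := ana_j Q hQ δ Λ (1 + 3 * g * C1 * (4 + 5 * (3 * g + 1) * δ)) hδ hΛ
  obtain ⟨M0, hM0⟩ : ∃ M0 : ℕ, M0 = 2 ^ (g + 2) * 4 ^ (a0 * g) := ⟨_, rfl⟩
  have hM0r : (2 : ℝ) ^ (g + 2) * 4 ^ (a0 * g) = (M0 : ℝ) := by
    rw [hM0]
    push_cast
    ring
  have hM01 : (1 : ℝ) ≤ M0 := by
    rw [← hM0r]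
    exact one_le_mul_of_one_le_of_one_le (one_le_pow₀ (by norm_num)) (one_le_pow₀ (by norm_num))
  have hQ1 : (1 : ℝ) ≤ Q := by exact_mod_cast (by omega : 1 ≤ Q)
  obtain ⟨C4, hC4⟩ : ∃ C4 : ℝ, C4 = 4 * (18 * (M0 : ℝ) + 4 ^ a0) *
    ((Q : ℝ) ^ M0) ^ (3 * g + 1) := ⟨_, rfl⟩
  have hC41 : 1 ≤ C4 := by
    rw [hC4]
    have h1 : (1 : ℝ) ≤ 4 * (18 * (M0 : ℝ) + 4 ^ a0) := by
      have : (0 : ℝ) ≤ 4 ^ a0 := by positivity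
      linarith
    have h2 : (1 : ℝ) ≤ ((Q : ℝ) ^ M0) ^ (3 * g + 1) := one_le_pow₀ (one_le_pow₀ hQ1)
    exact one_le_mul_of_one_le_of_one_le h1 h2
  have hC40 : 0 < C4 := by linarith
  obtain ⟨D1, hD1⟩ := ha0 (Real.log M0 + 3 * g * C1 * Real.log C4 + 1)
  have hev : ∀ᶠ D : ℕ in atTop, (M0 : ℝ) * (1 + C2) ≤ (D : ℝ) ^ (2 * δ) :=
    ((tendsto_rpow_atTop (by positivity : 0 < 2 * δ)).comp
      tendsto_natCast_atTop_atTop).eventually_ge_atTop _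
  obtain ⟨D2, hD2⟩ := eventually_atTop.1 hev
  refine ⟨a0, max (max D1 D2) 1, 1 / C4, by positivity, fun D hD => ?_⟩
  have hDD1 : D1 ≤ D := (le_max_left _ _).trans ((le_max_left _ _).trans hD)
  have hDD2 : D2 ≤ D := (le_max_right _ _).trans ((le_max_left _ _).trans hD)
  have hD1' : 1 ≤ D := (le_max_right _ _).trans hD
  have hDr : (1 : ℝ) ≤ D := by exact_mod_cast hD1'
  have hD0 : (0 : ℝ) < D := by linarith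
  obtain ⟨j0, hj0, hj1, hj2⟩ := hD1 D hDD1
  obtain ⟨b', hb1, hb2⟩ : ∃ b' : ℕ, (D : ℝ) ^ (3 * δ) ≤ (Q : ℝ) ^ b' ∧
      (Q : ℝ) ^ b' ≤ Q * (D : ℝ) ^ (3 * δ) := by
    have hex : ∃ b : ℕ, (D : ℝ) ^ (3 * δ) ≤ (Q : ℝ) ^ b := by
      have hQ2 : (1 : ℝ) < Q := by exact_mod_cast (by omega : 1 < Q)
      obtain ⟨b, hb⟩ := pow_unbounded_of_one_lt ((D : ℝ) ^ (3 * δ)) hQ2
      exact ⟨b, hb.le⟩
    refine ⟨Nat.find hex, Nat.find_spec hex, ?_⟩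
    have hge1 : (1 : ℝ) ≤ (D : ℝ) ^ (3 * δ) := Real.one_le_rpow hDr (by positivity)
    rcases Nat.eq_zero_or_pos (Nat.find hex) with h0 | h0
    · rw [h0, pow_zero]
      exact one_le_mul_of_one_le_of_one_le hQ1 hge1
    · obtain ⟨k, hk⟩ : ∃ k, Nat.find hex = k + 1 := ⟨Nat.find hex - 1, by omega⟩
      have hlt := Nat.find_min hex (m := k) (by omega)
      rw [hk, pow_succ, mul_comm]
      rw [not_le] at hlt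
      exact mul_le_mul_of_nonneg_left hlt.le (by linarith)
  have hcond : (M0 : ℝ) * (D : ℝ) ^ δ * (((Q : ℝ) ^ b')⁻¹ + C2 * (D : ℝ) ^ (-(3 * δ))) ≤ 1 := by
    have hx : 0 < (D : ℝ) ^ (3 * δ) := Real.rpow_pos_of_pos hD0 _
    have h1 : ((Q : ℝ) ^ b')⁻¹ ≤ ((D : ℝ) ^ (3 * δ))⁻¹ := inv_anti₀ hx hb1
    have h2 : (D : ℝ) ^ (-(3 * δ)) = ((D : ℝ) ^ (3 * δ))⁻¹ := Real.rpow_neg hD0.le _
    have h3 : (D : ℝ) ^ (3 * δ) = (D : ℝ) ^ δ * (D : ℝ) ^ (2 * δ) := by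
      rw [← Real.rpow_add hD0]
      congr 1
      ring
    have hy : 0 < (D : ℝ) ^ δ := Real.rpow_pos_of_pos hD0 _
    have hz : 0 < (D : ℝ) ^ (2 * δ) := Real.rpow_pos_of_pos hD0 _
    have h4 := hD2 D hDD2
    calc (M0 : ℝ) * (D : ℝ) ^ δ * (((Q : ℝ) ^ b')⁻¹ + C2 * (D : ℝ) ^ (-(3 * δ)))
        ≤ (M0 : ℝ) * (D : ℝ) ^ δ * (((D : ℝ) ^ (3 * δ))⁻¹ + C2 * ((D : ℝ) ^ (3 * δ))⁻¹) := by
          rw [h2]
          gcongr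
      _ = (M0 * (1 + C2)) / (D : ℝ) ^ (2 * δ) := by
          rw [h3]
          field_simp
      _ ≤ 1 := by
          rw [div_le_one hz]
          exact h4
  refine ⟨j0, b', hj0, hj1, hb2, by rw [hM0r]; exact hcond, ?_⟩
  intro ω nm hω hωD hnm
  rw [← hM0] at hnm
  obtain ⟨Y, κ, hY, hκ, hκ2, hκ3⟩ := kap g Q M0 a0 D ω nm (by omega) hω hωD
  refine ⟨Y, κ, hY, hκ, by rw [← hM0]; exact hκ2, fun h hh => ?_⟩
  rw [hM0r] at hh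
  have hωr : (1 : ℝ) ≤ ω := by exact_mod_cast hω
  have hω0 : (0 : ℝ) < ω := by linarith
  have hωg : (1 : ℝ) ≤ (ω : ℝ) ^ g := one_le_pow₀ hωr
  have hωg0 : (0 : ℝ) < (ω : ℝ) ^ g := by linarith
  have hωDr : (ω : ℝ) ^ g ≤ D := by exact_mod_cast hωD
  have hωD2 : (ω : ℝ) ≤ D := (le_self_pow₀ hωr (by omega)).trans hωDr
  obtain ⟨E, hE⟩ : ∃ E : ℝ, E = 5 * (3 * g + 1) * δ := ⟨_, rfl⟩
  rw [← hE]
  rw [← hE] at hj2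
  have hE0 : 0 ≤ E := by rw [hE]; positivity
  have hDE : 0 < (D : ℝ) ^ E := Real.rpow_pos_of_pos hD0 _
  have hQnm : (1 : ℝ) ≤ (Q : ℝ) ^ nm := one_le_pow₀ hQ1
  obtain ⟨Z, hZ⟩ : ∃ Z : ℝ, Z = C4 * ((D : ℝ) / (ω : ℝ) ^ g) ^ 3 * ω * (D : ℝ) ^ E := ⟨_, rfl⟩
  have hZ0 : 0 < Z := by rw [hZ]; positivity
  have hkZ : (4 : ℝ) ^ κ * (Q : ℝ) ^ nm ≤ Z := by
    have h1 : ((Q : ℝ) ^ nm) ^ (3 * g + 1) ≤ ((Q : ℝ) ^ M0) ^ (3 * g + 1) * (D : ℝ) ^ E := by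
      have h2 : ((Q : ℝ) ^ nm) ^ (3 * g + 1) ≤
          ((Q : ℝ) ^ M0 * (D : ℝ) ^ (5 * δ)) ^ (3 * g + 1) :=
        pow_le_pow_left₀ (by linarith) hnm _
      have h3 : ((D : ℝ) ^ (5 * δ)) ^ (3 * g + 1) = (D : ℝ) ^ E := by
        rw [← Real.rpow_natCast, ← Real.rpow_mul hD0.le, hE]
        congr 1
        push_cast
        ring
      rw [mul_pow, h3] at h2
      exact h2
    refine hκ3.trans ?_
    calc 4 * (18 * (M0 : ℝ) + 4 ^ a0) * ((D : ℝ) / (ω : ℝ) ^ g) ^ 3 * (ω : ℝ) *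
          ((Q : ℝ) ^ nm) ^ (3 * g + 1)
        ≤ 4 * (18 * (M0 : ℝ) + 4 ^ a0) * ((D : ℝ) / (ω : ℝ) ^ g) ^ 3 * (ω : ℝ) *
          (((Q : ℝ) ^ M0) ^ (3 * g + 1) * (D : ℝ) ^ E) :=
          mul_le_mul_of_nonneg_left h1 (by positivity)
      _ = Z := by
          rw [hZ, hC4]
          ring
  have hZle : Z ≤ C4 * (D : ℝ) ^ 4 * (D : ℝ) ^ E := by
    rw [hZ]
    have h1 : (D : ℝ) / (ω : ℝ) ^ g ≤ D := div_le_self hD0.le hωg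
    have h2 : ((D : ℝ) / (ω : ℝ) ^ g) ^ 3 ≤ (D : ℝ) ^ 3 := pow_le_pow_left₀ (by positivity) h1 3
    have h3 : ((D : ℝ) / (ω : ℝ) ^ g) ^ 3 * ω ≤ (D : ℝ) ^ 4 := by
      calc ((D : ℝ) / (ω : ℝ) ^ g) ^ 3 * ω ≤ (D : ℝ) ^ 3 * D :=
            mul_le_mul h2 hωD2 hω0.le (by positivity)
        _ = (D : ℝ) ^ 4 := by ring
    calc C4 * ((D : ℝ) / (ω : ℝ) ^ g) ^ 3 * ω * (D : ℝ) ^ E
        = C4 * (((D : ℝ) / (ω : ℝ) ^ g) ^ 3 * ω) * (D : ℝ) ^ E := by ring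
      _ ≤ C4 * (D : ℝ) ^ 4 * (D : ℝ) ^ E := by gcongr
  have hlogD : 0 ≤ Real.log D := Real.log_nonneg hDr
  have hκlog : (κ : ℝ) ≤ Real.log C4 + (4 + E) * Real.log D := by
    have h1 : (4 : ℝ) ^ κ ≤ C4 * (D : ℝ) ^ 4 * (D : ℝ) ^ E := by
      have h2 : (4 : ℝ) ^ κ ≤ (4 : ℝ) ^ κ * (Q : ℝ) ^ nm := le_mul_of_one_le_right (by positivity) hQnm
      linarith
    have h3 := Real.log_le_log (by positivity) h1
    rw [Real.log_pow, Real.log_mul (by positivity) hDE.ne', Real.log_mul hC40.ne' (by positivity),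
      Real.log_pow, Real.log_rpow hD0] at h3
    have h4 : (1 : ℝ) ≤ Real.log 4 := by
      have h5 : Real.log 4 = 2 * Real.log 2 := by
        rw [show (4 : ℝ) = 2 ^ 2 by norm_num, Real.log_pow]
        norm_num
      have h6 := Real.log_two_gt_d9
      rw [h5]
      linarith
    have h5 : (κ : ℝ) ≤ κ * Real.log 4 := le_mul_of_one_le_right (Nat.cast_nonneg κ) h4
    push_cast at h3
    linarith
  have hone : 1 ≤ (4 : ℝ) ^ κ * (Q : ℝ) ^ nm * h := by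
    have h1 : Real.log (M0 * (D : ℝ)) = Real.log M0 + Real.log D :=
      Real.log_mul (by positivity) hD0.ne'
    rw [h1] at hh
    have h2 : 3 * (g : ℝ) * κ * C1 ≤ 3 * g * C1 * (Real.log C4 + (4 + E) * Real.log D) := by
      calc 3 * (g : ℝ) * κ * C1 = 3 * g * C1 * κ := by ring
        _ ≤ _ := mul_le_mul_of_nonneg_left hκlog (by positivity)
    have h3 : (1 + 3 * (g : ℝ) * C1 * (4 + E)) * Real.log D +
        (Real.log M0 + 3 * g * C1 * Real.log C4 + 1) =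
        Real.log M0 + Real.log D + 3 * g * C1 * (Real.log C4 + (4 + E) * Real.log D) + 1 := by
      ring
    linarith
  have hpos : 0 < (4 : ℝ) ^ κ * (Q : ℝ) ^ nm := by positivity
  have hh0 : 0 < h := by
    by_contra hcon
    rw [not_lt] at hcon
    have := mul_nonpos_of_nonneg_of_nonpos hpos.le hcon
    linarith
  have hZh : 1 ≤ Z * h := hone.trans (mul_le_mul_of_nonneg_right hkZ hh0.le)
  have hfin : 1 / C4 * (D : ℝ) ^ (-E) * (ω : ℝ)⁻¹ * ((ω : ℝ) ^ g / D) ^ 3 = 1 / Z := by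
    rw [hZ, Real.rpow_neg hD0.le]
    field_simp
  rw [hfin, div_le_iff₀ hZ0, mul_comm]
  exact hZh

end LEG
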