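/-
LG/Defs : common definitions for the E^g Lehmer project (MP_022f22_nt, board modleg).
Paper proof: /team-store/lehmer_eg_proof.md.  Everything lives in namespace LEG; the namespace LEH of LH/ is used.
-/
import Mathlib
import Pool.Agent.Work.MP_022f22_nt.LH.Defs
import Pool.Agent.Work.MP_022f22_nt.LH.FinDefs
import Pool.Agent.Work.MP_022f22_nt.LH.CjP

open NumberField IsDedekindDomain Polynomial Height LEH

namespace LEG

/-- polynomials in `g` variables whose degree in each variable is `< k` -/
def Bx {R : Type*} [CommSemiring R] {g : ℕ} (k : ℕ) (f : MvPolynomial (Fin g) R) : Prop :=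
  ∀ i, f.degreeOf i < k

/-- no nonzero polynomial over `K` of degree `< k` in each variable vanishes at `a` -/
def NoRel (K : Type*) {L : Type*} [Field K] [Field L] [Algebra K L] {g : ℕ} (k : ℕ)
    (a : Fin g → L) : Prop :=
  ∀ f : MvPolynomial (Fin g) K, Bx k f → MvPolynomial.aeval a f = 0 → f = 0

/-- the `K`-span of the monomials with all exponents `< k` in the coordinates of `a` -/
def usp (K : Type*) {L : Type*} [Field K] [Field L] [Algebra K L] {g : ℕ} (k : ℕ)
    (a : Fin g → L) : Submodule K L :=
  Submodule.span K {y | ∃ u : Fin g → ℕ, (∀ i, u i < k) ∧ ∏ i, a i ^ u i = y}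

open Classical in
/-- the conjugates of the tuple `a` -/
noncomputable def torb (K : Type*) {L : Type*} [Field K] [Field L] [Algebra K L]
    [FiniteDimensional K L] {g : ℕ} (a : Fin g → L) : Finset (Fin g → L) :=
  Finset.univ.image (fun (σ : L ≃ₐ[K] L) (i : Fin g) => σ (a i))

/-- the `n`-th iterate of `A/B` applied to the coordinates -/
noncomputable def itn {K L : Type*} [Field K] [Field L] [Algebra K L] {g : ℕ} (A B : K[X])
    (n : ℕ) (a : Fin g → L) : Fin g → L :=
  fun i => (Fm A B)^[n] (a i)

/-- the evaluations at the points of `S` are linearly independent functionals on the polynomials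
of degree `< k` in each variable -/
def Indep {L : Type*} [Field L] {g : ℕ} (k : ℕ) (S : Finset (Fin g → L)) : Prop :=
  ∀ c : (Fin g → L) → L,
    (∀ u : Fin g → ℕ, (∀ i, u i < k) → ∑ s ∈ S, c s * ∏ i, s i ^ u i = 0) → ∀ s ∈ S, c s = 0

/-- the valuation ring of `K` at `v` -/
noncomputable abbrev Rv {K : Type} [Field K] [NumberField K] (v : HeightOneSpectrum (𝓞 K)) :
    ValuationSubring K :=
  (v.valuation K).valuationSubring

/-- value at `s` of a polynomial with `v`-integral coefficients -/
noncomputable def evR {K L : Type} [Field K] [NumberField K] [Field L] [Algebra K L]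
    (v : HeightOneSpectrum (𝓞 K)) {g : ℕ} (s : Fin g → L) (f : MvPolynomial (Fin g) (Rv v)) : L :=
  MvPolynomial.eval₂ ((algebraMap K L).comp (algebraMap (Rv v) K)) s f

/-- the reduction of `f` modulo `v` is nonzero, with lexicographic leading exponent `u` -/
def LMis {K : Type} [Field K] [NumberField K] (v : HeightOneSpectrum (𝓞 K)) {g : ℕ}
    (f : MvPolynomial (Fin g) (Rv v)) (u : Fin g →₀ ℕ) : Prop :=
  f.map (IsLocalRing.residue (Rv v)) ≠ 0 ∧
    MonomialOrder.lex.degree (f.map (IsLocalRing.residue (Rv v))) = u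

/-- gain at least `J` at all points of `S` and all places above `v` -/
def Gain {K L : Type} [Field K] [NumberField K] [Field L] [NumberField L] [Algebra K L]
    (v : HeightOneSpectrum (𝓞 K)) (ϖ : K) {g : ℕ} (S : Finset (Fin g → L)) (J k : ℕ)
    (f : MvPolynomial (Fin g) (Rv v)) : Prop :=
  ∀ w : FinitePlace L, Above v w → ∀ s ∈ S,
    w (evR v s f) ≤ w (algebraMap K L ϖ) ^ J * ∏ i, (max (w (s i)) 1) ^ (k - 1)

/-- exponents -/
noncomputable def ex {g k : ℕ} (u : Fin g → Fin k) : Fin g →₀ ℕ :=
  Finsupp.equivFunOnFinite.symm (fun i => (u i : ℕ))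

open Classical in
/-- the exponents which are not leading exponents of reductions of polynomials of gain `J` -/
noncomputable def bad {K L : Type} [Field K] [NumberField K] [Field L] [NumberField L]
    [Algebra K L] (v : HeightOneSpectrum (𝓞 K)) (ϖ : K) {g : ℕ} (S : Finset (Fin g → L))
    (J k : ℕ) : Finset (Fin g → Fin k) :=
  Finset.univ.filter (fun u => ¬ ∃ f : MvPolynomial (Fin g) (Rv v),
    Bx k f ∧ LMis v f (ex u) ∧ Gain v ϖ S J k f)

/-- homogenization in each variable to degree `k - 1` -/
noncomputable def homf {R : Type*} [CommRing R] {g : ℕ} (k : ℕ) (f : MvPolynomial (Fin g) R) :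
    MvPolynomial (Fin g × Fin 2) R :=
  ∑ u ∈ f.support, MvPolynomial.C (f.coeff u) *
    ∏ i, (MvPolynomial.X (i, 0) ^ (u i) * MvPolynomial.X (i, 1) ^ (k - 1 - u i))

/-- the form of degree `Q` of a polynomial `A`, in the variables `(i,0)`, `(i,1)` -/
noncomputable def formX {R : Type*} [CommRing R] {g : ℕ} (Q : ℕ) (A : R[X]) (i : Fin g) :
    MvPolynomial (Fin g × Fin 2) R :=
  ∑ j ∈ Finset.range (Q + 1), MvPolynomial.C (A.coeff j) * MvPolynomial.X (i, 0) ^ j *
    MvPolynomial.X (i, 1) ^ (Q - j)

/-- substitution of the forms of `A` and `B` -/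
noncomputable def PhiF {R : Type*} [CommRing R] (g Q : ℕ) (A B : R[X]) :
    MvPolynomial (Fin g × Fin 2) R →ₐ[R] MvPolynomial (Fin g × Fin 2) R :=
  MvPolynomial.aeval (fun s => if s.2 = 0 then formX Q A s.1 else formX Q B s.1)

/-- the forms of `A`, `B` applied to a pair -/
noncomputable def stv {F : Type*} [CommRing F] (Q : ℕ) (A B : F[X]) (V : F × F) : F × F :=
  (hev Q A V.1 V.2, hev Q B V.1 V.2)

/-- the normalised pair of `x` -/
noncomputable def nv {F : Type*} [Field F] (w : AbsoluteValue F ℝ) (x : F) : F × F :=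
  if w x ≤ 1 then (x, 1) else (1, x⁻¹)

/-- the ramification index of `w` over `v` -/
noncomputable def ram {K F : Type} [Field K] [NumberField K] [Field F] [NumberField F]
    [Algebra K F] (v : HeightOneSpectrum (𝓞 K)) (w : FinitePlace F) : ℕ :=
  v.asIdeal.ramificationIdx' w.maximalIdeal.asIdeal

/-- the norm of the prime of `w` -/
noncomputable def nw {F : Type*} [Field F] [NumberField F] (w : FinitePlace F) : ℝ :=
  (Ideal.absNorm w.maximalIdeal.asIdeal : ℝ)

/-- `log(absNorm v)/[K : ℚ]` -/
noncomputable def Lam {K : Type} [Field K] [NumberField K] (v : HeightOneSpectrum (𝓞 K)) : ℝ :=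
  Real.log (Ideal.absNorm v.asIdeal) / (Module.finrank ℚ K : ℝ)

/-- the stabilizer of a tuple of points -/
noncomputable def Stb {K L : Type*} [Field K] [Field L] [Algebra K L] [DecidableEq L]
    {W : WeierstrassCurve K} {g : ℕ} (P : Fin g → (W.baseChange L).toAffine.Point) :
    Subgroup (L ≃ₐ[K] L) where
  carrier := {σ | ∀ i, cj σ (P i) = P i}
  one_mem' := fun i => cj_one (P i)
  mul_mem' := fun {σ τ} hσ hτ i => by rw [cj_mul, hτ i, hσ i]
  inv_mem' := fun {σ} hσ i => by
    have h := hσ i
    calc cj σ⁻¹ (P i) = cj σ⁻¹ (cj σ (P i)) := by rw [h]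
      _ = P i := by rw [← cj_mul, inv_mul_cancel, cj_one]

/-- the tuple of `x`-coordinates -/
noncomputable def xt {K L : Type*} [Field K] [Field L] [Algebra K L]
    {W : WeierstrassCurve K} {g : ℕ} (P : Fin g → (W.baseChange L).toAffine.Point) : Fin g → L :=
  fun i => xc (P i)

end LEG
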