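/-
LG/Clm (M)  MP_022f22_nt, Lehmer problem in E^g, board modleg. Paper proof: /team-store/lehmer_eg_proof.md
Class map at a finite place (paper 2.3).  C = 𝓞 F / P^t, P = w.maximalIdeal.asIdeal, card = absNorm(P)^t.  cl: for x with w x <= 1 write x = a/b with a, b integers,
w b = 1 (LH/Vab exists_frac); b is a unit mod P^t; cl x := a b^(-1) in C (choose; or: choose an integer a' with w(x - a') <= N^(-t), which exists as b is invertible mod P^t, and cl x = class of a').
If cl x = cl y then x - y = (a' - a'') + .., a' - a'' in P^t, so w <= N^(-t) (FinitePlace: w y <= N^(-t) iff y in P^t for integers y: norm_def/intValuation_le_pow_iff_mem).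
Simplest: prove first: for x with w x <= 1 there is a' in 𝓞 F with w(x - a') <= N^(-t).  cl x := Ideal.Quotient.mk (P^t) a' (choice), arbitrary if w x > 1.  nw w = (absNorm P : ℝ).
-/
import Mathlib
import Pool.Agent.Work.MP_022f22_nt.LG.Defs
import Pool.Agent.Work.MP_022f22_nt.LH.Vab

open NumberField IsDedekindDomain Polynomial Height Filter Topology LEH

namespace LEG

private theorem clm_exp {F : Type} [Field F] [NumberField F] (w : FinitePlace F) (t : ℕ) :
    ((WithZeroMulInt.toNNReal (HeightOneSpectrum.absNorm_ne_zero w.maximalIdeal)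
      (WithZero.exp (-(t : ℤ))) : NNReal) : ℝ) = (nw w ^ t)⁻¹ := by
  have h3 : ((WithZeroMulInt.toNNReal (HeightOneSpectrum.absNorm_ne_zero w.maximalIdeal)
      (WithZero.exp (-1 : ℤ)) : NNReal) : ℝ) = ((Ideal.absNorm w.maximalIdeal.asIdeal : ℕ) : ℝ)⁻¹ := by
    rw [WithZeroMulInt.toNNReal_neg_apply _ WithZero.exp_ne_zero]
    have e : (WithZero.unzero (WithZero.exp_ne_zero (a := (-1 : ℤ)))) = Multiplicative.ofAdd (-1 : ℤ) := by
      rfl
    rw [e]
    simp
  have h4 : WithZero.exp (-(t : ℤ)) = WithZero.exp (-1 : ℤ) ^ t := by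
    rw [← WithZero.exp_nsmul]
    simp
  rw [h4, map_pow, NNReal.coe_pow, h3, inv_pow]
  rfl

private theorem clm_mem {F : Type} [Field F] [NumberField F] (w : FinitePlace F) (t : ℕ)
    (p : 𝓞 F) (hp : p ∈ w.maximalIdeal.asIdeal ^ t) : w (p : F) ≤ (nw w ^ t)⁻¹ := by
  rw [← FinitePlace.norm_embedding_eq w]
  have h0 := FinitePlace.norm_embedding_int F (v := w.maximalIdeal) p
  change ‖FinitePlace.embedding w.maximalIdeal (algebraMap (𝓞 F) F p)‖ ≤ _
  rw [h0, ← clm_exp w t]
  have h1 := (w.maximalIdeal.intValuation_le_pow_iff_mem p t).2 hp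
  have h2 := (WithZeroMulInt.toNNReal_strictMono
    (HeightOneSpectrum.one_lt_absNorm_nnreal w.maximalIdeal)).monotone h1
  exact_mod_cast h2

private theorem clm_neg {F : Type} [Field F] [NumberField F] (w : FinitePlace F) (x : F) :
    w (-x) = w x := by
  rw [← FinitePlace.norm_embedding_eq w, ← FinitePlace.norm_embedding_eq w, map_neg, norm_neg]

private theorem clm_int_le {F : Type} [Field F] [NumberField F] (w : FinitePlace F) (y : 𝓞 F) :
    w (y : F) ≤ 1 := by
  rw [← FinitePlace.norm_embedding_eq w]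
  exact FinitePlace.norm_le_one F w.maximalIdeal y

private theorem clm_approx {F : Type} [Field F] [NumberField F] (w : FinitePlace F) (t : ℕ)
    (x : F) (hx : w x ≤ 1) : ∃ a' : 𝓞 F, w (x - (a' : F)) ≤ (nw w ^ t)⁻¹ := by
  obtain ⟨a, b, hb, rfl⟩ := exists_frac w hx
  have hbP : b ∉ w.maximalIdeal.asIdeal := by
    rw [← FinitePlace.norm_eq_one_iff_notMem F w.maximalIdeal b]
    rw [← FinitePlace.norm_embedding_eq w] at hb
    exact hb
  have hmax : w.maximalIdeal.asIdeal.IsMaximal := w.maximalIdeal.isMaximal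
  have hcop : IsCoprime (Ideal.span {b}) w.maximalIdeal.asIdeal := by
    rw [Ideal.isCoprime_iff_sup_eq, sup_comm]
    refine hmax.1.2 _ (lt_of_le_of_ne le_sup_left ?_)
    intro h
    apply hbP
    rw [h]
    exact (le_sup_right : Ideal.span {b} ≤ _) (Ideal.mem_span_singleton_self b)
  obtain ⟨i, hi, p, hp, hip⟩ := Ideal.isCoprime_iff_exists.1 (hcop.pow_right (n := t))
  obtain ⟨c, rfl⟩ := Ideal.mem_span_singleton.1 hi
  have hb0 : (b : F) ≠ 0 := by
    intro h0
    rw [h0, map_zero] at hb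
    exact zero_ne_one hb
  refine ⟨a * c, ?_⟩
  have h1 : (b : F) * (c : F) + (p : F) = 1 := by
    have := congrArg (fun z : 𝓞 F => (z : F)) hip
    simpa using this
  have h2 : (a : F) / (b : F) - ((a * c : 𝓞 F) : F) = (a : F) * (p : F) / (b : F) := by
    have h3 : (p : F) = 1 - (b : F) * (c : F) := by rw [← h1]; ring
    have h4 : ((a * c : 𝓞 F) : F) = (a : F) * (c : F) := by push_cast; rfl
    rw [h3, h4]
    field_simp
    try ring
  rw [h2, map_div₀, map_mul, hb, div_one]
  calc w (a : F) * w (p : F) ≤ 1 * w (p : F) :=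
        mul_le_mul_of_nonneg_right (clm_int_le w a) (apply_nonneg w _)
    _ = w (p : F) := one_mul _
    _ ≤ _ := clm_mem w t p hp

theorem class_map {F : Type} [Field F] [NumberField F] (w : FinitePlace F) (t : ℕ) :
    ∃ (C : Type) (_ : Fintype C) (cl : F → C), (Fintype.card C : ℝ) = nw w ^ t ∧
      ∀ x y, w x ≤ 1 → w y ≤ 1 → cl x = cl y → w (x - y) ≤ (nw w ^ t)⁻¹ := by
  classical
  have hne : w.maximalIdeal.asIdeal ^ t ≠ ⊥ := pow_ne_zero t w.maximalIdeal.ne_bot
  have hfin : Finite (𝓞 F ⧸ w.maximalIdeal.asIdeal ^ t) :=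
    Ideal.finiteQuotientOfFreeOfNeBot _ hne
  have hch : ∀ x : F, ∃ a' : 𝓞 F, w x ≤ 1 → w (x - (a' : F)) ≤ (nw w ^ t)⁻¹ := by
    intro x
    by_cases hx : w x ≤ 1
    · obtain ⟨a', h⟩ := clm_approx w t x hx
      exact ⟨a', fun _ => h⟩
    · exact ⟨0, fun h => absurd h hx⟩
  choose r hr using hch
  let hft : Fintype (𝓞 F ⧸ w.maximalIdeal.asIdeal ^ t) := Fintype.ofFinite _
  refine ⟨𝓞 F ⧸ w.maximalIdeal.asIdeal ^ t, hft,
    fun x => Ideal.Quotient.mk _ (r x), ?_, ?_⟩
  · have h1 : Ideal.absNorm (w.maximalIdeal.asIdeal ^ t) =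
        Nat.card (𝓞 F ⧸ w.maximalIdeal.asIdeal ^ t) := by
      rw [Ideal.absNorm_apply, Submodule.cardQuot_apply]
    rw [map_pow] at h1
    rw [← Nat.card_eq_fintype_card, ← h1]
    unfold nw
    push_cast
    rfl
  · intro x y hx hy hxy
    have h1 : r x - r y ∈ w.maximalIdeal.asIdeal ^ t := (Ideal.Quotient.eq).1 hxy
    have h2 := clm_mem w t _ h1
    have h3 : x - y = (x - (r x : F)) + (((r x - r y : 𝓞 F) : F) + -(y - (r y : F))) := by
      push_cast
      ring
    rw [h3]
    refine (FinitePlace.add_le w _ _).trans (max_le (hr x hx) ?_)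
    refine (FinitePlace.add_le w _ _).trans (max_le h2 ?_)
    rw [clm_neg]
    exact hr y hy

end LEG
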