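/-
LG/Ctf (S)  MP_022f22_nt, Lehmer problem in E^g, board modleg. Paper proof: /team-store/lehmer_eg_proof.md
Contraction with a fractional start (paper 2.3).  LH/Pmp pow_contr_int: w(x^Q - y^Q) <= max(ρ w(x-y), w(x-y)^Q).  Put δ n = w(x^(Q^n) - y^(Q^n)).
For n <= b: (δ n)^(Q^(b-n)) <= ρ [induction: δ (n+1) <= max(ρ δ n, (δ n)^Q); (ρ δ n)^(Q^s) <= ρ, ((δ n)^Q)^(Q^(b-n-1)) = (δ n)^(Q^(b-n)) <= ρ].  At n = b: δ b <= ρ.
For n >= b: δ n <= ρ^(1 + (n-b)): max(ρ ρ^(1+n-b), ρ^(Q(1+n-b))) <= ρ^(2+n-b) as Q >= 2.  (w x^(Q^n) <= 1.)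
-/
import Mathlib
import Pool.Agent.Work.MP_022f22_nt.LH.Pmp

open NumberField IsDedekindDomain Polynomial Height Filter Topology LEH

namespace LEG

theorem contr_frac {F : Type*} [Field F] {w : AbsoluteValue F ℝ} (hw : IsNonarchimedean w)
    {ρ : ℝ} {p m Q : ℕ} (hp : p.Prime) (hm : 0 < m) (hQ : Q = p ^ m) (hρ0 : 0 < ρ) (hρ1 : ρ < 1)
    (hc : w (p : F) ≤ ρ) {x y : F} (hx : w x ≤ 1) (hy : w y ≤ 1) (b : ℕ)
    (h : w (x - y) ^ (Q ^ b) ≤ ρ) (n : ℕ) (hn : b ≤ n) :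
    w (x ^ (Q ^ n) - y ^ (Q ^ n)) ≤ ρ ^ (1 + (n - b)) := by
  have hQ1 : 1 ≤ Q := by
    rw [hQ]
    exact Nat.one_le_pow _ _ hp.pos
  have hQ2 : 2 ≤ Q := by
    rw [hQ]
    calc 2 ≤ p := hp.two_le
      _ = p ^ 1 := (pow_one p).symm
      _ ≤ p ^ m := Nat.pow_le_pow_right hp.pos hm
  have hxn : ∀ n, w (x ^ (Q ^ n)) ≤ 1 := fun n => by
    rw [map_pow]
    exact pow_le_one₀ (w.nonneg _) hx
  have hyn : ∀ n, w (y ^ (Q ^ n)) ≤ 1 := fun n => by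
    rw [map_pow]
    exact pow_le_one₀ (w.nonneg _) hy
  have hd1 : ∀ n, w (x ^ (Q ^ n) - y ^ (Q ^ n)) ≤ 1 := by
    intro n
    rw [sub_eq_add_neg]
    refine (hw _ _).trans (max_le (hxn n) ?_)
    rw [w.map_neg]
    exact hyn n
  have hstep : ∀ n, w (x ^ (Q ^ (n + 1)) - y ^ (Q ^ (n + 1))) ≤
      max (ρ * w (x ^ (Q ^ n) - y ^ (Q ^ n))) (w (x ^ (Q ^ n) - y ^ (Q ^ n)) ^ Q) := by
    intro n
    have h1 := pow_contr_int hw hp hm hρ0 hc (hxn n) (hyn n)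
    rw [← hQ, ← pow_mul, ← pow_mul, ← pow_succ] at h1
    exact h1
  have ph1 : ∀ n, n ≤ b → w (x ^ (Q ^ n) - y ^ (Q ^ n)) ^ (Q ^ (b - n)) ≤ ρ := by
    intro n
    induction n with
    | zero =>
      intro _
      simpa using h
    | succ n ih =>
      intro hnb
      have h1 := ih (by omega)
      have h2 : b - n = b - (n + 1) + 1 := by omega
      rw [h2, pow_succ', pow_mul] at h1
      have h0 : 0 ≤ w (x ^ (Q ^ n) - y ^ (Q ^ n)) := w.nonneg _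
      rcases le_max_iff.1 (hstep n) with h3 | h3
      · have h4 : ρ * w (x ^ (Q ^ n) - y ^ (Q ^ n)) ≤ ρ := by
          have := mul_le_mul_of_nonneg_left (hd1 n) hρ0.le
          rwa [mul_one] at this
        have h5 := h3.trans h4
        refine (pow_le_pow_left₀ (w.nonneg _) h5 _).trans ?_
        exact pow_le_of_le_one hρ0.le hρ1.le (pow_pos (by omega) _).ne'
      · exact (pow_le_pow_left₀ (w.nonneg _) h3 _).trans h1
  induction n, hn using Nat.le_induction with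
  | base =>
    have h1 := ph1 b le_rfl
    rw [Nat.sub_self, pow_zero, pow_one] at h1
    rw [Nat.sub_self, add_zero, pow_one]
    exact h1
  | succ n hn ih =>
    have h0 : 0 ≤ w (x ^ (Q ^ n) - y ^ (Q ^ n)) := w.nonneg _
    have he : 1 + (n + 1 - b) = 1 + (n - b) + 1 := by omega
    rw [he]
    refine (hstep n).trans (max_le ?_ ?_)
    · rw [pow_succ']
      exact mul_le_mul_of_nonneg_left ih hρ0.le
    · calc w (x ^ (Q ^ n) - y ^ (Q ^ n)) ^ Q ≤ w (x ^ (Q ^ n) - y ^ (Q ^ n)) ^ 2 :=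
            pow_le_pow_of_le_one h0 (hd1 n) hQ2
        _ ≤ (ρ ^ (1 + (n - b))) ^ 2 := pow_le_pow_left₀ h0 ih 2
        _ = ρ ^ ((1 + (n - b)) * 2) := (pow_mul _ _ _).symm
        _ ≤ ρ ^ (1 + (n - b) + 1) := pow_le_pow_of_le_one hρ0.le hρ1.le (by omega)

end LEG
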