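/-
LG/FrL (S)  MP_022f22_nt, Lehmer problem in E^g, board modleg. Paper proof: /team-store/lehmer_eg_proof.md
Frobenius lift on a polynomial ring (paper 2.3).  Induction on f: constants a - a^Q is divisible by ϖ; sums: (f+g)^(p^m) - f^(p^m) - g^(p^m) is divisible by p, hence by ϖ;
products with a variable: Φ(f X) - (f X)^Q = (Φ f - f^Q) Φ X + f^Q (Φ X - X^Q).
-/
import Mathlib

open NumberField IsDedekindDomain Polynomial Height Filter Topology

namespace LEG

theorem frob_lift {R σ : Type*} [CommRing R] (π : R) (p m Q : ℕ) (hp : p.Prime) (hm : 0 < m)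
    (hQ : Q = p ^ m) (hpπ : π ∣ (p : R)) (hR : ∀ a : R, π ∣ a ^ Q - a)
    (Φ : MvPolynomial σ R →ₐ[R] MvPolynomial σ R)
    (hΦ : ∀ s, MvPolynomial.C π ∣ Φ (MvPolynomial.X s) - MvPolynomial.X s ^ Q)
    (f : MvPolynomial σ R) : MvPolynomial.C π ∣ Φ f - f ^ Q := by
  have _ := hm
  induction f using MvPolynomial.induction_on with
  | C a =>
    have h1 : Φ (MvPolynomial.C a) = MvPolynomial.C a := Φ.commutes a
    rw [h1, ← map_pow, ← map_sub]
    refine map_dvd MvPolynomial.C ?_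
    have h2 := hR a
    rw [← dvd_neg, neg_sub] at h2
    exact h2
  | add f g hf hg =>
    obtain ⟨r, hr⟩ := exists_add_pow_prime_pow_eq hp f g m
    have h1 : MvPolynomial.C π ∣ ((p : ℕ) : MvPolynomial σ R) * (f * g * r) := by
      refine Dvd.dvd.mul_right ?_ _
      have h2 := map_dvd (MvPolynomial.C (σ := σ)) hpπ
      rwa [map_natCast] at h2
    have h3 : Φ (f + g) - (f + g) ^ Q = (Φ f - f ^ Q) + (Φ g - g ^ Q) - ((p : ℕ) : MvPolynomial σ R) * (f * g * r) := by
      rw [map_add, hQ, hr]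
      ring
    rw [h3]
    exact dvd_sub (dvd_add hf hg) h1
  | mul_X f s hf =>
    have h3 : Φ (f * MvPolynomial.X s) - (f * MvPolynomial.X s) ^ Q =
        (Φ f - f ^ Q) * Φ (MvPolynomial.X s) +
          f ^ Q * (Φ (MvPolynomial.X s) - MvPolynomial.X s ^ Q) := by
      rw [map_mul, mul_pow]
      ring
    rw [h3]
    exact dvd_add (Dvd.dvd.mul_right hf _) (Dvd.dvd.mul_left (hΦ s) _)

end LEG
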