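/-
LG/Hmf (M)  MP_022f22_nt, Lehmer problem in E^g, board modleg. Paper proof: /team-store/lehmer_eg_proof.md
Homogenization (definition homf in LG/Defs).  homf_sub: homf k f = sum over ANY finset containing the support (terms with coefficient 0 vanish); take the union of the supports.
homf_eval: eval₂ of a product/sum; u i <= k-1 for u in the support (Bx k: MvPolynomial.monomial_le_degreeOf / le_degreeOf_of_mem_support), z^(k-1-u) = z^(k-1)/z^u.
-/
import Mathlib
import Pool.Agent.Work.MP_022f22_nt.LG.Defs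

open NumberField IsDedekindDomain Polynomial Height Filter Topology LEH

namespace LEG

private theorem homf_eq {R : Type*} [CommRing R] {g : ℕ} (k : ℕ) (f : MvPolynomial (Fin g) R)
    (T : Finset (Fin g →₀ ℕ)) (h : f.support ⊆ T) :
    homf k f = ∑ u ∈ T, MvPolynomial.C (f.coeff u) *
      ∏ i, (MvPolynomial.X (i, 0) ^ (u i) * MvPolynomial.X (i, 1) ^ (k - 1 - u i)) := by
  unfold homf
  refine Finset.sum_subset h fun u _ hu => ?_
  rw [MvPolynomial.notMem_support_iff.1 hu, map_zero, zero_mul]

theorem homf_sub {R : Type*} [CommRing R] {g : ℕ} (k : ℕ) (f f' : MvPolynomial (Fin g) R) :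
    homf k (f - f') = homf k f - homf k f' := by
  classical
  rw [homf_eq k f (f.support ∪ f'.support) Finset.subset_union_left,
    homf_eq k f' (f.support ∪ f'.support) Finset.subset_union_right,
    homf_eq k (f - f') (f.support ∪ f'.support) (MvPolynomial.support_sub _ _ _),
    ← Finset.sum_sub_distrib]
  refine Finset.sum_congr rfl fun u _ => ?_
  rw [MvPolynomial.coeff_sub, map_sub, sub_mul]

theorem homf_eval {R F : Type*} [CommRing R] [Field F] (ι : R →+* F) {g k : ℕ}
    (f : MvPolynomial (Fin g) R) (hf : Bx k f) (U : Fin g → F × F) (hU : ∀ i, (U i).2 ≠ 0) :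
    MvPolynomial.eval₂ ι (fun s : Fin g × Fin 2 => if s.2 = 0 then (U s.1).1 else (U s.1).2)
        (homf k f) =
      (∏ i, (U i).2 ^ (k - 1)) * MvPolynomial.eval₂ ι (fun i => (U i).1 / (U i).2) f := by
  rw [MvPolynomial.eval₂_eq' ι _ f, Finset.mul_sum]
  unfold homf
  rw [MvPolynomial.eval₂_sum]
  refine Finset.sum_congr rfl fun u hu => ?_
  rw [MvPolynomial.eval₂_mul, MvPolynomial.eval₂_C, MvPolynomial.eval₂_prod, mul_left_comm,
    ← Finset.prod_mul_distrib]
  refine congrArg (fun z => ι (f.coeff u) * z) (Finset.prod_congr rfl fun i _ => ?_)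
  rw [MvPolynomial.eval₂_mul, MvPolynomial.eval₂_pow, MvPolynomial.eval₂_pow, MvPolynomial.eval₂_X,
    MvPolynomial.eval₂_X]
  show (U i).1 ^ u i * (U i).2 ^ (k - 1 - u i) = (U i).2 ^ (k - 1) * ((U i).1 / (U i).2) ^ u i
  have h1 : u i ≤ k - 1 := by
    have h2 := MvPolynomial.monomial_le_degreeOf i hu
    have h3 := hf i
    omega
  rw [div_pow, ← pow_sub_mul_pow (U i).2 h1]
  have h4 : (U i).2 ^ u i ≠ 0 := pow_ne_zero _ (hU i)
  field_simp

end LEG
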