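/-
LG/Lif (S)  MP_022f22_nt, Lehmer problem in E^g, board modleg. Paper proof: /team-store/lehmer_eg_proof.md
Lift of the data of a Setup to the valuation ring Rv v.  ϖ: v.valuation ϖ = exp(-1) <= 1.  A0, B0: coefficients have valuation <= 1 (A_top = 1, A_low < 1, A_deg; B_zero, B_low, B_deg): Polynomial.toSubring / sum of monomials.
Divisibility by πR in Rv v: x in Rv v with v.valuation x < 1 is divisible by πR (valuation <= exp(-1) = valuation ϖ, x/ϖ in Rv v).  p: hs.p_mem.
a^Q - a: the residue field of Rv v has absNorm v =: q0 elements, Q = q0^m (hs.q0), so a^Q = a there (FiniteField.pow_card_pow); LH/Stp.lean contains stp_card (private) for the cardinality; see also LH/Fro.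
-/
import Mathlib
import Pool.Agent.Work.MP_022f22_nt.LG.Defs
import Pool.Agent.Work.MP_022f22_nt.LH.Stp
import Pool.Agent.Work.MP_022f22_nt.LH.Vab

open NumberField IsDedekindDomain Polynomial Height Filter Topology LEH

namespace LEG

private theorem lif_unit {K : Type} [Field K] [NumberField K] (v : HeightOneSpectrum (𝓞 K))
    (x : (v.valuation K).valuationSubring) : IsUnit x ↔ v.valuation K (x : K) = 1 := by
  constructor
  · intro h
    obtain ⟨y, hy⟩ := isUnit_iff_exists_inv.1 h
    have h1 : (x : K) * (y : K) = 1 := by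
      have h2 := congrArg (fun t : (v.valuation K).valuationSubring => (t : K)) hy
      exact h2
    have h3 : v.valuation K (x : K) * v.valuation K (y : K) = 1 := by
      rw [← map_mul, h1, map_one]
    have hx : v.valuation K (x : K) ≤ 1 := x.2
    have hy : v.valuation K (y : K) ≤ 1 := y.2
    refine le_antisymm hx ?_
    rw [← h3]
    exact mul_le_of_le_one_right' hy
  · intro h
    have h0 : (x : K) ≠ 0 := by
      intro h1
      rw [h1, map_zero] at h
      exact zero_ne_one h
    have hi : v.valuation K ((x : K)⁻¹) ≤ 1 := by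
      rw [map_inv₀, h, inv_one]
    refine isUnit_iff_exists_inv.2 ⟨⟨(x : K)⁻¹, hi⟩, ?_⟩
    apply Subtype.ext
    exact mul_inv_cancel₀ h0

private theorem lif_res {K : Type} [Field K] [NumberField K] (v : HeightOneSpectrum (𝓞 K))
    (x : (v.valuation K).valuationSubring) :
    IsLocalRing.residue (v.valuation K).valuationSubring x = 0 ↔ v.valuation K (x : K) < 1 := by
  rw [IsLocalRing.residue_eq_zero_iff, IsLocalRing.mem_maximalIdeal, mem_nonunits_iff, lif_unit]
  have hx : v.valuation K (x : K) ≤ 1 := x.2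
  exact ⟨fun h => lt_of_le_of_ne hx h, fun h => h.ne⟩

/-- the inclusion of the ring of integers -/
private def lif_inc {K : Type} [Field K] [NumberField K] (v : HeightOneSpectrum (𝓞 K)) :
    𝓞 K →+* (v.valuation K).valuationSubring where
  toFun a := ⟨algebraMap (𝓞 K) K a, v.valuation_le_one a⟩
  map_one' := Subtype.ext (map_one _)
  map_zero' := Subtype.ext (map_zero _)
  map_add' a b := Subtype.ext (map_add _ a b)
  map_mul' a b := Subtype.ext (map_mul _ a b)

private theorem lif_surj {K : Type} [Field K] [NumberField K] (v : HeightOneSpectrum (𝓞 K)) :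
    Function.Surjective ((IsLocalRing.residue (v.valuation K).valuationSubring).comp
      (lif_inc v)) := by
  intro y
  obtain ⟨x, rfl⟩ := IsLocalRing.residue_surjective y
  have hx : v.valuation K (x : K) ≤ 1 := x.2
  obtain ⟨a, d, had⟩ := v.exists_primeCompl_mul_eq_of_integer (x : K) hx
  have hmax : v.asIdeal.IsMaximal := v.isMaximal
  have hd : (d : 𝓞 K) ∉ v.asIdeal := d.2
  obtain ⟨e, he⟩ := Ideal.IsMaximal.exists_inv hmax hd
  obtain ⟨i, hi, hei⟩ := he
  refine ⟨a * e, ?_⟩
  have h1 : IsLocalRing.residue (v.valuation K).valuationSubring (lif_inc v (a * e) - x) = 0 := by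
    rw [lif_res]
    have h2 : (((lif_inc v (a * e) - x : (v.valuation K).valuationSubring)) : K) =
        - ((x : K) * algebraMap (𝓞 K) K i) := by
      have h3 : (((lif_inc v (a * e) - x : (v.valuation K).valuationSubring)) : K) =
          algebraMap (𝓞 K) K (a * e) - (x : K) := rfl
      have h4 : algebraMap (𝓞 K) K e * algebraMap (𝓞 K) K (d : 𝓞 K) + algebraMap (𝓞 K) K i = 1 := by
        rw [← map_mul, ← map_add, hei, map_one]
      rw [h3, map_mul, ← had]
      linear_combination (x : K) * h4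
    rw [h2, Valuation.map_neg, map_mul]
    have h5 : v.valuation K (algebraMap (𝓞 K) K i) < 1 :=
      (v.valuation_lt_one_iff_mem i).2 hi
    exact lt_of_le_of_lt (mul_le_of_le_one_left' hx) h5
  rw [map_sub, sub_eq_zero] at h1
  exact h1

private theorem lif_card {K : Type} [Field K] [NumberField K] (v : HeightOneSpectrum (𝓞 K)) :
    Finite (IsLocalRing.ResidueField (v.valuation K).valuationSubring) ∧
    Nat.card (IsLocalRing.ResidueField (v.valuation K).valuationSubring) =
      Ideal.absNorm v.asIdeal := by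
  set f := (IsLocalRing.residue (v.valuation K).valuationSubring).comp (lif_inc v) with hf
  have hker : RingHom.ker f = v.asIdeal := by
    ext a
    rw [RingHom.mem_ker, hf, RingHom.comp_apply, lif_res]
    exact v.valuation_lt_one_iff_mem a
  have e := RingHom.quotientKerEquivOfSurjective (lif_surj v)
  have h1 : Nat.card (IsLocalRing.ResidueField (v.valuation K).valuationSubring) =
      Ideal.absNorm v.asIdeal := by
    rw [← Nat.card_congr e.toEquiv, Ideal.absNorm_apply, Submodule.cardQuot_apply, ← hf, hker]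
  have h2 : Ideal.absNorm v.asIdeal ≠ 0 := by
    rw [Ne, Ideal.absNorm_eq_zero_iff]
    exact v.ne_bot
  exact ⟨Nat.finite_of_card_ne_zero (h1 ▸ h2), h1⟩

private theorem lif_dvd {K : Type} [Field K] [NumberField K] {v : HeightOneSpectrum (𝓞 K)}
    {ϖ : K} (hϖ : Unif v ϖ) (πR : Rv v) (hπ : (πR : K) = ϖ) {x : Rv v}
    (hx : v.valuation K (x : K) < 1) : πR ∣ x := by
  have h0 : ϖ ≠ 0 := by
    rintro rfl
    unfold Unif at hϖ
    rw [map_zero] at hϖ
    exact WithZero.exp_ne_zero hϖ.symm
  have h1 : v.valuation K (x : K) ≤ WithZero.exp (-1 : ℤ) := by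
    by_cases hx0 : v.valuation K (x : K) = 0
    · rw [hx0]
      exact zero_le'
    · rw [← WithZero.log_le_iff_le_exp hx0]
      have h2 : WithZero.log (v.valuation K (x : K)) < 0 := by
        rw [WithZero.log_lt_iff_lt_exp hx0, WithZero.exp_zero]
        exact hx
      omega
  have h2 : v.valuation K ((x : K) / ϖ) ≤ 1 := by
    rw [map_div₀, hϖ]
    exact (div_le_one₀ (by exact WithZero.exp_pos)).2 h1
  refine ⟨⟨(x : K) / ϖ, h2⟩, ?_⟩
  apply Subtype.ext
  show (x : K) = (πR : K) * ((x : K) / ϖ)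
  rw [hπ, mul_div_cancel₀ _ h0]

private theorem lif_poly {K : Type} [Field K] [NumberField K] {v : HeightOneSpectrum (𝓞 K)}
    {A : K[X]} (h : ∀ i, v.valuation K (A.coeff i) ≤ 1) :
    ∃ A0 : (Rv v)[X], A0.map (algebraMap (Rv v) K) = A := by
  rw [← Polynomial.mem_lifts, Polynomial.lifts_iff_coeff_lifts]
  intro i
  exact ⟨⟨A.coeff i, h i⟩, rfl⟩

theorem setup_lift {K : Type} [Field K] [NumberField K] {v : HeightOneSpectrum (𝓞 K)}
    {W : WeierstrassCurve K} {p N Q : ℕ} {A B : K[X]} (hs : Setup K v W p N Q A B)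
    {ϖ : K} (hϖ : Unif v ϖ) :
    ∃ (πR : Rv v) (A0 B0 : (Rv v)[X]), ((πR : Rv v) : K) = ϖ ∧
      A0.map (algebraMap (Rv v) K) = A ∧ B0.map (algebraMap (Rv v) K) = B ∧
      πR ∣ (p : Rv v) ∧ (∀ a : Rv v, πR ∣ a ^ Q - a) ∧ A0.coeff Q = 1 ∧
      (∀ i < Q, πR ∣ A0.coeff i) ∧ πR ∣ B0.coeff 0 - 1 ∧ (∀ i, 1 ≤ i → πR ∣ B0.coeff i) ∧
      A0.natDegree ≤ Q ∧ B0.natDegree < Q := by
  have hϖ1 : v.valuation K ϖ ≤ 1 := by
    rw [hϖ, ← WithZero.exp_zero, WithZero.exp_le_exp]
    norm_num
  have hA : ∀ i, v.valuation K (A.coeff i) ≤ 1 := by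
    intro i
    rcases lt_trichotomy i Q with h | h | h
    · exact (hs.A_low i h).le
    · rw [h, hs.A_top, map_one]
    · rw [Polynomial.coeff_eq_zero_of_natDegree_lt (lt_of_le_of_lt hs.A_deg h), map_zero]
      exact zero_le'
  have hB0 : v.valuation K (B.coeff 0) ≤ 1 := by
    have h1 : B.coeff 0 = (B.coeff 0 - 1) + 1 := by ring
    rw [h1]
    refine (Valuation.map_add _ _ _).trans (max_le hs.B_zero.le ?_)
    rw [map_one]
  have hB : ∀ i, v.valuation K (B.coeff i) ≤ 1 := by
    intro i
    rcases Nat.eq_zero_or_pos i with h | h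
    · rw [h]
      exact hB0
    · exact (hs.B_low i h).le
  obtain ⟨A0, hA0⟩ := lif_poly hA
  obtain ⟨B0, hB0'⟩ := lif_poly hB
  have hinj : Function.Injective (algebraMap (Rv v) K) := fun x y h => Subtype.ext h
  have cA : ∀ i, ((A0.coeff i : Rv v) : K) = A.coeff i := fun i => by
    rw [← hA0, Polynomial.coeff_map]
    rfl
  have cB : ∀ i, ((B0.coeff i : Rv v) : K) = B.coeff i := fun i => by
    rw [← hB0', Polynomial.coeff_map]
    rfl
  refine ⟨⟨ϖ, hϖ1⟩, A0, B0, rfl, hA0, hB0', ?_, ?_, ?_, ?_, ?_, ?_, ?_, ?_⟩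
  · apply lif_dvd hϖ _ rfl
    have h1 : (((p : Rv v)) : K) = (p : K) := map_natCast (algebraMap (Rv v) K) p
    rw [h1]
    exact hs.p_mem
  · intro a
    apply lif_dvd hϖ _ rfl
    rw [← lif_res]
    obtain ⟨m, -, hm⟩ := hs.q0
    obtain ⟨hfin, hcard⟩ := lif_card v
    letI : Fintype (IsLocalRing.ResidueField (v.valuation K).valuationSubring) :=
      Fintype.ofFinite _
    rw [map_sub, map_pow, hm, ← hcard, Nat.card_eq_fintype_card, FiniteField.pow_card_pow,
      sub_self]
  · apply Subtype.ext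
    rw [cA, hs.A_top]
    rfl
  · intro i hi
    apply lif_dvd hϖ _ rfl
    rw [cA]
    exact hs.A_low i hi
  · apply lif_dvd hϖ _ rfl
    have h1 : ((B0.coeff 0 - 1 : Rv v) : K) = B.coeff 0 - 1 := by
      rw [← cB]
      rfl
    rw [h1]
    exact hs.B_zero
  · intro i hi
    apply lif_dvd hϖ _ rfl
    rw [cB]
    exact hs.B_low i hi
  · rw [← Polynomial.natDegree_map_eq_of_injective hinj, hA0]
    exact hs.A_deg
  · rw [← Polynomial.natDegree_map_eq_of_injective hinj, hB0']
    exact hs.B_deg

end LEG
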