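/-
LG/Nvi (M)  MP_022f22_nt, Lehmer problem in E^g, board modleg. Paper proof: /team-store/lehmer_eg_proof.md
Iteration of normalised pairs (definitions stv, nv in LG/Defs; GoodMap in LH/Defs).  Induction on n.  nv: if w x <= 1 the pair (x,1), else (1, 1/x), x != 0.
Step: V = (X,Z), max(w X)(w Z) = 1, Z != 0, X/Z = y := F^n x, B.eval y != 0.  hev Q A X Z = Z^Q A.eval(X/Z) (degree <= Q), hev Q B X Z = Z^Q B.eval(X/Z) != 0, ratio F(y).
hev Q A X Z - X^Q has w <= ρ and hev Q B X Z - Z^Q has w <= ρ (coefficients), so max = 1 (if w X = 1 then w(hev A) = 1, if w Z = 1 then w(hev B) = 1).  Last claim: max(w y) 1 = max(w X)(w Z)/w Z = 1/w Z.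
-/
import Mathlib
import Pool.Agent.Work.MP_022f22_nt.LG.Defs

open NumberField IsDedekindDomain Polynomial Height Filter Topology LEH

namespace LEG

private theorem nvi_hev {F : Type*} [Field F] (d : ℕ) (f : F[X]) (hd : f.natDegree ≤ d) (x z : F)
    (hz : z ≠ 0) : hev d f x z = z ^ d * f.eval (x / z) := by
  rw [Polynomial.eval_eq_sum_range' (Nat.lt_succ_of_le hd), hev, Finset.mul_sum]
  refine Finset.sum_congr rfl fun i hi => ?_
  have hi' : i ≤ d := Nat.lt_succ_iff.1 (Finset.mem_range.1 hi)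
  have e : z ^ d = z ^ i * z ^ (d - i) := by rw [← pow_add, Nat.add_sub_cancel' hi']
  rw [e, div_pow]
  field_simp

private theorem nvi_sum {F : Type*} [Field F] {w : AbsoluteValue F ℝ} (hw : IsNonarchimedean w)
    {ρ : ℝ} (hρ : 0 ≤ ρ) {ι : Type*} (s : Finset ι) (f : ι → F) (h : ∀ i ∈ s, w (f i) ≤ ρ) :
    w (∑ i ∈ s, f i) ≤ ρ := by
  refine Finset.sum_induction f (fun x => w x ≤ ρ) ?_ ?_ h
  · intro a b ha hb
    exact (hw a b).trans (max_le ha hb)
  · show w 0 ≤ ρ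
    rw [map_zero]
    exact hρ

private theorem nvi_term {F : Type*} [Field F] {w : AbsoluteValue F ℝ} {ρ : ℝ} {c x z : F}
    (hc : w c ≤ ρ) (hx : w x ≤ 1) (hz : w z ≤ 1) (i j : ℕ) : w (c * x ^ i * z ^ j) ≤ ρ := by
  rw [map_mul, map_mul, map_pow, map_pow]
  have h1 : w x ^ i ≤ 1 := pow_le_one₀ (w.nonneg _) hx
  have h2 : w z ^ j ≤ 1 := pow_le_one₀ (w.nonneg _) hz
  have h3 : 0 ≤ w x ^ i := pow_nonneg (w.nonneg _) _
  have h4 : 0 ≤ w z ^ j := pow_nonneg (w.nonneg _) _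
  have h5 : 0 ≤ w c := w.nonneg _
  calc w c * w x ^ i * w z ^ j ≤ w c * w x ^ i := mul_le_of_le_one_right (mul_nonneg h5 h3) h2
    _ ≤ w c := mul_le_of_le_one_right h5 h1
    _ ≤ ρ := hc

private theorem nvi_close {F : Type*} [Field F] {w : AbsoluteValue F ℝ} (hw : IsNonarchimedean w)
    {ρ : ℝ} (hρ : ρ < 1) {a b : F} (h : w (a - b) ≤ ρ) (hb : w b ≤ 1) :
    w a ≤ 1 ∧ (w b = 1 → w a = 1) := by
  have h1 : w a ≤ 1 := by
    have := hw (a - b) b
    rw [sub_add_cancel] at this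
    exact this.trans (max_le (h.trans hρ.le) hb)
  refine ⟨h1, fun hb1 => le_antisymm h1 ?_⟩
  have h2 := hw a (b - a)
  rw [add_sub_cancel, hb1, AbsoluteValue.map_sub w b a] at h2
  by_contra hc
  push Not at hc
  exact absurd (h2.trans_lt (max_lt hc (h.trans_lt hρ))) (lt_irrefl 1)

private theorem nvi_A {F : Type*} [Field F] {w : AbsoluteValue F ℝ} {ρ : ℝ} {p Q : ℕ} {A B : F[X]}
    (h : GoodMap w ρ p Q A B) {x z : F} (hx : w x ≤ 1) (hz : w z ≤ 1) :
    w (hev Q A x z - x ^ Q) ≤ ρ := by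
  have e : hev Q A x z - x ^ Q = ∑ i ∈ Finset.range Q, A.coeff i * x ^ i * z ^ (Q - i) := by
    rw [hev, Finset.sum_range_succ, h.A_top, Nat.sub_self, pow_zero, one_mul, mul_one,
      add_sub_cancel_right]
  rw [e]
  exact nvi_sum h.nonarch h.rho_pos.le _ _ fun i hi =>
    nvi_term (h.A_low i (Finset.mem_range.1 hi)) hx hz _ _

private theorem nvi_B {F : Type*} [Field F] {w : AbsoluteValue F ℝ} {ρ : ℝ} {p Q : ℕ} {A B : F[X]}
    (h : GoodMap w ρ p Q A B) {x z : F} (hx : w x ≤ 1) (hz : w z ≤ 1) :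
    w (hev Q B x z - z ^ Q) ≤ ρ := by
  have e : hev Q B x z - z ^ Q = (∑ i ∈ Finset.range Q, B.coeff (i + 1) * x ^ (i + 1) *
      z ^ (Q - (i + 1))) + (B.coeff 0 - 1) * x ^ 0 * z ^ Q := by
    rw [hev, Finset.sum_range_succ', Nat.sub_zero, pow_zero]
    ring
  rw [e]
  refine (h.nonarch _ _).trans (max_le ?_ (nvi_term h.B_zero hx hz _ _))
  exact nvi_sum h.nonarch h.rho_pos.le _ _ fun i _ =>
    nvi_term (h.B_low (i + 1) (Nat.le_add_left 1 i)) hx hz _ _

private theorem nvi_core {F : Type*} [Field F] {w : AbsoluteValue F ℝ} {ρ : ℝ} {p Q : ℕ}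
    {A B : F[X]} (h : GoodMap w ρ p Q A B) (x : F)
    (hx : ∀ n, B.eval ((fun u => A.eval u / B.eval u)^[n] x) ≠ 0) (n : ℕ) :
    max (w ((stv Q A B)^[n] (nv w x)).1) (w ((stv Q A B)^[n] (nv w x)).2) = 1 ∧
      ((stv Q A B)^[n] (nv w x)).2 ≠ 0 ∧
      ((stv Q A B)^[n] (nv w x)).1 / ((stv Q A B)^[n] (nv w x)).2 =
        (fun u => A.eval u / B.eval u)^[n] x := by
  induction n with
  | zero =>
    rw [Function.iterate_zero, Function.iterate_zero]
    show max (w (nv w x).1) (w (nv w x).2) = 1 ∧ (nv w x).2 ≠ 0 ∧ (nv w x).1 / (nv w x).2 = x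
    unfold nv
    by_cases h1 : w x ≤ 1
    · rw [if_pos h1]
      refine ⟨?_, one_ne_zero, div_one x⟩
      show max (w x) (w 1) = 1
      rw [map_one]
      exact max_eq_right h1
    · rw [if_neg h1]
      push Not at h1
      have hx0 : x ≠ 0 := by
        rintro rfl
        rw [map_zero] at h1
        exact absurd h1 (by norm_num)
      refine ⟨?_, inv_ne_zero hx0, ?_⟩
      · show max (w 1) (w x⁻¹) = 1
        rw [map_one, map_inv₀]
        exact max_eq_left (inv_le_one_of_one_le₀ h1.le)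
      · show (1 : F) / x⁻¹ = x
        rw [one_div, inv_inv]
  | succ n ih =>
    rw [Function.iterate_succ_apply', Function.iterate_succ_apply']
    obtain ⟨h1, h2, h3⟩ := ih
    have hxn := hx n
    set V := (stv Q A B)^[n] (nv w x) with hV
    set y := (fun u => A.eval u / B.eval u)^[n] x with hy
    have hX1 : w V.1 ≤ 1 := h1 ▸ le_max_left _ _
    have hZ1 : w V.2 ≤ 1 := h1 ▸ le_max_right _ _
    have eA : hev Q A V.1 V.2 = V.2 ^ Q * A.eval y := by
      rw [nvi_hev Q A h.A_deg _ _ h2, h3]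
    have eB : hev Q B V.1 V.2 = V.2 ^ Q * B.eval y := by
      rw [nvi_hev Q B h.B_deg.le _ _ h2, h3]
    have hZQ : V.2 ^ Q ≠ 0 := pow_ne_zero _ h2
    have cA := nvi_close h.nonarch h.rho_lt (nvi_A h hX1 hZ1)
      (by rw [map_pow]; exact pow_le_one₀ (w.nonneg _) hX1)
    have cB := nvi_close h.nonarch h.rho_lt (nvi_B h hX1 hZ1)
      (by rw [map_pow]; exact pow_le_one₀ (w.nonneg _) hZ1)
    show max (w (hev Q A V.1 V.2)) (w (hev Q B V.1 V.2)) = 1 ∧ hev Q B V.1 V.2 ≠ 0 ∧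
      hev Q A V.1 V.2 / hev Q B V.1 V.2 = A.eval y / B.eval y
    refine ⟨?_, ?_, ?_⟩
    · refine le_antisymm (max_le cA.1 cB.1) ?_
      rcases max_choice (w V.1) (w V.2) with hm | hm
      · have : w (hev Q A V.1 V.2) = 1 := cA.2 (by rw [map_pow, ← hm, h1, one_pow])
        rw [← this]
        exact le_max_left _ _
      · have : w (hev Q B V.1 V.2) = 1 := cB.2 (by rw [map_pow, ← hm, h1, one_pow])
        rw [← this]
        exact le_max_right _ _
    · rw [eB]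
      exact mul_ne_zero hZQ hxn
    · rw [eA, eB, mul_div_mul_left _ _ hZQ]

theorem nv_iter {F : Type*} [Field F] {w : AbsoluteValue F ℝ} {ρ : ℝ} {p Q : ℕ} {A B : F[X]}
    (h : GoodMap w ρ p Q A B) (x : F)
    (hx : ∀ n, B.eval ((fun u => A.eval u / B.eval u)^[n] x) ≠ 0) (n : ℕ) :
    max (w ((stv Q A B)^[n] (nv w x)).1) (w ((stv Q A B)^[n] (nv w x)).2) = 1 ∧
      ((stv Q A B)^[n] (nv w x)).2 ≠ 0 ∧
      ((stv Q A B)^[n] (nv w x)).1 / ((stv Q A B)^[n] (nv w x)).2 =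
        (fun u => A.eval u / B.eval u)^[n] x ∧
      (w ((stv Q A B)^[n] (nv w x)).2)⁻¹ = max (w ((fun u => A.eval u / B.eval u)^[n] x)) 1 := by
  obtain ⟨h1, h2, h3⟩ := nvi_core h x hx n
  refine ⟨h1, h2, h3, ?_⟩
  rw [← h3]
  set V := (stv Q A B)^[n] (nv w x) with hV
  have hZ : 0 < w V.2 := w.pos h2
  rw [map_div₀]
  have e : (1 : ℝ) = w V.2 / w V.2 := (div_self hZ.ne').symm
  conv_rhs => rw [e, max_div_div_right hZ.le, h1]
  rw [one_div]

end LEG
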