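/-
LG/Phf (M)  MP_022f22_nt, Lehmer problem in E^g, board modleg. Paper proof: /team-store/lehmer_eg_proof.md
The substitution PhiF (LG/Defs).  phi_frob: Φ X_(i,0) = formX Q A i = sum_j A_j X^j Z^(Q-j) == X^Q (term j = Q has coefficient 1, the others are divisible by π);
Φ X_(i,1) = formX Q B i == Z^Q (j = 0: B_0 == 1).  The terms j > natDegree vanish.  (s.2 : Fin 2 is 0 or 1.)
phi_eval: eval₂ ι U∘Φ: evaluate on variables: eval₂ ι (pair U) (formX Q A i) = hev Q (A.map ι) (U i).1 (U i).2 (definition of hev in LH/Defs); algebra homs agreeing on variables (MvPolynomial.eval₂_comp / ringHom_ext);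
then iterate (Function.iterate_succ_apply').
-/
import Mathlib
import Pool.Agent.Work.MP_022f22_nt.LG.Defs

open NumberField IsDedekindDomain Polynomial Height Filter Topology LEH

namespace LEG

private theorem phiF_X {R : Type*} [CommRing R] (g Q : ℕ) (A B : R[X]) (s : Fin g × Fin 2) :
    PhiF g Q A B (MvPolynomial.X s) = if s.2 = 0 then formX Q A s.1 else formX Q B s.1 := by
  unfold PhiF
  rw [MvPolynomial.aeval_X]

private theorem formX_eval {R F : Type*} [CommRing R] [CommRing F] (ι : R →+* F) {g : ℕ} (Q : ℕ)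
    (A : R[X]) (U : Fin g → F × F) (i : Fin g) :
    MvPolynomial.eval₂ ι (fun s : Fin g × Fin 2 => if s.2 = 0 then (U s.1).1 else (U s.1).2)
      (formX Q A i) = hev Q (A.map ι) (U i).1 (U i).2 := by
  unfold formX hev
  rw [MvPolynomial.eval₂_sum]
  refine Finset.sum_congr rfl fun j _ => ?_
  rw [MvPolynomial.eval₂_mul, MvPolynomial.eval₂_mul, MvPolynomial.eval₂_C, MvPolynomial.eval₂_pow,
    MvPolynomial.eval₂_pow, MvPolynomial.eval₂_X, MvPolynomial.eval₂_X, Polynomial.coeff_map]
  rfl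

private theorem phi_step {R F : Type*} [CommRing R] [CommRing F] (ι : R →+* F) {g : ℕ} (Q : ℕ)
    (A B : R[X]) (U : Fin g → F × F) (f : MvPolynomial (Fin g × Fin 2) R) :
    MvPolynomial.eval₂ ι (fun s : Fin g × Fin 2 => if s.2 = 0 then (U s.1).1 else (U s.1).2)
        (PhiF g Q A B f) =
      MvPolynomial.eval₂ ι (fun s : Fin g × Fin 2 =>
        if s.2 = 0 then (stv Q (A.map ι) (B.map ι) (U s.1)).1
        else (stv Q (A.map ι) (B.map ι) (U s.1)).2) f := by
  induction f using MvPolynomial.induction_on with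
  | C a =>
    have h1 : PhiF g Q A B (MvPolynomial.C a) = MvPolynomial.C a := (PhiF g Q A B).commutes a
    rw [h1, MvPolynomial.eval₂_C, MvPolynomial.eval₂_C]
  | add f g hf hg =>
    rw [map_add, MvPolynomial.eval₂_add, MvPolynomial.eval₂_add, hf, hg]
  | mul_X f s hf =>
    rw [map_mul, MvPolynomial.eval₂_mul, MvPolynomial.eval₂_mul, hf, MvPolynomial.eval₂_X, phiF_X]
    refine congrArg (fun z => MvPolynomial.eval₂ ι _ f * z) ?_
    by_cases hs : s.2 = 0
    · rw [if_pos hs, if_pos hs, formX_eval]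
      rfl
    · rw [if_neg hs, if_neg hs, formX_eval]
      rfl

theorem phi_frob {R : Type*} [CommRing R] (g Q : ℕ) (hQ : 1 ≤ Q) (A B : R[X]) (π : R)
    (hA1 : A.coeff Q = 1) (hA : ∀ i < Q, π ∣ A.coeff i) (hB0 : π ∣ B.coeff 0 - 1)
    (hB : ∀ i, 1 ≤ i → π ∣ B.coeff i) (s : Fin g × Fin 2) :
    MvPolynomial.C π ∣ PhiF g Q A B (MvPolynomial.X s) - MvPolynomial.X s ^ Q := by
  have _ := hQ
  rw [phiF_X]
  obtain ⟨i, t⟩ := s
  by_cases ht : t = 0
  · subst ht
    rw [if_pos rfl]
    unfold formX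
    rw [Finset.sum_range_succ, hA1, map_one, one_mul, Nat.sub_self, pow_zero, mul_one,
      add_sub_cancel_right]
    refine Finset.dvd_sum fun j hj => ?_
    rw [mul_assoc]
    exact Dvd.dvd.mul_right (_root_.map_dvd MvPolynomial.C (hA j (Finset.mem_range.1 hj))) _
  · have ht1 : t = 1 := Fin.eq_one_of_ne_zero t ht
    subst ht1
    rw [if_neg ht]
    unfold formX
    rw [Finset.sum_range_succ', pow_zero, mul_one, Nat.sub_zero]
    have h1 : ∀ y : MvPolynomial (Fin g × Fin 2) R,
        y + MvPolynomial.C (B.coeff 0) * MvPolynomial.X (i, 1) ^ Q - MvPolynomial.X (i, 1) ^ Q =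
        y + MvPolynomial.C (B.coeff 0 - 1) * MvPolynomial.X (i, 1) ^ Q := by
      intro y
      rw [map_sub, map_one]
      ring
    rw [h1]
    refine dvd_add (Finset.dvd_sum fun j _ => ?_) (Dvd.dvd.mul_right (_root_.map_dvd MvPolynomial.C hB0) _)
    rw [mul_assoc]
    exact Dvd.dvd.mul_right (_root_.map_dvd MvPolynomial.C (hB (j + 1) (by omega))) _

theorem phi_eval {R F : Type*} [CommRing R] [CommRing F] (ι : R →+* F) {g : ℕ} (Q : ℕ)
    (A B : R[X]) (n : ℕ) (U : Fin g → F × F) (f : MvPolynomial (Fin g × Fin 2) R) :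
    MvPolynomial.eval₂ ι (fun s : Fin g × Fin 2 => if s.2 = 0 then (U s.1).1 else (U s.1).2)
        ((PhiF g Q A B)^[n] f) =
      MvPolynomial.eval₂ ι (fun s : Fin g × Fin 2 =>
        if s.2 = 0 then ((stv Q (A.map ι) (B.map ι))^[n] (U s.1)).1
        else ((stv Q (A.map ι) (B.map ι))^[n] (U s.1)).2) f := by
  induction n generalizing f with
  | zero => rfl
  | succ n ih =>
    rw [Function.iterate_succ_apply, ih (PhiF g Q A B f),
      phi_step ι Q A B (fun i => (stv Q (A.map ι) (B.map ι))^[n] (U i)) f]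
    simp only [Function.iterate_succ_apply']

end LEG
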