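/-
LG/Wit (M)  MP_022f22_nt, Lehmer problem in E^g, board modleg. Paper proof: /team-store/lehmer_eg_proof.md
Witt type expansion (paper 2.3).  h 0 = s.  Given h 0..h n with the identity for n: apply Φ: Φ^(n+1) s = sum_{i<=n} π^i Φ(h i)^(Q^(n-i)), Φ(h i) = h_i^Q + π g_i,
(x + π y)^(Q^t) = x^(Q^t) + π^(t+1) z (induction on t, p | Q, π | p), so Φ^(n+1) s = sum_{i<=n} π^i h_i^(Q^(n+1-i)) + π^(n+1) h_(n+1).  The h i do not depend on n:
build the sequence by strong recursion (existence of h (n+1) given h restricted to <= n; e.g. prove for every n: exists list/function up to n extending, or use exists_seq... / Nat.strongRec with choice).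
Note: the identity for n determines only that h (n+1) exists for the SAME h 0..h n, which is what makes one sequence work for all n.
-/
import Mathlib

open NumberField IsDedekindDomain Polynomial Height Filter Topology

namespace LEG

private theorem wit_sum {S : Type*} [CommRing S] {π a b : S} {p : ℕ} (hpπ : π ∣ (p : S))
    (h : π ∣ a - b) : π ∣ ∑ i ∈ Finset.range p, a ^ i * b ^ (p - 1 - i) := by
  have h1 : ∑ i ∈ Finset.range p, a ^ i * b ^ (p - 1 - i) =
      ∑ i ∈ Finset.range p, (a ^ i - b ^ i) * b ^ (p - 1 - i) + (p : S) * b ^ (p - 1) := by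
    have h2 : (p : S) * b ^ (p - 1) = ∑ i ∈ Finset.range p, b ^ i * b ^ (p - 1 - i) := by
      have h3 : ∀ i ∈ Finset.range p, b ^ i * b ^ (p - 1 - i) = b ^ (p - 1) := by
        intro i hi
        have h4 := Finset.mem_range.1 hi
        rw [← pow_add]
        congr 1
        omega
      rw [Finset.sum_congr rfl h3, Finset.sum_const, Finset.card_range, nsmul_eq_mul]
    rw [h2, ← Finset.sum_add_distrib]
    exact Finset.sum_congr rfl fun i _ => by ring
  rw [h1]
  refine dvd_add (Finset.dvd_sum fun i _ => Dvd.dvd.mul_right ?_ _) (hpπ.mul_right _)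
  exact h.trans (sub_dvd_pow_sub_pow a b i)

private theorem wit_step {S : Type*} [CommRing S] {π a b : S} {p k : ℕ} (hpπ : π ∣ (p : S))
    (hk : 0 < k) (h : π ^ k ∣ a - b) : π ^ (k + 1) ∣ a ^ p - b ^ p := by
  have h1 : π ∣ a - b := (dvd_pow_self π hk.ne').trans h
  have h2 := mul_dvd_mul (wit_sum hpπ h1) h
  rw [(Commute.all a b).geom_sum₂_mul] at h2
  rw [pow_succ']
  exact h2

private theorem wit_pow {S : Type*} [CommRing S] {π a b : S} {p k : ℕ} (hpπ : π ∣ (p : S))
    (hk : 0 < k) (h : π ^ k ∣ a - b) (m : ℕ) : π ^ (k + m) ∣ a ^ (p ^ m) - b ^ (p ^ m) := by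
  induction m with
  | zero => simpa using h
  | succ m ih =>
    have h1 := wit_step hpπ (by omega) ih
    rw [← pow_mul, ← pow_mul, ← pow_succ] at h1
    exact h1

private theorem wit_Q {S : Type*} [CommRing S] {π a b : S} {p m Q : ℕ} (hm : 0 < m)
    (hQ : Q = p ^ m) (hpπ : π ∣ (p : S)) (h : π ∣ a - b) (t : ℕ) :
    π ^ (t + 1) ∣ a ^ (Q ^ t) - b ^ (Q ^ t) := by
  have h1 := wit_pow hpπ (k := 1) (by norm_num) (by rwa [pow_one]) (m * t)
  rw [hQ, ← pow_mul]
  refine (pow_dvd_pow π ?_).trans h1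
  have := Nat.mul_le_mul_right t hm
  omega

theorem witt_seq {S : Type*} [CommRing S] (π : S) (p m Q : ℕ) (hp : p.Prime) (hm : 0 < m)
    (hQ : Q = p ^ m) (hpπ : π ∣ (p : S)) (Φ : S →+* S) (hΦπ : Φ π = π)
    (hΦ : ∀ s, π ∣ Φ s - s ^ Q) (s : S) :
    ∃ h : ℕ → S, ∀ n, Φ^[n] s = ∑ i ∈ Finset.range (n + 1), π ^ i * h i ^ (Q ^ (n - i)) := by
  have _ := hp
  have step : ∀ (n : ℕ) (f : ℕ → S),
      Φ^[n] s = ∑ i ∈ Finset.range (n + 1), π ^ i * f i ^ (Q ^ (n - i)) →
      ∃ c : S, Φ^[n + 1] s = ∑ i ∈ Finset.range (n + 2),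
        π ^ i * (Function.update f (n + 1) c) i ^ (Q ^ (n + 1 - i)) := by
    intro n f hf
    have h1 : Φ^[n + 1] s = ∑ i ∈ Finset.range (n + 1), π ^ i * (Φ (f i)) ^ (Q ^ (n - i)) := by
      rw [Function.iterate_succ_apply', hf, map_sum]
      refine Finset.sum_congr rfl fun i _ => ?_
      rw [map_mul, map_pow, map_pow, hΦπ]
    have h2 : π ^ (n + 1) ∣ Φ^[n + 1] s -
        ∑ i ∈ Finset.range (n + 1), π ^ i * f i ^ (Q ^ (n + 1 - i)) := by
      rw [h1, ← Finset.sum_sub_distrib]
      refine Finset.dvd_sum fun i hi => ?_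
      have hin : i ≤ n := by
        have := Finset.mem_range.1 hi
        omega
      rw [← mul_sub]
      have h3 := wit_Q hm hQ hpπ (hΦ (f i)) (n - i)
      have h4 : (f i ^ Q) ^ (Q ^ (n - i)) = f i ^ (Q ^ (n + 1 - i)) := by
        rw [← pow_mul, ← pow_succ']
        congr 2
        omega
      rw [h4] at h3
      have h5 := mul_dvd_mul_left (π ^ i) h3
      rw [← pow_add] at h5
      have h6 : i + (n - i + 1) = n + 1 := by omega
      rwa [h6] at h5
    obtain ⟨c, hc⟩ := h2
    refine ⟨c, ?_⟩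
    rw [Finset.sum_range_succ, Function.update_self, Nat.sub_self, pow_zero, pow_one]
    have h3 : ∀ i ∈ Finset.range (n + 1),
        π ^ i * (Function.update f (n + 1) c) i ^ (Q ^ (n + 1 - i)) =
          π ^ i * f i ^ (Q ^ (n + 1 - i)) := by
      intro i hi
      have := Finset.mem_range.1 hi
      rw [Function.update_of_ne (by omega)]
    rw [Finset.sum_congr rfl h3]
    linear_combination hc
  choose! c hc using step
  let F : ℕ → ℕ → S := fun n =>
    Nat.rec (fun _ => s) (fun n f => Function.update f (n + 1) (c n f)) n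
  have hF0 : F 0 = fun _ => s := rfl
  have hFs : ∀ n, F (n + 1) = Function.update (F n) (n + 1) (c n (F n)) := fun _ => rfl
  have hF : ∀ n, Φ^[n] s = ∑ i ∈ Finset.range (n + 1), π ^ i * F n i ^ (Q ^ (n - i)) := by
    intro n
    induction n with
    | zero => simp [hF0]
    | succ n ih =>
      rw [hFs]
      exact hc n (F n) ih
  have hagree : ∀ n i, i ≤ n → F n i = F i i := by
    intro n
    induction n with
    | zero =>
      intro i hi
      rw [Nat.le_zero.1 hi]
    | succ n ih =>
      intro i hi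
      rcases Nat.lt_or_ge n i with h1 | h1
      · have h2 : i = n + 1 := by omega
        rw [h2]
      · rw [hFs, Function.update_of_ne (by omega)]
        exact ih i h1
  refine ⟨fun n => F n n, fun n => ?_⟩
  rw [hF n]
  refine Finset.sum_congr rfl fun i hi => ?_
  have h1 := Finset.mem_range.1 hi
  rw [hagree n i (by omega)]

end LEG
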