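/-
LG/Gnf (M)  MP_022f22_nt, Lehmer problem in E^g, board modleg. Paper proof: /team-store/lehmer_eg_proof.md
Gain from equal data (paper 2.3).  πR, A0, B0 from setup_lift; S = MvPolynomial (Fin g × Fin 2) (Rv v), Φ = PhiF g Q A0 B0 (Frobenius lift by phi_frob, frob_lift with π = πR; Φ (C πR) = C πR);
for f take h = witt_seq for s = homf k f; H f w i = eval₂ ι (pairs nv w (b j)) (h i), ι = Rv v -> K -> F.  w(H) <= 1: coefficients integral (LH/Vab above_le), pairs normalised (nv_iter n = 0).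
For n: eval₂ (Φ^n (homf k f)) at nv = sum_i ϖ^i H_i^(Q^(n-i)); by phi_eval, homf_eval it is prod_j Z_j^(k-1) evR v (itn n b) f, Z_j = second coordinate of (stv)^n (nv w (b j)), (w Z_j)^-1 = max(w (F^n b_j)) 1 (nv_iter; GoodMap from LH/GMp good_of_setup; A0.map ι = A.map (algebraMap K F)).
Difference: sum_i ϖ^i (H_i^(Q^(n-i)) - H'_i^(Q^(n-i))): i >= j1: w <= ρ^j1;  i < j1: contr_frac with exponent n - i >= b': w <= ρ^i ρ^(1+(n-i-b')) <= ρ^j1 (n >= j1 + b').
evR v s (f - f') = evR v s f - evR v s f'.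
-/
import Mathlib
import Pool.Agent.Work.MP_022f22_nt.LG.Defs
import Pool.Agent.Work.MP_022f22_nt.LG.FrL
import Pool.Agent.Work.MP_022f22_nt.LG.Wit
import Pool.Agent.Work.MP_022f22_nt.LG.Ctf
import Pool.Agent.Work.MP_022f22_nt.LG.Hmf
import Pool.Agent.Work.MP_022f22_nt.LG.Phf
import Pool.Agent.Work.MP_022f22_nt.LG.Lif
import Pool.Agent.Work.MP_022f22_nt.LG.Nvi
import Pool.Agent.Work.MP_022f22_nt.LH.GMp
import Pool.Agent.Work.MP_022f22_nt.LH.Vab

open NumberField IsDedekindDomain Polynomial Height Filter Topology LEH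

namespace LEG

private theorem fp_sum_le {F : Type*} [Field F] [NumberField F] (w : FinitePlace F) {α : Type*}
    (s : Finset α) (f : α → F) {M : ℝ} (hM : 0 ≤ M) (h : ∀ i ∈ s, w (f i) ≤ M) :
    w (∑ i ∈ s, f i) ≤ M := by
  classical
  induction s using Finset.induction_on with
  | empty =>
    rw [Finset.sum_empty, map_zero]
    exact hM
  | insert a s ha ih =>
    rw [Finset.sum_insert ha]
    refine (FinitePlace.add_le w _ _).trans (max_le (h a (Finset.mem_insert_self a s)) ?_)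
    exact ih fun i hi => h i (Finset.mem_insert_of_mem hi)

private theorem fp_sub_le {F : Type*} [Field F] [NumberField F] (w : FinitePlace F) {x y : F}
    {M : ℝ} (hx : w x ≤ M) (hy : w y ≤ M) : w (x - y) ≤ M := by
  rw [sub_eq_add_neg]
  refine (FinitePlace.add_le w _ _).trans (max_le hx ?_)
  have h1 : w (-y) = w y := map_neg_eq_map w.val y
  rw [h1]
  exact hy

private theorem eval2_le {F R σ : Type*} [Field F] [NumberField F] [CommRing R] (w : FinitePlace F)
    (ι : R →+* F) (U : σ → F) (hι : ∀ a, w (ι a) ≤ 1) (hU : ∀ s, w (U s) ≤ 1)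
    (f : MvPolynomial σ R) : w (MvPolynomial.eval₂ ι U f) ≤ 1 := by
  induction f using MvPolynomial.induction_on with
  | C a =>
    rw [MvPolynomial.eval₂_C]
    exact hι a
  | add p q hp hq =>
    rw [MvPolynomial.eval₂_add]
    exact (FinitePlace.add_le w _ _).trans (max_le hp hq)
  | mul_X p s hp =>
    rw [MvPolynomial.eval₂_mul, MvPolynomial.eval₂_X, map_mul]
    exact mul_le_one₀ hp (apply_nonneg w _) (hU s)

private theorem nv_le {F : Type*} [Field F] (w : AbsoluteValue F ℝ) (x : F) :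
    w (nv w x).1 ≤ 1 ∧ w (nv w x).2 ≤ 1 := by
  unfold nv
  split_ifs with h
  · exact ⟨h, by simp⟩
  · push Not at h
    refine ⟨by simp, ?_⟩
    change w x⁻¹ ≤ 1
    rw [map_inv₀]
    exact inv_le_one_of_one_le₀ h.le

theorem gain_of_data {K : Type} [Field K] [NumberField K] {v : HeightOneSpectrum (𝓞 K)}
    {W : WeierstrassCurve K} {p N Q : ℕ} {A B : K[X]} (hs : Setup K v W p N Q A B)
    {ϖ : K} (hϖ : Unif v ϖ) {F : Type} [Field F] [NumberField F] [Algebra K F] {g : ℕ}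
    (b : Fin g → F) (hb : ∀ i n, (B.map (algebraMap K F)).eval ((Fm A B)^[n] (b i)) ≠ 0)
    (j1 b' k : ℕ) :
    ∃ H : MvPolynomial (Fin g) (Rv v) → FinitePlace F → ℕ → F,
      (∀ f w i, Above v w → w (H f w i) ≤ 1) ∧
      ∀ f f', Bx k f → Bx k f' → ∀ w, Above v w →
        (∀ i < j1, w (H f w i - H f' w i) ^ (Q ^ b') ≤ w (algebraMap K F ϖ)) →
        ∀ n, j1 + b' ≤ n → w (evR v (itn A B n b) (f - f')) ≤
          w (algebraMap K F ϖ) ^ j1 * ∏ i, (max (w (itn A B n b i)) 1) ^ (k - 1) := by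
  obtain ⟨πR, A0, B0, hπ, hA, hB, hpπ, hR, hA1, hA2, hB0, hB1, -, -⟩ := setup_lift hs hϖ
  obtain ⟨s0, hs0, hsN⟩ := hs.N_pow
  have hQpow : Q = p ^ (s0 * 2) := by rw [hs.Q_eq, hsN, pow_mul]
  have hm0 : 0 < s0 * 2 := by positivity
  have hQ1 : 1 ≤ Q := by
    rw [hQpow]
    exact Nat.one_le_pow _ _ hs.prime.pos
  have hfrob := phi_frob g Q hQ1 A0 B0 πR hA1 hA2 hB0 hB1
  have hlift := frob_lift πR p (s0 * 2) Q hs.prime hm0 hQpow hpπ hR (PhiF g Q A0 B0) hfrob
  have hpπ' : (MvPolynomial.C πR : MvPolynomial (Fin g × Fin 2) (Rv v)) ∣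
      ((p : ℕ) : MvPolynomial (Fin g × Fin 2) (Rv v)) := by
    have h1 := map_dvd (MvPolynomial.C (σ := Fin g × Fin 2)) hpπ
    rwa [map_natCast] at h1
  have hwitt : ∀ f : MvPolynomial (Fin g) (Rv v),
      ∃ h : ℕ → MvPolynomial (Fin g × Fin 2) (Rv v), ∀ n,
        (PhiF g Q A0 B0)^[n] (homf k f) =
          ∑ i ∈ Finset.range (n + 1), MvPolynomial.C πR ^ i * h i ^ (Q ^ (n - i)) := fun f =>
    witt_seq (MvPolynomial.C πR) p (s0 * 2) Q hs.prime hm0 hQpow hpπ'
      ((PhiF g Q A0 B0 : MvPolynomial (Fin g × Fin 2) (Rv v) →ₐ[Rv v]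
        MvPolynomial (Fin g × Fin 2) (Rv v)) : MvPolynomial (Fin g × Fin 2) (Rv v) →+*
        MvPolynomial (Fin g × Fin 2) (Rv v)) ((PhiF g Q A0 B0).commutes πR) hlift (homf k f)
  choose h hh using hwitt
  let ι : Rv v →+* F := (algebraMap K F).comp (algebraMap (Rv v) K)
  let U : FinitePlace F → Fin g × Fin 2 → F := fun w s =>
    if s.2 = 0 then (nv w.val (b s.1)).1 else (nv w.val (b s.1)).2
  have hι : ∀ w : FinitePlace F, Above v w → ∀ a, w (ι a) ≤ 1 := by
    intro w hw a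
    exact above_le hw ((Valuation.mem_valuationSubring_iff _ _).1 a.2)
  have hU : ∀ (w : FinitePlace F) (s : Fin g × Fin 2), w (U w s) ≤ 1 := by
    intro w s
    have h1 := nv_le w.val (b s.1)
    by_cases hs2 : s.2 = 0
    · have h2 : U w s = (nv w.val (b s.1)).1 := if_pos hs2
      rw [h2]
      exact h1.1
    · have h2 : U w s = (nv w.val (b s.1)).2 := if_neg hs2
      rw [h2]
      exact h1.2
  have hHle : ∀ f w i, Above v w → w (MvPolynomial.eval₂ ι (U w) (h f i)) ≤ 1 :=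
    fun f w i hw => eval2_le w ι (U w) (hι w hw) (hU w) (h f i)
  refine ⟨fun f w i => MvPolynomial.eval₂ ι (U w) (h f i), hHle, ?_⟩
  intro f f' hf hf' w hw hclose n hn
  obtain ⟨hρ0, hρ1⟩ := above_unif hw hϖ
  obtain ⟨ρ, hρ⟩ : ∃ ρ : ℝ, ρ = w (algebraMap K F ϖ) := ⟨_, rfl⟩
  rw [← hρ] at hρ0 hρ1 hclose ⊢
  have hgood := (good_of_setup hs hw hϖ).1
  rw [← hρ] at hgood
  have hAι : A0.map ι = A.map (algebraMap K F) := by
    rw [← hA, Polynomial.map_map]
  have hBι : B0.map ι = B.map (algebraMap K F) := by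
    rw [← hB, Polynomial.map_map]
  have hnv := fun i => nv_iter hgood (b i) (fun n => hb i n) n
  let V : Fin g → F × F := fun i =>
    (stv Q (A.map (algebraMap K F)) (B.map (algebraMap K F)))^[n] (nv w.val (b i))
  have hmain : ∀ f : MvPolynomial (Fin g) (Rv v), Bx k f →
      (∏ i, (V i).2 ^ (k - 1)) * evR v (itn A B n b) f =
        ∑ i ∈ Finset.range (n + 1), (algebraMap K F ϖ) ^ i *
          (MvPolynomial.eval₂ ι (U w) (h f i)) ^ (Q ^ (n - i)) := by
    intro f hf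
    have h1 := congrArg (MvPolynomial.eval₂Hom ι (U w)) (hh f n)
    rw [map_sum] at h1
    have h2 : MvPolynomial.eval₂Hom ι (U w) ((PhiF g Q A0 B0)^[n] (homf k f)) =
        (∏ i, (V i).2 ^ (k - 1)) * evR v (itn A B n b) f := by
      have h3 := phi_eval ι Q A0 B0 n (fun i => nv w.val (b i)) (homf k f)
      rw [hAι, hBι] at h3
      have h4 := homf_eval ι f hf V (fun i => (hnv i).2.1)
      have h5 : (fun i => (V i).1 / (V i).2) = itn A B n b := by
        funext i
        exact (hnv i).2.2.1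
      rw [h5] at h4
      exact h3.trans h4
    rw [h2] at h1
    rw [h1]
    refine Finset.sum_congr rfl fun i _ => ?_
    rw [map_mul, map_pow, map_pow, MvPolynomial.eval₂Hom_C]
    have h6 : ι πR = algebraMap K F ϖ := by
      change algebraMap K F (πR : K) = _
      rw [hπ]
    rw [h6]
    rfl
  have hdiff : (∏ i, (V i).2 ^ (k - 1)) * evR v (itn A B n b) (f - f') =
      ∑ i ∈ Finset.range (n + 1), (algebraMap K F ϖ) ^ i *
        ((MvPolynomial.eval₂ ι (U w) (h f i)) ^ (Q ^ (n - i)) -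
          (MvPolynomial.eval₂ ι (U w) (h f' i)) ^ (Q ^ (n - i))) := by
    have h1 : evR v (itn A B n b) (f - f') =
        evR v (itn A B n b) f - evR v (itn A B n b) f' :=
      map_sub (MvPolynomial.eval₂Hom ((algebraMap K F).comp (algebraMap (Rv v) K))
        (itn A B n b)) f f'
    rw [h1, mul_sub, hmain f hf, hmain f' hf', ← Finset.sum_sub_distrib]
    exact Finset.sum_congr rfl fun i _ => (mul_sub _ _ _).symm
  have hw1 : w ((∏ i, (V i).2 ^ (k - 1)) * evR v (itn A B n b) (f - f')) ≤ ρ ^ j1 := by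
    rw [hdiff]
    refine fp_sum_le w _ _ (by positivity) fun i hi => ?_
    rw [Finset.mem_range] at hi
    rw [map_mul, map_pow, ← hρ]
    by_cases hij : i < j1
    · have h1 := contr_frac hgood.nonarch hs.prime hm0 hQpow hρ0 hρ1 hgood.char
        (hHle f w i hw) (hHle f' w i hw) b' (hclose i hij) (n - i) (by omega)
      calc ρ ^ i * w ((MvPolynomial.eval₂ ι (U w) (h f i)) ^ (Q ^ (n - i)) -
            (MvPolynomial.eval₂ ι (U w) (h f' i)) ^ (Q ^ (n - i)))
          ≤ ρ ^ i * ρ ^ (1 + (n - i - b')) := mul_le_mul_of_nonneg_left h1 (by positivity)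
        _ = ρ ^ (i + (1 + (n - i - b'))) := (pow_add _ _ _).symm
        _ ≤ ρ ^ j1 := pow_le_pow_of_le_one hρ0.le hρ1.le (by omega)
    · have h1 : w ((MvPolynomial.eval₂ ι (U w) (h f i)) ^ (Q ^ (n - i)) -
          (MvPolynomial.eval₂ ι (U w) (h f' i)) ^ (Q ^ (n - i))) ≤ 1 := by
        apply fp_sub_le
        · rw [map_pow]
          exact pow_le_one₀ (apply_nonneg w _) (hHle f w i hw)
        · rw [map_pow]
          exact pow_le_one₀ (apply_nonneg w _) (hHle f' w i hw)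
      calc ρ ^ i * w ((MvPolynomial.eval₂ ι (U w) (h f i)) ^ (Q ^ (n - i)) -
            (MvPolynomial.eval₂ ι (U w) (h f' i)) ^ (Q ^ (n - i)))
          ≤ ρ ^ i * 1 := mul_le_mul_of_nonneg_left h1 (by positivity)
        _ = ρ ^ i := mul_one _
        _ ≤ ρ ^ j1 := pow_le_pow_of_le_one hρ0.le hρ1.le (by omega)
  have hprod : w (∏ i, (V i).2 ^ (k - 1)) * ∏ i, (max (w (itn A B n b i)) 1) ^ (k - 1) = 1 := by
    rw [map_prod, ← Finset.prod_mul_distrib]
    refine Finset.prod_eq_one fun i _ => ?_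
    rw [map_pow, ← mul_pow]
    have h1 : max (w (itn A B n b i)) 1 = (w (V i).2)⁻¹ := (hnv i).2.2.2.symm
    have h2 : w (V i).2 ≠ 0 := (map_ne_zero w.val).2 (hnv i).2.1
    rw [h1, mul_inv_cancel₀ h2, one_pow]
  have hpos : 0 ≤ ∏ i, (max (w (itn A B n b i)) 1) ^ (k - 1) := by positivity
  rw [map_mul] at hw1
  calc w (evR v (itn A B n b) (f - f'))
      = (w (∏ i, (V i).2 ^ (k - 1)) * w (evR v (itn A B n b) (f - f'))) *
          ∏ i, (max (w (itn A B n b i)) 1) ^ (k - 1) := by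
        rw [mul_comm (w (∏ i, (V i).2 ^ (k - 1))), mul_assoc, hprod, mul_one]
    _ ≤ ρ ^ j1 * ∏ i, (max (w (itn A B n b i)) 1) ^ (k - 1) :=
        mul_le_mul_of_nonneg_right hw1 hpos

end LEG
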