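/-
LG/Gpl (M)  MP_022f22_nt, Lehmer problem in E^g, board modleg. Paper proof: /team-store/lehmer_eg_proof.md
Conjugate place.  Q = preimage of P = w.maximalIdeal.asIdeal under the automorphism of 𝓞 L induced by σ (RingOfIntegers.mapAlgEquiv / mapRingEquiv); w₂ = FinitePlace.mk Q.  Same norm of the ideals (Ideal.absNorm via the
quotient isomorphism), same valuations: for integers y: σ y in P^n iff y in Q^n.  See LH/Dec dec_abs and LH/Fro for similar arguments.  Above v: σ fixes 𝓞 K.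
Alternative: x ↦ w (σ x) is an absolute value of L equal to a finite place: use the characterisation of w₂ by w₂ x = N^(-v_Q x).
-/
import Mathlib
import Pool.Agent.Work.MP_022f22_nt.LG.Defs
import Pool.Agent.Work.MP_022f22_nt.LH.Vab

open NumberField IsDedekindDomain Polynomial Height Filter Topology LEH

namespace LEG

private theorem gp_eq {L : Type*} [Field L] [NumberField L] (w : FinitePlace L) (x : L) :
    w x = (WithZeroMulInt.toNNReal (HeightOneSpectrum.absNorm_ne_zero w.maximalIdeal)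
      (w.maximalIdeal.valuation L x) : ℝ) := by
  rw [← FinitePlace.norm_embedding', FinitePlace.norm_embedding_eq]

private theorem gp_le {L : Type*} [Field L] [NumberField L] (w : FinitePlace L) (x y : L) :
    w x ≤ w y ↔ w.maximalIdeal.valuation L x ≤ w.maximalIdeal.valuation L y := by
  rw [gp_eq w x, gp_eq w y, NNReal.coe_le_coe]
  exact (WithZeroMulInt.toNNReal_strictMono
    (HeightOneSpectrum.one_lt_absNorm_nnreal w.maximalIdeal)).le_iff_le

private theorem gp_lt {L : Type*} [Field L] [NumberField L] (w : FinitePlace L) (x y : L) :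
    w x < w y ↔ w.maximalIdeal.valuation L x < w.maximalIdeal.valuation L y := by
  rw [gp_eq w x, gp_eq w y, NNReal.coe_lt_coe]
  exact (WithZeroMulInt.toNNReal_strictMono
    (HeightOneSpectrum.one_lt_absNorm_nnreal w.maximalIdeal)).lt_iff_lt

private theorem gp_int {L : Type*} [Field L] [NumberField L] (w : FinitePlace L) (x : L)
    (hx : IsIntegral ℤ x) : w x ≤ 1 := by
  rw [← FinitePlace.norm_embedding_eq]
  exact FinitePlace.norm_le_one L w.maximalIdeal ⟨x, hx⟩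

private theorem gp_mem {L : Type*} [Field L] [NumberField L] (w : FinitePlace L) (y : 𝓞 L) :
    w (y : L) < 1 ↔ y ∈ w.maximalIdeal.asIdeal := by
  rw [← FinitePlace.norm_embedding_eq w]
  exact FinitePlace.norm_lt_one_iff_mem L w.maximalIdeal y

private theorem gp_unif {L : Type*} [Field L] [NumberField L] (w : FinitePlace L) (p : L)
    (hp : w.maximalIdeal.valuation L p = WithZero.exp (-1 : ℤ)) :
    w p = ((Ideal.absNorm w.maximalIdeal.asIdeal : ℕ) : ℝ)⁻¹ := by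
  rw [gp_eq, hp, WithZeroMulInt.toNNReal_neg_apply _ WithZero.exp_ne_zero]
  have e : (WithZero.unzero (WithZero.exp_ne_zero (a := (-1 : ℤ)))) =
      Multiplicative.ofAdd (-1 : ℤ) := by
    rfl
  rw [e]
  simp

private theorem gp_small {L : Type*} [Field L] [NumberField L] (w : FinitePlace L) (p z : L)
    (hp : w.maximalIdeal.valuation L p = WithZero.exp (-1 : ℤ)) (hz : w z < 1) : w z ≤ w p := by
  rw [← map_one w, gp_lt, map_one] at hz
  rw [gp_le, hp]
  by_cases h0 : w.maximalIdeal.valuation L z = 0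
  · rw [h0]; exact zero_le
  · obtain ⟨m, hm⟩ : ∃ m : ℤ, w.maximalIdeal.valuation L z = WithZero.exp m :=
      ⟨WithZero.log _, (WithZero.exp_log h0).symm⟩
    rw [hm] at hz ⊢
    rw [← WithZero.exp_zero, WithZero.exp_lt_exp] at hz
    rw [WithZero.exp_le_exp]
    omega

private theorem gp_unif_lt {L : Type*} [Field L] [NumberField L] (w : FinitePlace L) (p : L)
    (hp : w.maximalIdeal.valuation L p = WithZero.exp (-1 : ℤ)) : w p < 1 := by
  rw [← map_one w, gp_lt, hp, map_one, ← WithZero.exp_zero, WithZero.exp_lt_exp]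
  norm_num

section
variable {K L : Type*} [Field K] [NumberField K] [Field L] [NumberField L] [Algebra K L]

omit [NumberField K] [NumberField L] in
private theorem gp_sint (σ : L ≃ₐ[K] L) (y : 𝓞 L) : IsIntegral ℤ (σ (y : L)) :=
  (y.2 : IsIntegral ℤ (y : L)).map (σ : L →+* L).toIntAlgHom

private theorem gp_one (w w₂ : FinitePlace L) (σ : L ≃ₐ[K] L)
    (hσ : ∀ y : 𝓞 L, w₂ (y : L) < 1 ↔ w (σ (y : L)) < 1) (b : 𝓞 L) (hb : w₂ (b : L) = 1) :
    w (σ (b : L)) = 1 := by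
  have h1 : ¬ w₂ (b : L) < 1 := by rw [hb]; exact lt_irrefl _
  rw [hσ b] at h1
  exact le_antisymm (gp_int w _ (gp_sint σ b)) (not_lt.mp h1)

private theorem gp_sle (w w₂ : FinitePlace L) (σ : L ≃ₐ[K] L)
    (hσ : ∀ y : 𝓞 L, w₂ (y : L) < 1 ↔ w (σ (y : L)) < 1) (x : L) (hx : w₂ x ≤ 1) :
    w (σ x) ≤ 1 := by
  obtain ⟨a, b, hb, rfl⟩ := exists_frac w₂ hx
  rw [map_div₀, map_div₀, gp_one w w₂ σ hσ b hb, div_one]
  exact gp_int w _ (gp_sint σ a)

private theorem gp_slt (w w₂ : FinitePlace L) (σ : L ≃ₐ[K] L)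
    (hσ : ∀ y : 𝓞 L, w₂ (y : L) < 1 ↔ w (σ (y : L)) < 1) (x : L) (hx : w₂ x < 1) :
    w (σ x) < 1 := by
  obtain ⟨a, b, hb, rfl⟩ := exists_frac w₂ hx.le
  rw [map_div₀, hb, div_one] at hx
  rw [map_div₀, map_div₀, gp_one w w₂ σ hσ b hb, div_one]
  exact (hσ a).mp hx

private theorem gp_s1 (w w₂ : FinitePlace L) (σ : L ≃ₐ[K] L)
    (hσ : ∀ y : 𝓞 L, w₂ (y : L) < 1 ↔ w (σ (y : L)) < 1) (x : L) (hx : w₂ x = 1) :
    w (σ x) = 1 := by
  refine le_antisymm (gp_sle w w₂ σ hσ x hx.le) ?_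
  have h2 : w (σ x⁻¹) ≤ 1 := gp_sle w w₂ σ hσ _ (by rw [map_inv₀, hx, inv_one])
  have hx0 : x ≠ 0 := by
    rintro rfl
    rw [map_zero] at hx
    exact zero_ne_one hx
  have h3 : 0 < w (σ x) := FinitePlace.pos_iff.mpr (by simpa using hx0)
  rw [map_inv₀, map_inv₀] at h2
  rw [inv_le_one₀ h3] at h2
  exact h2

private theorem gp_two (w w₂ : FinitePlace L) (σ : L ≃ₐ[K] L)
    (hσ : ∀ y : 𝓞 L, w₂ (y : L) < 1 ↔ w (σ (y : L)) < 1)
    (hN : Ideal.absNorm w₂.maximalIdeal.asIdeal = Ideal.absNorm w.maximalIdeal.asIdeal) (x : L) :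
    w (σ x) = w₂ x := by
  have hσ' : ∀ y : 𝓞 L, w (y : L) < 1 ↔ w₂ (σ.symm (y : L)) < 1 := by
    intro y
    have h : w₂ (σ.symm (y : L)) < 1 ↔ w (σ (σ.symm (y : L))) < 1 :=
      hσ ⟨σ.symm (y : L), gp_sint σ.symm y⟩
    rw [AlgEquiv.apply_symm_apply] at h
    exact h.symm
  obtain ⟨p, hp⟩ := w₂.maximalIdeal.valuation_exists_uniformizer L
  obtain ⟨q, hq⟩ := w.maximalIdeal.valuation_exists_uniformizer L
  have hp' : w₂.maximalIdeal.valuation L p = WithZero.exp (-1 : ℤ) := hp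
  have hq' : w.maximalIdeal.valuation L q = WithZero.exp (-1 : ℤ) := hq
  have hp0 : p ≠ 0 := by
    rintro rfl
    rw [map_zero] at hp'
    exact WithZero.exp_ne_zero hp'.symm
  have hwp : 0 < w₂ p := FinitePlace.pos_iff.mpr hp0
  have h1 : w (σ p) ≤ w q := gp_small w q _ hq' (gp_slt w w₂ σ hσ p (gp_unif_lt w₂ p hp'))
  have h2 : w₂ (σ.symm q) ≤ w₂ p :=
    gp_small w₂ p _ hp' (gp_slt w₂ w σ.symm hσ' q (gp_unif_lt w q hq'))
  have h3 : w₂ (σ.symm q / p) ≤ 1 := by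
    rw [map_div₀]; exact (div_le_one hwp).mpr h2
  have h4 := gp_sle w w₂ σ hσ _ h3
  have hσp : 0 < w (σ p) := FinitePlace.pos_iff.mpr (by simpa using hp0)
  rw [map_div₀, AlgEquiv.apply_symm_apply, map_div₀, div_le_one hσp] at h4
  have hE : w (σ p) = w₂ p := by
    rw [le_antisymm h1 h4, gp_unif w q hq', gp_unif w₂ p hp', hN]
  rcases eq_or_ne x 0 with rfl | hx
  · simp
  have h0 : w₂.maximalIdeal.valuation L x ≠ 0 := by
    rw [Ne, map_eq_zero]; exact hx
  obtain ⟨m, hm⟩ : ∃ m : ℤ, w₂.maximalIdeal.valuation L x = WithZero.exp m :=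
    ⟨WithZero.log _, (WithZero.exp_log h0).symm⟩
  have h5 : w₂.maximalIdeal.valuation L (x * p ^ m) = 1 := by
    rw [map_mul, map_zpow₀, hm, hp', ← WithZero.exp_zsmul, ← WithZero.exp_add]
    simp
  have h6 : w₂ (x * p ^ m) = 1 := by
    rw [gp_eq, h5]; simp
  have h7 := gp_s1 w w₂ σ hσ _ h6
  rw [map_mul, map_zpow₀] at h6
  rw [map_mul, map_zpow₀, map_mul, map_zpow₀, hE] at h7
  have h8 : w₂ p ^ m ≠ 0 := zpow_ne_zero _ hwp.ne'
  exact mul_right_cancel₀ h8 (h7.trans h6.symm)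

end

private theorem gp_norm {R S : Type*} [CommRing R] [IsDedekindDomain R]
    [Module.Free ℤ R] [CommRing S] [IsDedekindDomain S] [Module.Free ℤ S]
    (e : R ≃+* S) (I : Ideal S) :
    Ideal.absNorm (I.comap (e : R →+* S)) = Ideal.absNorm I := by
  rw [Ideal.absNorm_apply, Ideal.absNorm_apply, Submodule.cardQuot_apply,
    Submodule.cardQuot_apply]
  exact Nat.card_congr (Ideal.quotientEquiv (I.comap (e : R →+* S)) I e
    (Ideal.map_comap_of_surjective (e : R →+* S) e.surjective I).symm).toEquiv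

theorem place_conj {K L : Type} [Field K] [NumberField K] [Field L] [NumberField L]
    [Algebra K L] {v : HeightOneSpectrum (𝓞 K)} (w : FinitePlace L) (hw : Above v w)
    (σ : L ≃ₐ[K] L) : ∃ w₂ : FinitePlace L, Above v w₂ ∧ ∀ x, w (σ x) = w₂ x := by
  obtain ⟨τ, hτ⟩ : ∃ τ : 𝓞 L ≃+* 𝓞 L, ∀ y : 𝓞 L, ((τ y : 𝓞 L) : L) = σ (y : L) :=
    ⟨RingOfIntegers.mapRingEquiv (σ : L ≃+* L), fun y => rfl⟩
  have hQ : (w.maximalIdeal.asIdeal.comap (τ : 𝓞 L →+* 𝓞 L)) ≠ ⊥ := by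
    intro h
    apply w.maximalIdeal.ne_bot
    rw [← Ideal.map_comap_of_surjective (τ : 𝓞 L →+* 𝓞 L) τ.surjective w.maximalIdeal.asIdeal, h,
      Ideal.map_bot]
  have hQp : (w.maximalIdeal.asIdeal.comap (τ : 𝓞 L →+* 𝓞 L)).IsPrime := by
    haveI := w.maximalIdeal.isPrime
    exact Ideal.comap_isPrime _ _
  obtain ⟨Q, hQdef⟩ : ∃ Q : HeightOneSpectrum (𝓞 L),
      Q.asIdeal = w.maximalIdeal.asIdeal.comap (τ : 𝓞 L →+* 𝓞 L) := ⟨⟨_, hQp, hQ⟩, rfl⟩
  have hmk : (FinitePlace.mk Q).maximalIdeal = Q := FinitePlace.maximalIdeal_mk Q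
  refine ⟨FinitePlace.mk Q, ?_, ?_⟩
  · unfold Above
    rw [hmk, hQdef, Ideal.comap_comap]
    have h1 : ((τ : 𝓞 L →+* 𝓞 L).comp (algebraMap (𝓞 K) (𝓞 L))) = algebraMap (𝓞 K) (𝓞 L) := by
      ext y
      rw [RingHom.comp_apply]
      show ((τ (algebraMap (𝓞 K) (𝓞 L) y) : 𝓞 L) : L) = _
      rw [hτ]
      exact σ.commutes (y : K)
    rw [h1]
    exact hw
  · refine gp_two w _ σ ?_ ?_
    · intro y
      rw [gp_mem, hmk, hQdef, Ideal.mem_comap, ← hτ, gp_mem]
      rfl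
    · rw [hmk, hQdef]
      exact gp_norm τ _

end LEG
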