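/-
LG/Rst (M)  MP_022f22_nt, Lehmer problem in E^g, board modleg. Paper proof: /team-store/lehmer_eg_proof.md
Restriction of a finite place (K <= F <= L).  P = w.maximalIdeal in 𝓞 L, P' = its contraction to 𝓞 F (nonzero prime), w' = FinitePlace.mk of P'.  For x in F: w(x) = N(P)^(-v_P(x)), v_P(x) = e v_P'(x)
(HeightOneSpectrum.valuation_liesOver, as in LH/Plc plc_term), N(P) = N(P')^f: w x = (w' x)^(e f).  Above v w': contraction of P' to 𝓞 K is that of P (comap_comap, IsScalarTower of the rings of integers).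
-/
import Mathlib
import Pool.Agent.Work.MP_022f22_nt.LG.Defs
import Pool.Agent.Work.MP_022f22_nt.LH.Plc
import Pool.Agent.Work.MP_022f22_nt.LH.Vab

open NumberField IsDedekindDomain Polynomial Height Filter Topology LEH

namespace LEG

private theorem rst_nn {N M f e : ℕ} (hN : ((N : ℕ) : NNReal) ≠ 0) (hM : ((M : ℕ) : NNReal) ≠ 0)
    (hMN : M = N ^ f) (he : e ≠ 0) (hf : f ≠ 0)
    (t : WithZero (Multiplicative ℤ)) :
    WithZeroMulInt.toNNReal hM (t ^ e) = WithZeroMulInt.toNNReal hN t ^ (e * f) := by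
  by_cases ht : t = 0
  · subst ht
    rw [zero_pow he, map_zero, map_zero, zero_pow (mul_ne_zero he hf)]
  · rw [map_pow, WithZeroMulInt.toNNReal_neg_apply _ ht, WithZeroMulInt.toNNReal_neg_apply _ ht]
    subst hMN
    push_cast
    simp only [← zpow_natCast, ← zpow_mul]
    congr 1
    push_cast
    ring

theorem place_restrict {K F L : Type} [Field K] [NumberField K] [Field F] [NumberField F]
    [Field L] [NumberField L] [Algebra K F] [Algebra K L] [Algebra F L] [IsScalarTower K F L]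
    {v : HeightOneSpectrum (𝓞 K)} (w : FinitePlace L) (hw : Above v w) :
    ∃ (w' : FinitePlace F) (c : ℕ), 0 < c ∧ Above v w' ∧
      w.maximalIdeal.asIdeal.comap (algebraMap (𝓞 F) (𝓞 L)) = w'.maximalIdeal.asIdeal ∧
      ∀ x : F, w (algebraMap F L x) = w' x ^ c := by
  have hne : w.maximalIdeal.asIdeal.comap (algebraMap (𝓞 F) (𝓞 L)) ≠ ⊥ :=
    Ideal.IsIntegral.comap_ne_bot _ w.maximalIdeal.ne_bot
  have hpr : (w.maximalIdeal.asIdeal.comap (algebraMap (𝓞 F) (𝓞 L))).IsPrime :=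
    w.maximalIdeal.isPrime.comap _
  set P' : HeightOneSpectrum (𝓞 F) :=
    ⟨w.maximalIdeal.asIdeal.comap (algebraMap (𝓞 F) (𝓞 L)), hpr, hne⟩ with hP'
  have hl : w.maximalIdeal.asIdeal.LiesOver P'.asIdeal := ⟨rfl⟩
  have h1 : ∀ x : F, w.maximalIdeal.valuation L (algebraMap F L x) =
      P'.valuation F x ^ P'.asIdeal.ramificationIdx' w.maximalIdeal.asIdeal := by
    intro x
    rw [← HeightOneSpectrum.valuation_liesOver L P' w.maximalIdeal x]
  have h2 : Ideal.absNorm w.maximalIdeal.asIdeal =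
      Ideal.absNorm P'.asIdeal ^ P'.asIdeal.inertiaDeg' w.maximalIdeal.asIdeal :=
    Ideal.absNorm_eq_pow_inertiaDeg'_of_liesOver _ _ P'.isPrime P'.ne_bot
  have he : P'.asIdeal.ramificationIdx' w.maximalIdeal.asIdeal ≠ 0 :=
    Ideal.IsDedekindDomain.ramificationIdx'_ne_zero_of_liesOver _ P'.ne_bot
  have : P'.asIdeal.IsMaximal := P'.isMaximal
  have hf : P'.asIdeal.inertiaDeg' w.maximalIdeal.asIdeal ≠ 0 :=
    Ideal.inertiaDeg'_ne_zero _ _
  refine ⟨FinitePlace.mk P', P'.asIdeal.ramificationIdx' w.maximalIdeal.asIdeal *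
    P'.asIdeal.inertiaDeg' w.maximalIdeal.asIdeal, ?_, ?_, ?_, ?_⟩
  · exact Nat.mul_pos (Nat.pos_of_ne_zero he) (Nat.pos_of_ne_zero hf)
  · unfold Above
    rw [FinitePlace.maximalIdeal_mk]
    rw [← hw, hP', Ideal.comap_comap, ← IsScalarTower.algebraMap_eq]
  · rw [FinitePlace.maximalIdeal_mk]
  · intro x
    rw [← FinitePlace.norm_embedding_eq w, FinitePlace.norm_embedding', h1]
    rw [← FinitePlace.norm_embedding_eq (FinitePlace.mk P'), FinitePlace.norm_embedding',
      FinitePlace.maximalIdeal_mk]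
    rw [rst_nn _ _ h2 he hf, NNReal.coe_pow]

end LEG
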