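/-
LG/Gnl (M)  MP_022f22_nt, Lehmer problem in E^g, board modleg. Paper proof: /team-store/lehmer_eg_proof.md
Gain at S from gain at the base field F (paper 2.3, last sentence).  w place of L above v, s = σ(itn n b): w(evR v s f) = w(σ(algebraMap (evR v (itn n b) f))) (evR commutes with ring homs over Rv v), = w₂(algebraMap y) (place_conj), = w'(y)^c
(place_restrict).  w(ϖ) = w(σ ϖ) = w'(ϖ)^c, w(s_i) = w'(itn n b i)^c, max(x^c) 1 = (max x 1)^c.  Raise the inequality at w' to the power c.  (Fm A B commutes with algebraMap F L: Fm A B (algebraMap F L x) = algebraMap F L (Fm A B x), see LH/Fmc.)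
-/
import Mathlib
import Pool.Agent.Work.MP_022f22_nt.LG.Defs
import Pool.Agent.Work.MP_022f22_nt.LG.Rst
import Pool.Agent.Work.MP_022f22_nt.LG.Gpl
import Pool.Agent.Work.MP_022f22_nt.LH.Fmc

open NumberField IsDedekindDomain Polynomial Height Filter Topology LEH

namespace LEG

private theorem max_pow_one {x : ℝ} (hx : 0 ≤ x) (c : ℕ) : max (x ^ c) 1 = (max x 1) ^ c := by
  rcases le_total x 1 with h | h
  · rw [max_eq_right h, one_pow, max_eq_right (pow_le_one₀ hx h)]
  · rw [max_eq_left h, max_eq_left (one_le_pow₀ h)]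

private theorem evR_map {K F L : Type} [Field K] [NumberField K] [Field F]
    [Field L] [Algebra K F] [Algebra K L] [Algebra F L] [IsScalarTower K F L]
    (v : HeightOneSpectrum (𝓞 K)) {g : ℕ} (σ : L ≃ₐ[K] L) (t : Fin g → F) (s : Fin g → L)
    (hs : ∀ i, s i = σ (algebraMap F L (t i))) (f : MvPolynomial (Fin g) (Rv v)) :
    evR v s f = σ (algebraMap F L (evR v t f)) := by
  unfold evR
  have h1 := MvPolynomial.eval₂_comp_left (((σ : L ≃ₐ[K] L) : L →+* L).comp (algebraMap F L))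
    ((algebraMap K F).comp (algebraMap (Rv v) K)) t f
  have h2 : (((σ : L ≃ₐ[K] L) : L →+* L).comp (algebraMap F L)).comp
      ((algebraMap K F).comp (algebraMap (Rv v) K)) =
      (algebraMap K L).comp (algebraMap (Rv v) K) := by
    ext x
    show σ (algebraMap F L (algebraMap K F (algebraMap (Rv v) K x))) =
      algebraMap K L (algebraMap (Rv v) K x)
    rw [← IsScalarTower.algebraMap_apply, σ.commutes]
  have h3 : (((σ : L ≃ₐ[K] L) : L →+* L).comp (algebraMap F L)) ∘ t = s := by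
    funext i
    exact (hs i).symm
  rw [h2, h3] at h1
  rw [← h1]
  rfl

theorem gain_lift {K F L : Type} [Field K] [NumberField K] [Field F] [NumberField F]
    [Field L] [NumberField L] [Algebra K F] [Algebra K L] [Algebra F L] [IsScalarTower K F L]
    {v : HeightOneSpectrum (𝓞 K)} {ϖ : K} (hϖ : Unif v ϖ) (A B : K[X]) {g : ℕ} (b : Fin g → F)
    (S : Finset (Fin g → L)) (m J k : ℕ)
    (hS : ∀ s ∈ S, ∃ (σ : L ≃ₐ[K] L) (n : ℕ), m ≤ n ∧
      ∀ i, s i = σ (algebraMap F L ((Fm A B)^[n] (b i))))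
    (f : MvPolynomial (Fin g) (Rv v))
    (h : ∀ w : FinitePlace F, Above v w → ∀ n, m ≤ n → w (evR v (itn A B n b) f) ≤
      w (algebraMap K F ϖ) ^ J * ∏ i, (max (w (itn A B n b i)) 1) ^ (k - 1)) :
    Gain v ϖ S J k f := by
  intro w hw s hs
  obtain ⟨σ, n, hn, hsi⟩ := hS s hs
  obtain ⟨w₂, hw₂, h2⟩ := place_conj w hw σ
  obtain ⟨w', c, hc, hw', -, h3⟩ := place_restrict (F := F) w₂ hw₂
  have h4 := h w' hw' n hn
  have e1 : w (evR v s f) = w' (evR v (itn A B n b) f) ^ c := by
    rw [evR_map v σ (itn A B n b) s hsi f, h2, h3]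
  have e2 : w (algebraMap K L ϖ) = w' (algebraMap K F ϖ) ^ c := by
    rw [← σ.commutes ϖ, h2, IsScalarTower.algebraMap_apply K F L, h3]
  have e3 : ∀ i, w (s i) = w' (itn A B n b i) ^ c := by
    intro i
    rw [hsi i, h2, h3]
    rfl
  have h0 : ∀ x, 0 ≤ w' x := fun x => apply_nonneg w' x
  rw [e1, e2]
  refine (pow_le_pow_left₀ (h0 _) h4 c).trans (le_of_eq ?_)
  rw [mul_pow, ← Finset.prod_pow, ← pow_mul, ← pow_mul, mul_comm J c]
  congr 1
  refine Finset.prod_congr rfl fun i _ => ?_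
  rw [e3 i, max_pow_one (h0 _), ← pow_mul, ← pow_mul, mul_comm]

end LEG
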