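/-
LG/Rep (S)  MP_022f22_nt, Lehmer problem in E^g, board modleg. Paper proof: /team-store/lehmer_eg_proof.md
Representatives mod ϖ^M in Rv v.  T = image of representatives of 𝓞 K/v^M (cardinality absNorm(v)^M: Ideal.absNorm pow; Nat.card of the quotient).  For integers x, y: ϖ^M | x - y in Rv v implies
v.valuation (x - y) <= exp(-M), i.e. x - y in v^M (HeightOneSpectrum.intValuation_le_pow_iff_mem), so different classes are not congruent.
-/
import Mathlib
import Pool.Agent.Work.MP_022f22_nt.LG.Defs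

open NumberField IsDedekindDomain Polynomial Height Filter Topology LEH

namespace LEG

theorem reps {K : Type} [Field K] [NumberField K] (v : HeightOneSpectrum (𝓞 K)) {ϖ : K}
    (hϖ : Unif v ϖ) (M : ℕ) :
    ∃ T : Finset (Rv v), T.card = (Ideal.absNorm v.asIdeal) ^ M ∧
      ∀ x ∈ T, ∀ y ∈ T, v.valuation K ((x : K) - (y : K)) ≤ WithZero.exp (-(M : ℤ)) → x = y := by
  classical
  have hI : v.asIdeal ^ M ≠ ⊥ := pow_ne_zero _ v.ne_bot
  have hfin : Finite (𝓞 K ⧸ v.asIdeal ^ M) := Ideal.finiteQuotientOfFreeOfNeBot _ hI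
  let _ : Fintype (𝓞 K ⧸ v.asIdeal ^ M) := Fintype.ofFinite _
  let f : 𝓞 K ⧸ v.asIdeal ^ M → 𝓞 K := Function.surjInv Ideal.Quotient.mk_surjective
  have hf : ∀ a, Ideal.Quotient.mk (v.asIdeal ^ M) (f a) = a :=
    Function.surjInv_eq Ideal.Quotient.mk_surjective
  let g : 𝓞 K ⧸ v.asIdeal ^ M → Rv v := fun a =>
    ⟨(f a : K), (Valuation.mem_valuationSubring_iff _ _).2 (v.valuation_le_one (f a))⟩
  have hg : ∀ a, ((g a : Rv v) : K) = (f a : K) := fun a => rfl
  have hinj : Function.Injective g := by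
    intro a b hab
    have h1 : (f a : K) = (f b : K) := congrArg (fun z : Rv v => (z : K)) hab
    have h2 : f a = f b := RingOfIntegers.coe_injective h1
    rw [← hf a, ← hf b, h2]
  refine ⟨Finset.univ.image g, ?_, ?_⟩
  · rw [Finset.card_image_of_injective _ hinj, Finset.card_univ, ← map_pow,
      Ideal.absNorm_apply, Submodule.cardQuot_apply, Nat.card_eq_fintype_card]
  · intro x hx y hy hxy
    obtain ⟨a, -, rfl⟩ := Finset.mem_image.1 hx
    obtain ⟨b, -, rfl⟩ := Finset.mem_image.1 hy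
    rw [hg, hg] at hxy
    have h1 : (f a : K) - (f b : K) = algebraMap (𝓞 K) K (f a - f b) := by
      rw [map_sub]
    rw [h1, v.valuation_of_algebraMap, v.intValuation_le_pow_iff_mem] at hxy
    have h2 : a = b := by
      rw [← hf a, ← hf b]
      exact (Ideal.Quotient.mk_eq_mk_iff_sub_mem _ _).2 hxy
    rw [h2]

end LEG
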