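/-
LG/Bdc (M)  MP_022f22_nt, Lehmer problem in E^g, board modleg. Paper proof: /team-store/lehmer_eg_proof.md
Counting (paper 2.3).  j1 = 2 j0, M = j0 + 1, T from reps with exponent M.  For alpha : bad -> T let f_alpha = sum_u alpha_u x^(ex u) (Bx k, as ex u i < k).  H from gain_of_data (j1 = 2 j0), class maps cl_w from class_map w (t w).
Data(f) : (i < j1) x (w in V) -> class of H f w i.  If Data(f_alpha) = Data(f_beta), then w(H - H')^(Q^b') <= (nw w^(t w))^(-1))^(Q^b') <= w ϖ, so (gain_of_data, gain_lift) f_alpha - f_beta has Gain (2 j0).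
If alpha != beta: let c_u = alpha_u - beta_u, ϖ^t the exact power dividing all (t <= j0 since reps), f'' = (f_alpha - f_beta)/ϖ^t has coefficients in Rv v, one a unit, Gain (2 j0 - t) (divide by w(ϖ)^t), hence Gain j0 (2 j0 - t >= j0, w ϖ <= 1).
Its reduction is nonzero and its lexicographic leading exponent is ex u for some u in bad (support in bad): so u is not bad, contradiction.  Hence |T|^|bad| = q0^((j0+1)|bad|) <= prod_(i<j1) prod_w nw w^(t w) = exp(2 j0 sum t_w log nw w) <= q0^(2 j0 X).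
So (j0+1)|bad| <= 2 j0 X (log q0 > 0; X >= 0 as the sum is >= 0), |bad| <= 2X.
-/
import Mathlib
import Pool.Agent.Work.MP_022f22_nt.LG.Defs
import Pool.Agent.Work.MP_022f22_nt.LG.Clm
import Pool.Agent.Work.MP_022f22_nt.LG.Gnf
import Pool.Agent.Work.MP_022f22_nt.LG.Gnl
import Pool.Agent.Work.MP_022f22_nt.LG.Rep
import Pool.Agent.Work.MP_022f22_nt.LH.Vab

open NumberField IsDedekindDomain Polynomial Height Filter Topology LEH

namespace LEG

private theorem ex_apply {g k : ℕ} (u : Fin g → Fin k) (i : Fin g) : ex u i = (u i : ℕ) := rfl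

private theorem ex_inj {g k : ℕ} {u u' : Fin g → Fin k} (h : ex u = ex u') : u = u' := by
  funext i
  have h1 : ex u i = ex u' i := by rw [h]
  exact Fin.ext h1

open Classical in
private theorem coeff_pol {R : Type*} [CommSemiring R] {g k : ℕ} (Bd : Finset (Fin g → Fin k))
    (e : (Fin g → Fin k) → R) (m : Fin g →₀ ℕ) :
    (∑ u ∈ Bd, MvPolynomial.monomial (ex u) (e u)).coeff m =
      ∑ u ∈ Bd, if ex u = m then e u else 0 := by
  rw [MvPolynomial.coeff_sum]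
  refine Finset.sum_congr rfl fun u _ => ?_
  rw [MvPolynomial.coeff_monomial]

private theorem coeff_pol_mem {R : Type*} [CommSemiring R] {g k : ℕ}
    {Bd : Finset (Fin g → Fin k)} (e : (Fin g → Fin k) → R) {u : Fin g → Fin k} (hu : u ∈ Bd) :
    (∑ u ∈ Bd, MvPolynomial.monomial (ex u) (e u)).coeff (ex u) = e u := by
  classical
  rw [coeff_pol, Finset.sum_eq_single u]
  · rw [if_pos rfl]
  · intro u' _ hne
    rw [if_neg fun h => hne (ex_inj h)]
  · intro h
    exact absurd hu h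

private theorem coeff_pol_ne {R : Type*} [CommSemiring R] {g k : ℕ}
    {Bd : Finset (Fin g → Fin k)} {e : (Fin g → Fin k) → R} {m : Fin g →₀ ℕ}
    (h : (∑ u ∈ Bd, MvPolynomial.monomial (ex u) (e u)).coeff m ≠ 0) : ∃ u ∈ Bd, ex u = m := by
  classical
  rw [coeff_pol] at h
  obtain ⟨u, hu, hu'⟩ := Finset.exists_ne_zero_of_sum_ne_zero h
  refine ⟨u, hu, ?_⟩
  by_contra hne
  exact hu' (if_neg hne)

private theorem bx_pol {R : Type*} [CommSemiring R] {g k : ℕ} {Bd : Finset (Fin g → Fin k)}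
    (e : (Fin g → Fin k) → R) (hne : Bd.Nonempty) :
    Bx k (∑ u ∈ Bd, MvPolynomial.monomial (ex u) (e u)) := by
  intro i
  obtain ⟨u0, _⟩ := hne
  have hk : 0 < k := lt_of_le_of_lt (Nat.zero_le _) (u0 i).2
  rw [MvPolynomial.degreeOf_lt_iff hk]
  intro m hm
  rw [MvPolynomial.mem_support_iff] at hm
  obtain ⟨u, _, rfl⟩ := coeff_pol_ne hm
  rw [ex_apply]
  exact (u i).2

private theorem pol_core {K : Type} [Field K] [NumberField K] {v : HeightOneSpectrum (𝓞 K)}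
    {ϖ : K} (hϖ : Unif v ϖ) {L : Type} [Field L] [NumberField L]
    [Algebra K L] {g k : ℕ} (S : Finset (Fin g → L)) (j0 : ℕ) (c : (Fin g → Fin k) → Rv v)
    (Bd : Finset (Fin g → Fin k)) {u1 : Fin g → Fin k} (hu1 : u1 ∈ Bd)
    (hc : WithZero.exp (-((j0 + 1 : ℕ) : ℤ)) < v.valuation K (c u1 : K))
    (hG : Gain v ϖ S (2 * j0) k (∑ u ∈ Bd, MvPolynomial.monomial (ex u) (c u))) :
    ∃ u ∈ Bd, ∃ f : MvPolynomial (Fin g) (Rv v),
      Bx k f ∧ LMis v f (ex u) ∧ Gain v ϖ S j0 k f := by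
  have hϖ0 : ϖ ≠ 0 := by
    rintro rfl
    unfold Unif at hϖ
    rw [map_zero] at hϖ
    exact WithZero.exp_ne_zero hϖ.symm
  obtain ⟨u0, hu0, hmax⟩ := Finset.exists_max_image Bd (fun u => v.valuation K (c u : K)) ⟨u1, hu1⟩
  have hlt : WithZero.exp (-((j0 + 1 : ℕ) : ℤ)) < v.valuation K (c u0 : K) :=
    lt_of_lt_of_le hc (hmax u1 hu1)
  have hle1 : ∀ u, v.valuation K (c u : K) ≤ 1 := fun u => (c u).2
  have hne0 : v.valuation K (c u0 : K) ≠ 0 := (lt_of_le_of_lt zero_le hlt).ne'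
  obtain ⟨τ, hτ, hτj⟩ : ∃ τ : ℕ, v.valuation K (c u0 : K) = WithZero.exp (-(τ : ℤ)) ∧ τ ≤ j0 := by
    obtain ⟨z, hz⟩ : ∃ z : ℤ, v.valuation K (c u0 : K) = WithZero.exp z :=
      ⟨WithZero.log (v.valuation K (c u0 : K)), (WithZero.exp_log hne0).symm⟩
    have h1 : z ≤ 0 := by
      have h2 := hle1 u0
      rw [hz, ← WithZero.exp_zero, WithZero.exp_le_exp] at h2
      exact h2
    have h3 : -((j0 + 1 : ℕ) : ℤ) < z := by
      rw [hz, WithZero.exp_lt_exp] at hlt
      exact hlt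
    push_cast at h3
    refine ⟨(-z).toNat, ?_, by omega⟩
    rw [hz]
    have h4 : -(((-z).toNat : ℕ) : ℤ) = z := by omega
    rw [h4]
  have hvϖ : v.valuation K (ϖ ^ τ) = WithZero.exp (-(τ : ℤ)) := by
    rw [map_pow, hϖ, ← WithZero.exp_nsmul]
    simp
  have hϖR : ϖ ∈ Rv v := by
    change v.valuation K ϖ ≤ 1
    rw [hϖ, ← WithZero.exp_zero, WithZero.exp_le_exp]
    norm_num
  have hex : ∀ u ∈ Bd, ∃ e : Rv v, (c u : K) = ϖ ^ τ * (e : K) := by
    intro u hu
    have h1 : v.valuation K ((c u : K) / ϖ ^ τ) ≤ 1 := by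
      rw [map_div₀, hvϖ]
      refine div_le_one_of_le₀ ?_ zero_le
      rw [← hτ]
      exact hmax u hu
    exact ⟨⟨(c u : K) / ϖ ^ τ, h1⟩, (mul_div_cancel₀ _ (pow_ne_zero τ hϖ0)).symm⟩
  choose! e he using hex
  have hD : (∑ u ∈ Bd, MvPolynomial.monomial (ex u) (c u)) =
      MvPolynomial.C ((⟨ϖ, hϖR⟩ : Rv v) ^ τ) *
        ∑ u ∈ Bd, MvPolynomial.monomial (ex u) (e u) := by
    rw [Finset.mul_sum]
    refine Finset.sum_congr rfl fun u hu => ?_
    rw [MvPolynomial.C_mul_monomial]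
    have h1 : c u = (⟨ϖ, hϖR⟩ : Rv v) ^ τ * e u := by
      apply Subtype.ext
      rw [he u hu]
      rfl
    rw [h1]
  set f : MvPolynomial (Fin g) (Rv v) := ∑ u ∈ Bd, MvPolynomial.monomial (ex u) (e u) with hf
  have hmap : f.map (IsLocalRing.residue (Rv v)) =
      ∑ u ∈ Bd, MvPolynomial.monomial (ex u) (IsLocalRing.residue (Rv v) (e u)) := by
    rw [hf, map_sum]
    refine Finset.sum_congr rfl fun u _ => ?_
    rw [MvPolynomial.map_monomial]
  have hunit : IsUnit (e u0) := by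
    have h1 : v.valuation K (e u0 : K) = 1 := by
      have h2 := congrArg (v.valuation K) (he u0 hu0)
      rw [map_mul, hvϖ, hτ] at h2
      have h3 : (WithZero.exp (-(τ : ℤ)) : WithZero (Multiplicative ℤ)) ≠ 0 := WithZero.exp_ne_zero
      exact (mul_eq_left₀ h3).mp h2.symm
    have h4 : (e u0 : K) ≠ 0 := by
      intro h5
      rw [h5, map_zero] at h1
      exact zero_ne_one h1
    have h6 : v.valuation K ((e u0 : K)⁻¹) ≤ 1 := by rw [map_inv₀, h1, inv_one]
    refine IsUnit.of_mul_eq_one (⟨(e u0 : K)⁻¹, h6⟩ : Rv v) ?_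
    apply Subtype.ext
    exact mul_inv_cancel₀ h4
  have hmne : f.map (IsLocalRing.residue (Rv v)) ≠ 0 := by
    intro h0
    have h1 : (f.map (IsLocalRing.residue (Rv v))).coeff (ex u0) = 0 := by
      rw [h0, MvPolynomial.coeff_zero]
    rw [hmap, coeff_pol_mem _ hu0] at h1
    exact (IsLocalRing.residue_ne_zero_iff_isUnit (e u0)).mpr hunit h1
  have hdeg : (f.map (IsLocalRing.residue (Rv v))).coeff
      (MonomialOrder.lex.degree (f.map (IsLocalRing.residue (Rv v)))) ≠ 0 :=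
    MvPolynomial.mem_support_iff.mp (MonomialOrder.lex.degree_mem_support hmne)
  have hdeg2 := hdeg
  rw [hmap] at hdeg2
  obtain ⟨u, hu, hue⟩ := coeff_pol_ne hdeg2
  refine ⟨u, hu, f, bx_pol e ⟨u0, hu0⟩, ⟨hmne, ?_⟩, ?_⟩
  · rw [hue, hmap]
  · intro w hw s hs
    have h1 := hG w hw s hs
    have hw0 := above_unif (L := L) hw hϖ
    have h2 : evR v s (∑ u ∈ Bd, MvPolynomial.monomial (ex u) (c u)) =
        algebraMap K L ϖ ^ τ * evR v s f := by
      unfold evR
      rw [hD, MvPolynomial.eval₂_mul, MvPolynomial.eval₂_C, map_pow]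
      rfl
    rw [h2, map_mul, map_pow] at h1
    have h3 : w (algebraMap K L ϖ) ^ (2 * j0) =
        w (algebraMap K L ϖ) ^ τ * w (algebraMap K L ϖ) ^ (2 * j0 - τ) := by
      rw [← pow_add]
      congr 1
      omega
    rw [h3, mul_assoc] at h1
    have h4 := le_of_mul_le_mul_left h1 (pow_pos hw0.1 τ)
    refine h4.trans (mul_le_mul_of_nonneg_right ?_ ?_)
    · exact pow_le_pow_of_le_one hw0.1.le hw0.2.le (by omega)
    · exact Finset.prod_nonneg fun i _ => pow_nonneg (le_trans zero_le_one (le_max_right _ _)) _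

theorem bad_count {K : Type} [Field K] [NumberField K] {v : HeightOneSpectrum (𝓞 K)}
    {W : WeierstrassCurve K} {p N Q : ℕ} {A B : K[X]} (hs : Setup K v W p N Q A B)
    {ϖ : K} (hϖ : Unif v ϖ) {F L : Type} [Field F] [NumberField F] [Field L] [NumberField L]
    [Algebra K F] [Algebra K L] [Algebra F L] [IsScalarTower K F L] {g : ℕ} (b : Fin g → F)
    (hb : ∀ i n, (B.map (algebraMap K F)).eval ((Fm A B)^[n] (b i)) ≠ 0)
    (S : Finset (Fin g → L)) (j0 b' k : ℕ) (hj : 1 ≤ j0)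
    (hS : ∀ s ∈ S, ∃ (σ : L ≃ₐ[K] L) (n : ℕ), 2 * j0 + b' ≤ n ∧
      ∀ i, s i = σ (algebraMap F L ((Fm A B)^[n] (b i))))
    (V : Finset (FinitePlace F)) (hV : ∀ w, w ∈ V ↔ Above v w) (t : FinitePlace F → ℕ)
    (ht : ∀ w ∈ V, ((nw w ^ (t w))⁻¹) ^ (Q ^ b') ≤ w (algebraMap K F ϖ)) (X : ℝ)
    (hX : ∑ w ∈ V, (t w : ℝ) * Real.log (nw w) ≤ X * Real.log (Ideal.absNorm v.asIdeal)) :
    ((bad v ϖ S j0 k).card : ℝ) ≤ 2 * X := by
  classical
  obtain ⟨H, hH1, hH2⟩ := gain_of_data hs hϖ b hb (2 * j0) b' k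
  choose C fC cl hcard hcl using fun w : FinitePlace F => class_map w (t w)
  obtain ⟨T, hTc, hT⟩ := reps v hϖ (j0 + 1)
  obtain ⟨Bd, hBd⟩ : ∃ Bd, Bd = bad v ϖ S j0 k := ⟨_, rfl⟩
  rw [← hBd]
  have hq0 : 1 < (Ideal.absNorm v.asIdeal : ℝ) := by
    exact_mod_cast HeightOneSpectrum.one_lt_absNorm v
  have hlq : 0 < Real.log (Ideal.absNorm v.asIdeal) := Real.log_pos hq0
  have hC1 : ∀ w : FinitePlace F, (1 : ℝ) ≤ nw w ^ t w := by
    intro w
    rw [← hcard w]
    have h1 : 0 < Fintype.card (C w) := Fintype.card_pos_iff.mpr ⟨cl w 0⟩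
    exact_mod_cast h1
  have hsum0 : 0 ≤ ∑ w ∈ V, (t w : ℝ) * Real.log (nw w) := by
    refine Finset.sum_nonneg fun w _ => ?_
    rw [← Real.log_pow]
    exact Real.log_nonneg (hC1 w)
  have hX0 : 0 ≤ X := by
    by_contra hneg
    push Not at hneg
    have h1 : X * Real.log (Ideal.absNorm v.asIdeal) < 0 := mul_neg_of_neg_of_pos hneg hlq
    linarith
  rcases Bd.eq_empty_or_nonempty with hemp | hne
  · rw [hemp, Finset.card_empty, Nat.cast_zero]
    positivity
  obtain ⟨cf, hcf⟩ : ∃ cf : (↥Bd → ↥T) → (Fin g → Fin k) → Rv v,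
      ∀ α (u : ↥Bd), cf α u.1 = (α u).1 := by
    refine ⟨fun α u => if h : u ∈ Bd then (α ⟨u, h⟩).1 else 0, fun α u => ?_⟩
    simp only
    rw [dif_pos u.2]
  obtain ⟨pf, hpf⟩ : ∃ pf : (↥Bd → ↥T) → MvPolynomial (Fin g) (Rv v),
      ∀ α, pf α = ∑ u ∈ Bd, MvPolynomial.monomial (ex u) (cf α u) := ⟨_, fun _ => rfl⟩
  have hinj : Function.Injective (fun (α : ↥Bd → ↥T) (i : Fin (2 * j0)) (w : ↥V) =>
      cl w.1 (H (pf α) w.1 i.1)) := by
    intro α β hαβ
    by_contra hneq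
    obtain ⟨u1, hu1⟩ := Function.ne_iff.mp hneq
    have hG : Gain v ϖ S (2 * j0) k (pf α - pf β) := by
      refine gain_lift hϖ A B b S (2 * j0 + b') (2 * j0) k hS (pf α - pf β) ?_
      intro w hw n hn
      refine hH2 (pf α) (pf β) ?_ ?_ w hw ?_ n hn
      · rw [hpf]
        exact bx_pol _ hne
      · rw [hpf]
        exact bx_pol _ hne
      · intro i hi
        have hwV : w ∈ V := (hV w).mpr hw
        have h1 : cl w (H (pf α) w i) = cl w (H (pf β) w i) :=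
          congrFun (congrFun hαβ ⟨i, hi⟩) ⟨w, hwV⟩
        have h2 := hcl w _ _ (hH1 (pf α) w i hw) (hH1 (pf β) w i hw) h1
        exact (pow_le_pow_left₀ (apply_nonneg w _) h2 _).trans (ht w hwV)
    have hdiff : pf α - pf β =
        ∑ u ∈ Bd, MvPolynomial.monomial (ex u) (cf α u - cf β u) := by
      rw [hpf, hpf, ← Finset.sum_sub_distrib]
      refine Finset.sum_congr rfl fun u _ => ?_
      rw [map_sub]
    rw [hdiff] at hG
    have hval : WithZero.exp (-((j0 + 1 : ℕ) : ℤ)) <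
        v.valuation K (((cf α u1.1 - cf β u1.1 : Rv v)) : K) := by
      by_contra hle
      push Not at hle
      apply hu1
      apply Subtype.ext
      rw [hcf, hcf] at hle
      exact hT _ (α u1).2 _ (β u1).2 hle
    obtain ⟨u, hu, hu'⟩ := pol_core hϖ S j0 (fun u => cf α u - cf β u) Bd u1.2 hval hG
    rw [hBd] at hu
    exact (Finset.mem_filter.mp hu).2 hu'
  have hcnt := Fintype.card_le_of_injective _ hinj
  rw [Fintype.card_fun, Fintype.card_coe, Fintype.card_coe, hTc, Fintype.card_fun,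
    Fintype.card_fin, Fintype.card_pi] at hcnt
  have hprod : ((∏ w : ↥V, Fintype.card (C w.1) : ℕ) : ℝ) = ∏ w ∈ V, nw w ^ t w := by
    push_cast
    rw [← Finset.prod_coe_sort V (fun w => nw w ^ t w)]
    exact Finset.prod_congr rfl fun w _ => hcard w.1
  have hcntR : (((Ideal.absNorm v.asIdeal : ℝ)) ^ (j0 + 1)) ^ Bd.card ≤
      (∏ w ∈ V, nw w ^ t w) ^ (2 * j0) := by
    rw [← hprod]
    exact_mod_cast hcnt
  have hlog := Real.log_le_log (by positivity) hcntR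
  rw [Real.log_pow, Real.log_pow, Real.log_pow, Real.log_prod
    (fun w _ => (lt_of_lt_of_le zero_lt_one (hC1 w)).ne')] at hlog
  have hlog2 : ∑ w ∈ V, Real.log (nw w ^ t w) ≤ X * Real.log (Ideal.absNorm v.asIdeal) := by
    refine le_trans (le_of_eq ?_) hX
    exact Finset.sum_congr rfl fun w _ => Real.log_pow _ _
  have h1 : ((Bd.card : ℝ) * ((j0 + 1 : ℕ) : ℝ)) * Real.log (Ideal.absNorm v.asIdeal) ≤
      (((2 * j0 : ℕ) : ℝ) * X) * Real.log (Ideal.absNorm v.asIdeal) := by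
    calc ((Bd.card : ℝ) * ((j0 + 1 : ℕ) : ℝ)) * Real.log (Ideal.absNorm v.asIdeal)
        = (Bd.card : ℝ) * (((j0 + 1 : ℕ) : ℝ) * Real.log (Ideal.absNorm v.asIdeal)) := by ring
      _ ≤ ((2 * j0 : ℕ) : ℝ) * ∑ w ∈ V, Real.log (nw w ^ t w) := hlog
      _ ≤ ((2 * j0 : ℕ) : ℝ) * (X * Real.log (Ideal.absNorm v.asIdeal)) :=
        mul_le_mul_of_nonneg_left hlog2 (Nat.cast_nonneg _)
      _ = _ := by ring
  have h2 := le_of_mul_le_mul_right h1 hlq
  push_cast at h2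
  have hj0 : (0 : ℝ) ≤ (j0 : ℝ) := Nat.cast_nonneg _
  have h3 : (Bd.card : ℝ) * ((j0 : ℝ) + 1) ≤ 2 * X * ((j0 : ℝ) + 1) := by
    have h4 : 2 * (j0 : ℝ) * X ≤ 2 * X * ((j0 : ℝ) + 1) := by nlinarith
    exact h2.trans h4
  exact le_of_mul_le_mul_right h3 (by linarith)

end LEG
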