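/-
LG/Tcd (S)  MP_022f22_nt, Lehmer problem in E^g, board modleg. Paper proof: /team-store/lehmer_eg_proof.md
|torb b| = [K(b):K] for L/K Galois.  torb b is the orbit; stabilizer of b = fixingSubgroup of K(b) (IntermediateField.adjoin K (range b)); orbit-stabilizer, card (L ≃ₐ[K] L) = finrank K L, card of the fixing subgroup = finrank K(b) L
(IntermediateField.finrank_fixedField_eq_card / IsGalois.card_fixingSubgroup_eq_finrank), finrank tower.
-/
import Mathlib
import Pool.Agent.Work.MP_022f22_nt.LG.Defs

open NumberField IsDedekindDomain Polynomial Height Filter Topology LEH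

namespace LEG

theorem torb_card {K L : Type*} [Field K] [Field L] [Algebra K L] [FiniteDimensional K L]
    [IsGalois K L] {g : ℕ} (b : Fin g → L) :
    (torb K b).card = Module.finrank K (IntermediateField.adjoin K (Set.range b)) := by
  classical
  let act : MulAction (L ≃ₐ[K] L) (Fin g → L) :=
    { smul := fun σ c i => σ (c i)
      one_smul := fun c => rfl
      mul_smul := fun σ τ c => rfl }
  let _ := act
  have h1 : MulAction.stabilizer (L ≃ₐ[K] L) b =
      (IntermediateField.adjoin K (Set.range b)).fixingSubgroup := by
    ext σ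
    rw [MulAction.mem_stabilizer_iff, IntermediateField.mem_fixingSubgroup_iff]
    constructor
    · intro h x hx
      have h2 : ∀ y ∈ Set.range b, σ y = y := by
        rintro y ⟨i, rfl⟩
        exact congrFun h i
      induction hx using IntermediateField.adjoin_induction with
      | mem x hx => exact h2 x hx
      | algebraMap x => exact σ.commutes x
      | add x y _ _ hx hy => rw [map_add, hx, hy]
      | inv x _ hx => rw [map_inv₀, hx]
      | mul x y _ _ hx hy => rw [map_mul, hx, hy]
    · intro h
      funext i
      exact h (b i) (IntermediateField.subset_adjoin K _ ⟨i, rfl⟩)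
  have h2 : MulAction.orbit (L ≃ₐ[K] L) b = ((torb K b : Finset (Fin g → L)) : Set (Fin g → L)) := by
    ext c
    unfold torb
    rw [Finset.coe_image, Finset.coe_univ, Set.image_univ]
    rfl
  have h3 : (torb K b).card = (MulAction.stabilizer (L ≃ₐ[K] L) b).index := by
    rw [MulAction.index_stabilizer, h2, Set.ncard_coe_finset]
  have h4 : Module.finrank K (IntermediateField.adjoin K (Set.range b)) *
      Module.finrank (IntermediateField.adjoin K (Set.range b)) L = Module.finrank K L :=
    Module.finrank_mul_finrank K (IntermediateField.adjoin K (Set.range b)) L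
  rw [← IsGalois.card_fixingSubgroup_eq_finrank (IntermediateField.adjoin K (Set.range b)),
    ← IsGalois.card_aut_eq_finrank K L,
    ← Subgroup.index_mul_card (IntermediateField.adjoin K (Set.range b)).fixingSubgroup] at h4
  rw [h3, h1]
  exact (Nat.eq_of_mul_eq_mul_right Nat.card_pos h4).symm

theorem self_mem_torb {K L : Type*} [Field K] [Field L] [Algebra K L] [FiniteDimensional K L]
    {g : ℕ} (b : Fin g → L) : b ∈ torb K b := by
  classical
  unfold torb
  rw [Finset.mem_image]
  exact ⟨1, Finset.mem_univ _, rfl⟩

theorem mem_torb {K L : Type*} [Field K] [Field L] [Algebra K L] [FiniteDimensional K L]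
    {g : ℕ} (b c : Fin g → L) : c ∈ torb K b ↔ ∃ σ : L ≃ₐ[K] L, (fun i => σ (b i)) = c := by
  classical
  unfold torb
  rw [Finset.mem_image]
  simp only [Finset.mem_univ, true_and]

theorem torb_eq_of_mem {K L : Type*} [Field K] [Field L] [Algebra K L] [FiniteDimensional K L]
    {g : ℕ} {b c : Fin g → L} (h : c ∈ torb K b) : torb K c = torb K b := by
  rw [mem_torb] at h
  obtain ⟨σ, rfl⟩ := h
  ext d
  rw [mem_torb, mem_torb]
  constructor
  · rintro ⟨τ, rfl⟩
    exact ⟨τ * σ, rfl⟩
  · rintro ⟨τ, rfl⟩
    refine ⟨τ * σ⁻¹, ?_⟩
    funext i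
    show τ (σ⁻¹ (σ (b i))) = τ (b i)
    congr 1
    exact AlgEquiv.symm_apply_apply σ (b i)

end LEG
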