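/-
LG/Stf (M)  MP_022f22_nt, Lehmer problem in E^g, board modleg. Paper proof: /team-store/lehmer_eg_proof.md
Stabilizers.  stb_le: cj_nsmul.  torb_index: the orbit of xt P under G is a quotient of G/Stb P: |torb| <= index; the fibre: σ with σ(xt P) = xt P has cj σ (P i) = ± P i (LH/CjP eq_or_neg, cj_xc; P i != 0), so [Stab(xt P) : Stb P] <= 2^g
(map σ ↦ (sign i) injective on cosets; or: index (Stb P) <= |image of G in tuples (x, y)| ...).  index_finrank: index of H = finrank K (fixedField H) (IntermediateField.finrank_fixedField_eq_card, card G = finrank K L).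
xc_mem: τ (xc (P i)) = xc (cj τ (P i)) = xc (P i) for τ in Stb P (cj_xc), so it lies in the fixed field.
-/
import Mathlib
import Pool.Agent.Work.MP_022f22_nt.LG.Defs
import Pool.Agent.Work.MP_022f22_nt.LG.Tcd

open NumberField IsDedekindDomain Polynomial Height Filter Topology LEH

namespace LEG

variable {K L : Type} [Field K] [NumberField K] [Field L] [NumberField L] [Algebra K L]
  [FiniteDimensional K L] [DecidableEq L] {W : WeierstrassCurve K} {g : ℕ}

open Classical in
private noncomputable def stfAct (K L : Type) [Field K] [NumberField K] [Field L]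
    [NumberField L] [Algebra K L] [DecidableEq L] (W : WeierstrassCurve K) (g : ℕ) :
    MulAction (L ≃ₐ[K] L) (Fin g → (W.baseChange L).toAffine.Point) where
  smul := fun σ P i => cj σ (P i)
  one_smul := fun P => by
    funext i
    exact cj_one (P i)
  mul_smul := fun σ τ P => by
    funext i
    exact cj_mul σ τ (P i)

open Classical in
private theorem stf_orb (P : Fin g → (W.baseChange L).toAffine.Point) :
    ((Finset.univ : Finset (L ≃ₐ[K] L)).image (fun σ (i : Fin g) => cj σ (P i))).card =
      (Stb P).index := by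
  let _ := stfAct K L W g
  have h1 : MulAction.stabilizer (L ≃ₐ[K] L) P = Stb P := by
    ext σ
    rw [MulAction.mem_stabilizer_iff]
    constructor
    · intro h i
      exact congrFun h i
    · intro h
      funext i
      exact h i
  have h2 : MulAction.orbit (L ≃ₐ[K] L) P =
      (((Finset.univ : Finset (L ≃ₐ[K] L)).image (fun σ (i : Fin g) => cj σ (P i)) :
        Finset (Fin g → (W.baseChange L).toAffine.Point)) :
        Set (Fin g → (W.baseChange L).toAffine.Point)) := by
    ext Q
    rw [Finset.coe_image, Finset.coe_univ, Set.image_univ]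
    rfl
  rw [← h1, MulAction.index_stabilizer, h2, Set.ncard_coe_finset]

open Classical in
private theorem stf_image (P : Fin g → (W.baseChange L).toAffine.Point) :
    torb K (xt P) = ((Finset.univ : Finset (L ≃ₐ[K] L)).image
      (fun σ (i : Fin g) => cj σ (P i))).image (fun Q i => xc (Q i)) := by
  ext b
  simp only [torb, Finset.mem_image, Finset.mem_univ, true_and]
  constructor
  · rintro ⟨σ, rfl⟩
    exact ⟨_, ⟨σ, rfl⟩, funext fun i => cj_xc σ (P i)⟩
  · rintro ⟨Q, ⟨σ, rfl⟩, rfl⟩
    exact ⟨σ, funext fun i => (cj_xc σ (P i)).symm⟩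

theorem stb_le (P : Fin g → (W.baseChange L).toAffine.Point) (n : ℕ) :
    Stb P ≤ Stb (fun i => n • P i) := by
  intro σ hσ i
  rw [cj_nsmul, hσ i]

theorem torb_index (P : Fin g → (W.baseChange L).toAffine.Point) (hP : ∀ i, P i ≠ 0) :
    (torb K (xt P)).card ≤ (Stb P).index ∧ (Stb P).index ≤ 2 ^ g * (torb K (xt P)).card := by
  classical
  rw [stf_image P, ← stf_orb P]
  refine ⟨Finset.card_image_le, ?_⟩
  apply Finset.card_le_mul_card_image
  intro b hb
  rw [Finset.mem_image] at hb
  obtain ⟨Q₀, hQ₀, rfl⟩ := hb
  have hne : ∀ Q ∈ (Finset.univ : Finset (L ≃ₐ[K] L)).image (fun σ (i : Fin g) => cj σ (P i)),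
      ∀ i, Q i ≠ 0 := by
    intro Q hQ i h0
    rw [Finset.mem_image] at hQ
    obtain ⟨σ, _, rfl⟩ := hQ
    exact hP i ((cj_eq_zero σ (P i)).1 h0)
  have hcard : (2 : ℕ) ^ g = ((Finset.univ : Finset (Fin g → Bool))).card := by
    rw [Finset.card_univ, Fintype.card_fun, Fintype.card_bool, Fintype.card_fin]
  rw [hcard]
  refine le_trans (Finset.card_le_card ?_) (Finset.card_image_le
    (s := (Finset.univ : Finset (Fin g → Bool)))
    (f := fun (e : Fin g → Bool) (i : Fin g) => if e i = true then Q₀ i else -(Q₀ i)))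
  intro Q hQ
  rw [Finset.mem_filter] at hQ
  obtain ⟨hQ1, hQ2⟩ := hQ
  rw [Finset.mem_image]
  refine ⟨fun i => decide (Q i = Q₀ i), Finset.mem_univ _, ?_⟩
  funext i
  have h1 := eq_or_neg (hne Q hQ1 i) (hne Q₀ hQ₀ i) (congrFun hQ2 i)
  by_cases h2 : Q i = Q₀ i
  · simp only [h2, decide_true, if_true]
  · simp only [h2, decide_false, Bool.false_eq_true, if_false]
    exact (h1.resolve_left h2).symm

theorem index_finrank [IsGalois K L] (H : Subgroup (L ≃ₐ[K] L)) :
    Module.finrank K (IntermediateField.fixedField H) = H.index := by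
  have h1 : Module.finrank K (IntermediateField.fixedField H) *
      Module.finrank (IntermediateField.fixedField H) L = Module.finrank K L :=
    Module.finrank_mul_finrank K (IntermediateField.fixedField H) L
  rw [IntermediateField.finrank_fixedField_eq_card, ← IsGalois.card_aut_eq_finrank K L,
    ← Subgroup.index_mul_card H] at h1
  exact Nat.eq_of_mul_eq_mul_right Nat.card_pos h1

theorem xc_mem (P : Fin g → (W.baseChange L).toAffine.Point) (i : Fin g) :
    xc (P i) ∈ IntermediateField.fixedField (Stb P) := by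
  rw [IntermediateField.mem_fixedField_iff]
  intro τ hτ
  rw [← cj_xc, hτ i]

end LEG
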