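/-
LG/Bdd (S)  MP_022f22_nt, Lehmer problem in E^g, board modleg. Paper proof: /team-store/lehmer_eg_proof.md
Bounded degree.  LH/PrC propC for P 0: exp(-(C loss d)) <= d hx(xc (P 0)), d = dg K (xc (P 0)) <= |torb (xt P)| <= (Stb P).index <= D0 (dg K a = card of the orbit of one coordinate: image of torb under s ↦ s 0; orbF ⊤; torb_index).  loss monotone (LH/Fin loss_mono): exp(-C loss D0)/D0.
Other terms >= 0 (LH/Hxl hx_nonneg; W.Δ != 0 from GoodRed).
-/
import Mathlib
import Pool.Agent.Work.MP_022f22_nt.LG.Defs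
import Pool.Agent.Work.MP_022f22_nt.LG.Stf
import Pool.Agent.Work.MP_022f22_nt.LH.PrC
import Pool.Agent.Work.MP_022f22_nt.LH.Fin
import Pool.Agent.Work.MP_022f22_nt.LH.Hxl

open NumberField IsDedekindDomain Polynomial Height Filter Topology LEH

namespace LEG

open Classical in
theorem bounded {K : Type} [Field K] [NumberField K] {v : HeightOneSpectrum (𝓞 K)}
    {W : WeierstrassCurve K} {p N Q : ℕ} {A B : K[X]} (hs : Setup K v W p N Q A B)
    (g : ℕ) (hg : 1 ≤ g) (D0 : ℕ) :
    ∃ c : ℝ, 0 < c ∧ ∀ (L : Type) [Field L] [NumberField L] [Algebra K L]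
      [FiniteDimensional K L] [IsGalois K L]
      (P : Fin g → (W.baseChange L).toAffine.Point) (_ : ∀ i, NT (P i))
      (_ : (Stb P).index ≤ D0), c ≤ ∑ i, hx (W.baseChange L) (xc (P i)) := by
  obtain ⟨C, hC, H⟩ := propC hs
  have hΔ : W.Δ ≠ 0 := by
    intro h0
    have := hs.good.disc
    rw [h0] at this
    simp at this
  refine ⟨Real.exp (-(C * loss (max D0 1))) / ((max D0 1 : ℕ) : ℝ), by positivity, ?_⟩
  intro L _ _ _ _ _ P hP hD
  have hP0 : ∀ i, P i ≠ 0 := by
    intro i h0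
    exact hP i 1 one_pos (by rw [one_nsmul]; exact h0)
  have h1 := H L (P ⟨0, hg⟩) (hP _)
  have hd1 : 1 ≤ dg K (xc (P ⟨0, hg⟩)) := dg_pos (K := K) _
  have hd2 : dg K (xc (P ⟨0, hg⟩)) ≤ max D0 1 := by
    have h2 : dg K (xc (P ⟨0, hg⟩)) ≤ (torb K (xt P)).card := by
      unfold dg
      have h3 : orbF (⊤ : Subgroup (L ≃ₐ[K] L)) (xc (P ⟨0, hg⟩)) ⊆
          (torb K (xt P)).image (fun s => s ⟨0, hg⟩) := by
        intro y hy
        unfold orbF at hy
        rw [Finset.mem_image] at hy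
        obtain ⟨σ, _, rfl⟩ := hy
        rw [Finset.mem_image]
        refine ⟨fun i => (σ : L ≃ₐ[K] L) (xt P i), ?_, rfl⟩
        unfold torb
        rw [Finset.mem_image]
        exact ⟨_, Finset.mem_univ _, rfl⟩
      exact le_trans (Finset.card_le_card h3) Finset.card_image_le
    have h4 := (torb_index P hP0).1
    omega
  set d := dg K (xc (P ⟨0, hg⟩)) with hd
  have hdr : (0 : ℝ) < d := by exact_mod_cast hd1
  have h5 : Real.exp (-(C * loss (max D0 1))) ≤ Real.exp (-(C * loss d)) := by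
    apply Real.exp_le_exp.2
    have := mul_le_mul_of_nonneg_left (loss_mono hd1 hd2) hC.le
    linarith
  have h6 : Real.exp (-(C * loss d)) / d ≤ hx (W.baseChange L) (xc (P ⟨0, hg⟩)) := by
    rw [div_le_iff₀ hdr]
    linarith
  have h7 : Real.exp (-(C * loss (max D0 1))) / ((max D0 1 : ℕ) : ℝ) ≤
      Real.exp (-(C * loss d)) / d := by
    apply div_le_div₀ (Real.exp_pos _).le h5 hdr
    exact_mod_cast hd2
  refine le_trans h7 (le_trans h6 ?_)
  exact Finset.single_le_sum (f := fun i => hx (W.baseChange L) (xc (P i)))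
    (fun i _ => hx_nonneg W hΔ L (xc (P i))) (Finset.mem_univ (⟨0, hg⟩ : Fin g))

end LEG
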