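/-
LG/Lmm (S)  MP_022f22_nt, Lehmer problem in E^g, board modleg. Paper proof: /team-store/lehmer_eg_proof.md
Leading exponents of products.  map residue is a ring hom, the residue field is a field: MonomialOrder.degree_mul / degree_pow (domain), degree of a monomial.  (MvPolynomial.monomial a 1).map = monomial a 1.
-/
import Mathlib
import Pool.Agent.Work.MP_022f22_nt.LG.Defs

open NumberField IsDedekindDomain Polynomial Height Filter Topology LEH

namespace LEG

theorem lm_mul {K : Type} [Field K] [NumberField K] (v : HeightOneSpectrum (𝓞 K)) {g : ℕ}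
    (f : MvPolynomial (Fin g) (Rv v)) (u a : Fin g →₀ ℕ) (d : ℕ) (h : LMis v f u) :
    LMis v (MvPolynomial.monomial a 1 * f ^ d) (a + d • u) := by
  classical
  obtain ⟨h1, h2⟩ := h
  have h3 : (MvPolynomial.monomial a (1 : Rv v) * f ^ d).map (IsLocalRing.residue (Rv v)) =
      MvPolynomial.monomial a 1 * (f.map (IsLocalRing.residue (Rv v))) ^ d := by
    rw [map_mul, map_pow, MvPolynomial.map_monomial, map_one]
  have h4 : (MvPolynomial.monomial a (1 : IsLocalRing.ResidueField (Rv v))) ≠ 0 := by
    rw [Ne, MvPolynomial.monomial_eq_zero]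
    exact one_ne_zero
  have h5 := pow_ne_zero d h1
  refine ⟨?_, ?_⟩
  · rw [h3]
    exact mul_ne_zero h4 h5
  · rw [h3, MonomialOrder.degree_mul h4 h5, MonomialOrder.degree_pow, h2,
      MonomialOrder.degree_monomial, if_neg one_ne_zero]

end LEG
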