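/-
LG/Bdm (M)  MP_022f22_nt, Lehmer problem in E^g, board modleg. Paper proof: /team-store/lehmer_eg_proof.md
Staircase (paper 2.2).  Map u in bad(dJ,dk) to (q, r) with u i = d q i + r i, q i < k, r i < d: injective; q is in bad(J,k): otherwise f with Bx k, LMis f (ex q), Gain J; then F = monomial (ex r) 1 * f^d has Bx (d k)
(degreeOf <= r_i + d (k-1) <= dk - 1), LMis F (ex r + d • ex q) = ex u (lm_mul), Gain (dJ) (dk): w(F(s)) = prod w(s_i)^(r_i) w(f(s))^d <= prod max^(r_i) (ρ^J prod max^(k-1))^d, r_i + d(k-1) <= dk - 1.  If k = 0 everything is trivial (Fin 0).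
-/
import Mathlib
import Pool.Agent.Work.MP_022f22_nt.LG.Defs
import Pool.Agent.Work.MP_022f22_nt.LG.Lmm

open NumberField IsDedekindDomain Polynomial Height Filter Topology LEH

namespace LEG

private theorem bx_mono_mul {R : Type*} [CommSemiring R] [Nontrivial R] {g k d : ℕ}
    {f : MvPolynomial (Fin g) R}
    (hf : Bx k f) (a : Fin g →₀ ℕ) (ha : ∀ i, a i < d) :
    Bx (d * k) (MvPolynomial.monomial a 1 * f ^ d) := by
  intro i
  have h1 := MvPolynomial.degreeOf_mul_le i (MvPolynomial.monomial a (1 : R)) (f ^ d)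
  have h2 := MvPolynomial.degreeOf_pow_le i f d
  have h3 : (MvPolynomial.monomial a (1 : R)).degreeOf i = a i :=
    MvPolynomial.degreeOf_monomial_eq a i one_ne_zero
  have h4 := hf i
  have h5 := ha i
  rw [h3] at h1
  have h6 : d * (f.degreeOf i + 1) ≤ d * k := Nat.mul_le_mul_left _ h4
  have h7 : d * (f.degreeOf i + 1) = d * f.degreeOf i + d := by ring
  omega

private theorem evR_mono_mul {K L : Type} [Field K] [NumberField K] [Field L] [Algebra K L]
    (v : HeightOneSpectrum (𝓞 K)) {g : ℕ} (s : Fin g → L) (f : MvPolynomial (Fin g) (Rv v))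
    (a : Fin g →₀ ℕ) (d : ℕ) :
    evR v s (MvPolynomial.monomial a 1 * f ^ d) = (∏ i, s i ^ a i) * evR v s f ^ d := by
  unfold evR
  rw [MvPolynomial.eval₂_mul, MvPolynomial.eval₂_pow, MvPolynomial.eval₂_monomial, map_one,
    one_mul, Finsupp.prod_fintype]
  intro i
  exact pow_zero _

theorem bad_mul {K L : Type} [Field K] [NumberField K] [Field L] [NumberField L] [Algebra K L]
    (v : HeightOneSpectrum (𝓞 K)) (ϖ : K) {g : ℕ} (S : Finset (Fin g → L)) (J k d : ℕ)
    (hd : 1 ≤ d) :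
    (bad v ϖ S (d * J) (d * k)).card ≤ d ^ g * (bad v ϖ S J k).card := by
  classical
  have hq : ∀ (u : Fin g → Fin (d * k)) (i : Fin g), (u i : ℕ) / d < k := fun u i =>
    Nat.div_lt_of_lt_mul (u i).2
  have hr : ∀ (u : Fin g → Fin (d * k)) (i : Fin g), (u i : ℕ) % d < d := fun u i =>
    Nat.mod_lt _ hd
  have hcard : ((Finset.univ : Finset (Fin g → Fin d)) ×ˢ bad v ϖ S J k).card =
      d ^ g * (bad v ϖ S J k).card := by
    rw [Finset.card_product, Finset.card_univ, Fintype.card_fun, Fintype.card_fin,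
      Fintype.card_fin]
  rw [← hcard]
  refine Finset.card_le_card_of_injOn
    (fun u => ((fun i => ⟨(u i : ℕ) % d, hr u i⟩, fun i => ⟨(u i : ℕ) / d, hq u i⟩) :
      (Fin g → Fin d) × (Fin g → Fin k))) ?_ ?_
  · intro u hu
    rw [Finset.mem_coe] at hu ⊢
    rw [Finset.mem_product]
    refine ⟨Finset.mem_univ _, ?_⟩
    unfold bad at hu ⊢
    rw [Finset.mem_filter] at hu ⊢
    refine ⟨Finset.mem_univ _, ?_⟩
    rintro ⟨f, hf1, hf2, hf3⟩
    refine hu.2 ?_
    obtain ⟨a, ha⟩ : ∃ a : Fin g →₀ ℕ, ∀ i, a i = (u i : ℕ) % d :=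
      ⟨Finsupp.equivFunOnFinite.symm fun i => (u i : ℕ) % d, fun i => rfl⟩
    have hav : ∀ i, a i < d := fun i => by rw [ha]; exact hr u i
    have hk : ∀ i : Fin g, 1 ≤ k := fun i => (Nat.zero_le _).trans_lt (hq u i)
    refine ⟨MvPolynomial.monomial a 1 * f ^ d, bx_mono_mul hf1 a hav, ?_, ?_⟩
    · have h1 := lm_mul v f _ a d hf2
      convert h1 using 1
      ext i
      rw [Finsupp.add_apply, Finsupp.smul_apply, ha]
      show (u i : ℕ) = (u i : ℕ) % d + d • ((u i : ℕ) / d)
      rw [smul_eq_mul]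
      exact (Nat.mod_add_div _ _).symm
    · intro w hw s hs
      have h1 := hf3 w hw s hs
      rw [evR_mono_mul, map_mul, map_pow, map_prod]
      have hm : ∀ i, (1 : ℝ) ≤ max (w (s i)) 1 := fun i => le_max_right _ _
      have hm0 : ∀ i, (0 : ℝ) ≤ max (w (s i)) 1 := fun i => zero_le_one.trans (hm i)
      have hw0 : ∀ x, 0 ≤ w x := fun x => apply_nonneg w x
      have h2 : ∏ i, w (s i ^ a i) ≤ ∏ i, (max (w (s i)) 1) ^ (a i) := by
        refine Finset.prod_le_prod (fun i _ => hw0 _) fun i _ => ?_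
        rw [map_pow]
        exact pow_le_pow_left₀ (hw0 _) (le_max_left _ _) _
      have h3 : w (evR v s f) ^ d ≤
          (w (algebraMap K L ϖ) ^ J * ∏ i, (max (w (s i)) 1) ^ (k - 1)) ^ d :=
        pow_le_pow_left₀ (hw0 _) h1 _
      refine (mul_le_mul h2 h3 (pow_nonneg (hw0 _) _)
        (Finset.prod_nonneg fun i _ => pow_nonneg (hm0 i) _)).trans ?_
      have h4 : (∏ i, (max (w (s i)) 1) ^ (a i)) *
          (w (algebraMap K L ϖ) ^ J * ∏ i, (max (w (s i)) 1) ^ (k - 1)) ^ d =
          w (algebraMap K L ϖ) ^ (d * J) * ∏ i, (max (w (s i)) 1) ^ (a i + d * (k - 1)) := by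
        rw [mul_pow, ← pow_mul, mul_comm J d, ← Finset.prod_pow, mul_left_comm,
          ← Finset.prod_mul_distrib]
        congr 1
        refine Finset.prod_congr rfl fun i _ => ?_
        rw [pow_add, ← pow_mul, mul_comm (k - 1) d]
      rw [h4]
      refine mul_le_mul_of_nonneg_left ?_ (pow_nonneg (hw0 _) _)
      refine Finset.prod_le_prod (fun i _ => pow_nonneg (hm0 i) _) fun i _ => ?_
      refine pow_le_pow_right₀ (hm i) ?_
      have h5 := hav i
      obtain ⟨k', rfl⟩ : ∃ k', k = k' + 1 := ⟨k - 1, by have := hk i; omega⟩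
      have h6 : d * (k' + 1) = d * k' + d := by ring
      rw [Nat.add_sub_cancel, h6]
      omega
  · intro u _ u' _ h
    rw [Prod.mk.injEq] at h
    funext i
    have h1 : (u i : ℕ) % d = (u' i : ℕ) % d := by
      have := congrFun h.1 i
      exact congrArg Fin.val this
    have h2 : (u i : ℕ) / d = (u' i : ℕ) / d := by
      have := congrFun h.2 i
      exact congrArg Fin.val this
    apply Fin.ext
    rw [← Nat.mod_add_div (u i : ℕ) d, h1, h2, Nat.mod_add_div]

end LEG
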