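/-
LG/Can (S)  MP_022f22_nt, Lehmer problem in E^g, board modleg. Paper proof: /team-store/lehmer_eg_proof.md
Canonical height and hx.  Copy the middle of the proof of LH/Fin lehmer_setup (hnaive, ht, ht2).
-/
import Mathlib
import Pool.Agent.Work.MP_022f22_nt.LG.Defs
import Pool.Agent.Work.MP_022f22_nt.LH.FinDefs
import Pool.Agent.Work.MP_022f22_nt.LH.Abs
import Pool.Agent.Work.MP_022f22_nt.LH.Hxl
import Pool.Agent.Work.MP_022f22_nt.LH.Lnk
import Pool.Agent.Work.MP_022f22_nt.LH.Nrm

open NumberField IsDedekindDomain Polynomial Height Filter Topology LEH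

namespace LEG

open Classical in
theorem can_hx {K : Type} [Field K] [NumberField K] (W : WeierstrassCurve K) (hΔ : W.Δ ≠ 0)
    (L : IntermediateField K (AlgebraicClosure K)) [FiniteDimensional K L] [NumberField L]
    (P' : (W.baseChange L).toAffine.Point) (hP' : NT P') :
    Tendsto (fun n : ℕ => naiveHeight
        (2 ^ n • WeierstrassCurve.Affine.Point.map (W' := W) L.val P') / 4 ^ n)
      atTop (𝓝 (hx (W.baseChange L) (xc P'))) := by
  have hne : ∀ n : ℕ, 2 ^ n • P' ≠ 0 := fun n => hP' _ (by positivity)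
  have hP0 : P' ≠ 0 := by simpa using hne 0
  have hΔL : (W.baseChange L).Δ ≠ 0 := by
    simp only [WeierstrassCurve.baseChange, WeierstrassCurve.map_Δ]
    exact (_root_.map_ne_zero _).2 hΔ
  refine (hx_tendsto W hΔ L (xc P')).congr fun n => ?_
  rw [logHeight_point (W.baseChange L) hΔL P' hP0 n]
  rw [← map_nsmul]
  generalize hR : 2 ^ n • P' = R
  have hR0 : R ≠ 0 := hR ▸ hne n
  rcases R with _ | ⟨x, y, hxy⟩
  · exact absurd rfl hR0
  · rw [WeierstrassCurve.Affine.Point.map_some]
    simp only [naiveHeight, WeierstrassCurve.Affine.Point.xRep_some]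
    have := absLogHeight_eq (L := L) (F := AlgebraicClosure K) x
    have h2 : (L.val x) = algebraMap L (AlgebraicClosure K) x := rfl
    rw [h2, this, Height.logHeight₁_eq_logHeight]
    field_simp

end LEG
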