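/-
LG/Ubs (M)  MP_022f22_nt, Lehmer problem in E^g, board modleg. Paper proof: /team-store/lehmer_eg_proof.md
Unimodular basis (paper 2.1).  The matrix C_(u,u') = coefficient of ex u' in B u (u, u' : Fin g -> Fin k) has entries in Rv v; modulo the maximal ideal it is triangular for the lexicographic order of the exponents with nonzero diagonal
(LMis: coefficients above the leading exponent vanish, Matrix.det_of_upperTriangular / lowerTriangular after reindexing by the linear order toLex (ex u)), so its determinant is a unit of the local ring Rv v (isUnit iff residue nonzero).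
f has coefficient vector c (support in the box since Bx k); γ = c C^(-1).
-/
import Mathlib
import Pool.Agent.Work.MP_022f22_nt.LG.Defs

open NumberField IsDedekindDomain Polynomial Height Filter Topology LEH

namespace LEG

private theorem ubs_out {R : Type*} [CommRing R] {g k : ℕ} {f : MvPolynomial (Fin g) R}
    (hf : Bx k f) {d : Fin g →₀ ℕ} (i : Fin g) (hd : k ≤ d i) : f.coeff d = 0 := by
  by_contra h
  have h1 : d ∈ f.support := MvPolynomial.mem_support_iff.2 h
  have h2 := MvPolynomial.monomial_le_degreeOf i h1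
  have h3 := hf i
  omega

private theorem ubs_ex {g k : ℕ} (d : Fin g →₀ ℕ) (hd : ∀ i, d i < k) :
    ∃ u : Fin g → Fin k, ex u = d := by
  refine ⟨fun i => ⟨d i, hd i⟩, ?_⟩
  ext i
  rfl

private theorem ubs_lt {g k : ℕ} {u u' : Fin g → Fin k} (h : toLex u < toLex u') :
    MonomialOrder.lex.toSyn (ex u) < MonomialOrder.lex.toSyn (ex u') := by
  rw [MonomialOrder.lex_lt_iff, Finsupp.Lex.lt_iff]
  obtain ⟨i, h1, h2⟩ := h
  refine ⟨i, fun j hj => ?_, ?_⟩
  · have h3 : u j = u' j := h1 j hj
    change (u j : ℕ) = (u' j : ℕ)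
    rw [h3]
  · exact h2

private theorem ubs_det {F : Type*} [Field F] {g k : ℕ}
    (B : (Fin g → Fin k) → MvPolynomial (Fin g) F)
    (hB : ∀ u, B u ≠ 0 ∧ MonomialOrder.lex.degree (B u) = ex u) :
    Matrix.det (fun u u' : Fin g → Fin k => (B u).coeff (ex u')) ≠ 0 := by
  classical
  set M : Matrix (Fin g → Fin k) (Fin g → Fin k) F := fun u u' => (B u).coeff (ex u') with hM
  set N : Matrix (Lex (Fin g → Fin k)) (Lex (Fin g → Fin k)) F := M.submatrix ofLex ofLex with hN
  have h1 : N.det = M.det := Matrix.det_submatrix_equiv_self (ofLex : Lex (Fin g → Fin k) ≃ _) M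
  change M.det ≠ 0
  rw [← h1, Matrix.det_of_isLowerTriangular]
  · rw [Finset.prod_ne_zero_iff]
    intro u _
    change (B (ofLex u)).coeff (ex (ofLex u)) ≠ 0
    rw [← (hB _).2]
    exact (MonomialOrder.leadingCoeff_ne_zero_iff).2 (hB _).1
  · intro u u' h
    change (B (ofLex u)).coeff (ex (ofLex u')) = 0
    apply MonomialOrder.coeff_eq_zero_of_lt (m := MonomialOrder.lex)
    rw [(hB _).2]
    exact ubs_lt (u := ofLex u) (u' := ofLex u') h

theorem unimod {K : Type} [Field K] [NumberField K] (v : HeightOneSpectrum (𝓞 K)) {g k : ℕ}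
    (B : (Fin g → Fin k) → MvPolynomial (Fin g) (Rv v)) (hB : ∀ u, Bx k (B u))
    (hL : ∀ u, LMis v (B u) (ex u)) (f : MvPolynomial (Fin g) (Rv v)) (hf : Bx k f) :
    ∃ γ : (Fin g → Fin k) → Rv v, f = ∑ u, MvPolynomial.C (γ u) * B u := by
  classical
  set M : Matrix (Fin g → Fin k) (Fin g → Fin k) (Rv v) := fun u u' => (B u).coeff (ex u') with hM
  have hdet : IsUnit M.det := by
    rw [← IsLocalRing.residue_ne_zero_iff_isUnit, RingHom.map_det]
    have h := ubs_det (fun u => (B u).map (IsLocalRing.residue (Rv v))) hL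
    have e : (IsLocalRing.residue (Rv v)).mapMatrix M = fun u u' =>
        ((B u).map (IsLocalRing.residue (Rv v))).coeff (ex u') := by
      funext u u'
      rw [MvPolynomial.coeff_map]
      rfl
    rw [e]
    exact h
  refine ⟨Matrix.vecMul (fun u' => f.coeff (ex u')) M⁻¹, ?_⟩
  have hγ : Matrix.vecMul (Matrix.vecMul (fun u' => f.coeff (ex u')) M⁻¹) M =
      fun u' => f.coeff (ex u') := by
    rw [Matrix.vecMul_vecMul, Matrix.nonsing_inv_mul _ hdet, Matrix.vecMul_one]
  ext d
  rw [MvPolynomial.coeff_sum]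
  simp only [MvPolynomial.coeff_C_mul]
  by_cases hd : ∀ i, d i < k
  · obtain ⟨u', rfl⟩ := ubs_ex d hd
    have h1 := congrFun hγ u'
    rw [← h1]
    rfl
  · push Not at hd
    obtain ⟨i, hi⟩ := hd
    rw [ubs_out hf i hi]
    symm
    have h2 : ∀ u ∈ (Finset.univ : Finset (Fin g → Fin k)),
        Matrix.vecMul (fun u' => f.coeff (ex u')) M⁻¹ u * (B u).coeff d = 0 := by
      intro u _
      rw [ubs_out (hB u) i hi, mul_zero]
    rw [Finset.sum_eq_zero h2]

end LEG
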