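/-
LG/Dtg (M)  MP_022f22_nt, Lehmer problem in E^g, board modleg. Paper proof: /team-store/lehmer_eg_proof.md
Determinant gain (paper 2.1).  B u = the polynomial of gain J if u is not in bad, the monomial x^(ex u) otherwise (Bx k, LMis (ex u): reduction of a monomial with coefficient 1).  unimod: F a = sum_u C(γ a u) * B u, so the row a is sum_u γ_(a,u) (B u(β b))_b.
Expand the determinant in the rows (Matrix.detRowAlternating / MultilinearMap.map_sum): sum over φ : Fin r -> (Fin g -> Fin k) of prod γ * det(evR v (β b) (B (φ a))); φ not injective: 0.  φ injective: w of the determinant <= prod_a ρ^(J [φ a good]) prod_b M_b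
(LH/Dbd det_nonarch applied to the matrix; entries w <= c_a M_b: write each entry bound, use det as sum over permutations: w(det) <= max prod), and at least r - |bad| values φ a are good.  w(γ) <= 1 (LH/Vab above_le); w nonarchimedean.
M_b = prod_i max(w(β b i)) 1^(k-1); monomials: w(x^u) <= M as u_i <= k-1.  ρ = w(ϖ) in (0,1) (LH/Vab above_unif).
-/
import Mathlib
import Pool.Agent.Work.MP_022f22_nt.LG.Defs
import Pool.Agent.Work.MP_022f22_nt.LG.Ubs
import Pool.Agent.Work.MP_022f22_nt.LH.Dbd
import Pool.Agent.Work.MP_022f22_nt.LH.Vab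

open NumberField IsDedekindDomain Polynomial Height Filter Topology LEH

namespace LEG

private theorem dtg_sign {F : Type*} [Field F] (w : AbsoluteValue F ℝ) {n : ℕ}
    (σ : Equiv.Perm (Fin n)) (x : F) : w (Equiv.Perm.sign σ • x) = w x := by
  rcases Int.units_eq_one_or (Equiv.Perm.sign σ) with h | h
  · rw [h, one_smul]
  · rw [h, Units.neg_smul, one_smul, AbsoluteValue.map_neg]

private theorem dtg_det {F : Type*} [Field F] (w : AbsoluteValue F ℝ) (hw : IsNonarchimedean w)
    (n : ℕ) (M : Matrix (Fin n) (Fin n) F) (c m : Fin n → ℝ)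
    (h : ∀ i j, w (M i j) ≤ c i * m j) : w M.det ≤ (∏ i, c i) * ∏ j, m j := by
  rw [Matrix.det_apply]
  have h1 : ∀ σ : Equiv.Perm (Fin n),
      w (Equiv.Perm.sign σ • ∏ i, M (σ i) i) ≤ (∏ i, c i) * ∏ j, m j := by
    intro σ
    rw [dtg_sign w σ, map_prod, ← Equiv.prod_comp σ c, ← Finset.prod_mul_distrib]
    exact Finset.prod_le_prod (fun _ _ => w.nonneg _) fun i _ => h _ _
  obtain ⟨σ, -, hσ⟩ := hw.finset_image_add_of_nonempty (t := Finset.univ)
    (fun σ : Equiv.Perm (Fin n) => Equiv.Perm.sign σ • ∏ i, M (σ i) i) Finset.univ_nonempty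
  exact hσ.trans (h1 σ)

private theorem dtg_basis {K L : Type} [Field K] [NumberField K] [Field L] [NumberField L]
    [Algebra K L] {v : HeightOneSpectrum (𝓞 K)} {ϖ : K} {g : ℕ} (S : Finset (Fin g → L))
    (J k : ℕ) (u : Fin g → Fin k) (w : FinitePlace L) (hw : Above v w) :
    ∃ f : MvPolynomial (Fin g) (Rv v), Bx k f ∧ LMis v f (ex u) ∧
      ∀ s ∈ S, w (evR v s f) ≤ (if u ∈ bad v ϖ S J k then 1 else w (algebraMap K L ϖ) ^ J) *
        ∏ i, (max (w (s i)) 1) ^ (k - 1) := by
  classical
  by_cases hu : u ∈ bad v ϖ S J k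
  · refine ⟨MvPolynomial.monomial (ex u) 1, ?_, ?_, ?_⟩
    · intro i
      rw [MvPolynomial.degreeOf_monomial_eq _ _ one_ne_zero]
      exact (u i).2
    · unfold LMis
      rw [MvPolynomial.map_monomial, map_one]
      refine ⟨?_, ?_⟩
      · intro h0
        rw [MvPolynomial.monomial_eq_zero] at h0
        exact one_ne_zero h0
      · rw [MonomialOrder.degree_monomial, if_neg one_ne_zero]
    · intro s _
      rw [if_pos hu, one_mul]
      unfold evR
      rw [MvPolynomial.eval₂_monomial, map_one, one_mul,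
        Finsupp.prod_fintype _ _ (fun i => pow_zero _), map_prod]
      refine Finset.prod_le_prod (fun i _ => apply_nonneg w _) fun i _ => ?_
      rw [map_pow]
      have h1 : (ex u) i = (u i : ℕ) := rfl
      rw [h1]
      have h2 : (u i : ℕ) ≤ k - 1 := by have := (u i).2; omega
      exact (pow_le_pow_left₀ (apply_nonneg w _) (le_max_left _ _) _).trans
        (pow_le_pow_right₀ (le_max_right _ _) h2)
  · have hu' := hu
    unfold bad at hu
    rw [Finset.mem_filter] at hu
    push Not at hu
    obtain ⟨f, hf1, hf2, hf3⟩ := hu (Finset.mem_univ u)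
    refine ⟨f, hf1, hf2, fun s hs => ?_⟩
    rw [if_neg hu']
    exact hf3 w hw s hs

theorem det_gain {K L : Type} [Field K] [NumberField K] [Field L] [NumberField L] [Algebra K L]
    {v : HeightOneSpectrum (𝓞 K)} {ϖ : K} (hϖ : Unif v ϖ) {g : ℕ} (S : Finset (Fin g → L))
    (J k r : ℕ) (hk : 1 ≤ k) (β : Fin r → Fin g → L) (hβ : ∀ b, β b ∈ S)
    (F : Fin r → MvPolynomial (Fin g) (Rv v)) (hF : ∀ a, Bx k (F a)) (w : FinitePlace L)
    (hw : Above v w) :
    w (Matrix.of fun a b => evR v (β b) (F a)).det ≤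
      w (algebraMap K L ϖ) ^ (J * (r - (bad v ϖ S J k).card)) *
        ∏ b, ∏ i, (max (w (β b i)) 1) ^ (k - 1) := by
  classical
  have hna : IsNonarchimedean w.val := fun x y => FinitePlace.add_le w x y
  have hρ := above_unif hw hϖ
  set ρ : ℝ := w (algebraMap K L ϖ) with hρd
  choose B hB1 hB2 hB3 using fun u => dtg_basis (v := v) (ϖ := ϖ) S J k u w hw
  choose γ hγ using fun a => unimod v B hB1 hB2 (F a) (hF a)
  set γ' : Fin r → (Fin g → Fin k) → L :=
    fun a u => algebraMap K L (algebraMap (Rv v) K (γ a u)) with hγ'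
  have hγ1 : ∀ a u, w (γ' a u) ≤ 1 := fun a u => above_le hw (γ a u).2
  set E : (Fin g → Fin k) → Fin r → L := fun u b => evR v (β b) (B u) with hE
  have hM : (Matrix.of fun a b => evR v (β b) (F a)) =
      fun a => ∑ u, γ' a u • E u := by
    funext a b
    rw [Finset.sum_apply, Matrix.of_apply, hγ a]
    unfold evR
    rw [MvPolynomial.eval₂_sum]
    refine Finset.sum_congr rfl fun u _ => ?_
    rw [MvPolynomial.eval₂_mul, MvPolynomial.eval₂_C]
    rfl
  have hdet : (Matrix.of fun a b => evR v (β b) (F a)).det =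
      ∑ φ : Fin r → (Fin g → Fin k), (∏ a, γ' a (φ a)) * Matrix.det (fun a => E (φ a)) := by
    rw [hM]
    change (Matrix.detRowAlternating (n := Fin r) (R := L)).toMultilinearMap
      (fun a => ∑ u, γ' a u • E u) = _
    rw [MultilinearMap.map_sum]
    refine Finset.sum_congr rfl fun φ _ => ?_
    rw [MultilinearMap.map_smul_univ]
    rfl
  have hM0 : 0 ≤ ∏ b, ∏ i, (max (w (β b i)) 1) ^ (k - 1) :=
    Finset.prod_nonneg fun b _ => Finset.prod_nonneg fun i _ => pow_nonneg
      (zero_le_one.trans (le_max_right _ _)) _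
  have hterm : ∀ φ : Fin r → (Fin g → Fin k),
      w ((∏ a, γ' a (φ a)) * Matrix.det (fun a => E (φ a))) ≤
      ρ ^ (J * (r - (bad v ϖ S J k).card)) * ∏ b, ∏ i, (max (w (β b i)) 1) ^ (k - 1) := by
    intro φ
    by_cases hφ : Function.Injective φ
    · rw [map_mul, map_prod]
      have h1 : ∏ a, w (γ' a (φ a)) ≤ 1 :=
        Finset.prod_le_one (fun a _ => apply_nonneg w _) fun a _ => hγ1 a _
      have h2 : w (Matrix.det (fun a => E (φ a))) ≤
          (∏ a, (if φ a ∈ bad v ϖ S J k then (1 : ℝ) else ρ ^ J)) *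
            ∏ b, ∏ i, (max (w (β b i)) 1) ^ (k - 1) :=
        dtg_det w.val hna r (fun a => E (φ a)) _ _ fun a b => hB3 (φ a) (β b) (hβ b)
      have h3 : (∏ a, (if φ a ∈ bad v ϖ S J k then (1 : ℝ) else ρ ^ J)) ≤
          ρ ^ (J * (r - (bad v ϖ S J k).card)) := by
        rw [Finset.prod_ite, Finset.prod_const_one, one_mul, Finset.prod_const, ← pow_mul]
        refine pow_le_pow_of_le_one hρ.1.le hρ.2.le (Nat.mul_le_mul_left _ ?_)
        have h4 : (Finset.univ.filter fun a => φ a ∈ bad v ϖ S J k).card ≤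
            (bad v ϖ S J k).card := by
          refine Finset.card_le_card_of_injOn φ ?_ hφ.injOn
          intro a ha
          exact (Finset.mem_filter.1 (Finset.mem_coe.1 ha)).2
        have h5 := Finset.card_filter_add_card_filter_not (s := (Finset.univ : Finset (Fin r)))
          (fun a => φ a ∈ bad v ϖ S J k)
        rw [Finset.card_univ, Fintype.card_fin] at h5
        omega
      calc (∏ a, w (γ' a (φ a))) * w (Matrix.det (fun a => E (φ a)))
          ≤ 1 * ((∏ a, (if φ a ∈ bad v ϖ S J k then (1 : ℝ) else ρ ^ J)) *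
            ∏ b, ∏ i, (max (w (β b i)) 1) ^ (k - 1)) :=
            mul_le_mul h1 h2 (apply_nonneg w _) zero_le_one
        _ ≤ _ := by
            rw [one_mul]
            exact mul_le_mul_of_nonneg_right h3 hM0
    · have h1 : Matrix.det (fun a => E (φ a)) = 0 := by
        rw [Function.Injective] at hφ
        push Not at hφ
        obtain ⟨a, a', h2, h3⟩ := hφ
        exact Matrix.det_zero_of_row_eq h3 (by
          change E (φ a) = E (φ a')
          rw [h2])
      rw [h1, mul_zero, map_zero]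
      exact mul_nonneg (pow_nonneg hρ.1.le _) hM0
  rw [hdet]
  haveI : Nonempty (Fin r → (Fin g → Fin k)) := ⟨fun _ _ => ⟨0, by omega⟩⟩
  obtain ⟨φ, -, hφ⟩ := hna.finset_image_add_of_nonempty (t := Finset.univ)
    (fun φ : Fin r → (Fin g → Fin k) => (∏ a, γ' a (φ a)) * Matrix.det (fun a => E (φ a)))
    Finset.univ_nonempty
  exact hφ.trans (hterm φ)

end LEG
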