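/-
LG/FRp (M)  MP_022f22_nt, Lehmer problem in E^g, board modleg. Paper proof: /team-store/lehmer_eg_proof.md
The products f_I as integral polynomials.  GoodRed v W: b2,b4,b6,b8 in Rv v; W0 = Weierstrass curve over Rv v with W0.map = W; dupP W0 l in (Rv v)[X]; F I = prod_i prod_l ((dupP W0 l).1^(..) (dupP W0 l).2^(..)) in the variable X_i
(Polynomial.aeval (MvPolynomial.X i)).  degreeOf i F < 4^κ: in the variable i the degree is sum_l (4^l I + (<4^l)(3-I)) <= sum 3*4^l = 4^κ - 1.  Value: dupIt commutes with ring homs (LH/Gal dupIt_map), dupP_eval (LH/Cop).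
degreeOf of a product of polynomials in single variables: MvPolynomial.degreeOf_mul_le, degreeOf_pow_le, degreeOf of Polynomial.aeval (X i) p is <= natDegree p (and 0 in the other variables).
-/
import Mathlib
import Pool.Agent.Work.MP_022f22_nt.LG.Defs
import Pool.Agent.Work.MP_022f22_nt.LH.Cop
import Pool.Agent.Work.MP_022f22_nt.LH.Gal
import Pool.Agent.Work.MP_022f22_nt.LH.Vab

open NumberField IsDedekindDomain Polynomial Height Filter Topology LEH

namespace LEG

/-- the Weierstrass curve over the valuation ring -/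
private noncomputable def frpW {K : Type} [Field K] [NumberField K] (v : HeightOneSpectrum (𝓞 K))
    (W : WeierstrassCurve K) (hW : GoodRed v W) : WeierstrassCurve (Rv v) where
  a₁ := ⟨W.a₁, hW.a₁⟩
  a₂ := ⟨W.a₂, hW.a₂⟩
  a₃ := ⟨W.a₃, hW.a₃⟩
  a₄ := ⟨W.a₄, hW.a₄⟩
  a₆ := ⟨W.a₆, hW.a₆⟩

private theorem frpW_map {K : Type} [Field K] [NumberField K] (v : HeightOneSpectrum (𝓞 K))
    (W : WeierstrassCurve K) (hW : GoodRed v W) :
    (frpW v W hW).map (algebraMap (Rv v) K) = W := by
  ext <;> rfl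

private theorem frp_dup {K : Type} [Field K] [NumberField K] (v : HeightOneSpectrum (𝓞 K))
    (W : WeierstrassCurve K) (hW : GoodRed v W) {S : Type*} [CommRing S] (f : Rv v →+* S) (x : S)
    (l : ℕ) :
    Polynomial.eval₂ f x (dupP (frpW v W hW) l).1 = (dupIt ((frpW v W hW).map f) l x).1 ∧
      Polynomial.eval₂ f x (dupP (frpW v W hW) l).2 = (dupIt ((frpW v W hW).map f) l x).2 := by
  have h := dupIt_map ((frpW v W hW).map (Polynomial.C : Rv v →+* (Rv v)[X]))
    (Polynomial.eval₂RingHom f x) l Polynomial.X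
  have e : ((frpW v W hW).map (Polynomial.C : Rv v →+* (Rv v)[X])).map
      (Polynomial.eval₂RingHom f x) = (frpW v W hW).map f := by
    ext <;> simp
  rw [e, Polynomial.coe_eval₂RingHom, Polynomial.eval₂_X] at h
  exact ⟨(congrArg Prod.fst h).symm, (congrArg Prod.snd h).symm⟩

private theorem frp_deg {K : Type} [Field K] [NumberField K] (v : HeightOneSpectrum (𝓞 K))
    (W : WeierstrassCurve K) (hW : GoodRed v W) (l : ℕ) :
    (dupP (frpW v W hW) l).1.natDegree ≤ 4 ^ l ∧ (dupP (frpW v W hW) l).2.natDegree < 4 ^ l := by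
  have h := dupIt_map ((frpW v W hW).map (Polynomial.C : Rv v →+* (Rv v)[X]))
    (Polynomial.mapRingHom (algebraMap (Rv v) K)) l Polynomial.X
  have e : ((frpW v W hW).map (Polynomial.C : Rv v →+* (Rv v)[X])).map
      (Polynomial.mapRingHom (algebraMap (Rv v) K)) = W.map (Polynomial.C : K →+* K[X]) := by
    conv_rhs => rw [← frpW_map v W hW]
    ext <;> simp
  rw [e, Polynomial.coe_mapRingHom, Polynomial.map_X] at h
  have h1 : (dupP W l).1 = (dupP (frpW v W hW) l).1.map (algebraMap (Rv v) K) :=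
    congrArg Prod.fst h
  have h2 : (dupP W l).2 = (dupP (frpW v W hW) l).2.map (algebraMap (Rv v) K) :=
    congrArg Prod.snd h
  have hinj : Function.Injective (algebraMap (Rv v) K) := Subtype.val_injective
  obtain ⟨-, d1, d2⟩ := dupP_deg W l
  rw [h1, Polynomial.natDegree_map_eq_of_injective hinj] at d1
  rw [h2, Polynomial.natDegree_map_eq_of_injective hinj] at d2
  exact ⟨d1.le, d2⟩

private theorem frp_degreeOf {R : Type*} [CommRing R] [Nontrivial R] {g : ℕ} (i j : Fin g)
    (q : R[X]) :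
    ((Polynomial.aeval (MvPolynomial.X i : MvPolynomial (Fin g) R)) q).degreeOf j ≤
      if i = j then q.natDegree else 0 := by
  rw [Polynomial.aeval_eq_sum_range]
  refine (MvPolynomial.degreeOf_sum_le _ _ _).trans (Finset.sup_le fun k hk => ?_)
  rw [MvPolynomial.smul_eq_C_mul]
  refine (MvPolynomial.degreeOf_C_mul_le _ _ _).trans ?_
  by_cases h : i = j
  · rw [if_pos h]
    subst h
    rw [MvPolynomial.degreeOf_X_self_pow]
    exact Nat.lt_succ_iff.1 (Finset.mem_range.1 hk)
  · rw [if_neg h, MvPolynomial.degreeOf_X_pow_of_ne _ (Ne.symm h)]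

theorem fR_exists {K : Type} [Field K] [NumberField K] (v : HeightOneSpectrum (𝓞 K))
    (W : WeierstrassCurve K) (hW : GoodRed v W) (g κ : ℕ) :
    ∃ F : (Fin g → Fin κ → Fin 4) → MvPolynomial (Fin g) (Rv v), (∀ I, Bx (4 ^ κ) (F I)) ∧
      ∀ (L : Type) [Field L] [NumberField L] [Algebra K L] (s : Fin g → L) I,
        evR v s (F I) = ∏ i, ∏ l : Fin κ, ((dupIt (W.baseChange L) l (s i)).1 ^ (I i l : ℕ) *
          (dupIt (W.baseChange L) l (s i)).2 ^ (3 - (I i l : ℕ))) := by
  refine ⟨fun I => ∏ i, Polynomial.aeval (MvPolynomial.X i : MvPolynomial (Fin g) (Rv v))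
    (∏ l : Fin κ, (dupP (frpW v W hW) l).1 ^ (I i l : ℕ) *
      (dupP (frpW v W hW) l).2 ^ (3 - (I i l : ℕ))), ?_, ?_⟩
  · intro I j
    refine (MvPolynomial.degreeOf_prod_le _ _ _).trans_lt ?_
    refine (Finset.sum_le_sum fun i _ => frp_degreeOf i j _).trans_lt ?_
    rw [Finset.sum_ite_eq' , if_pos (Finset.mem_univ _)]
    refine (Polynomial.natDegree_prod_le _ _).trans_lt ?_
    have hb : ∀ l : Fin κ, ((dupP (frpW v W hW) l).1 ^ (I j l : ℕ) *
        (dupP (frpW v W hW) l).2 ^ (3 - (I j l : ℕ))).natDegree ≤ 3 * 4 ^ (l : ℕ) := by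
      intro l
      obtain ⟨d1, d2⟩ := frp_deg v W hW l
      refine (Polynomial.natDegree_mul_le_of_le (Polynomial.natDegree_pow_le_of_le _ d1)
        (Polynomial.natDegree_pow_le_of_le _ d2.le)).trans ?_
      rw [← Nat.add_mul]
      refine Nat.mul_le_mul_right _ ?_
      have := (I j l).isLt
      omega
    refine (Finset.sum_le_sum fun l _ => hb l).trans_lt ?_
    rw [Fin.sum_univ_eq_sum_range (fun l => 3 * 4 ^ l) κ]
    clear hb
    induction κ with
    | zero => simp
    | succ κ ih =>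
      have ih' := ih (fun i l => I i (Fin.castSucc l))
      rw [Finset.sum_range_succ, pow_succ]
      omega
  · intro L _ _ _ s I
    have hcomp : (frpW v W hW).map ((algebraMap K L).comp (algebraMap (Rv v) K)) =
        W.baseChange L := by
      rw [← WeierstrassCurve.map_map, frpW_map]
      rfl
    unfold evR
    rw [← MvPolynomial.coe_eval₂Hom, map_prod]
    refine Finset.prod_congr rfl fun i _ => ?_
    have e : ∀ q : (Rv v)[X], (MvPolynomial.eval₂Hom ((algebraMap K L).comp (algebraMap (Rv v) K)) s)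
        (Polynomial.aeval (MvPolynomial.X i : MvPolynomial (Fin g) (Rv v)) q) =
        Polynomial.eval₂RingHom ((algebraMap K L).comp (algebraMap (Rv v) K)) (s i) q := by
      intro q
      rw [Polynomial.aeval_def, Polynomial.hom_eval₂, MvPolynomial.eval₂Hom_X',
        Polynomial.coe_eval₂RingHom]
      congr 1
      ext a
      simp
    rw [e, map_prod]
    refine Finset.prod_congr rfl fun l _ => ?_
    obtain ⟨d1, d2⟩ := frp_dup v W hW ((algebraMap K L).comp (algebraMap (Rv v) K)) (s i) l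
    rw [map_mul, map_pow, map_pow, Polynomial.coe_eval₂RingHom, d1, d2, hcomp]

end LEG
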