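/-
LG/Mi (L)  MP_022f22_nt, Lehmer problem in E^g, board modleg. Paper proof: /team-store/lehmer_eg_proof.md
Main inequality (paper 1).  Follow LH/Raw.lean (energy_raw) and LH/Enr.lean (energy).  β enumerates S (S.equivFin.symm), r = S.card, I from minor_multi, M = det != 0, F a = fR (I a).  prod_ineq (LH/Pfi) with index set Fin r × Fin g × Fin κ,
y (b,i,l) = ![(dupIt W l (β b i)).1, (dupIt W l (β b i)).2], e = 3, c = r!, ε_w = w(ϖ)^T for w in V = places above v (LH/Plc places_above).  infinite and finite places outside V: det_arch/det_nonarch (LH/Dbd) with entries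
<= prod_i prod_l max^3 (x^i y^(3-i) <= max^3).  w in V: the hypothesis hT with k = 4^κ, and at good places prod_l max(w A_l, w B_l)^3 = max(w x) 1^(4^κ - 1) (private r_max, r_geom in LH/Raw: copy).
Then 0 <= [L:Q] log r! + sum_w T log w(ϖ) + 3 sum logHeight; sum_w -log w(ϖ) = [L:K] log absNorm v; hx_upper (LH/Hxl): logHeight(dupIt l β) <= (4^l hx β + C)[L:Q], 3 sum_{l<κ} 4^l = 4^κ - 1, hx >= 0.  C1 = C.
-/
import Mathlib
import Pool.Agent.Work.MP_022f22_nt.LG.Defs
import Pool.Agent.Work.MP_022f22_nt.LG.Mex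
import Pool.Agent.Work.MP_022f22_nt.LG.FRp
import Pool.Agent.Work.MP_022f22_nt.LH.Pfi
import Pool.Agent.Work.MP_022f22_nt.LH.Dbd
import Pool.Agent.Work.MP_022f22_nt.LH.Plc
import Pool.Agent.Work.MP_022f22_nt.LH.Vab
import Pool.Agent.Work.MP_022f22_nt.LH.Hxl
import Pool.Agent.Work.MP_022f22_nt.LH.Dpi
import Pool.Agent.Work.MP_022f22_nt.LH.Nad
import Pool.Agent.Work.MP_022f22_nt.LH.Cop

open NumberField IsDedekindDomain Polynomial Height Filter Topology LEH

namespace LEG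

private theorem mi_max {F : Type*} [Field F] (W : WeierstrassCurve F) (w : AbsoluteValue F ℝ)
    (hw : IsNonarchimedean w) (h2 : w W.b₂ ≤ 1) (h4 : w W.b₄ ≤ 1) (h6 : w W.b₆ ≤ 1)
    (h8 : w W.b₈ ≤ 1) (hΔ : w W.Δ = 1) (x : F) (l : ℕ) :
    max (w (dupIt W l x).1) (w (dupIt W l x).2) = (max (w x) 1) ^ (4 ^ l) := by
  induction l with
  | zero =>
    show max (w x) (w 1) = (max (w x) 1) ^ (4 ^ 0)
    rw [map_one, pow_zero, pow_one]
  | succ l ih =>
    show max (w (dupA W (dupIt W l x).1 (dupIt W l x).2))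
      (w (dupB W (dupIt W l x).1 (dupIt W l x).2)) = (max (w x) 1) ^ (4 ^ (l + 1))
    rw [dup_good W w hw h2 h4 h6 h8 hΔ, ih, ← pow_mul, pow_succ]

private theorem mi_geom (k : ℕ) : ∑ l : Fin k, 4 ^ (l : ℕ) * 3 = 4 ^ k - 1 := by
  induction k with
  | zero => simp
  | succ k ih =>
    rw [Fin.sum_univ_castSucc]
    have h : ∑ i : Fin k, 4 ^ ((i.castSucc : Fin (k + 1)) : ℕ) * 3 = 4 ^ k - 1 := by
      simpa using ih
    rw [h, Fin.val_last, pow_succ]
    have : 1 ≤ 4 ^ k := Nat.one_le_pow _ _ (by norm_num)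
    omega

private theorem mi_loc {F : Type*} [Field F] (W : WeierstrassCurve F) (w : AbsoluteValue F ℝ)
    {g κ : ℕ} (I : Fin g → Fin κ → Fin 4) (s : Fin g → F) :
    w (∏ i, ∏ l : Fin κ, ((dupIt W l (s i)).1 ^ (I i l : ℕ) *
        (dupIt W l (s i)).2 ^ (3 - (I i l : ℕ)))) ≤
      ∏ i, ∏ l : Fin κ, (max (w (dupIt W l (s i)).1) (w (dupIt W l (s i)).2)) ^ 3 := by
  rw [map_prod]
  refine Finset.prod_le_prod (fun _ _ => w.nonneg _) fun i _ => ?_
  rw [map_prod]
  refine Finset.prod_le_prod (fun _ _ => w.nonneg _) fun l _ => ?_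
  rw [map_mul, map_pow, map_pow]
  have h1 : w (dupIt W l (s i)).1 ≤ max (w (dupIt W l (s i)).1) (w (dupIt W l (s i)).2) :=
    le_max_left _ _
  have h2 : w (dupIt W l (s i)).2 ≤ max (w (dupIt W l (s i)).1) (w (dupIt W l (s i)).2) :=
    le_max_right _ _
  have h0 : 0 ≤ max (w (dupIt W l (s i)).1) (w (dupIt W l (s i)).2) :=
    le_trans (w.nonneg _) h1
  have h3 : (I i l : ℕ) ≤ 3 := by
    have := (I i l).isLt
    omega
  calc w (dupIt W l (s i)).1 ^ (I i l : ℕ) * w (dupIt W l (s i)).2 ^ (3 - (I i l : ℕ))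
      ≤ (max (w (dupIt W l (s i)).1) (w (dupIt W l (s i)).2)) ^ (I i l : ℕ) *
        (max (w (dupIt W l (s i)).1) (w (dupIt W l (s i)).2)) ^ (3 - (I i l : ℕ)) :=
        mul_le_mul (pow_le_pow_left₀ (w.nonneg _) h1 _) (pow_le_pow_left₀ (w.nonneg _) h2 _)
          (pow_nonneg (w.nonneg _) _) (pow_nonneg h0 _)
    _ = (max (w (dupIt W l (s i)).1) (w (dupIt W l (s i)).2)) ^ 3 := by
        rw [← pow_add, Nat.add_sub_cancel' h3]

/-- the inequality over one field -/
private theorem mi_raw {L : Type} [Field L] [NumberField L] (W : WeierstrassCurve L)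
    (hΔ : W.Δ ≠ 0) (g κ r : ℕ) (β : Fin r → Fin g → L) (I : Fin r → (Fin g → Fin κ → Fin 4))
    (hI : (Matrix.of fun a b =>
      ∏ i, ∏ l : Fin κ, ((dupIt W l (β b i)).1 ^ (I a i l : ℕ) *
        (dupIt W l (β b i)).2 ^ (3 - (I a i l : ℕ)))).det ≠ 0)
    (V : Finset (FinitePlace L))
    (hV : ∀ w ∈ V, w W.b₂ ≤ 1 ∧ w W.b₄ ≤ 1 ∧ w W.b₆ ≤ 1 ∧ w W.b₈ ≤ 1 ∧ w W.Δ = 1)
    (ε : FinitePlace L → ℝ) (hε : ∀ w ∈ V, 0 < ε w)
    (hT : ∀ w ∈ V, w (Matrix.of fun a b =>
      ∏ i, ∏ l : Fin κ, ((dupIt W l (β b i)).1 ^ (I a i l : ℕ) *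
        (dupIt W l (β b i)).2 ^ (3 - (I a i l : ℕ)))).det ≤
      ε w * ∏ b, ∏ i, (max (w (β b i)) 1) ^ (4 ^ κ - 1)) :
    0 ≤ (Module.finrank ℚ L : ℝ) * Real.log (r.factorial : ℝ) + ∑ w ∈ V, Real.log (ε w) +
        3 * ∑ b : Fin r, ∑ i : Fin g, ∑ l ∈ Finset.range κ,
          logHeight ![(dupIt W l (β b i)).1, (dupIt W l (β b i)).2] := by
  classical
  obtain ⟨y, hy⟩ : ∃ y : Fin r × Fin g × Fin κ → Fin 2 → L, ∀ s, y s =
      ![(dupIt W (s.2.2 : ℕ) (β s.1 s.2.1)).1, (dupIt W (s.2.2 : ℕ) (β s.1 s.2.1)).2] :=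
    ⟨_, fun _ => rfl⟩
  have hy0 : ∀ s, y s 0 = (dupIt W (s.2.2 : ℕ) (β s.1 s.2.1)).1 := fun s => by rw [hy]; rfl
  have hy1 : ∀ s, y s 1 = (dupIt W (s.2.2 : ℕ) (β s.1 s.2.1)).2 := fun s => by rw [hy]; rfl
  have hyne : ∀ s, y s ≠ 0 := by
    intro s hs
    rcases dupIt_ne W hΔ (s.2.2 : ℕ) (β s.1 s.2.1) with h | h
    · exact h (by rw [← hy0, hs]; rfl)
    · exact h (by rw [← hy1, hs]; rfl)
  have hprod : ∀ w : AbsoluteValue L ℝ, ∏ s, (max (w (y s 0)) (w (y s 1))) ^ 3 =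
      ∏ b : Fin r, ∏ i : Fin g, ∏ l : Fin κ,
        (max (w (dupIt W (l : ℕ) (β b i)).1) (w (dupIt W (l : ℕ) (β b i)).2)) ^ 3 := by
    intro w
    rw [Fintype.prod_prod_type]
    refine Finset.prod_congr rfl fun b _ => ?_
    rw [Fintype.prod_prod_type]
    refine Finset.prod_congr rfl fun i _ => Finset.prod_congr rfl fun l _ => ?_
    rw [hy0, hy1]
  have hent : ∀ (w : AbsoluteValue L ℝ) (a b : Fin r),
      w ((Matrix.of fun a b => ∏ i, ∏ l : Fin κ, ((dupIt W l (β b i)).1 ^ (I a i l : ℕ) *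
        (dupIt W l (β b i)).2 ^ (3 - (I a i l : ℕ)))) a b) ≤
      (fun b : Fin r => ∏ i : Fin g, ∏ l : Fin κ,
        (max (w (dupIt W (l : ℕ) (β b i)).1) (w (dupIt W (l : ℕ) (β b i)).2)) ^ 3) b :=
    fun w a b => mi_loc W w (I a) (β b)
  have hna : ∀ w : FinitePlace L, IsNonarchimedean w.val := fun w x y => FinitePlace.add_le w x y
  have key := prod_ineq y hyne 3 _ hI (r.factorial : ℝ) (by positivity) V ε hε
    (fun u => by
      have h := det_arch u.val r _ _ (hent u.val)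
      have h2 := hprod u.val
      refine h.trans (le_of_eq ?_)
      rw [← h2]
      rfl)
    (fun w _ => by
      have h := det_nonarch w.val (hna w) r _ _ (hent w.val)
      have h2 := hprod w.val
      refine h.trans (le_of_eq ?_)
      rw [← h2]
      rfl)
    (fun w hw => by
      obtain ⟨h2, h4, h6, h8, hD⟩ := hV w hw
      have h := hT w hw
      have e : ∏ b : Fin r, ∏ i : Fin g, (max (w.val (β b i)) 1) ^ (4 ^ κ - 1) =
          ∏ s, (max (w.val (y s 0)) (w.val (y s 1))) ^ 3 := by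
        rw [hprod w.val]
        refine Finset.prod_congr rfl fun b _ => Finset.prod_congr rfl fun i _ => ?_
        rw [← mi_geom κ, ← Finset.prod_pow_eq_pow_sum]
        refine Finset.prod_congr rfl fun l _ => ?_
        rw [mi_max W w.val (hna w) h2 h4 h6 h8 hD (β b i) l, ← pow_mul]
      have h' : w (Matrix.of fun a b =>
          ∏ i, ∏ l : Fin κ, ((dupIt W l (β b i)).1 ^ (I a i l : ℕ) *
            (dupIt W l (β b i)).2 ^ (3 - (I a i l : ℕ)))).det ≤
          ε w * ∏ b : Fin r, ∏ i : Fin g, (max (w.val (β b i)) 1) ^ (4 ^ κ - 1) := h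
      rw [e] at h'
      exact h')
  have hsum : ∑ s, logHeight (y s) = ∑ b : Fin r, ∑ i : Fin g, ∑ l ∈ Finset.range κ,
      logHeight ![(dupIt W l (β b i)).1, (dupIt W l (β b i)).2] := by
    rw [Fintype.sum_prod_type]
    refine Finset.sum_congr rfl fun b _ => ?_
    rw [Fintype.sum_prod_type]
    refine Finset.sum_congr rfl fun i _ => ?_
    rw [Finset.sum_range]
    refine Finset.sum_congr rfl fun l _ => ?_
    rw [hy]
  rw [hsum] at key
  push_cast at key
  exact key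

private theorem mi_good {K : Type} [Field K] [NumberField K] {v : HeightOneSpectrum (𝓞 K)}
    {W : WeierstrassCurve K} (hW : GoodRed v W) (L : Type) [Field L] [NumberField L]
    [Algebra K L] {w : FinitePlace L} (hab : Above v w) :
    w (W.baseChange L).b₂ ≤ 1 ∧ w (W.baseChange L).b₄ ≤ 1 ∧
      w (W.baseChange L).b₆ ≤ 1 ∧ w (W.baseChange L).b₈ ≤ 1 ∧ w (W.baseChange L).Δ = 1 := by
  have hint : ∀ x ∈ (v.valuation K).valuationSubring, w (algebraMap K L x) ≤ 1 :=
    fun x hx => above_le hab hx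
  set R := (v.valuation K).valuationSubring with hR
  have m1 : W.a₁ ∈ R := hW.a₁
  have m2 : W.a₂ ∈ R := hW.a₂
  have m3 : W.a₃ ∈ R := hW.a₃
  have m4 : W.a₄ ∈ R := hW.a₄
  have m6 : W.a₆ ∈ R := hW.a₆
  have q2 : (2 : K) ∈ R := by exact_mod_cast natCast_mem R 2
  have q4 : (4 : K) ∈ R := by exact_mod_cast natCast_mem R 4
  simp only [WeierstrassCurve.baseChange, WeierstrassCurve.map_b₂, WeierstrassCurve.map_b₄,
    WeierstrassCurve.map_b₆, WeierstrassCurve.map_b₈, WeierstrassCurve.map_Δ]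
  refine ⟨hint _ ?_, hint _ ?_, hint _ ?_, hint _ ?_, above_eq hab hW.disc⟩
  · rw [WeierstrassCurve.b₂]
    exact add_mem (pow_mem m1 2) (mul_mem q4 m2)
  · rw [WeierstrassCurve.b₄]
    exact add_mem (mul_mem q2 m4) (mul_mem m1 m3)
  · rw [WeierstrassCurve.b₆]
    exact add_mem (pow_mem m3 2) (mul_mem q4 m6)
  · rw [WeierstrassCurve.b₈]
    exact sub_mem (add_mem (sub_mem (add_mem (mul_mem (pow_mem m1 2) m6)
      (mul_mem (mul_mem q4 m2) m6)) (mul_mem (mul_mem m1 m3) m4))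
      (mul_mem m2 (pow_mem m3 2))) (pow_mem m4 2)

theorem main_ineq {K : Type} [Field K] [NumberField K] (v : HeightOneSpectrum (𝓞 K))
    (W : WeierstrassCurve K) (hW : GoodRed v W) {ϖ : K} (hϖ : Unif v ϖ) :
    ∃ C1 : ℝ, 0 ≤ C1 ∧ ∀ (L : Type) [Field L] [NumberField L] [Algebra K L] (g κ : ℕ)
      (S : Finset (Fin g → L)) (_ : S.Nonempty) (_ : Indep (4 ^ κ) S) (T : ℕ)
      (_ : ∀ w : FinitePlace L, Above v w → ∀ (β : Fin S.card → Fin g → L)
        (_ : ∀ b, β b ∈ S) (F : Fin S.card → MvPolynomial (Fin g) (Rv v))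
        (_ : ∀ a, Bx (4 ^ κ) (F a)),
        w (Matrix.of fun a b => evR v (β b) (F a)).det ≤ w (algebraMap K L ϖ) ^ T *
          ∏ b, ∏ i, (max (w (β b i)) 1) ^ (4 ^ κ - 1)),
      Lam v * T ≤ (S.card : ℝ) * (Real.log S.card + 3 * g * κ * C1) +
        (4 : ℝ) ^ κ * ∑ s ∈ S, ∑ i, hx (W.baseChange L) (s i) := by
  classical
  have hΔ : W.Δ ≠ 0 := by
    intro h0
    have := hW.disc
    rw [h0, map_zero] at this
    exact zero_ne_one this
  obtain ⟨C, hC, hup⟩ := hx_upper W hΔ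
  refine ⟨C, hC, ?_⟩
  intro L _ _ _ g κ S hS hInd T hyp
  haveI : FiniteDimensional K L := Module.Finite.of_restrictScalars_finite ℚ K L
  obtain ⟨V, hV, hVsum⟩ := places_above (L := L) v hϖ
  have hΔL : (W.baseChange L).Δ ≠ 0 := by
    simp only [WeierstrassCurve.baseChange, WeierstrassCurve.map_Δ]
    exact (_root_.map_ne_zero _).2 hΔ
  have hn0 : 0 < S.card := Finset.card_pos.2 hS
  -- enumeration
  let β : Fin S.card → Fin g → L := fun j => (S.equivFin.symm j : Fin g → L)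
  have hβ : Function.Injective β := fun i j h =>
    S.equivFin.symm.injective (Subtype.ext h)
  have hβS : ∀ x, x ∈ S ↔ ∃ j, β j = x := by
    intro x
    constructor
    · intro hx
      exact ⟨S.equivFin ⟨x, hx⟩, by simp [β]⟩
    · rintro ⟨j, rfl⟩
      exact (S.equivFin.symm j).2
  obtain ⟨I, hI⟩ := minor_multi (W.baseChange L) hΔL κ S.card β hβ S hβS hInd
  obtain ⟨F, hFB, hFev⟩ := fR_exists v W hW g κ
  have hmat : (Matrix.of fun a b => evR v (β b) (F (I a))) = (Matrix.of fun a b =>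
      ∏ i, ∏ l : Fin κ, ((dupIt (W.baseChange L) l (β b i)).1 ^ (I a i l : ℕ) *
        (dupIt (W.baseChange L) l (β b i)).2 ^ (3 - (I a i l : ℕ)))) := by
    ext a b
    exact hFev L (β b) (I a)
  have hraw := mi_raw (W.baseChange L) hΔL g κ S.card β I hI V
    (fun w hw => mi_good hW L ((hV w).1 hw)) (fun w => w (algebraMap K L ϖ) ^ T)
    (fun w hw => pow_pos (above_unif ((hV w).1 hw) hϖ).1 T)
    (fun w hw => by
      have h := hyp w ((hV w).1 hw) β (fun b => (hβS _).2 ⟨b, rfl⟩) (fun a => F (I a))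
        (fun a => hFB (I a))
      rw [hmat] at h
      exact h)
  -- the middle term
  have hmid : ∑ w ∈ V, Real.log (w (algebraMap K L ϖ) ^ T) =
      -((Module.finrank K L : ℝ) * Real.log (Ideal.absNorm v.asIdeal) * T) := by
    rw [← hVsum, Finset.sum_mul, ← Finset.sum_neg_distrib]
    refine Finset.sum_congr rfl fun w _ => ?_
    rw [Real.log_pow]
    ring
  rw [hmid] at hraw
  -- right side
  have hLpos : (0 : ℝ) < (Module.finrank ℚ L : ℝ) := by exact_mod_cast Module.finrank_pos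
  have hKpos : (0 : ℝ) < (Module.finrank ℚ K : ℝ) := by exact_mod_cast Module.finrank_pos
  have hKLpos : (0 : ℝ) < (Module.finrank K L : ℝ) := by exact_mod_cast Module.finrank_pos
  have htower : (Module.finrank ℚ L : ℝ) = Module.finrank ℚ K * Module.finrank K L := by
    exact_mod_cast (Module.finrank_mul_finrank ℚ K L).symm
  have hn1 : (1 : ℝ) ≤ S.card := by exact_mod_cast hn0
  have hfac : Real.log (S.card.factorial : ℝ) ≤ S.card * Real.log S.card := by
    rw [← Real.log_pow]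
    apply Real.log_le_log (by exact_mod_cast Nat.factorial_pos _)
    exact_mod_cast Nat.factorial_le_pow S.card
  have hsum : ∀ (b : Fin S.card) (i : Fin g), 3 * ∑ l ∈ Finset.range κ,
      logHeight ![(dupIt (W.baseChange L) l (β b i)).1, (dupIt (W.baseChange L) l (β b i)).2] ≤
      (4 ^ κ * hx (W.baseChange L) (β b i) + 3 * (κ * C)) * (Module.finrank ℚ L : ℝ) := by
    intro b i
    have hxn := hx_nonneg W hΔ L (β b i)
    have hgeo : 3 * (∑ l ∈ Finset.range κ, (4 : ℝ) ^ l) ≤ 4 ^ κ := by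
      rw [geom_sum_eq (by norm_num)]
      linarith
    calc 3 * ∑ l ∈ Finset.range κ, logHeight ![(dupIt (W.baseChange L) l (β b i)).1,
          (dupIt (W.baseChange L) l (β b i)).2] ≤ 3 * ∑ l ∈ Finset.range κ,
          (4 ^ l * hx (W.baseChange L) (β b i) + C) * (Module.finrank ℚ L : ℝ) :=
        mul_le_mul_of_nonneg_left (Finset.sum_le_sum fun l _ => hup L (β b i) l) (by norm_num)
      _ = (3 * (∑ l ∈ Finset.range κ, (4 : ℝ) ^ l) * hx (W.baseChange L) (β b i) +
          3 * (κ * C)) * (Module.finrank ℚ L : ℝ) := by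
        rw [← Finset.sum_mul, Finset.sum_add_distrib, ← Finset.sum_mul, Finset.sum_const,
          Finset.card_range, nsmul_eq_mul]
        ring
      _ ≤ _ := by
        apply mul_le_mul_of_nonneg_right _ hLpos.le
        have := mul_le_mul_of_nonneg_right hgeo hxn
        linarith
  have hhx : ∑ b : Fin S.card, ∑ i : Fin g, hx (W.baseChange L) (β b i) =
      ∑ x ∈ S, ∑ i : Fin g, hx (W.baseChange L) (x i) := by
    rw [← Finset.sum_coe_sort S (fun x => ∑ i : Fin g, hx (W.baseChange L) (x i))]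
    exact Equiv.sum_comp S.equivFin.symm
      (fun x : S => ∑ i : Fin g, hx (W.baseChange L) ((x : Fin g → L) i))
  have hright : 3 * ∑ b : Fin S.card, ∑ i : Fin g, ∑ l ∈ Finset.range κ,
      logHeight ![(dupIt (W.baseChange L) l (β b i)).1, (dupIt (W.baseChange L) l (β b i)).2] ≤
      (4 ^ κ * (∑ x ∈ S, ∑ i : Fin g, hx (W.baseChange L) (x i)) +
        S.card * (g * (3 * (κ * C)))) * (Module.finrank ℚ L : ℝ) := by
    rw [Finset.mul_sum]
    calc ∑ b : Fin S.card, 3 * ∑ i : Fin g, ∑ l ∈ Finset.range κ,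
          logHeight ![(dupIt (W.baseChange L) l (β b i)).1,
            (dupIt (W.baseChange L) l (β b i)).2]
        ≤ ∑ b : Fin S.card, ∑ i : Fin g, (4 ^ κ * hx (W.baseChange L) (β b i) +
            3 * (κ * C)) * (Module.finrank ℚ L : ℝ) := by
          refine Finset.sum_le_sum fun b _ => ?_
          rw [Finset.mul_sum]
          exact Finset.sum_le_sum fun i _ => hsum b i
      _ = (4 ^ κ * (∑ b : Fin S.card, ∑ i : Fin g, hx (W.baseChange L) (β b i)) +
        S.card * (g * (3 * (κ * C)))) * (Module.finrank ℚ L : ℝ) := by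
          simp only [← Finset.sum_mul, Finset.sum_add_distrib, ← Finset.mul_sum,
            Finset.sum_const, Finset.card_univ, Fintype.card_fin, nsmul_eq_mul]
          ring
      _ = _ := by rw [hhx]
  set H := ∑ x ∈ S, ∑ i : Fin g, hx (W.baseChange L) (x i) with hH
  set D := (Module.finrank ℚ L : ℝ) with hD
  have hall : (Module.finrank K L : ℝ) * Real.log (Ideal.absNorm v.asIdeal) * T ≤
      D * ((S.card : ℝ) * Real.log S.card + 4 ^ κ * H + S.card * (g * (3 * (κ * C)))) := by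
    have h2 := mul_le_mul_of_nonneg_left hfac hLpos.le
    linarith
  rw [htower] at hall
  unfold Lam
  rw [div_mul_eq_mul_div, div_le_iff₀ hKpos]
  have h6 : (Module.finrank K L : ℝ) * (Real.log (Ideal.absNorm v.asIdeal) * T) ≤
      (Module.finrank K L : ℝ) * (((S.card : ℝ) * (Real.log S.card + 3 * g * κ * C) +
        4 ^ κ * H) * Module.finrank ℚ K) := by
    refine le_trans (le_of_eq (by ring)) (hall.trans (le_of_eq (by ring)))
  exact le_of_mul_le_mul_left h6 hKLpos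

end LEG
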