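/-
LG/Cor (M)  MP_022f22_nt, Lehmer problem in E^g, board modleg. Paper proof: /team-store/lehmer_eg_proof.md
Core inequality (paper 6).  C1 from main_ineq (hs.good).  bad_count: |bad(j0,k)| <= 2X; bad_mul: |bad(d j0, d k)| <= d^g |bad(j0,k)| <= 2 d^g X <= r/2, r = S.card; d k = 4^κ.  det_gain with J = d j0, k = 4^κ, r = S.card gives the hypothesis of
main_ineq with T = d j0 (r - |bad|) >= d j0 r/2 (real numbers; natural subtraction: |bad| <= r/2 <= r).  Lam v >= 0 (absNorm >= 1).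
-/
import Mathlib
import Pool.Agent.Work.MP_022f22_nt.LG.Defs
import Pool.Agent.Work.MP_022f22_nt.LG.Mi
import Pool.Agent.Work.MP_022f22_nt.LG.Bdc
import Pool.Agent.Work.MP_022f22_nt.LG.Bdm
import Pool.Agent.Work.MP_022f22_nt.LG.Dtg

open NumberField IsDedekindDomain Polynomial Height Filter Topology LEH

namespace LEG

theorem core {K : Type} [Field K] [NumberField K] {v : HeightOneSpectrum (𝓞 K)}
    {W : WeierstrassCurve K} {p N Q : ℕ} {A B : K[X]} (hs : Setup K v W p N Q A B)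
    {ϖ : K} (hϖ : Unif v ϖ) :
    ∃ C1 : ℝ, 0 ≤ C1 ∧ ∀ (F L : Type) [Field F] [NumberField F] [Field L] [NumberField L]
      [Algebra K F] [Algebra K L] [Algebra F L] [IsScalarTower K F L] (g : ℕ) (b : Fin g → F)
      (_ : ∀ i n, (B.map (algebraMap K F)).eval ((Fm A B)^[n] (b i)) ≠ 0)
      (S : Finset (Fin g → L)) (_ : S.Nonempty) (j0 b' κ k d : ℕ) (_ : 1 ≤ j0) (_ : 1 ≤ d)
      (_ : d * k = 4 ^ κ)
      (_ : ∀ s ∈ S, ∃ (σ : L ≃ₐ[K] L) (n : ℕ), 2 * j0 + b' ≤ n ∧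
        ∀ i, s i = σ (algebraMap F L ((Fm A B)^[n] (b i))))
      (V : Finset (FinitePlace F)) (_ : ∀ w, w ∈ V ↔ Above v w) (t : FinitePlace F → ℕ)
      (_ : ∀ w ∈ V, ((nw w ^ (t w))⁻¹) ^ (Q ^ b') ≤ w (algebraMap K F ϖ)) (X : ℝ)
      (_ : ∑ w ∈ V, (t w : ℝ) * Real.log (nw w) ≤ X * Real.log (Ideal.absNorm v.asIdeal))
      (_ : 4 * (d : ℝ) ^ g * X ≤ S.card) (_ : Indep (4 ^ κ) S),
      Lam v * ((d : ℝ) * j0 / 2) * S.card ≤
        (S.card : ℝ) * (Real.log S.card + 3 * g * κ * C1) +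
        (4 : ℝ) ^ κ * ∑ s ∈ S, ∑ i, hx (W.baseChange L) (s i) := by
  obtain ⟨C1, hC1, hmain⟩ := main_ineq v W hs.good hϖ
  refine ⟨C1, hC1, ?_⟩
  intro F L _ _ _ _ _ _ _ _ g b hb S hSne j0 b' κ k d hj0 hd hdk hS V hV t ht X hX hX4 hI
  have hcount := bad_count hs hϖ (F := F) (L := L) b hb S j0 b' k hj0 hS V hV t ht X hX
  have hmul := bad_mul v ϖ S j0 k d hd
  rw [hdk] at hmul
  have h4 : 1 ≤ 4 ^ κ := Nat.one_le_pow _ _ (by norm_num)
  set n := (bad v ϖ S (d * j0) (4 ^ κ)).card with hn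
  have hnr : (n : ℝ) ≤ (S.card : ℝ) / 2 := by
    have h1 : (n : ℝ) ≤ (d : ℝ) ^ g * ((bad v ϖ S j0 k).card : ℝ) := by exact_mod_cast hmul
    have h2 : (d : ℝ) ^ g * ((bad v ϖ S j0 k).card : ℝ) ≤ (d : ℝ) ^ g * (2 * X) :=
      mul_le_mul_of_nonneg_left hcount (by positivity)
    linarith
  have hnn : n ≤ S.card := by
    have h1 : (n : ℝ) ≤ (S.card : ℝ) := by
      have : (0 : ℝ) ≤ S.card := Nat.cast_nonneg _
      linarith
    exact_mod_cast h1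
  have hT := hmain L g κ S hSne hI ((d * j0) * (S.card - n)) (by
    intro w hw β hβ F' hF'
    exact det_gain hϖ S (d * j0) (4 ^ κ) S.card h4 β hβ F' hF' w hw)
  refine le_trans ?_ hT
  have hLam : 0 ≤ Lam v := div_nonneg (Real.log_natCast_nonneg _) (Nat.cast_nonneg _)
  push_cast [Nat.cast_sub hnn]
  rw [mul_assoc]
  refine mul_le_mul_of_nonneg_left ?_ hLam
  have hdj : (0 : ℝ) ≤ (d : ℝ) * j0 := by positivity
  nlinarith

end LEG
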