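/-
LG/Dsj (S)  MP_022f22_nt, Lehmer problem in E^g, board modleg. Paper proof: /team-store/lehmer_eg_proof.md
Levels are disjoint.  nice_point (LH/NiP): Nice for xc (P 0); xc (N^n P i) = F^n (xc (P i)).  If itn n (xt P) in torb (itn n' (xt P)): coordinate 0: F^n x = σ(F^n' x) = F^n'(σ x) (LH/Fmc Fm_iter_gal), Nice.disj gives n = n'.  (g >= 1.)
-/
import Mathlib
import Pool.Agent.Work.MP_022f22_nt.LG.Defs
import Pool.Agent.Work.MP_022f22_nt.LG.Tcd
import Pool.Agent.Work.MP_022f22_nt.LH.NiP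
import Pool.Agent.Work.MP_022f22_nt.LH.Fmc

open NumberField IsDedekindDomain Polynomial Height Filter Topology LEH

namespace LEG

theorem lev_disj {K : Type} [Field K] [NumberField K] {v : HeightOneSpectrum (𝓞 K)}
    {W : WeierstrassCurve K} {p N Q : ℕ} {A B : K[X]} (hs : Setup K v W p N Q A B)
    {L : Type} [Field L] [NumberField L] [Algebra K L] [FiniteDimensional K L] [IsGalois K L]
    [DecidableEq L] {g : ℕ} (hg : 1 ≤ g) (P : Fin g → (W.baseChange L).toAffine.Point)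
    (hP : ∀ i, NT (P i)) (n n' : ℕ) (h : n ≠ n') :
    itn A B n (xt P) ∉ torb K (itn A B n' (xt P)) := by
  intro hmem
  rw [mem_torb] at hmem
  obtain ⟨σ, hσ⟩ := hmem
  have h0 := congrFun hσ ⟨0, hg⟩
  apply h
  refine (nice_point hs (P ⟨0, hg⟩) (hP ⟨0, hg⟩)).1.disj σ n n' ?_
  rw [Fm_iter_gal]
  exact h0.symm

end LEG
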