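/-
LG/Usm (S)  MP_022f22_nt, Lehmer problem in E^g, board modleg. Paper proof: /team-store/lehmer_eg_proof.md
Basic facts on usp (LG/Defs).  mem_usp: the span is the image of the submodule of polynomials Bx k (k >= 1) under aeval a (monomials; Finsupp sums).  usp_pow: induction, Submodule.mul_span/span_mul_span: product of monomials with exponents < k+1 ... exponents add: <= J k.
-/
import Mathlib
import Pool.Agent.Work.MP_022f22_nt.LG.Defs

open NumberField IsDedekindDomain Polynomial Height Filter Topology LEH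

namespace LEG

theorem usp_mono (K : Type*) {L : Type*} [Field K] [Field L] [Algebra K L] {g : ℕ} {k l : ℕ}
    (h : k ≤ l) (a : Fin g → L) : usp K k a ≤ usp K l a := by
  refine Submodule.span_mono ?_
  rintro y ⟨u, hu, rfl⟩
  exact ⟨u, fun i => (hu i).trans_le h, rfl⟩

theorem one_mem_usp (K : Type*) {L : Type*} [Field K] [Field L] [Algebra K L] {g : ℕ} {k : ℕ}
    (hk : 1 ≤ k) (a : Fin g → L) : (1 : L) ∈ usp K k a := by
  refine Submodule.subset_span ⟨fun _ => 0, fun _ => hk, ?_⟩
  simp

theorem mem_usp (K : Type*) {L : Type*} [Field K] [Field L] [Algebra K L] {g : ℕ} {k : ℕ}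
    (hk : 1 ≤ k) (a : Fin g → L) (y : L) :
    y ∈ usp K k a ↔ ∃ f : MvPolynomial (Fin g) K, Bx k f ∧ MvPolynomial.aeval a f = y := by
  constructor
  · intro hy
    unfold usp at hy
    induction hy using Submodule.span_induction with
    | mem y h =>
      obtain ⟨u, hu, rfl⟩ := h
      refine ⟨MvPolynomial.monomial (Finsupp.equivFunOnFinite.symm u) 1, ?_, ?_⟩
      · intro i
        rw [MvPolynomial.degreeOf_monomial_eq _ _ one_ne_zero]
        exact hu i
      · rw [MvPolynomial.aeval_monomial, map_one, one_mul, Finsupp.prod_fintype _ _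
          (fun i => pow_zero _)]
        rfl
    | zero =>
      refine ⟨0, fun i => ?_, map_zero _⟩
      rw [MvPolynomial.degreeOf_zero]
      exact hk
    | add x y _ _ hx hy =>
      obtain ⟨f1, h1, h2⟩ := hx
      obtain ⟨f2, h3, h4⟩ := hy
      refine ⟨f1 + f2, fun i => ?_, by rw [map_add, h2, h4]⟩
      exact lt_of_le_of_lt (MvPolynomial.degreeOf_add_le i f1 f2) (max_lt (h1 i) (h3 i))
    | smul c x _ hx =>
      obtain ⟨f1, h1, h2⟩ := hx
      refine ⟨MvPolynomial.C c * f1, fun i => ?_, ?_⟩
      · exact lt_of_le_of_lt (MvPolynomial.degreeOf_C_mul_le f1 i c) (h1 i)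
      · rw [map_mul, h2, MvPolynomial.aeval_C, Algebra.smul_def]
  · rintro ⟨f, hf, rfl⟩
    rw [MvPolynomial.aeval_def, MvPolynomial.eval₂_eq']
    refine Submodule.sum_mem _ (fun m hm => ?_)
    rw [← Algebra.smul_def]
    refine Submodule.smul_mem _ _ (Submodule.subset_span ⟨fun i => m i, fun i => ?_, rfl⟩)
    exact lt_of_le_of_lt (MvPolynomial.monomial_le_degreeOf i hm) (hf i)

private theorem usp_mul_aux (K : Type*) {L : Type*} [Field K] [Field L] [Algebra K L] {g : ℕ}
    (m k : ℕ) (a : Fin g → L) : usp K (m + 1) a * usp K (k + 1) a ≤ usp K (m + k + 1) a := by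
  unfold usp
  rw [Submodule.span_mul_span, Submodule.span_le]
  intro y hy
  obtain ⟨x, ⟨u, hu, rfl⟩, z, ⟨v, hv, rfl⟩, rfl⟩ := Set.mem_mul.1 hy
  refine Submodule.subset_span ⟨fun i => u i + v i, fun i => ?_, ?_⟩
  · have h1 := hu i
    have h2 := hv i
    show u i + v i < m + k + 1
    omega
  · rw [← Finset.prod_mul_distrib]
    exact Finset.prod_congr rfl (fun i _ => pow_add _ _ _)

theorem usp_pow (K : Type*) {L : Type*} [Field K] [Field L] [Algebra K L] {g : ℕ} (k J : ℕ)
    (a : Fin g → L) : usp K (k + 1) a ^ J ≤ usp K (J * k + 1) a := by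
  induction J with
  | zero =>
    rw [pow_zero, Submodule.one_le]
    exact one_mem_usp K (by omega) a
  | succ J ih =>
    rw [pow_succ]
    refine (mul_le_mul' ih le_rfl).trans ?_
    rw [show (J + 1) * k + 1 = J * k + k + 1 by ring]
    exact usp_mul_aux K (J * k) k a

theorem usp_le_adjoin (K : Type*) {L : Type*} [Field K] [Field L] [Algebra K L] {g : ℕ} (k : ℕ)
    (a : Fin g → L) (y : L) (hy : y ∈ usp K k a) :
    y ∈ IntermediateField.adjoin K (Set.range a) := by
  unfold usp at hy
  induction hy using Submodule.span_induction with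
  | mem y h =>
    obtain ⟨u, hu, rfl⟩ := h
    exact prod_mem (fun i _ => pow_mem
      (IntermediateField.subset_adjoin K (Set.range a) (Set.mem_range_self i)) _)
  | zero => exact zero_mem _
  | add x y _ _ hx hy => exact add_mem hx hy
  | smul c x _ hx => exact IntermediateField.smul_mem _ hx

end LEG
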