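/-
LG/Sep (M)  MP_022f22_nt, Lehmer problem in E^g, board modleg. Paper proof: /team-store/lehmer_eg_proof.md
Separation (paper 4.3).  Suppose every f with Bx (k+1) and f(b') = 0 has f(b) = 0.  Define θ on K(b') = usp K k b' = usp K (k+1) b': θ(f(b')) = f(b) for f with Bx (k+1) (well defined, K-linear, θ 1 = 1).  For e = f(b'), f with Bx k, X_i f has Bx (k+1): θ(b'_i e) = b_i θ(e).
So θ(q(b') e) = q(b) θ(e) for all polynomials q, θ(q(b')) = q(b): θ is a K-algebra hom K(b') -> L with b'_i ↦ b_i.  L/K normal: θ extends to σ in L ≃ₐ[K] L (AlgHom.liftNormal / restrictNormal, IntermediateField.exists_algHom...): σ b' = b, b in torb b'.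
Shorter: q(b') = 0 implies q(b) = 0 for all q in K[x_1..x_g] suffices (then the kernels of the evaluations agree and there is an isomorphism K[b'] -> K[b]).
-/
import Mathlib
import Pool.Agent.Work.MP_022f22_nt.LG.Defs
import Pool.Agent.Work.MP_022f22_nt.LG.Usm
import Pool.Agent.Work.MP_022f22_nt.LG.Tcd

open NumberField IsDedekindDomain Polynomial Height Filter Topology LEH

namespace LEG

private theorem reduce_aux {K L : Type*} [Field K] [Field L] [Algebra K L] {g : ℕ}
    (b b' : Fin g → L) (k : ℕ) (hk : 1 ≤ k)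
    (h : ∀ y ∈ IntermediateField.adjoin K (Set.range b'), y ∈ usp K k b')
    (hc : ∀ f : MvPolynomial (Fin g) K, Bx (k + 1) f → MvPolynomial.aeval b' f = 0 →
      MvPolynomial.aeval b f = 0) (q : MvPolynomial (Fin g) K) :
    ∃ r : MvPolynomial (Fin g) K, Bx k r ∧ MvPolynomial.aeval b' r = MvPolynomial.aeval b' q ∧
      MvPolynomial.aeval b r = MvPolynomial.aeval b q := by
  have hmem : ∀ f : MvPolynomial (Fin g) K,
      MvPolynomial.aeval b' f ∈ IntermediateField.adjoin K (Set.range b') := by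
    intro f
    rw [MvPolynomial.aeval_def, MvPolynomial.eval₂_eq']
    refine sum_mem (fun m _ => mul_mem (IntermediateField.algebraMap_mem _ _) ?_)
    exact prod_mem (fun i _ => pow_mem
      (IntermediateField.subset_adjoin K (Set.range b') (Set.mem_range_self i)) _)
  induction q using MvPolynomial.induction_on with
  | C a =>
    refine ⟨MvPolynomial.C a, fun i => ?_, rfl, rfl⟩
    rw [MvPolynomial.degreeOf_C]
    exact hk
  | add p q hp hq =>
    obtain ⟨r1, h1, h2, h3⟩ := hp
    obtain ⟨r2, h4, h5, h6⟩ := hq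
    refine ⟨r1 + r2, fun i => ?_, by rw [map_add, map_add, h2, h5], by
      rw [map_add, map_add, h3, h6]⟩
    exact lt_of_le_of_lt (MvPolynomial.degreeOf_add_le i r1 r2) (max_lt (h1 i) (h4 i))
  | mul_X p j hp =>
    obtain ⟨r1, h1, h2, h3⟩ := hp
    obtain ⟨r, h4, h5⟩ := (mem_usp K hk b' _).1 (h _ (hmem (r1 * MvPolynomial.X j)))
    have hB : Bx (k + 1) (r1 * MvPolynomial.X j - r) := by
      intro i
      have h6 := MvPolynomial.degreeOf_sub_le i (r1 * MvPolynomial.X j) r
      have h7 := MvPolynomial.degreeOf_mul_le i r1 (MvPolynomial.X j)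
      have h8 : MvPolynomial.degreeOf i (MvPolynomial.X j : MvPolynomial (Fin g) K) ≤ 1 := by
        rw [MvPolynomial.degreeOf_X]
        split_ifs <;> omega
      have h9 := h1 i
      have h10 := h4 i
      have h11 : max (MvPolynomial.degreeOf i (r1 * MvPolynomial.X j)) (MvPolynomial.degreeOf i r)
          < k + 1 := max_lt (by omega) (by omega)
      omega
    have h12 := hc _ hB (by rw [map_sub, h5, sub_self])
    rw [map_sub, sub_eq_zero] at h12
    refine ⟨r, h4, ?_, ?_⟩
    · rw [h5, map_mul, map_mul, h2]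
    · rw [← h12, map_mul, map_mul, h3]

theorem sep {K L : Type*} [Field K] [Field L] [Algebra K L] [FiniteDimensional K L]
    [IsGalois K L] {g : ℕ} (b b' : Fin g → L) (k : ℕ) (hk : 1 ≤ k)
    (h : ∀ y ∈ IntermediateField.adjoin K (Set.range b'), y ∈ usp K k b') (hne : b ∉ torb K b') :
    ∃ f : MvPolynomial (Fin g) K, Bx (k + 1) f ∧ MvPolynomial.aeval b' f = 0 ∧
      MvPolynomial.aeval b f ≠ 0 := by
  by_contra hcon
  push Not at hcon
  apply hne
  have hker : ∀ q : MvPolynomial (Fin g) K, MvPolynomial.aeval b' q = 0 →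
      MvPolynomial.aeval b q = 0 := by
    intro q hq
    obtain ⟨r, h1, h2, h3⟩ := reduce_aux b b' k hk h hcon q
    rw [← h3]
    exact hcon r (fun i => (h1 i).trans (Nat.lt_succ_self k)) (by rw [h2, hq])
  let F' := IntermediateField.adjoin K (Set.range b')
  let c : Fin g → F' := fun i =>
    ⟨b' i, IntermediateField.subset_adjoin K (Set.range b') (Set.mem_range_self i)⟩
  let f' : MvPolynomial (Fin g) K →ₐ[K] F' := MvPolynomial.aeval c
  have hf' : ∀ q, ((f' q : F') : L) = MvPolynomial.aeval b' q := by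
    intro q
    have h1 : F'.val.comp f' = MvPolynomial.aeval b' := by
      apply MvPolynomial.algHom_ext
      intro i
      show ((f' (MvPolynomial.X i) : F') : L) = _
      rw [MvPolynomial.aeval_X, MvPolynomial.aeval_X]
    exact congrArg (fun φ : MvPolynomial (Fin g) K →ₐ[K] L => φ q) h1
  have hsurj : Function.Surjective f' := by
    rintro ⟨y, hy⟩
    obtain ⟨q, -, hq⟩ := (mem_usp K hk b' y).1 (h y hy)
    exact ⟨q, Subtype.ext (by rw [hf' q]; exact hq)⟩
  have hk2 : ∀ q : MvPolynomial (Fin g) K, q ∈ RingHom.ker f' →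
      (MvPolynomial.aeval b : MvPolynomial (Fin g) K →ₐ[K] L) q = 0 := by
    intro q hq
    apply hker
    rw [← hf' q, (RingHom.mem_ker).1 hq]
    rfl
  let e := Ideal.quotientKerAlgEquivOfSurjective hsurj
  let φ : F' →ₐ[K] L := (Ideal.Quotient.liftₐ (RingHom.ker f') (MvPolynomial.aeval b) hk2).comp
    (e.symm : F' →ₐ[K] _)
  have hφ : ∀ q, φ (f' q) = MvPolynomial.aeval b q := by
    intro q
    have h1 : e.symm (f' q) = Ideal.Quotient.mk _ q := by
      rw [AlgEquiv.symm_apply_eq]
      rfl
    show (Ideal.Quotient.liftₐ (RingHom.ker f') (MvPolynomial.aeval b) hk2) (e.symm (f' q)) = _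
    rw [h1]
    rfl
  let ψ : L →ₐ[K] L := φ.liftNormal L
  have hψ : ∀ i, ψ (b' i) = b i := by
    intro i
    have h1 : ψ (algebraMap F' L (c i)) = algebraMap L L (φ (c i)) :=
      AlgHom.liftNormal_commutes φ L (c i)
    have h2 : φ (c i) = b i := by
      have h3 := hφ (MvPolynomial.X i)
      rw [MvPolynomial.aeval_X, MvPolynomial.aeval_X] at h3
      exact h3
    rw [h2] at h1
    exact h1
  rw [mem_torb]
  refine ⟨AlgEquiv.ofBijective ψ (Algebra.IsAlgebraic.algHom_bijective ψ), ?_⟩
  funext i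
  exact hψ i

end LEG
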