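/-
LG/Idp (M)  MP_022f22_nt, Lehmer problem in E^g, board modleg. Paper proof: /team-store/lehmer_eg_proof.md
Independence (paper 4.4).  For j: f_j = product over i != j of the separators (sep b_j b_i): Bx ((n-1)k + 1), f_j(b_i) = 0 for i != j, f_j(b_j) != 0.  Given c with sum_{s in S} c_s s^u = 0 for all u with exponents < n(k+1): by K-linearity sum_s c_s F(s) = 0 for all F in K[x] with
Bx (n(k+1)), F(s) = aeval.  Take F = f_j e, e with Bx k: F vanishes on torb b_i, i != j (F(σ b_i) = σ(F(b_i))), so sum over s in torb b_j of c_s F(s) = 0; s = σ b_j: F(s) = σ(f_j(b_j) e(b_j)), and f_j(b_j) e(b_j) runs through all of K(b_j) (h j).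
So sum_s c_s σ_s(y) = 0 for all y in K(b_j), σ_s the distinct embeddings K(b_j) -> L: Dedekind (linearIndependent_monoidHom) gives c_s = 0.
-/
import Mathlib
import Pool.Agent.Work.MP_022f22_nt.LG.Defs
import Pool.Agent.Work.MP_022f22_nt.LG.Usm
import Pool.Agent.Work.MP_022f22_nt.LG.Tcd
import Pool.Agent.Work.MP_022f22_nt.LG.Sep

open NumberField IsDedekindDomain Polynomial Height Filter Topology LEH

namespace LEG

theorem indep_of_reg {K L : Type} [Field K] [Field L] [Algebra K L] [FiniteDimensional K L]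
    [IsGalois K L] {g : ℕ} (n : ℕ) (b : Fin n → Fin g → L) (k : ℕ) (hk : 1 ≤ k)
    (h : ∀ j, ∀ y ∈ IntermediateField.adjoin K (Set.range (b j)), y ∈ usp K k (b j))
    (hd : ∀ i j, i ≠ j → b i ∉ torb K (b j)) (S : Finset (Fin g → L))
    (hS : ∀ s, s ∈ S ↔ ∃ j, s ∈ torb K (b j)) : Indep (n * (k + 1)) S := by
  classical
  intro c hc s₀ hs₀
  obtain ⟨j, hj⟩ := (hS s₀).1 hs₀
  have hlin : ∀ F : MvPolynomial (Fin g) K, Bx (n * (k + 1)) F →
      ∑ s ∈ S, c s * MvPolynomial.aeval s F = 0 := by
    intro F hF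
    have h1 : ∀ s : Fin g → L, MvPolynomial.aeval s F =
        ∑ u ∈ F.support, algebraMap K L (F.coeff u) * ∏ i, s i ^ u i := by
      intro s
      rw [MvPolynomial.aeval_def, MvPolynomial.eval₂_eq']
    simp_rw [h1, Finset.mul_sum]
    rw [Finset.sum_comm]
    apply Finset.sum_eq_zero
    intro u hu
    have h2 := hc (fun i => u i)
      (fun i => lt_of_le_of_lt (MvPolynomial.monomial_le_degreeOf i hu) (hF i))
    calc ∑ s ∈ S, c s * (algebraMap K L (F.coeff u) * ∏ i, s i ^ u i)
        = algebraMap K L (F.coeff u) * ∑ s ∈ S, c s * ∏ i, s i ^ u i := by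
          rw [Finset.mul_sum]
          exact Finset.sum_congr rfl fun s _ => by ring
      _ = 0 := by rw [h2, mul_zero]
  have hev : ∀ (σ : L ≃ₐ[K] L) (a : Fin g → L) (F : MvPolynomial (Fin g) K),
      MvPolynomial.aeval (fun i => σ (a i)) F = σ (MvPolynomial.aeval a F) := by
    intro σ a F
    have h1 : (σ : L →ₐ[K] L).comp (MvPolynomial.aeval a) =
        MvPolynomial.aeval (fun i => σ (a i)) := by
      apply MvPolynomial.algHom_ext
      intro i
      simp
    exact (DFunLike.congr_fun h1 F).symm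
  have hsep : ∀ i, ∃ f : MvPolynomial (Fin g) K, i ≠ j →
      Bx (k + 1) f ∧ MvPolynomial.aeval (b i) f = 0 ∧ MvPolynomial.aeval (b j) f ≠ 0 := by
    intro i
    by_cases hij : i = j
    · exact ⟨0, fun h => absurd hij h⟩
    · obtain ⟨f, hf⟩ := sep (b j) (b i) k hk (h i) (hd j i (Ne.symm hij))
      exact ⟨f, fun _ => hf⟩
  choose f hf using hsep
  set F0 : MvPolynomial (Fin g) K := ∏ i ∈ Finset.univ.erase j, f i with hF0
  have hcard : (Finset.univ.erase j).card = n - 1 := by
    rw [Finset.card_erase_of_mem (Finset.mem_univ j), Finset.card_univ, Fintype.card_fin]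
  have hn : 1 ≤ n := by
    have := j.2
    omega
  have hdeg : ∀ l, F0.degreeOf l ≤ (n - 1) * k := by
    intro l
    refine le_trans (MvPolynomial.degreeOf_prod_le l _ _) ?_
    rw [← hcard, ← smul_eq_mul]
    apply Finset.sum_le_card_nsmul
    intro i hi
    have := (hf i (Finset.ne_of_mem_erase hi)).1 l
    omega
  have hF0j : MvPolynomial.aeval (b j) F0 ≠ 0 := by
    rw [hF0, map_prod, Finset.prod_ne_zero_iff]
    intro i hi
    exact (hf i (Finset.ne_of_mem_erase hi)).2.2
  have hF0i : ∀ i, i ≠ j → MvPolynomial.aeval (b i) F0 = 0 := by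
    intro i hi
    rw [hF0, map_prod]
    exact Finset.prod_eq_zero (Finset.mem_erase.2 ⟨hi, Finset.mem_univ i⟩) (hf i hi).2.1
  have key : ∀ e : MvPolynomial (Fin g) K, Bx k e →
      ∑ s ∈ torb K (b j), c s * MvPolynomial.aeval s (F0 * e) = 0 := by
    intro e he
    rw [← hlin (F0 * e) ?_]
    · apply Finset.sum_subset
      · intro s hs
        exact (hS s).2 ⟨j, hs⟩
      · intro s hs hs'
        obtain ⟨i, hi⟩ := (hS s).1 hs
        have hij : i ≠ j := by
          rintro rfl
          exact hs' hi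
        obtain ⟨σ, rfl⟩ := (mem_torb (b i) s).1 hi
        rw [hev, map_mul, hF0i i hij, zero_mul, map_zero, mul_zero]
    · intro l
      refine lt_of_le_of_lt (MvPolynomial.degreeOf_mul_le l _ _) ?_
      have h1 := hdeg l
      have h2 := he l
      have h3 : (n - 1) * k + k ≤ n * (k + 1) := by
        calc (n - 1) * k + k = (n - 1 + 1) * k := by ring
          _ = n * k := by rw [Nat.sub_add_cancel hn]
          _ ≤ n * (k + 1) := Nat.mul_le_mul_left _ (Nat.le_succ k)
      omega
  have hσ : ∀ s : {s // s ∈ torb K (b j)}, ∃ σ : L ≃ₐ[K] L, (fun i => σ (b j i)) = s.1 :=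
    fun s => (mem_torb (b j) s.1).1 s.2
  choose σ hσ using hσ
  let M := IntermediateField.adjoin K (Set.range (b j))
  have hbM : ∀ i, b j i ∈ M := fun i =>
    IntermediateField.subset_adjoin K _ (Set.mem_range_self i)
  let φ : {s // s ∈ torb K (b j)} → (M →* L) := fun s =>
    (((σ s : L ≃ₐ[K] L) : L →ₐ[K] L).comp M.val : M →ₐ[K] L)
  have hφa : ∀ s (y : M), φ s y = σ s (y : L) := fun s y => rfl
  have hφ : Function.Injective φ := by
    intro s t hst
    apply Subtype.ext
    funext i
    have h1 := DFunLike.congr_fun hst (⟨b j i, hbM i⟩ : M)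
    rw [hφa, hφa] at h1
    rw [← hσ s, ← hσ t]
    exact h1
  have hLI : LinearIndependent L (fun s => (φ s : M → L)) :=
    (linearIndependent_monoidHom M L).comp φ hφ
  rw [Fintype.linearIndependent_iff] at hLI
  refine hLI (fun s => c s.1) ?_ ⟨s₀, hj⟩
  funext y
  rw [Finset.sum_apply]
  simp only [Pi.smul_apply, smul_eq_mul, Pi.zero_apply]
  have hF0M : MvPolynomial.aeval (b j) F0 ∈ M := by
    have h1 : MvPolynomial.aeval (b j) F0 =
        ((MvPolynomial.aeval (fun i => (⟨b j i, hbM i⟩ : M)) F0 : M) : L) := by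
      have h2 : M.val.comp (MvPolynomial.aeval (fun i => (⟨b j i, hbM i⟩ : M))) =
          MvPolynomial.aeval (b j) := by
        apply MvPolynomial.algHom_ext
        intro i
        simp
      exact (DFunLike.congr_fun h2 F0).symm
    rw [h1]
    exact Subtype.mem _
  obtain ⟨e, he, hey⟩ := (mem_usp K hk (b j) _).1
    (h j _ (M.div_mem y.2 hF0M))
  have h5 := key e he
  rw [← Finset.sum_coe_sort] at h5
  rw [← h5]
  apply Finset.sum_congr rfl
  intro s _
  rw [hφa]
  congr 1
  have h6 : MvPolynomial.aeval (s : Fin g → L) (F0 * e) =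
      σ s (MvPolynomial.aeval (b j) (F0 * e)) := by
    rw [← hev, hσ s]
  rw [h6, map_mul, hey, mul_div_cancel₀ _ hF0j]

theorem indep_mono {L : Type*} [Field L] {g k l : ℕ} (h : k ≤ l) {S : Finset (Fin g → L)}
    (hS : Indep k S) : Indep l S := by
  intro c hc
  exact hS c (fun u hu => hc u (fun i => lt_of_lt_of_le (hu i) h))

end LEG
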