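/-
LG/Nst (M)  MP_022f22_nt, Lehmer problem in E^g, board modleg. Paper proof: /team-store/lehmer_eg_proof.md
One step (paper 4.1).  f with Bx k, f(F(a)) = 0.  G = sum_u coeff_u(f) prod_i A(x_i)^(u_i) B(x_i)^(k-1-u_i) (polynomials in x_i: Polynomial.aeval (MvPolynomial.X i)).  Bx (Q(k-1)+1) G (degree in x_i <= Q(k-1)), G(a) = prod_i B(a_i)^(k-1) f(F(a)) = 0, so G = 0.
Then f = 0: the polynomials A^u B^(k-1-u) (u < k) in K[x] have degrees Q u + (deg B)(k-1-u), strictly increasing in u, so they are linearly independent: let m_(u,j) be their coefficients (j <= Q(k-1)), the rows of m are independent; G = 0 says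
sum_u coeff_u prod_i m_(u_i, j_i) = 0 for all j; choose a left inverse n of m (sum_j m_(u,j) n_(j,u') = delta) and sum against prod_i n_(j_i,u'_i): coeff_(u') = 0.
-/
import Mathlib
import Pool.Agent.Work.MP_022f22_nt.LG.Defs

open NumberField IsDedekindDomain Polynomial Height Filter Topology LEH

namespace LEG

private theorem nst_coeff {K : Type*} [Field K] {g : ℕ} (p : Fin g → K[X]) (m : Fin g →₀ ℕ) :
    (∏ i, Polynomial.aeval (MvPolynomial.X i : MvPolynomial (Fin g) K) (p i)).coeff m =
      ∏ i, (p i).coeff (m i) := by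
  classical
  have h1 : ∀ i, Polynomial.aeval (MvPolynomial.X i : MvPolynomial (Fin g) K) (p i) =
      ∑ j ∈ (p i).support, MvPolynomial.C ((p i).coeff j) * MvPolynomial.X i ^ j := by
    intro i
    rw [Polynomial.aeval_def, Polynomial.eval₂_eq_sum, Polynomial.sum_def]
    rfl
  rw [Finset.prod_congr rfl (fun i _ => h1 i), Finset.prod_univ_sum, MvPolynomial.coeff_sum]
  have h2 : ∀ φ : Fin g → ℕ, (∏ i, (MvPolynomial.C ((p i).coeff (φ i)) *
      MvPolynomial.X i ^ (φ i) : MvPolynomial (Fin g) K)).coeff m =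
      if φ = m then ∏ i, (p i).coeff (φ i) else 0 := by
    intro φ
    rw [Finset.prod_mul_distrib, ← map_prod, MvPolynomial.coeff_C_mul]
    have h3 : (∏ i, (MvPolynomial.X i : MvPolynomial (Fin g) K) ^ (φ i)) =
        MvPolynomial.monomial (Finsupp.equivFunOnFinite.symm φ) 1 := by
      rw [MvPolynomial.monomial_eq, Finsupp.prod_fintype _ _ (fun i => pow_zero _)]
      simp
    rw [h3, MvPolynomial.coeff_monomial]
    have h4 : Finsupp.equivFunOnFinite.symm φ = m ↔ φ = m := by
      constructor
      · rintro rfl; rfl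
      · intro h; ext i; simp [h]
    by_cases h5 : φ = m
    · rw [if_pos (h4.2 h5), if_pos h5, mul_one]
    · rw [if_neg (fun h => h5 (h4.1 h)), if_neg h5, mul_zero]
  rw [Finset.sum_congr rfl (fun φ _ => h2 φ), Finset.sum_ite_eq']
  split_ifs with h6
  · rfl
  · symm
    rw [Fintype.mem_piFinset] at h6
    push Not at h6
    obtain ⟨i, hi⟩ := h6
    exact Finset.prod_eq_zero (Finset.mem_univ i) (Polynomial.notMem_support_iff.1 hi)

theorem norel_step {K L : Type*} [Field K] [Field L] [Algebra K L] {g : ℕ} (A B : K[X]) (Q : ℕ)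
    (hQ : 1 ≤ Q) (hA1 : A.coeff Q = 1) (hA : A.natDegree ≤ Q) (hB : B.natDegree < Q) (hB0 : B ≠ 0)
    (a : Fin g → L) (ha : ∀ i, (B.map (algebraMap K L)).eval (a i) ≠ 0) (k : ℕ) (hk : 1 ≤ k)
    (h : NoRel K (Q * (k - 1) + 1) a) : NoRel K k (fun i => Fm A B (a i)) := by
  intro f hf hf0
  by_contra hne
  have hA0 : A ≠ 0 := by
    rintro rfl
    simp at hA1
  have hAQ : A.natDegree = Q :=
    le_antisymm hA (Polynomial.le_natDegree_of_ne_zero (by rw [hA1]; exact one_ne_zero))
  set p : ℕ → K[X] := fun u => A ^ u * B ^ (k - 1 - u) with hp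
  have hp0 : ∀ u, p u ≠ 0 := fun u => mul_ne_zero (pow_ne_zero _ hA0) (pow_ne_zero _ hB0)
  have hpd : ∀ u, (p u).natDegree = u * Q + (k - 1 - u) * B.natDegree := by
    intro u
    rw [hp]
    simp only
    rw [Polynomial.natDegree_mul (pow_ne_zero _ hA0) (pow_ne_zero _ hB0),
      Polynomial.natDegree_pow, Polynomial.natDegree_pow, hAQ]
  set G : MvPolynomial (Fin g) K := ∑ u ∈ f.support, MvPolynomial.C (f.coeff u) *
    ∏ i, Polynomial.aeval (MvPolynomial.X i : MvPolynomial (Fin g) K) (p (u i)) with hG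
  have hGc : ∀ m, G.coeff m = ∑ u ∈ f.support, f.coeff u * ∏ i, (p (u i)).coeff (m i) := by
    intro m
    rw [hG, MvPolynomial.coeff_sum]
    refine Finset.sum_congr rfl fun u _ => ?_
    rw [MvPolynomial.coeff_C_mul, nst_coeff (fun i => p (u i)) m]
  have hu : ∀ u ∈ f.support, ∀ i, u i ≤ k - 1 := by
    intro u hu i
    have h1 := MvPolynomial.degreeOf_le_iff.1 (le_refl (f.degreeOf i)) u hu
    have h2 := hf i
    omega
  have hGB : Bx (Q * (k - 1) + 1) G := by
    intro i
    rw [Nat.lt_succ_iff, MvPolynomial.degreeOf_le_iff]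
    intro m hm
    rw [MvPolynomial.mem_support_iff, hGc] at hm
    obtain ⟨u, hus, hu1⟩ := Finset.exists_ne_zero_of_sum_ne_zero hm
    have h1 : (p (u i)).coeff (m i) ≠ 0 := by
      intro h0
      exact hu1 (by rw [Finset.prod_eq_zero (Finset.mem_univ i) h0, mul_zero])
    have h2 := Polynomial.le_natDegree_of_ne_zero h1
    rw [hpd] at h2
    have h3 := hu u hus i
    have h4 : (k - 1 - u i) * B.natDegree ≤ (k - 1 - u i) * Q :=
      Nat.mul_le_mul_left _ hB.le
    have h5 : u i * Q + (k - 1 - u i) * Q = Q * (k - 1) := by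
      rw [← Nat.add_mul, Nat.add_sub_cancel' h3, Nat.mul_comm]
    omega
  have hGa : MvPolynomial.aeval a G = 0 := by
    have h1 : MvPolynomial.aeval a G = (∏ i, (B.map (algebraMap K L)).eval (a i) ^ (k - 1)) *
        MvPolynomial.aeval (fun i => Fm A B (a i)) f := by
      rw [hG, map_sum]
      conv_rhs => rw [f.as_sum, map_sum]
      rw [Finset.mul_sum]
      refine Finset.sum_congr rfl fun u hus => ?_
      rw [map_mul, map_prod, MvPolynomial.aeval_C, MvPolynomial.aeval_monomial,
        Finsupp.prod_fintype _ _ (fun i => pow_zero _)]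
      have h2 : ∀ i, MvPolynomial.aeval a (Polynomial.aeval
          (MvPolynomial.X i : MvPolynomial (Fin g) K) (p (u i))) =
          (B.map (algebraMap K L)).eval (a i) ^ (k - 1) * Fm A B (a i) ^ (u i) := by
        intro i
        rw [← Polynomial.aeval_algHom_apply, MvPolynomial.aeval_X, hp]
        simp only
        rw [map_mul, map_pow, map_pow, Polynomial.aeval_def, Polynomial.aeval_def,
          ← Polynomial.eval_map, ← Polynomial.eval_map]
        unfold Fm
        rw [div_pow]
        have h3 : (B.map (algebraMap K L)).eval (a i) ^ (k - 1) =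
            (B.map (algebraMap K L)).eval (a i) ^ (k - 1 - u i) *
            (B.map (algebraMap K L)).eval (a i) ^ (u i) := by
          rw [← pow_add, Nat.sub_add_cancel (hu u hus i)]
        rw [h3]
        have h4 := pow_ne_zero (u i) (ha i)
        field_simp
      rw [Finset.prod_congr rfl (fun i _ => h2 i), Finset.prod_mul_distrib]
      ring
    rw [h1, hf0, mul_zero]
  have hG0 : G = 0 := h G hGB hGa
  have hsupp : f.support.Nonempty := by
    rw [Finset.nonempty_iff_ne_empty]
    intro h0
    exact hne (MvPolynomial.support_eq_empty.1 h0)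
  obtain ⟨u, hus, hmax⟩ := Finset.exists_max_image f.support (fun u => ∑ i, u i) hsupp
  have hc := hGc (Finsupp.equivFunOnFinite.symm fun i => (p (u i)).natDegree)
  rw [hG0, MvPolynomial.coeff_zero, Finset.sum_eq_single u] at hc
  · have h1 : f.coeff u ≠ 0 := MvPolynomial.mem_support_iff.1 hus
    have h2 : (∏ i, (p (u i)).coeff
        ((Finsupp.equivFunOnFinite.symm fun i => (p (u i)).natDegree) i)) ≠ 0 := by
      rw [Finset.prod_ne_zero_iff]
      intro i _
      simp only [Finsupp.equivFunOnFinite_symm_apply_apply]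
      exact Polynomial.leadingCoeff_ne_zero.2 (hp0 _)
    exact mul_ne_zero h1 h2 hc.symm
  · intro u' hu's hne'
    by_contra hcon
    have h1 : ∀ i, u i ≤ u' i := by
      intro i
      have h2 : (p (u' i)).coeff
          ((Finsupp.equivFunOnFinite.symm fun i => (p (u i)).natDegree) i) ≠ 0 := by
        intro h0
        exact hcon (by rw [Finset.prod_eq_zero (Finset.mem_univ i) h0, mul_zero])
      simp only [Finsupp.equivFunOnFinite_symm_apply_apply] at h2
      have h3 := Polynomial.le_natDegree_of_ne_zero h2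
      rw [hpd, hpd] at h3
      by_contra h4
      push Not at h4
      have h5 := hu u hus i
      obtain ⟨d, hd⟩ : ∃ d, u i = u' i + d := ⟨u i - u' i, by omega⟩
      obtain ⟨r, hr⟩ : ∃ r, k - 1 = u i + r := ⟨k - 1 - u i, by omega⟩
      have e1 : k - 1 - u i = r := by omega
      have e2 : k - 1 - u' i = r + d := by omega
      rw [e1, e2, hd] at h3
      have hd0 : 0 < d := by omega
      have h6 : d * B.natDegree < d * Q := Nat.mul_lt_mul_of_pos_left hB hd0
      nlinarith
    have h2 := hmax u' hu's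
    have h3 : ∑ i, u i ≤ ∑ i, u' i := Finset.sum_le_sum fun i _ => h1 i
    have h4 : ∑ i, u i = ∑ i, u' i := le_antisymm h3 h2
    have h5 := (Finset.sum_eq_sum_iff_of_le fun i _ => h1 i).1 h4
    exact hne' (Finsupp.ext fun i => (h5 i (Finset.mem_univ i)).symm)
  · intro h0
    exact absurd hus h0

end LEG
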