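/-
LG/Nit (S)  MP_022f22_nt, Lehmer problem in E^g, board modleg. Paper proof: /team-store/lehmer_eg_proof.md
Iteration and rank (paper 4.1).  norel_mono: Bx l implies Bx k.  norel_iter: induction on n with k' = Q(k-1)+1: Q^n (k'-1) = Q^(n+1)(k-1) < ω; norel_step (hs.A_top, A_deg, B_deg, B_zero gives B != 0: B.coeff 0 has valuation 1, cf. B_zero).  Fm iterates: Function.iterate_succ_apply'.
norel_rank: the monomials with exponents < k, indexed by Fin g -> Fin k, are linearly independent over K and span usp K k a: finrank_span_eq_card.  Number k^g.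
-/
import Mathlib
import Pool.Agent.Work.MP_022f22_nt.LG.Defs
import Pool.Agent.Work.MP_022f22_nt.LG.Nst
import Pool.Agent.Work.MP_022f22_nt.LG.Usm

open NumberField IsDedekindDomain Polynomial Height Filter Topology LEH

namespace LEG

theorem norel_mono {K L : Type*} [Field K] [Field L] [Algebra K L] {g k l : ℕ} {a : Fin g → L}
    (h : NoRel K k a) (hl : l ≤ k) : NoRel K l a :=
  fun f hf h0 => h f (fun i => (hf i).trans_le hl) h0

theorem norel_iter {K : Type} [Field K] [NumberField K] {v : HeightOneSpectrum (𝓞 K)}
    {W : WeierstrassCurve K} {p N Q : ℕ} {A B : K[X]} (hs : Setup K v W p N Q A B)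
    {L : Type} [Field L] [Algebra K L] {g : ℕ} (a : Fin g → L)
    (ha : ∀ i n, (B.map (algebraMap K L)).eval ((Fm A B)^[n] (a i)) ≠ 0) (ω n k : ℕ)
    (hk : 1 ≤ k) (h : Q ^ n * (k - 1) < ω) (hω : NoRel K ω a) : NoRel K k (itn A B n a) := by
  have hQ : 1 ≤ Q := by
    have := hs.B_deg
    omega
  have hB0 : B ≠ 0 := by
    rintro rfl
    have h1 := hs.B_zero
    rw [Polynomial.coeff_zero, zero_sub, Valuation.map_neg, map_one] at h1
    exact lt_irrefl _ h1
  induction n generalizing k with
  | zero =>
    rw [pow_zero, one_mul] at h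
    exact norel_mono hω (by omega)
  | succ n ih =>
    have h1 : NoRel K (Q * (k - 1) + 1) (itn A B n a) := by
      apply ih (Q * (k - 1) + 1) (by omega)
      rw [Nat.add_sub_cancel, ← mul_assoc, ← pow_succ]
      exact h
    have h2 := norel_step A B Q hQ hs.A_top hs.A_deg hs.B_deg hB0 (itn A B n a)
      (fun i => ha i n) k hk h1
    have h3 : (fun i => Fm A B (itn A B n a i)) = itn A B (n + 1) a := by
      funext i
      unfold itn
      rw [Function.iterate_succ_apply']
    rwa [h3] at h2

theorem norel_rank {K L : Type*} [Field K] [Field L] [Algebra K L] [FiniteDimensional K L]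
    {g k : ℕ} {a : Fin g → L} (h : NoRel K k a) (hk : 1 ≤ k) :
    Module.finrank K (usp K k a) = k ^ g := by
  classical
  let b : (Fin g → Fin k) → L := fun u => ∏ i, a i ^ (u i : ℕ)
  have hexi : Function.Injective (ex : (Fin g → Fin k) → (Fin g →₀ ℕ)) := by
    intro u u' huu
    funext i
    have h1 := DFunLike.congr_fun huu i
    exact Fin.ext h1
  have hli : LinearIndependent K b := by
    rw [Fintype.linearIndependent_iff]
    intro c hc u
    let f : MvPolynomial (Fin g) K := ∑ u : Fin g → Fin k, MvPolynomial.monomial (ex u) (c u)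
    have hfB : Bx k f := by
      intro i
      apply lt_of_le_of_lt (b := k - 1) _ (by omega)
      rw [MvPolynomial.degreeOf_le_iff]
      intro m hm
      rw [MvPolynomial.mem_support_iff] at hm
      have h1 : f.coeff m = ∑ u : Fin g → Fin k, if ex u = m then c u else 0 := by
        show (∑ u : Fin g → Fin k, MvPolynomial.monomial (ex u) (c u)).coeff m = _
        rw [MvPolynomial.coeff_sum]
        exact Finset.sum_congr rfl fun u _ => MvPolynomial.coeff_monomial _ _ _
      rw [h1] at hm
      obtain ⟨u, _, hu⟩ := Finset.exists_ne_zero_of_sum_ne_zero hm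
      have h2 : ex u = m := by
        by_contra h3
        rw [if_neg h3] at hu
        exact hu rfl
      rw [← h2]
      have h3 : (ex u) i = (u i : ℕ) := rfl
      rw [h3]
      have := (u i).2
      omega
    have hfa : MvPolynomial.aeval a f = 0 := by
      rw [← hc]
      show MvPolynomial.aeval a (∑ u : Fin g → Fin k, MvPolynomial.monomial (ex u) (c u)) = _
      rw [map_sum]
      refine Finset.sum_congr rfl fun u _ => ?_
      rw [MvPolynomial.aeval_monomial, Finsupp.prod_fintype _ _ (fun i => pow_zero _),
        Algebra.smul_def]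
      rfl
    have hf0 := h f hfB hfa
    have h4 : f.coeff (ex u) = c u := by
      show (∑ u : Fin g → Fin k, MvPolynomial.monomial (ex u) (c u)).coeff (ex u) = _
      rw [MvPolynomial.coeff_sum, Finset.sum_eq_single u]
      · rw [MvPolynomial.coeff_monomial, if_pos rfl]
      · intro u' _ hne
        rw [MvPolynomial.coeff_monomial, if_neg (fun h5 => hne (hexi h5))]
      · intro h5
        exact absurd (Finset.mem_univ u) h5
    rw [← h4, hf0, MvPolynomial.coeff_zero]
  have hset : {y | ∃ u : Fin g → ℕ, (∀ i, u i < k) ∧ ∏ i, a i ^ u i = y} = Set.range b := by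
    ext y
    constructor
    · rintro ⟨u, hu, rfl⟩
      exact ⟨fun i => ⟨u i, hu i⟩, rfl⟩
    · rintro ⟨u, rfl⟩
      exact ⟨fun i => (u i : ℕ), fun i => (u i).2, rfl⟩
  unfold usp
  rw [hset, finrank_span_eq_card hli]
  simp

end LEG
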