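/-
LG/Kd (S)  MP_022f22_nt, Lehmer problem in E^g, board modleg. Paper proof: /team-store/lehmer_eg_proof.md
Large subspaces (paper 3.3).  If A*A != top there is a nonzero φ : F ->ₗ K vanishing on A*A (Submodule.exists_le_ker_of_lt_top).  The map ψ : F ->ₗ Dual, x ↦ (y ↦ φ(x y)) is injective (φ(x y) = 0 for all y, x != 0 gives φ = 0).
ψ(A) is contained in the annihilator of A, of dimension finrank F - finrank A (Subspace.finrank_add_finrank_dualAnnihilator_eq), so finrank A <= finrank F - finrank A.
-/
import Mathlib
import Pool.Agent.Work.MP_022f22_nt.LG.Defs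

open NumberField IsDedekindDomain Polynomial Height Filter Topology LEH

namespace LEG

theorem kn_dual {K F : Type*} [Field K] [Field F] [Algebra K F] [FiniteDimensional K F]
    (A : Submodule K F) (h : Module.finrank K F < 2 * Module.finrank K A) : A * A = ⊤ := by
  by_contra hne
  obtain ⟨φ, hφ, hker⟩ := Submodule.exists_le_ker_of_lt_top (A * A) (lt_top_iff_ne_top.2 hne)
  let ψ : F →ₗ[K] Module.Dual K F := (LinearMap.mul K F).compr₂ φ
  have hψ : ∀ x y, ψ x y = φ (x * y) := fun x y => rfl
  have hinj : Function.Injective ψ := by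
    rw [← LinearMap.ker_eq_bot, LinearMap.ker_eq_bot']
    intro x hx
    by_contra hx0
    apply hφ
    ext z
    have h1 := hψ x (x⁻¹ * z)
    rw [hx, mul_inv_cancel_left₀ hx0] at h1
    rw [← h1]
    rfl
  have hmem : ∀ x : A, ψ x ∈ A.dualAnnihilator := by
    intro x
    rw [Submodule.mem_dualAnnihilator]
    intro y hy
    rw [hψ]
    exact hker (Submodule.mul_mem_mul x.2 hy)
  have hle : Module.finrank K A ≤ Module.finrank K A.dualAnnihilator := by
    apply LinearMap.finrank_le_finrank_of_injective
      (f := (ψ ∘ₗ A.subtype).codRestrict A.dualAnnihilator hmem)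
    intro x y hxy
    have h1 := congrArg Subtype.val hxy
    exact Subtype.ext (hinj h1)
  have hsum := Subspace.finrank_add_finrank_dualAnnihilator_eq A
  omega

end LEG
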