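/-
LG/Ka (S)  MP_022f22_nt, Lehmer problem in E^g, board modleg. Paper proof: /team-store/lehmer_eg_proof.md
Averaging (paper 3.2).  sum over τ of #{i : τ B_i in T} = sum over i of |T B_i^(-1)| = n |T|; if all terms times |G| were < n |T| the sum would be < n|T|.
-/
import Mathlib

open NumberField IsDedekindDomain Polynomial Height Filter Topology

namespace LEG

theorem kn_avg {G : Type*} [Group G] [Fintype G] [DecidableEq G] (n : ℕ) (B : Fin n → G)
    (T : Finset G) :
    ∃ τ : G, n * T.card ≤ Fintype.card G *
      (Finset.univ.filter (fun i : Fin n => τ * B i ∈ T)).card := by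
  by_contra hcon
  push Not at hcon
  have h1 : ∑ τ : G, (Finset.univ.filter (fun i : Fin n => τ * B i ∈ T)).card = n * T.card := by
    simp_rw [Finset.card_filter]
    rw [Finset.sum_comm]
    have h2 : ∀ i : Fin n, ∑ τ : G, (if τ * B i ∈ T then 1 else 0) = T.card := by
      intro i
      refine (Fintype.sum_equiv (Equiv.mulRight (B i)) _ (fun τ : G => if τ ∈ T then 1 else 0)
        (fun τ => ?_)).trans ?_
      · simp
      · simp
    simp_rw [h2]
    simp
  have h3 : ∑ τ : G, Fintype.card G * (Finset.univ.filter (fun i : Fin n => τ * B i ∈ T)).card <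
      ∑ _τ : G, n * T.card :=
    Finset.sum_lt_sum_of_nonempty ⟨1, Finset.mem_univ _⟩ (fun τ _ => hcon τ)
  rw [← Finset.mul_sum, h1, Finset.sum_const, Finset.card_univ, smul_eq_mul] at h3
  exact lt_irrefl _ h3

end LEG
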