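/-
LG/Kc (M)  MP_022f22_nt, Lehmer problem in E^g, board modleg. Paper proof: /team-store/lehmer_eg_proof.md
Columns (paper 3.2).  The n vectors (σ(e_i))_σ in L^G, G = L ≃ₐ[K] L, are linearly independent over L: (Artin / Dedekind) L/K Galois, the elements e_i of F (mapped to L) are K-independent; extend them to a K-basis of L; the square matrix (σ(basis)) is
invertible (its square is the discriminant; Algebra.discr / Algebra.embeddingsMatrix; or: linearIndependent_monoidHom gives row independence over σ, so the square matrix G × basis has independent rows, hence is invertible, hence any subset of columns is independent).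
An n × |G| matrix with independent rows has n columns with nonzero determinant (choose independent columns: rank = n; see LH/Mnr for the same step).
-/
import Mathlib
import Pool.Agent.Work.MP_022f22_nt.LG.Defs

open NumberField IsDedekindDomain Polynomial Height Filter Topology LEH

namespace LEG

theorem kn_cols {K F L : Type*} [Field K] [Field F] [Field L] [Algebra K F] [Algebra K L]
    [Algebra F L] [IsScalarTower K F L] [FiniteDimensional K L] [IsGalois K L] {n : ℕ}
    (e : Fin n → F) (he : LinearIndependent K e) :
    ∃ B : Fin n → (L ≃ₐ[K] L),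
      (Matrix.of fun i j => B j (algebraMap F L (e i))).det ≠ 0 := by
  classical
  let v : (L ≃ₐ[K] L) → (Fin n → L) := fun σ i => σ (algebraMap F L (e i))
  have hspan : Submodule.span L (Set.range v) = ⊤ := by
    by_contra hne
    obtain ⟨f, hf0, hf⟩ := Submodule.exists_le_ker_of_lt_top _ (lt_top_iff_ne_top.2 hne)
    let c : Fin n → L := fun i => f (Pi.single i 1)
    have hfc : ∀ x : Fin n → L, f x = ∑ i, x i * c i := by
      intro x
      conv_lhs => rw [pi_eq_sum_univ' x]
      rw [map_sum]
      apply Finset.sum_congr rfl
      intro i _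
      rw [map_smul, smul_eq_mul]
    obtain ⟨i₀, hi₀⟩ : ∃ i, c i ≠ 0 := by
      by_contra hall
      push Not at hall
      apply hf0
      apply LinearMap.ext
      intro x
      rw [hfc x]
      simp [hall]
    have h0 : ∀ σ : L ≃ₐ[K] L, ∑ i, σ (algebraMap F L (e i)) * c i = 0 := fun σ => by
      have h1 : f (v σ) = 0 := hf (Submodule.subset_span ⟨σ, rfl⟩)
      rw [hfc] at h1
      exact h1
    obtain ⟨y0, hy0⟩ := Algebra.trace_surjective K L 1
    set y := y0 * (c i₀)⁻¹ with hy
    have h1 : ∀ τ : L ≃ₐ[K] L, ∑ i, τ (y * c i) * algebraMap F L (e i) = 0 := by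
      intro τ
      have h3 := congrArg (fun z => τ (y * z)) (h0 τ.symm)
      simp only [mul_zero, map_zero, Finset.mul_sum, map_sum] at h3
      rw [← h3]
      apply Finset.sum_congr rfl
      intro i _
      have h9 : y * (τ.symm (algebraMap F L (e i)) * c i) =
          y * c i * τ.symm (algebraMap F L (e i)) := by ring
      rw [h9, map_mul τ (y * c i), AlgEquiv.apply_symm_apply]
    have h4 : ∑ i, Algebra.trace K L (y * c i) • e i = 0 := by
      apply (algebraMap F L).injective
      rw [map_sum, map_zero]
      calc ∑ i, algebraMap F L (Algebra.trace K L (y * c i) • e i)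
          = ∑ i, (∑ τ : L ≃ₐ[K] L, τ (y * c i)) * algebraMap F L (e i) := by
            apply Finset.sum_congr rfl
            intro i _
            rw [Algebra.smul_def, map_mul, ← IsScalarTower.algebraMap_apply,
              trace_eq_sum_automorphisms]
        _ = ∑ τ : L ≃ₐ[K] L, ∑ i, τ (y * c i) * algebraMap F L (e i) := by
            simp_rw [Finset.sum_mul]
            exact Finset.sum_comm
        _ = 0 := Finset.sum_eq_zero (fun τ _ => h1 τ)
    have h5 := Fintype.linearIndependent_iff.1 he _ h4 i₀
    have h6 : y * c i₀ = y0 := by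
      rw [hy, mul_assoc, inv_mul_cancel₀ hi₀, mul_one]
    rw [h6, hy0] at h5
    exact one_ne_zero h5
  obtain ⟨κ, a, -, hsp, hli⟩ := exists_linearIndependent' L v
  let b : Module.Basis κ L (Fin n → L) := Module.Basis.mk hli (by rw [hsp, hspan])
  let eqv : Fin n ≃ κ := (Pi.basisFun L (Fin n)).indexEquiv b
  refine ⟨fun j => a (eqv j), ?_⟩
  have h6 : LinearIndependent L (fun j => v (a (eqv j))) := hli.comp eqv eqv.injective
  have h7 : IsUnit (Matrix.of fun j i => v (a (eqv j)) i) :=
    Matrix.linearIndependent_rows_iff_isUnit.1 h6
  have h8 := (Matrix.isUnit_iff_isUnit_det _).1 h7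
  have h9 : (Matrix.of fun i j => (a (eqv j)) (algebraMap F L (e i))) =
      (Matrix.of fun j i => v (a (eqv j)) i).transpose := rfl
  rw [h9, Matrix.det_transpose]
  exact h8.ne_zero

end LEG
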