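/-
LG/Ks (M)  MP_022f22_nt, Lehmer problem in E^g, board modleg. Paper proof: /team-store/lehmer_eg_proof.md
Specialization (paper 3.2).
ks_interp: choose representatives of the D = finrank K F restrictions of G to F (coset classes of the relation same restriction to F; exactly D of them: L/K Galois) - or use kn_cols with e = f (n = D): B_j with det(B_j(f_i)) != 0; solve the D × D system
sum_i t_i B_j(f_i) = ζ(B_j).  Every σ in G has the same restriction to F as some B_j (the B_j|F are distinct as the determinant is nonzero, and F has exactly D embeddings into L: AlgHom.card / card_algHom..), so the equation holds for all σ by constancy of ζ.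
ks_generic: a nonzero polynomial over L (infinite subset K of L): MvPolynomial.funext_set or induction; if P(t) != 0 for some t in L^D then P != 0, so P does not vanish at all K-points (K infinite: CharZero).
-/
import Mathlib
import Pool.Agent.Work.MP_022f22_nt.LG.Defs
import Pool.Agent.Work.MP_022f22_nt.LG.Kc

open NumberField IsDedekindDomain Polynomial Height Filter Topology LEH

namespace LEG

theorem ks_interp {K F L : Type*} [Field K] [Field F] [Field L] [Algebra K F] [Algebra K L]
    [Algebra F L] [IsScalarTower K F L] [FiniteDimensional K F] [FiniteDimensional K L]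
    [IsGalois K L] {D : ℕ} (f : Module.Basis (Fin D) K F) (ζ : (L ≃ₐ[K] L) → L)
    (hζ : ∀ σ τ : L ≃ₐ[K] L, (∀ x : F, σ (algebraMap F L x) = τ (algebraMap F L x)) →
      ζ σ = ζ τ) :
    ∃ t : Fin D → L, ∀ σ : L ≃ₐ[K] L, ∑ j, t j * σ (algebraMap F L (f j)) = ζ σ := by
  classical
  obtain ⟨B, hB⟩ := kn_cols (L := L) (fun i => f i) f.linearIndependent
  set M : Matrix (Fin D) (Fin D) L := Matrix.of fun i j => B j (algebraMap F L (f i)) with hM
  have hMu : IsUnit M.det := isUnit_iff_ne_zero.2 hB
  -- every restriction is one of the restrictions of the `B j`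
  let ρ : (L ≃ₐ[K] L) → (F →ₐ[K] L) := fun σ =>
    (σ : L →ₐ[K] L).comp (IsScalarTower.toAlgHom K F L)
  have hρ : ∀ σ x, ρ σ x = σ (algebraMap F L x) := fun σ x => rfl
  have hinj : Function.Injective fun j => ρ (B j) := by
    intro i j hij
    by_contra hne
    apply hB
    apply Matrix.det_zero_of_column_eq hne
    intro k
    show B i (algebraMap F L (f k)) = B j (algebraMap F L (f k))
    rw [← hρ, ← hρ]
    exact congrArg (fun g : F →ₐ[K] L => g (f k)) hij
  have hD : Module.finrank K F = D := by
    rw [Module.finrank_eq_card_basis f, Fintype.card_fin]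
  have hsurj : ∀ σ : L ≃ₐ[K] L, ∃ j, ρ (B j) = ρ σ := by
    have h1 := card_algHom_le_finrank K F L
    rw [hD] at h1
    have hfin : Finite (F →ₐ[K] L) := inferInstance
    have h2 := (Function.Injective.bijective_of_nat_card_le hinj (by
      rw [Nat.card_eq_fintype_card (α := Fin D), Fintype.card_fin]
      exact h1)).2
    exact fun σ => h2 (ρ σ)
  refine ⟨Matrix.vecMul (fun j => ζ (B j)) M⁻¹, fun σ => ?_⟩
  obtain ⟨j, hj⟩ := hsurj σ
  have hres : ∀ x : F, B j (algebraMap F L x) = σ (algebraMap F L x) := fun x =>
    congrArg (fun g : F →ₐ[K] L => g x) hj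
  rw [← hζ (B j) σ hres]
  have h3 : Matrix.vecMul (Matrix.vecMul (fun j => ζ (B j)) M⁻¹) M = fun j => ζ (B j) := by
    rw [Matrix.vecMul_vecMul, Matrix.nonsing_inv_mul M hMu, Matrix.vecMul_one]
  have h4 := congrFun h3 j
  rw [← h4]
  show _ = ∑ i, _ * M i j
  apply Finset.sum_congr rfl
  intro i _
  rw [← hres]
  rfl

theorem ks_generic {K L : Type*} [Field K] [CharZero K] [Field L] [Algebra K L] {D : ℕ}
    (P : MvPolynomial (Fin D) L) (t : Fin D → L) (h : MvPolynomial.eval t P ≠ 0) :
    ∃ x : Fin D → K, MvPolynomial.eval (fun j => algebraMap K L (x j)) P ≠ 0 := by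
  by_contra hcon
  push Not at hcon
  have hinf : ∀ _ : Fin D, (Set.range (algebraMap K L)).Infinite := fun _ =>
    Set.infinite_range_of_injective (algebraMap K L).injective
  have hP : P = 0 := by
    apply MvPolynomial.funext_set (fun _ => Set.range (algebraMap K L)) hinf
    intro x hx
    rw [map_zero]
    have h1 : ∀ i, ∃ y : K, algebraMap K L y = x i := fun i => hx i (Set.mem_univ i)
    choose y hy using h1
    have h2 : x = fun j => algebraMap K L (y j) := funext fun j => (hy j).symm
    rw [h2]
    exact hcon y
  rw [hP, map_zero] at h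
  exact h rfl

end LEG
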