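/-
LG/Kt (S)  MP_022f22_nt, Lehmer problem in E^g, board modleg. Paper proof: /team-store/lehmer_eg_proof.md
Number of elements of G with given restrictions to F (paper 3.2).  For each i the set {τ : τ|F = B_i|F} is a coset of Gal(L/F) (image of L ≃ₐ[F] L), of cardinality |G|/D (card (L ≃ₐ[K] L) = finrank K L = D * finrank F L = D * card (L ≃ₐ[F] L)); the cosets of
different i are disjoint (hB).  So D |T| = |G| (D - n) .
-/
import Mathlib
import Pool.Agent.Work.MP_022f22_nt.LG.Defs

open NumberField IsDedekindDomain Polynomial Height Filter Topology LEH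

namespace LEG

theorem kn_count {K F L : Type*} [Field K] [Field F] [Field L] [Algebra K F] [Algebra K L]
    [Algebra F L] [IsScalarTower K F L] [FiniteDimensional K F] [FiniteDimensional K L]
    [IsGalois K L] {n : ℕ} (B : Fin n → (L ≃ₐ[K] L))
    (hB : ∀ i j, (∀ x : F, B i (algebraMap F L x) = B j (algebraMap F L x)) → i = j)
    (T : Finset (L ≃ₐ[K] L)) (hT : ∀ τ : L ≃ₐ[K] L, τ ∈ T ↔
      ∀ i, ∃ x : F, τ (algebraMap F L x) ≠ B i (algebraMap F L x)) :
    Module.finrank K F * T.card + Fintype.card (L ≃ₐ[K] L) * n =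
      Fintype.card (L ≃ₐ[K] L) * Module.finrank K F := by
  classical
  have : FiniteDimensional F L := FiniteDimensional.right K F L
  have : IsGalois F L := IsGalois.tower_top_of_isGalois K F L
  let S : Fin n → Finset (L ≃ₐ[K] L) := fun i =>
    Finset.univ.filter fun τ => ∀ x : F, τ (algebraMap F L x) = B i (algebraMap F L x)
  have hS : ∀ i, Module.finrank K F * (S i).card = Fintype.card (L ≃ₐ[K] L) := by
    intro i
    have h1 : (S i).card = Fintype.card (L ≃ₐ[F] L) := by
      rw [← Finset.card_univ]
      symm
      refine Finset.card_bij (fun (σ : L ≃ₐ[F] L) _ => B i * σ.restrictScalars K) ?_ ?_ ?_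
      · intro σ _
        refine Finset.mem_filter.2 ⟨Finset.mem_univ _, fun x => ?_⟩
        show B i (σ (algebraMap F L x)) = B i (algebraMap F L x)
        rw [σ.commutes]
      · intro σ _ σ' _ h
        have h2 := mul_left_cancel h
        exact AlgEquiv.ext fun y => DFunLike.congr_fun h2 y
      · intro τ hτ
        have hτ' := (Finset.mem_filter.1 hτ).2
        have hfix : ∀ x : F, ((B i)⁻¹ * τ) (algebraMap F L x) = algebraMap F L x := by
          intro x
          show (B i)⁻¹ (τ (algebraMap F L x)) = _
          rw [hτ' x]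
          exact (B i).symm_apply_apply _
        refine ⟨AlgEquiv.ofRingEquiv (f := (((B i)⁻¹ * τ : L ≃ₐ[K] L) : L ≃+* L)) hfix,
          Finset.mem_univ _, ?_⟩
        apply AlgEquiv.ext
        intro y
        show B i ((B i)⁻¹ (τ y)) = τ y
        exact (B i).apply_symm_apply _
    have h2 : Fintype.card (L ≃ₐ[F] L) = Module.finrank F L := by
      rw [← Nat.card_eq_fintype_card]
      exact IsGalois.card_aut_eq_finrank F L
    have h3 : Fintype.card (L ≃ₐ[K] L) = Module.finrank K L := by
      rw [← Nat.card_eq_fintype_card]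
      exact IsGalois.card_aut_eq_finrank K L
    rw [h1, h2, h3]
    exact Module.finrank_mul_finrank K F L
  have hdisj : ∀ i ∈ (Finset.univ : Finset (Fin n)), ∀ j ∈ (Finset.univ : Finset (Fin n)),
      i ≠ j → Disjoint (S i) (S j) := by
    intro i _ j _ hij
    rw [Finset.disjoint_left]
    intro τ h1 h2
    apply hij
    apply hB
    intro x
    rw [← (Finset.mem_filter.1 h1).2 x, (Finset.mem_filter.1 h2).2 x]
  have hcompl : T = (Finset.univ.biUnion S)ᶜ := by
    ext τ
    rw [hT, Finset.mem_compl, Finset.mem_biUnion]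
    push Not
    constructor
    · intro h i _ hτ
      obtain ⟨x, hx⟩ := h i
      exact hx ((Finset.mem_filter.1 hτ).2 x)
    · intro h i
      by_contra hc
      push Not at hc
      exact h i (Finset.mem_univ _) (Finset.mem_filter.2 ⟨Finset.mem_univ _, hc⟩)
  have hcard : (Finset.univ.biUnion S).card = ∑ i, (S i).card := Finset.card_biUnion hdisj
  have hle : (Finset.univ.biUnion S).card + T.card = Fintype.card (L ≃ₐ[K] L) := by
    rw [hcompl]
    exact Finset.card_add_card_compl _
  have hsum : Module.finrank K F * (Finset.univ.biUnion S).card = Fintype.card (L ≃ₐ[K] L) * n := by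
    rw [hcard, Finset.mul_sum, Finset.sum_congr rfl (fun i _ => hS i)]
    simp [mul_comm]
  rw [← hsum, ← Nat.mul_add, add_comm T.card, hle, mul_comm]

end LEG
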