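/-
LG/Kg (L)  MP_022f22_nt, Lehmer problem in E^g, board modleg. Paper proof: /team-store/lehmer_eg_proof.md
Generic element (paper 3.2).  n = finrank K A; n = 0: z = 1.  e_i basis of A (mapped into F), B from kn_cols; distinct restrictions (equal restrictions give equal columns).  T as in kn_count; τ from kn_avg, β = #{i : τ B_i in T}: n|T| <= |G| β and
D|T| = |G|(D - n) give n(D - n) <= D β, and 3n <= 2D gives n <= 3β, so 4n <= 3(n + β).  Columns τ B_j, j in J (|J| = β), are linearly independent (det((τB_j)(e_i)) = τ(det) != 0), so there is I' (|I'| = β) with nonzero minor.  ζ = 1 on T, 0 off T (constant on restrictions).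
t from ks_interp.  P(t) = determinant of the (n+β)-matrix, rows e_1..e_n, (sum_j t_j f_j) e_i (i in I'), columns B_1..B_n, τB_j (j in J), as a polynomial in t; at t it is the determinant of a block triangular matrix (rows z e_i vanish at the columns B_j since B_j is not in T,
and equal τB_j(e_i) at τB_j in T): nonzero.  ks_generic: x in K^D; z = sum x_j f_j in F.  The n + β elements e_i, z e_i (i in I') of F are linearly independent over K (a K-relation would be a relation of the rows).  They lie in A ⊔ zA.  z != 0 if β > 0; if β = 0 then n = 0.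
-/
import Mathlib
import Pool.Agent.Work.MP_022f22_nt.LG.Defs
import Pool.Agent.Work.MP_022f22_nt.LG.Kc
import Pool.Agent.Work.MP_022f22_nt.LG.Ka
import Pool.Agent.Work.MP_022f22_nt.LG.Ks
import Pool.Agent.Work.MP_022f22_nt.LG.Kt

open NumberField IsDedekindDomain Polynomial Height Filter Topology LEH

namespace LEG

/-- a nonzero minor of the matrix formed by some columns of an invertible matrix -/
private theorem kg_minor {L : Type*} [Field L] {n m : ℕ} (M : Matrix (Fin n) (Fin n) L)
    (hM : M.det ≠ 0) (c : Fin m → Fin n) (hc : Function.Injective c) :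
    ∃ I : Fin m → Fin n, (Matrix.of fun a b => M (I a) (c b)).det ≠ 0 := by
  classical
  let r : Fin n → (Fin m → L) := fun i b => M i (c b)
  have hrows : LinearIndependent L M.row := by
    rw [Matrix.linearIndependent_rows_iff_isUnit, Matrix.isUnit_iff_isUnit_det]
    exact isUnit_iff_ne_zero.2 hM
  have hspanM : Submodule.span L (Set.range M.row) = ⊤ :=
    hrows.span_eq_top_of_card_eq_finrank' (by simp)
  have hspan : Submodule.span L (Set.range r) = ⊤ := by
    have h1 : Set.range r = (LinearMap.funLeft L L c) '' (Set.range M.row) := by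
      rw [← Set.range_comp]
      rfl
    rw [h1, ← Submodule.map_span, hspanM, Submodule.map_top, LinearMap.range_eq_top]
    exact LinearMap.funLeft_surjective_of_injective L L c hc
  obtain ⟨g, hg1, -, hg3⟩ := Submodule.exists_fun_fin_finrank_span_eq L (Set.range r)
  have hn' : Module.finrank L (Submodule.span L (Set.range r)) = m := by
    rw [hspan, finrank_top]
    simp
  choose I0 hI0 using hg1
  refine ⟨fun i => I0 (Fin.cast hn'.symm i), ?_⟩
  have hli : LinearIndependent L (fun i : Fin m => g (Fin.cast hn'.symm i)) :=
    hg3.comp _ (Fin.cast_injective _)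
  have hrow : (Matrix.of fun a b => M (I0 (Fin.cast hn'.symm a)) (c b)).row
      = fun i : Fin m => g (Fin.cast hn'.symm i) := by
    funext i
    rw [← hI0]
    rfl
  have hunit : IsUnit (Matrix.of fun a b => M (I0 (Fin.cast hn'.symm a)) (c b)) := by
    rw [← Matrix.linearIndependent_rows_iff_isUnit, hrow]
    exact hli
  exact ((Matrix.isUnit_iff_isUnit_det _).mp hunit).ne_zero

/-- the counting inequality -/
private theorem kg_count {n D t G b : ℕ} (hG : 0 < G) (h1 : D * t + G * n = G * D)
    (h2 : n * t ≤ G * b) (h3 : 3 * n ≤ 2 * D) : 4 * n ≤ 3 * (n + b) := by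
  rcases Nat.eq_zero_or_pos n with hn | hn
  · omega
  have hD : 0 < D := by omega
  by_contra hcon
  have h4 : 3 * b < n := by omega
  -- D * (n * t) = n * G * (D - n) ; D * (n * t) ≤ D * G * b
  have h5 : D * (n * t) ≤ D * (G * b) := Nat.mul_le_mul_left D h2
  have h6 : 3 * (D * (G * b)) < D * G * n := by
    have h7 : D * G * (3 * b) < D * G * n := Nat.mul_lt_mul_of_pos_left h4 (Nat.mul_pos hD hG)
    calc 3 * (D * (G * b)) = D * G * (3 * b) := by ring
      _ < D * G * n := h7
  have h8 : 3 * (D * (n * t)) < D * G * n := by omega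
  have h9 : n * (D * t) + n * (G * n) = n * (G * D) := by
    rw [← Nat.mul_add, h1]
  have h10 : n * G * (3 * n) ≤ n * G * (2 * D) := Nat.mul_le_mul_left _ h3
  nlinarith [h8, h9, h10]

theorem kn_gen {K F L : Type*} [Field K] [CharZero K] [Field F] [Field L] [Algebra K F]
    [Algebra K L] [Algebra F L] [IsScalarTower K F L] [FiniteDimensional K F]
    [FiniteDimensional K L] [IsGalois K L] (A : Submodule K F)
    (h : 3 * Module.finrank K A ≤ 2 * Module.finrank K F) :
    ∃ z : F, z ≠ 0 ∧ 4 * Module.finrank K A ≤
      3 * Module.finrank K (A ⊔ A.map (LinearMap.mulLeft K z) : Submodule K F) := by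
  classical
  rcases Nat.eq_zero_or_pos (Module.finrank K A) with hn0 | hn0
  · refine ⟨1, one_ne_zero, ?_⟩
    omega
  -- the basis of `A`
  set n := Module.finrank K A with hn
  let bA : Module.Basis (Fin n) K A := Module.finBasisOfFinrankEq K A hn.symm
  let e : Fin n → F := fun i => (bA i : F)
  have heA : ∀ i, e i ∈ A := fun i => (bA i).2
  have he : LinearIndependent K e :=
    bA.linearIndependent.map' A.subtype (Submodule.ker_subtype A)
  obtain ⟨B, hB⟩ := kn_cols (L := L) e he
  have hBinj : ∀ i j, (∀ x : F, B i (algebraMap F L x) = B j (algebraMap F L x)) → i = j := by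
    intro i j hij
    by_contra hne
    exact hB (Matrix.det_zero_of_column_eq hne fun k => hij (e k))
  -- the set of the elements whose restriction is different from those of all `B i`
  let T : Finset (L ≃ₐ[K] L) := Finset.univ.filter
    (fun τ => ∀ i, ∃ x : F, τ (algebraMap F L x) ≠ B i (algebraMap F L x))
  have hT : ∀ τ : L ≃ₐ[K] L, τ ∈ T ↔
      ∀ i, ∃ x : F, τ (algebraMap F L x) ≠ B i (algebraMap F L x) := by
    intro τ
    simp [T]
  have hcount := kn_count B hBinj T hT
  obtain ⟨τ, hτ⟩ := kn_avg n B T
  set J : Finset (Fin n) := Finset.univ.filter (fun i : Fin n => τ * B i ∈ T) with hJ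
  obtain ⟨m, hm⟩ : ∃ m, J.card = m := ⟨_, rfl⟩
  rw [hm] at hτ
  have hnm : 4 * n ≤ 3 * (n + m) := kg_count Fintype.card_pos hcount hτ h
  have hm0 : 0 < m := by omega
  let c : Fin m → Fin n := J.orderEmbOfFin hm
  have hc : Function.Injective c := (J.orderEmbOfFin hm).injective
  have hcT : ∀ b, τ * B (c b) ∈ T := by
    intro b
    have h1 : c b ∈ J := J.orderEmbOfFin_mem hm b
    rw [hJ, Finset.mem_filter] at h1
    exact h1.2
  -- the minor
  have hB' : (Matrix.of fun i j => (τ * B j) (algebraMap F L (e i))).det ≠ 0 := by
    have h1 : (Matrix.of fun i j => (τ * B j) (algebraMap F L (e i))) =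
        (τ : L →+* L).mapMatrix (Matrix.of fun i j => B j (algebraMap F L (e i))) := by
      ext i j
      rfl
    rw [h1, ← RingHom.map_det]
    intro h2
    apply hB
    exact τ.injective (by rw [map_zero]; exact h2)
  obtain ⟨I, hI⟩ := kg_minor _ hB' c hc
  -- the columns
  let col : Fin n ⊕ Fin m → (L ≃ₐ[K] L) := Sum.elim B (fun b => τ * B (c b))
  let f : Module.Basis (Fin (Module.finrank K F)) K F := Module.finBasis K F
  let ζ : (L ≃ₐ[K] L) → L := fun σ => if σ ∈ T then 1 else 0
  have hζ : ∀ σ ρ : L ≃ₐ[K] L, (∀ x : F, σ (algebraMap F L x) = ρ (algebraMap F L x)) →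
      ζ σ = ζ ρ := by
    intro σ ρ hσρ
    have h1 : σ ∈ T ↔ ρ ∈ T := by
      rw [hT, hT]
      simp only [hσρ]
    simp only [ζ, h1]
  obtain ⟨t, ht⟩ := ks_interp f ζ hζ
  -- the matrix
  let M : (Fin (Module.finrank K F) → L) → Matrix (Fin n ⊕ Fin m) (Fin n ⊕ Fin m) L :=
    fun t => Matrix.of fun r s => Sum.elim (fun i => col s (algebraMap F L (e i)))
      (fun a => (∑ k, t k * col s (algebraMap F L (f k))) * col s (algebraMap F L (e (I a)))) r
  let P : MvPolynomial (Fin (Module.finrank K F)) L := Matrix.det (Matrix.of fun r s =>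
    Sum.elim (fun i => MvPolynomial.C (col s (algebraMap F L (e i))))
      (fun a => (∑ k, MvPolynomial.X k * MvPolynomial.C (col s (algebraMap F L (f k)))) *
        MvPolynomial.C (col s (algebraMap F L (e (I a))))) r)
  have hP : ∀ u, MvPolynomial.eval u P = (M u).det := by
    intro u
    simp only [P, M]
    rw [RingHom.map_det]
    apply congrArg
    ext r s
    rcases r with i | a
    · simp
    · simp
  have hMt : (M t).det ≠ 0 := by
    have h1 : M t = Matrix.fromBlocks (Matrix.of fun i j => B j (algebraMap F L (e i)))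
        (Matrix.of fun i b => (τ * B (c b)) (algebraMap F L (e i))) 0
        (Matrix.of fun a b => (τ * B (c b)) (algebraMap F L (e (I a)))) := by
      ext r s
      rcases r with i | a
      · rcases s with j | b
        · rfl
        · rfl
      · rcases s with j | b
        · have h2 : ζ (B j) = 0 := by
            have h3 : B j ∉ T := by
              rw [hT]
              push Not
              exact ⟨j, fun x => rfl⟩
            simp only [ζ, if_neg h3]
          show (∑ k, t k * (B j) (algebraMap F L (f k))) * (B j) (algebraMap F L (e (I a))) = 0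
          rw [ht, h2, zero_mul]
        · have h2 : ζ (τ * B (c b)) = 1 := by
            simp only [ζ, if_pos (hcT b)]
          show (∑ k, t k * (τ * B (c b)) (algebraMap F L (f k))) *
            (τ * B (c b)) (algebraMap F L (e (I a))) = (τ * B (c b)) (algebraMap F L (e (I a)))
          rw [ht, h2, one_mul]
    rw [h1, Matrix.det_fromBlocks_zero₂₁]
    exact mul_ne_zero hB hI
  obtain ⟨x, hx⟩ := ks_generic (K := K) P t (by rw [hP]; exact hMt)
  rw [hP] at hx
  let z : F := ∑ k, x k • f k
  let v : Fin n ⊕ Fin m → F := Sum.elim e (fun a => z * e (I a))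
  have hMv : ∀ r s, M (fun j => algebraMap K L (x j)) r s = col s (algebraMap F L (v r)) := by
    intro r s
    rcases r with i | a
    · rfl
    · show (∑ k, algebraMap K L (x k) * col s (algebraMap F L (f k))) *
        col s (algebraMap F L (e (I a))) = col s (algebraMap F L (z * e (I a)))
      rw [map_mul, map_mul]
      congr 1
      simp only [z]
      rw [map_sum, map_sum]
      refine Finset.sum_congr rfl fun k _ => ?_
      rw [Algebra.smul_def, map_mul, map_mul, ← IsScalarTower.algebraMap_apply K F L,
        AlgEquiv.commutes]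
  have hv : LinearIndependent K v := by
    rw [Fintype.linearIndependent_iff]
    intro g hg
    have h1 : Matrix.vecMul (fun r => algebraMap K L (g r))
        (M (fun j => algebraMap K L (x j))) = 0 := by
      funext s
      show ∑ r, algebraMap K L (g r) * M (fun j => algebraMap K L (x j)) r s = 0
      have h2 := congrArg (fun y => col s (algebraMap F L y)) hg
      simp only [map_sum, map_zero] at h2
      rw [← h2]
      refine Finset.sum_congr rfl fun r _ => ?_
      rw [hMv, Algebra.smul_def, map_mul, map_mul, ← IsScalarTower.algebraMap_apply K F L,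
        AlgEquiv.commutes]
    have h3 := Matrix.eq_zero_of_vecMul_eq_zero hx h1
    intro r
    have h4 := congrFun h3 r
    exact (algebraMap K L).injective (by rw [map_zero]; exact h4)
  have hvmem : ∀ r, v r ∈ (A ⊔ A.map (LinearMap.mulLeft K z) : Submodule K F) := by
    intro r
    rcases r with i | a
    · exact (le_sup_left : A ≤ _) (heA i)
    · exact (le_sup_right : A.map (LinearMap.mulLeft K z) ≤ _) ⟨e (I a), heA (I a), rfl⟩
  have hfin : n + m ≤ Module.finrank K (A ⊔ A.map (LinearMap.mulLeft K z) : Submodule K F) := by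
    have h1 : LinearIndependent K (fun r => (⟨v r, hvmem r⟩ :
        (A ⊔ A.map (LinearMap.mulLeft K z) : Submodule K F))) :=
      LinearIndependent.of_comp (A ⊔ A.map (LinearMap.mulLeft K z) : Submodule K F).subtype hv
    have h2 := h1.fintype_card_le_finrank
    simpa using h2
  refine ⟨z, ?_, ?_⟩
  · intro hz
    have h1 := hv.ne_zero (Sum.inr ⟨0, hm0⟩)
    apply h1
    show z * e (I ⟨0, hm0⟩) = 0
    rw [hz, zero_mul]
  · omega

end LEG
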