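/-
LG/Kq (M)  MP_022f22_nt, Lehmer problem in E^g, board modleg. Paper proof: /team-store/lehmer_eg_proof.md
Small doubling (paper 3.1).  For x, y in A nonzero: xA, yA <= A*A (map (mulLeft x) A, same finrank as A by injectivity), finrank (xA ⊓ yA) = 2 finrank A - finrank (xA ⊔ yA) >= 2 finrank A - finrank(A*A) > (2/3) finrank A.
H = {z : exists x y in A, x != 0, z x = y}.  For z in H nonzero: finrank(A ⊓ zA) = finrank(xA ⊓ yA) > (2/3) finrank A (multiply by x), so 3 finrank(A ⊔ zA) < 4 finrank A.  H is closed under product: z, z' nonzero in H: A ⊓ zA and A ⊓ z'^(-1)A both have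
finrank > (2/3) finrank A, inside A, so they intersect: 0 != c = z a = z'^(-1) a', a, a' in A: z z' a = a'.  Inverses: swap.  z + 1 in H.  z + z' = z' (z/z' + 1).  K <= H (1 in A).  So H is a subfield (Subalgebra) containing A: H = top by hA.
-/
import Mathlib
import Pool.Agent.Work.MP_022f22_nt.LG.Defs

open NumberField IsDedekindDomain Polynomial Height Filter Topology LEH

namespace LEG

section kq

variable {K F : Type*} [Field K] [Field F] [Algebra K F] [FiniteDimensional K F]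

omit [FiniteDimensional K F] in
private theorem kq_inj {z : F} (hz : z ≠ 0) : Function.Injective (LinearMap.mulLeft K z) :=
  fun _ _ h => mul_left_cancel₀ hz h

omit [FiniteDimensional K F] in
private theorem kq_rank (A : Submodule K F) {z : F} (hz : z ≠ 0) :
    Module.finrank K (A.map (LinearMap.mulLeft K z)) = Module.finrank K A :=
  (Submodule.equivMapOfInjective (LinearMap.mulLeft K z) (kq_inj hz) A).symm.finrank_eq

omit [FiniteDimensional K F] in
private theorem kq_mem {A : Submodule K F} {z x : F} :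
    x ∈ A.map (LinearMap.mulLeft K z) ↔ ∃ a ∈ A, z * a = x := by
  rw [Submodule.mem_map]
  rfl

private theorem kq_big (A : Submodule K F)
    (hd : 3 * Module.finrank K (A * A : Submodule K F) < 4 * Module.finrank K A) {x y z : F}
    (hx : x ∈ A) (hy : y ∈ A) (hx0 : x ≠ 0) (hy0 : y ≠ 0) (h : z * x = y) :
    2 * Module.finrank K A <
      3 * Module.finrank K (A ⊓ A.map (LinearMap.mulLeft K z) : Submodule K F) := by
  have h1 := Submodule.finrank_sup_add_finrank_inf_eq (A.map (LinearMap.mulLeft K x))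
    (A.map (LinearMap.mulLeft K y))
  rw [kq_rank A hx0, kq_rank A hy0] at h1
  have h2 : A.map (LinearMap.mulLeft K x) ⊔ A.map (LinearMap.mulLeft K y) ≤ A * A := by
    refine sup_le ?_ ?_
    · intro u hu
      obtain ⟨a, ha, rfl⟩ := kq_mem.1 hu
      exact Submodule.mul_mem_mul hx ha
    · intro u hu
      obtain ⟨a, ha, rfl⟩ := kq_mem.1 hu
      exact Submodule.mul_mem_mul hy ha
  have h3 := Submodule.finrank_mono h2
  have h4 : (A ⊓ A.map (LinearMap.mulLeft K z)).map (LinearMap.mulLeft K x) =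
      A.map (LinearMap.mulLeft K x) ⊓ A.map (LinearMap.mulLeft K y) := by
    rw [Submodule.map_inf _ (kq_inj hx0)]
    congr 1
    ext u
    rw [kq_mem, kq_mem]
    constructor
    · rintro ⟨a, ha, rfl⟩
      obtain ⟨b, hb, rfl⟩ := kq_mem.1 ha
      exact ⟨b, hb, by rw [← h]; ring⟩
    · rintro ⟨b, hb, rfl⟩
      exact ⟨z * b, kq_mem.2 ⟨b, hb, rfl⟩, by rw [← h]; ring⟩
  have h5 := kq_rank (A ⊓ A.map (LinearMap.mulLeft K z)) hx0
  rw [h4] at h5
  omega

end kq

theorem kn_quot {K F : Type*} [Field K] [Field F] [Algebra K F] [FiniteDimensional K F]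
    (A : Submodule K F) (h1 : (1 : F) ∈ A) (hA : Algebra.adjoin K (A : Set F) = ⊤)
    (hd : 3 * Module.finrank K (A * A : Submodule K F) < 4 * Module.finrank K A) (z : F)
    (hz : z ≠ 0) :
    3 * Module.finrank K (A ⊔ A.map (LinearMap.mulLeft K z) : Submodule K F) <
      4 * Module.finrank K A := by
  let H : Set F := {z | ∃ x ∈ A, ∃ y ∈ A, x ≠ 0 ∧ z * x = y}
  have hmem : ∀ z : F, z ∈ H ↔ ∃ x ∈ A, ∃ y ∈ A, x ≠ 0 ∧ z * x = y := fun z => Iff.rfl
  have hAH : ∀ z ∈ A, z ∈ H := fun z hz => ⟨1, h1, z, hz, one_ne_zero, mul_one z⟩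
  have hinv : ∀ z ∈ H, z ≠ 0 → z⁻¹ ∈ H := by
    rintro z ⟨x, hx, y, hy, hx0, h⟩ hz0
    refine ⟨y, hy, x, hx, ?_, ?_⟩
    · rw [← h]
      exact mul_ne_zero hz0 hx0
    · rw [← h, ← mul_assoc, inv_mul_cancel₀ hz0, one_mul]
  have hbig : ∀ z ∈ H, z ≠ 0 → 2 * Module.finrank K A <
      3 * Module.finrank K (A ⊓ A.map (LinearMap.mulLeft K z) : Submodule K F) := by
    rintro z ⟨x, hx, y, hy, hx0, h⟩ hz0
    refine kq_big A hd hx hy hx0 ?_ h
    rw [← h]
    exact mul_ne_zero hz0 hx0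
  have hmul : ∀ z ∈ H, ∀ z' ∈ H, z * z' ∈ H := by
    intro z hzH z' hz'H
    by_cases hz0 : z = 0
    · rw [hz0, zero_mul]
      exact hAH 0 A.zero_mem
    by_cases hz'0 : z' = 0
    · rw [hz'0, mul_zero]
      exact hAH 0 A.zero_mem
    have e1 := hbig z hzH hz0
    have e2 := hbig z'⁻¹ (hinv z' hz'H hz'0) (inv_ne_zero hz'0)
    have e3 := Submodule.finrank_sup_add_finrank_inf_eq
      (A ⊓ A.map (LinearMap.mulLeft K z)) (A ⊓ A.map (LinearMap.mulLeft K z'⁻¹))
    have e4 := Submodule.finrank_mono (sup_le (inf_le_left :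
      A ⊓ A.map (LinearMap.mulLeft K z) ≤ A) (inf_le_left :
      A ⊓ A.map (LinearMap.mulLeft K z'⁻¹) ≤ A))
    have e5 : (A ⊓ A.map (LinearMap.mulLeft K z)) ⊓ (A ⊓ A.map (LinearMap.mulLeft K z'⁻¹)) ≠
        ⊥ := by
      intro h
      rw [h, finrank_bot] at e3
      omega
    obtain ⟨c, hc, hc0⟩ := Submodule.exists_mem_ne_zero_of_ne_bot e5
    obtain ⟨⟨-, hc1⟩, -, hc2⟩ := hc
    obtain ⟨u, hu, hcu⟩ := kq_mem.1 hc1
    obtain ⟨u', hu', hcu'⟩ := kq_mem.1 hc2
    refine ⟨u, hu, u', hu', ?_, ?_⟩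
    · rintro rfl
      rw [mul_zero] at hcu
      exact hc0 hcu.symm
    · have : z * z' * u = z' * (z * u) := by ring
      rw [this, hcu, ← hcu', ← mul_assoc, mul_inv_cancel₀ hz'0, one_mul]
  have hadd1 : ∀ z ∈ H, z + 1 ∈ H := by
    rintro z ⟨x, hx, y, hy, hx0, h⟩
    exact ⟨x, hx, y + x, A.add_mem hy hx, hx0, by rw [add_mul, h, one_mul]⟩
  have hadd : ∀ z ∈ H, ∀ z' ∈ H, z + z' ∈ H := by
    intro z hzH z' hz'H
    by_cases hz'0 : z' = 0
    · rw [hz'0, add_zero]
      exact hzH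
    have : z + z' = z' * (z * z'⁻¹ + 1) := by
      field_simp
    rw [this]
    exact hmul _ hz'H _ (hadd1 _ (hmul _ hzH _ (hinv _ hz'H hz'0)))
  let S : Subalgebra K F :=
    { carrier := H
      mul_mem' := fun ha hb => hmul _ ha _ hb
      add_mem' := fun ha hb => hadd _ ha _ hb
      algebraMap_mem' := fun k => hAH _ (by
        rw [Algebra.algebraMap_eq_smul_one]
        exact A.smul_mem k h1) }
  have hS : Algebra.adjoin K (A : Set F) ≤ S := Algebra.adjoin_le hAH
  rw [hA] at hS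
  have hzH : z ∈ H := hS trivial
  have e1 := hbig z hzH hz
  have e2 := Submodule.finrank_sup_add_finrank_inf_eq A (A.map (LinearMap.mulLeft K z))
  rw [kq_rank A hz] at e2
  omega

end LEG
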