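/-
LG/Km (M)  MP_022f22_nt, Lehmer problem in E^g, board modleg. Paper proof: /team-store/lehmer_eg_proof.md
Linear Freiman theorem (paper 3.4).  X >= 1 (finrank K F > 0).  A i = U^(2^i), A (i+1) = A i * A i, 1 in A i, monotone.  Let i be the first index with 3 finrank A(i+1) < 4 finrank A i (exists since otherwise (4/3)^i finrank U <= finrank F for all i);
for all j < i: 4 finrank A j <= 3 finrank A (j+1), so 4^i finrank U <= 3^i finrank F <= 3^i X finrank U, 4^i <= 3^i X, hence 2^i <= X^3 (27 * 2 = 54 <= 64: 2^i 27^i <= 64^i = (4^i)^3 <= 27^i X^3).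
kn_quot for A i (adjoin K (A i) = top since U <= A i) contradicts kn_gen if 3 finrank A i <= 2 finrank F; so 2 finrank F < 3 finrank A i, finrank F < 2 finrank (A i), kn_dual: A i * A i = top = U^(2^(i+1)) <= U^(2 X^3).
-/
import Mathlib
import Pool.Agent.Work.MP_022f22_nt.LG.Defs
import Pool.Agent.Work.MP_022f22_nt.LG.Kq
import Pool.Agent.Work.MP_022f22_nt.LG.Kd
import Pool.Agent.Work.MP_022f22_nt.LG.Kg

open NumberField IsDedekindDomain Polynomial Height Filter Topology LEH

namespace LEG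

theorem kn_main {K F L : Type*} [Field K] [CharZero K] [Field F] [Field L] [Algebra K F]
    [Algebra K L] [Algebra F L] [IsScalarTower K F L] [FiniteDimensional K F]
    [FiniteDimensional K L] [IsGalois K L] (U : Submodule K F) (h1 : (1 : F) ∈ U)
    (hU : Algebra.adjoin K (U : Set F) = ⊤) (X : ℕ)
    (hX : Module.finrank K F ≤ X * Module.finrank K U) : U ^ (2 * X ^ 3) = ⊤ := by
  have hone : (1 : Submodule K F) ≤ U := Submodule.one_le.2 h1
  have hmono : ∀ m n : ℕ, m ≤ n → U ^ m ≤ U ^ n := by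
    intro m n hmn
    obtain ⟨d, rfl⟩ := Nat.exists_eq_add_of_le hmn
    induction d with
    | zero => exact le_rfl
    | succ d ih =>
      refine (ih (by omega)).trans ?_
      calc U ^ (m + d) = U ^ (m + d) * 1 := (mul_one _).symm
        _ ≤ U ^ (m + d) * U := mul_le_mul' le_rfl hone
        _ = U ^ (m + (d + 1)) := by rw [← pow_succ, Nat.add_assoc]
  have hfr : 0 < Module.finrank K U := by
    rw [Module.finrank_pos_iff]
    refine ⟨⟨⟨1, h1⟩, 0, ?_⟩⟩
    intro h
    have := congrArg Subtype.val h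
    exact one_ne_zero this
  have hsq : ∀ i : ℕ, U ^ (2 ^ (i + 1)) = U ^ (2 ^ i) * U ^ (2 ^ i) := by
    intro i
    rw [← pow_add]
    congr 1
    ring
  have key : ∀ i : ℕ, (∀ j < i, 4 * Module.finrank K (U ^ (2 ^ j) : Submodule K F) ≤
      3 * Module.finrank K (U ^ (2 ^ (j + 1)) : Submodule K F)) → 2 ^ i ≤ X ^ 3 := by
    intro i hi
    have h2 : ∀ j ≤ i, 4 ^ j * Module.finrank K U ≤
        3 ^ j * Module.finrank K (U ^ (2 ^ j) : Submodule K F) := by
      intro j
      induction j with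
      | zero => intro _; rw [pow_zero, pow_zero, pow_zero, one_mul, one_mul, pow_one]
      | succ j ih =>
        intro hj
        have h3 := ih (by omega)
        have h4 := hi j (by omega)
        calc 4 ^ (j + 1) * Module.finrank K U = 4 * (4 ^ j * Module.finrank K U) := by ring
          _ ≤ 4 * (3 ^ j * Module.finrank K (U ^ (2 ^ j) : Submodule K F)) :=
            Nat.mul_le_mul_left _ h3
          _ = 3 ^ j * (4 * Module.finrank K (U ^ (2 ^ j) : Submodule K F)) := by ring
          _ ≤ 3 ^ j * (3 * Module.finrank K (U ^ (2 ^ (j + 1)) : Submodule K F)) :=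
            Nat.mul_le_mul_left _ h4
          _ = 3 ^ (j + 1) * Module.finrank K (U ^ (2 ^ (j + 1)) : Submodule K F) := by ring
    have h3 := h2 i le_rfl
    have h4 : Module.finrank K (U ^ (2 ^ i) : Submodule K F) ≤ Module.finrank K F :=
      Submodule.finrank_le _
    have h5 : 4 ^ i * Module.finrank K U ≤ 3 ^ i * X * Module.finrank K U := by
      calc 4 ^ i * Module.finrank K U
          ≤ 3 ^ i * Module.finrank K (U ^ (2 ^ i) : Submodule K F) := h3
        _ ≤ 3 ^ i * Module.finrank K F := Nat.mul_le_mul_left _ h4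
        _ ≤ 3 ^ i * (X * Module.finrank K U) := Nat.mul_le_mul_left _ hX
        _ = 3 ^ i * X * Module.finrank K U := by ring
    have h6 : 4 ^ i ≤ 3 ^ i * X := Nat.le_of_mul_le_mul_right h5 hfr
    have h7 : (4 ^ i) ^ 3 ≤ (3 ^ i * X) ^ 3 := Nat.pow_le_pow_left h6 3
    have h8 : 27 ^ i * 2 ^ i ≤ 27 ^ i * X ^ 3 := by
      calc 27 ^ i * 2 ^ i = 54 ^ i := by rw [← mul_pow]; norm_num
        _ ≤ 64 ^ i := Nat.pow_le_pow_left (by norm_num) i
        _ = (4 ^ i) ^ 3 := by rw [← pow_mul, mul_comm, pow_mul]; norm_num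
        _ ≤ (3 ^ i * X) ^ 3 := h7
        _ = 27 ^ i * X ^ 3 := by
          rw [mul_pow, ← pow_mul, mul_comm i 3, pow_mul]
          norm_num
    exact Nat.le_of_mul_le_mul_left h8 (by positivity)
  have hex : ∃ i : ℕ, 3 * Module.finrank K (U ^ (2 ^ (i + 1)) : Submodule K F) <
      4 * Module.finrank K (U ^ (2 ^ i) : Submodule K F) := by
    by_contra hcon
    push Not at hcon
    have h2 := key (X ^ 3) (fun j _ => hcon j)
    exact absurd h2 (not_le.2 Nat.lt_two_pow_self)
  classical
  obtain ⟨i, hi, hmin⟩ : ∃ i : ℕ, (3 * Module.finrank K (U ^ (2 ^ (i + 1)) : Submodule K F) <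
      4 * Module.finrank K (U ^ (2 ^ i) : Submodule K F)) ∧ ∀ j < i,
      4 * Module.finrank K (U ^ (2 ^ j) : Submodule K F) ≤
        3 * Module.finrank K (U ^ (2 ^ (j + 1)) : Submodule K F) :=
    ⟨Nat.find hex, Nat.find_spec hex, fun j hj => not_lt.1 (Nat.find_min hex hj)⟩
  have hiX := key i hmin
  obtain ⟨A, hA⟩ : ∃ A : Submodule K F, A = U ^ (2 ^ i) := ⟨_, rfl⟩
  have hUA : U ≤ A := by
    rw [hA]
    calc U = U ^ 1 := (pow_one U).symm
      _ ≤ U ^ (2 ^ i) := hmono 1 _ Nat.one_le_two_pow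
  have hA1 : (1 : F) ∈ A := hUA h1
  have hAt : Algebra.adjoin K (A : Set F) = ⊤ := by
    refine top_le_iff.1 ?_
    rw [← hU]
    exact Algebra.adjoin_mono hUA
  have hAA : 3 * Module.finrank K (A * A : Submodule K F) < 4 * Module.finrank K A := by
    rw [hA, ← hsq]
    exact hi
  have hbig : 2 * Module.finrank K F < 3 * Module.finrank K A := by
    by_contra hcon
    push Not at hcon
    obtain ⟨z, hz, hz2⟩ := kn_gen (L := L) A hcon
    exact absurd hz2 (not_le.2 (kn_quot A hA1 hAt hAA z hz))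
  have htop : A * A = ⊤ := kn_dual A (by omega)
  refine top_le_iff.1 ?_
  rw [← htop, hA, ← hsq]
  refine hmono _ _ ?_
  rw [pow_succ]
  omega

end LEG
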