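/-
LG/Reg (M)  MP_022f22_nt, Lehmer problem in E^g, board modleg. Paper proof: /team-store/lehmer_eg_proof.md
Regularity (paper 4.2).  F = IntermediateField.adjoin K (range b), finrank K F = |torb b| (torb_card).  U = comap to F of usp K (k+1) b (it is contained in F): submodule of F, 1 in U, Algebra.adjoin K U = top in F (b_i in U as k + 1 >= 2; for algebraic elements
Algebra.adjoin = field adjoin), finrank U = finrank (usp (k+1) b) >= finrank (usp k b) = k^g (norel_rank, usp_mono), so finrank F <= X finrank U.  kn_main: U^(2X^3) = top; map back to L: usp (k+1) b ^(2X^3) = F, contained in usp (2X^3 k + 1) b (usp_pow).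
Conversely usp_le_adjoin.
-/
import Mathlib
import Pool.Agent.Work.MP_022f22_nt.LG.Defs
import Pool.Agent.Work.MP_022f22_nt.LG.Km
import Pool.Agent.Work.MP_022f22_nt.LG.Usm
import Pool.Agent.Work.MP_022f22_nt.LG.Nit
import Pool.Agent.Work.MP_022f22_nt.LG.Tcd

open NumberField IsDedekindDomain Polynomial Height Filter Topology LEH

namespace LEG

theorem reg_level {K L : Type} [Field K] [NumberField K] [Field L] [Algebra K L]
    [FiniteDimensional K L] [IsGalois K L] {g : ℕ} (b : Fin g → L) (k X : ℕ) (hk : 1 ≤ k)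
    (h : NoRel K k b) (hX : (torb K b).card ≤ X * k ^ g) (y : L) :
    y ∈ usp K (2 * X ^ 3 * k + 1) b ↔ y ∈ IntermediateField.adjoin K (Set.range b) := by
  constructor
  · exact usp_le_adjoin K _ b y
  intro hy
  set F := IntermediateField.adjoin K (Set.range b) with hF
  set U : Submodule K F := (usp K (k + 1) b).comap F.val.toLinearMap with hU
  have hmap : U.map F.val.toLinearMap = usp K (k + 1) b := by
    rw [hU, Submodule.map_comap_eq, inf_eq_right]
    intro z hz
    exact ⟨⟨z, usp_le_adjoin K _ b z hz⟩, rfl⟩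
  have h1 : (1 : F) ∈ U := by
    rw [hU, Submodule.mem_comap]
    exact one_mem_usp K (by omega) b
  have hb : ∀ i, b i ∈ usp K (k + 1) b := by
    intro i
    refine Submodule.subset_span ⟨Pi.single i 1, fun j => ?_, ?_⟩
    · by_cases hj : j = i
      · subst hj; simp; omega
      · simp [Pi.single_eq_of_ne hj]
    · rw [Finset.prod_eq_single i]
      · simp
      · intro j _ hj
        simp [Pi.single_eq_of_ne hj]
      · intro h0
        exact absurd (Finset.mem_univ i) h0
  have hadj : Algebra.adjoin K (U : Set F) = ⊤ := by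
    rw [eq_top_iff]
    rintro ⟨z, hz⟩ -
    have e1 : F.toSubalgebra = Algebra.adjoin K (Set.range b) :=
      IntermediateField.adjoin_toSubalgebra_of_isAlgebraic
        (fun x _ => Algebra.IsAlgebraic.isAlgebraic x)
    have e2 : z ∈ Algebra.adjoin K (Set.range b) := by
      rw [← e1]; exact hz
    have e3 : Algebra.adjoin K (Set.range b) ≤ (Algebra.adjoin K (U : Set F)).map F.val := by
      rw [AlgHom.map_adjoin]
      refine Algebra.adjoin_mono ?_
      rintro _ ⟨i, rfl⟩
      refine ⟨⟨b i, IntermediateField.subset_adjoin K _ ⟨i, rfl⟩⟩, ?_, rfl⟩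
      exact hb i
    obtain ⟨w, hw, hwz⟩ := Subalgebra.mem_map.1 (e3 e2)
    have : w = ⟨z, hz⟩ := Subtype.ext hwz
    rw [← this]
    exact hw
  have hfin : Module.finrank K F ≤ X * Module.finrank K U := by
    rw [← torb_card b]
    refine hX.trans (Nat.mul_le_mul_left _ ?_)
    rw [← norel_rank h hk]
    refine (Submodule.finrank_mono (usp_mono K (Nat.le_succ k) b)).trans ?_
    rw [← hmap]
    exact Submodule.finrank_map_le _ _
  have hmain := kn_main (K := K) (F := F) (L := L) U h1 hadj X hfin
  have hmem : (⟨y, hy⟩ : F) ∈ U ^ (2 * X ^ 3) := by rw [hmain]; trivial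
  have h2 : y ∈ (U ^ (2 * X ^ 3)).map F.val.toLinearMap := ⟨⟨y, hy⟩, hmem, rfl⟩
  rw [Submodule.map_pow, hmap] at h2
  exact usp_pow K k (2 * X ^ 3) b h2

end LEG
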