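/-
LG/Tit (S)  MP_022f22_nt, Lehmer problem in E^g, board modleg. Paper proof: /team-store/lehmer_eg_proof.md
Orbits of the levels.  itn_xt: nice_point.  torb_itn_le: torb K (itn n a) is the image of torb K a under the coordinatewise map F^n (LH/Fmc Fm_iter_gal): Finset.card_image_le.  sum_hx: s in torb (itn n (xt P)): s i = σ(F^n (xc P_i)) = F^n(σ (xc P_i)) (Fm_iter_gal), Nice.ht: hx = Q^n hx(xc P_i).
lev_index: torb_index for the tuple N^n P (N^n P_i != 0 by NT).
-/
import Mathlib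
import Pool.Agent.Work.MP_022f22_nt.LG.Defs
import Pool.Agent.Work.MP_022f22_nt.LG.Tcd
import Pool.Agent.Work.MP_022f22_nt.LG.Stf
import Pool.Agent.Work.MP_022f22_nt.LH.NiP
import Pool.Agent.Work.MP_022f22_nt.LH.Fmc

open NumberField IsDedekindDomain Polynomial Height Filter Topology LEH

namespace LEG

variable {K : Type} [Field K] [NumberField K] {v : HeightOneSpectrum (𝓞 K)}
    {W : WeierstrassCurve K} {p N Q : ℕ} {A B : K[X]}
    {L : Type} [Field L] [NumberField L] [Algebra K L] [FiniteDimensional K L] [DecidableEq L]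
    {g : ℕ}

theorem itn_xt (hs : Setup K v W p N Q A B) (P : Fin g → (W.baseChange L).toAffine.Point)
    (hP : ∀ i, NT (P i)) (n : ℕ) : itn A B n (xt P) = xt (fun i => N ^ n • P i) := by

  funext i
  change (Fm A B)^[n] (xc (P i)) = xc (N ^ n • P i)
  exact ((nice_point hs (P i) (hP i)).2 n).symm

theorem torb_itn_le (A B : K[X]) (a : Fin g → L) (n : ℕ) :
    (torb K (itn A B n a)).card ≤ (torb K a).card := by

  refine Finset.card_le_card_of_surjOn (fun (b : Fin g → L) (i : Fin g) => (Fm A B)^[n] (b i)) ?_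
  intro s hs
  obtain ⟨σ, hσ⟩ := (mem_torb _ _).1 (Finset.mem_coe.1 hs)
  refine ⟨fun i => σ (a i), Finset.mem_coe.2 ((mem_torb _ _).2 ⟨σ, rfl⟩), ?_⟩
  rw [← hσ]
  funext i
  exact Fm_iter_gal A B σ n (a i)

theorem sum_hx (hs : Setup K v W p N Q A B) (P : Fin g → (W.baseChange L).toAffine.Point)
    (hP : ∀ i, NT (P i)) (n : ℕ) (s : Fin g → L) (h : s ∈ torb K (itn A B n (xt P))) :
    ∑ i, hx (W.baseChange L) (s i) = (Q : ℝ) ^ n * ∑ i, hx (W.baseChange L) (xc (P i)) := by

  obtain ⟨σ, hσ⟩ := (mem_torb _ _).1 h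
  rw [Finset.mul_sum]
  refine Finset.sum_congr rfl fun i _ => ?_
  rw [← hσ]
  change hx (W.baseChange L) (σ ((Fm A B)^[n] (xc (P i)))) = _
  rw [← Fm_iter_gal]
  exact (nice_point hs (P i) (hP i)).1.ht σ n

theorem lev_index (hs : Setup K v W p N Q A B) (P : Fin g → (W.baseChange L).toAffine.Point)
    (hP : ∀ i, NT (P i)) (n : ℕ) :
    (torb K (itn A B n (xt P))).card ≤ (Stb P).index ∧
      (Stb (fun i => N ^ n • P i)).index ≤ 2 ^ g * (torb K (itn A B n (xt P))).card := by

  have hN : 0 < N := by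
    obtain ⟨s, hs0, hsN⟩ := hs.N_pow
    rw [hsN]
    exact Nat.pow_pos hs.prime.pos
  constructor
  · refine (torb_itn_le A B (xt P) n).trans (torb_index P ?_).1
    intro i h
    exact hP i 1 one_pos (by rw [h, smul_zero])
  · rw [itn_xt hs P hP n]
    exact (torb_index (fun i => N ^ n • P i) (fun i => hP i _ (Nat.pow_pos hN))).2

end LEG
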