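/-
LG/Lvi (M)  MP_022f22_nt, Lehmer problem in E^g, board modleg. Paper proof: /team-store/lehmer_eg_proof.md
Independence of the levels (paper 4).  b_n = itn n (xt P), n in NN (n <= nm).  k_n = (ω-1)/Q^n + 1: Q^n (k_n - 1) < ω, norel_iter: NoRel K k_n b_n; k_n Q^n >= ω.  |torb b_n| <= (Stb P).index (lev_index), and index * Q^(nm g) <= Y ω^g <= Y (k_n Q^n)^g <= Y k_n^g Q^(nm g), so
|torb b_n| <= Y k_n^g.  reg_level (X = Y): K(b_n) = usp (2 Y^3 k_n + 1) b_n, contained in usp (2 Y^3 ω + 1) b_n (k_n <= ω, usp_mono).  indep_of_reg with the enumeration of NN (NN.orderEmbOfFin or NN.equivFin.symm), k = 2 Y^3 ω + 1; hd from lev_disj; indep_mono.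
The second claim (card of S): disjoint union (torb_eq_of_mem, self_mem_torb, lev_disj), Finset.card_biUnion.
-/
import Mathlib
import Pool.Agent.Work.MP_022f22_nt.LG.Defs
import Pool.Agent.Work.MP_022f22_nt.LG.Reg
import Pool.Agent.Work.MP_022f22_nt.LG.Idp
import Pool.Agent.Work.MP_022f22_nt.LG.Dsj
import Pool.Agent.Work.MP_022f22_nt.LG.Nit
import Pool.Agent.Work.MP_022f22_nt.LG.Tit

open NumberField IsDedekindDomain Polynomial Height Filter Topology LEH

namespace LEG

open Classical in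
theorem lev_indep {K : Type} [Field K] [NumberField K] {v : HeightOneSpectrum (𝓞 K)}
    {W : WeierstrassCurve K} {p N Q : ℕ} {A B : K[X]} (hs : Setup K v W p N Q A B)
    {L : Type} [Field L] [NumberField L] [Algebra K L] [FiniteDimensional K L] [IsGalois K L]
    {g : ℕ} (hg : 1 ≤ g) (P : Fin g → (W.baseChange L).toAffine.Point)
    (hP : ∀ i, NT (P i)) (ω Y nm κ : ℕ) (NN : Finset ℕ) (hNN : ∀ n ∈ NN, n ≤ nm) (hω1 : 1 ≤ ω)
    (hω : NoRel K ω (xt P)) (hY : (Stb P).index * Q ^ (nm * g) ≤ Y * ω ^ g)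
    (hκ : NN.card * (2 * Y ^ 3 * ω + 2) ≤ 4 ^ κ) :
    Indep (4 ^ κ) (NN.biUnion (fun n => torb K (itn A B n (xt P)))) ∧
    (NN.biUnion (fun n => torb K (itn A B n (xt P)))).card =
      ∑ n ∈ NN, (torb K (itn A B n (xt P))).card := by
  have hQ : 0 < Q := by
    rw [hs.Q_eq]
    obtain ⟨s, -, hN⟩ := hs.N_pow
    rw [hN]
    exact pow_pos (pow_pos hs.prime.pos _) _
  have ha : ∀ i n, (B.map (algebraMap K L)).eval ((Fm A B)^[n] (xt P i)) ≠ 0 := by
    intro i n
    exact (nice_point hs (P i) (hP i)).1.ne n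
  have hreg : ∀ n ∈ NN, ∀ y ∈ IntermediateField.adjoin K (Set.range (itn A B n (xt P))),
      y ∈ usp K (2 * Y ^ 3 * ω + 1) (itn A B n (xt P)) := by
    intro n hn y hy
    obtain ⟨k, hk⟩ : ∃ k, k = (ω - 1) / Q ^ n + 1 := ⟨_, rfl⟩
    have hQn : 0 < Q ^ n := pow_pos hQ n
    have hk1 : 1 ≤ k := by
      rw [hk]
      exact Nat.le_add_left 1 _
    have h1 : Q ^ n * (k - 1) < ω := by
      have : Q ^ n * ((ω - 1) / Q ^ n) ≤ ω - 1 := Nat.mul_div_le _ _
      rw [hk, Nat.add_sub_cancel]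
      omega
    have h2 : NoRel K k (itn A B n (xt P)) := norel_iter hs (xt P) ha ω n k hk1 h1 hω
    have h3 : ω ≤ Q ^ n * k := by
      have := Nat.lt_mul_div_succ (ω - 1) hQn
      rw [hk]
      omega
    have h4 : k ≤ ω := by
      have := Nat.div_le_self (ω - 1) (Q ^ n)
      omega
    have h5 : (torb K (itn A B n (xt P))).card ≤ Y * k ^ g := by
      refine ((lev_index hs P hP n).1).trans ?_
      have h6 : (Stb P).index * Q ^ (nm * g) ≤ Y * k ^ g * Q ^ (nm * g) := by
        calc (Stb P).index * Q ^ (nm * g) ≤ Y * ω ^ g := hY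
          _ ≤ Y * (Q ^ n * k) ^ g := Nat.mul_le_mul_left _ (Nat.pow_le_pow_left h3 g)
          _ = Y * k ^ g * Q ^ (n * g) := by rw [mul_pow, ← pow_mul]; ring
          _ ≤ Y * k ^ g * Q ^ (nm * g) := Nat.mul_le_mul_left _
            (Nat.pow_le_pow_right hQ (Nat.mul_le_mul_right _ (hNN n hn)))
      exact Nat.le_of_mul_le_mul_right h6 (pow_pos hQ _)
    have h6 := (reg_level (itn A B n (xt P)) k Y hk1 h2 h5 y).2 hy
    refine usp_mono K ?_ _ h6
    have := Nat.mul_le_mul_left (2 * Y ^ 3) h4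
    omega
  constructor
  · obtain ⟨e⟩ : Nonempty (Fin NN.card ≃ NN) := ⟨NN.equivFin.symm⟩
    refine indep_mono hκ ?_
    have h1 : NN.card * (2 * Y ^ 3 * ω + 2) = NN.card * ((2 * Y ^ 3 * ω + 1) + 1) := by ring
    rw [h1]
    refine indep_of_reg (K := K) NN.card (fun j => itn A B (e j : ℕ) (xt P)) (2 * Y ^ 3 * ω + 1)
      (by omega) ?_ ?_ _ ?_
    · intro j y hy
      exact hreg (e j) (e j).2 y hy
    · intro i j hij
      refine lev_disj hs hg P hP (e i) (e j) ?_
      intro h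
      exact hij (e.injective (Subtype.ext h))
    · intro s
      rw [Finset.mem_biUnion]
      constructor
      · rintro ⟨n, hn, hsn⟩
        refine ⟨e.symm ⟨n, hn⟩, ?_⟩
        simp only [Equiv.apply_symm_apply]
        exact hsn
      · rintro ⟨j, hj⟩
        exact ⟨e j, (e j).2, hj⟩
  · refine Finset.card_biUnion ?_
    intro n _ n' _ hne
    change Disjoint (torb K (itn A B n (xt P))) (torb K (itn A B n' (xt P)))
    rw [Finset.disjoint_left]
    intro c hc hc'
    refine lev_disj hs hg P hP n n' hne ?_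
    rw [← torb_eq_of_mem hc', torb_eq_of_mem hc]
    exact self_mem_torb _

end LEG
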