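/-
LG/Lev (M)  MP_022f22_nt, Lehmer problem in E^g, board modleg. Paper proof: /team-store/lehmer_eg_proof.md
Several levels (paper 6).  H = Stb(N^n1 P), F = fixedField H.  b i = (itn n1 (xt P) i, in F by xc_mem and itn_xt).  core with k = 4^(κ-a0), d = 4^a0, S = union of the torb b_n, n in NN: s = σ(itn n (xt P)) = σ(algebraMap (F^(n-n1) b)), 2 j0 + b' <= n - n1.
B.eval(F^n b_i) != 0: Nice.ne (nice_point) and injectivity of F -> L (Fm commutes with algebraMap, iterate).  lev_indep, sum_hx: Σ_(s in S) Σ_i hx <= S.card * Q^nm * h (h >= 0: LH/Hxl hx_nonneg; Q >= 1).  Divide by S.card > 0 (torb nonempty).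
-/
import Mathlib
import Pool.Agent.Work.MP_022f22_nt.LG.Defs
import Pool.Agent.Work.MP_022f22_nt.LG.Cor
import Pool.Agent.Work.MP_022f22_nt.LG.Lvi
import Pool.Agent.Work.MP_022f22_nt.LG.Tit
import Pool.Agent.Work.MP_022f22_nt.LG.Stf
import Pool.Agent.Work.MP_022f22_nt.LH.NiP
import Pool.Agent.Work.MP_022f22_nt.LH.Hxl
import Pool.Agent.Work.MP_022f22_nt.LH.Fmc

open NumberField IsDedekindDomain Polynomial Height Filter Topology LEH

namespace LEG

private theorem lev_Fm {K F L : Type*} [Field K] [Field F] [Field L] [Algebra K F]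
    [Algebra K L] [Algebra F L] [IsScalarTower K F L] (A B : K[X]) (x : F) :
    Fm A B (algebraMap F L x) = algebraMap F L (Fm A B x) := by
  unfold Fm
  rw [map_div₀, eval_map_algebraMap, eval_map_algebraMap, eval_map_algebraMap,
    eval_map_algebraMap, Polynomial.aeval_algebraMap_apply, Polynomial.aeval_algebraMap_apply]

private theorem lev_iter {K F L : Type*} [Field K] [Field F] [Field L] [Algebra K F]
    [Algebra K L] [Algebra F L] [IsScalarTower K F L] (A B : K[X]) (n : ℕ) (x : F) :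
    (Fm A B)^[n] (algebraMap F L x) = algebraMap F L ((Fm A B)^[n] x) := by
  induction n with
  | zero => rfl
  | succ n ih => rw [Function.iterate_succ_apply', Function.iterate_succ_apply', ih, lev_Fm]

open Classical in
theorem level {K : Type} [Field K] [NumberField K] {v : HeightOneSpectrum (𝓞 K)}
    {W : WeierstrassCurve K} {p N Q : ℕ} {A B : K[X]} (hs : Setup K v W p N Q A B)
    {ϖ : K} (hϖ : Unif v ϖ) :
    ∃ C1 : ℝ, 0 ≤ C1 ∧ ∀ (L : Type) [Field L] [NumberField L] [Algebra K L]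
      [FiniteDimensional K L] [IsGalois K L] (g : ℕ) (_ : 1 ≤ g)
      (P : Fin g → (W.baseChange L).toAffine.Point) (_ : ∀ i, NT (P i))
      (n1 j0 b' nm : ℕ) (NN : Finset ℕ) (_ : NN.Nonempty)
      (_ : ∀ n ∈ NN, n1 + 2 * j0 + b' ≤ n ∧ n ≤ nm) (_ : 1 ≤ j0)
      (H : Subgroup (L ≃ₐ[K] L)) (_ : H = Stb (fun i => N ^ n1 • P i))
      (V : Finset (FinitePlace (IntermediateField.fixedField H)))
      (_ : ∀ w, w ∈ V ↔ Above v w) (t : FinitePlace (IntermediateField.fixedField H) → ℕ)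
      (_ : ∀ w ∈ V, ((nw w ^ (t w))⁻¹) ^ (Q ^ b') ≤
        w (algebraMap K (IntermediateField.fixedField H) ϖ)) (X : ℝ)
      (_ : ∑ w ∈ V, (t w : ℝ) * Real.log (nw w) ≤ X * Real.log (Ideal.absNorm v.asIdeal))
      (ω Y a0 κ : ℕ) (_ : 1 ≤ ω) (_ : NoRel K ω (xt P))
      (_ : (Stb P).index * Q ^ (nm * g) ≤ Y * ω ^ g) (_ : a0 ≤ κ)
      (_ : NN.card * (2 * Y ^ 3 * ω + 2) ≤ 4 ^ κ)
      (_ : 4 * ((4 : ℝ) ^ a0) ^ g * X ≤ ((∑ n ∈ NN, (torb K (itn A B n (xt P))).card : ℕ) : ℝ)),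
      Lam v * ((4 : ℝ) ^ a0 * j0 / 2) ≤
        Real.log ((∑ n ∈ NN, (torb K (itn A B n (xt P))).card : ℕ) : ℝ) + 3 * g * κ * C1 +
          (4 : ℝ) ^ κ * (Q : ℝ) ^ nm * ∑ i, hx (W.baseChange L) (xc (P i)) := by
  obtain ⟨C1, hC1, H⟩ := core hs hϖ
  refine ⟨C1, hC1, ?_⟩
  intro L _ _ _ _ _ g hg P hP n1 j0 b' nm NN hne hNN hj H1 hH V hV t ht X hX ω Y a0 κ hω1 hω hY
    ha hκ hr
  obtain ⟨hI, hcard⟩ := lev_indep hs hg P hP ω Y nm κ NN (fun n hn => (hNN n hn).2) hω1 hω hY hκ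
  set S := NN.biUnion (fun n => torb K (itn A B n (xt P))) with hS
  set h := ∑ i, hx (W.baseChange L) (xc (P i)) with hh
  have hΔ : W.Δ ≠ 0 := by
    intro h0
    have := hs.good.disc
    rw [h0] at this
    simp at this
  have hh0 : 0 ≤ h := Finset.sum_nonneg fun i _ => hx_nonneg W hΔ L _
  have hN2 : 2 ≤ N := by
    obtain ⟨s, hs0, hsN⟩ := hs.N_pow
    rw [hsN]
    calc 2 ≤ p := hs.prime.two_le
      _ = p ^ 1 := (pow_one p).symm
      _ ≤ p ^ s := Nat.pow_le_pow_right hs.prime.pos hs0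
  have hQ1 : (1 : ℝ) ≤ Q := by
    have : 1 ≤ Q := by
      rw [hs.Q_eq]
      nlinarith
    exact_mod_cast this
  have hmem : ∀ i, itn A B n1 (xt P) i ∈ IntermediateField.fixedField H1 := by
    intro i
    rw [itn_xt hs P hP n1, hH]
    exact xc_mem _ i
  let b : Fin g → IntermediateField.fixedField H1 := fun i => ⟨itn A B n1 (xt P) i, hmem i⟩
  have hb : ∀ i n, algebraMap (IntermediateField.fixedField H1) L ((Fm A B)^[n] (b i)) =
      (Fm A B)^[n + n1] (xc (P i)) := by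
    intro i n
    rw [← lev_iter, Function.iterate_add_apply]
    rfl
  have hne' : ∀ i n, (B.map (algebraMap K (IntermediateField.fixedField H1))).eval
      ((Fm A B)^[n] (b i)) ≠ 0 := by
    intro i n h0
    apply (nice_point hs (P i) (hP i)).1.ne (n + n1)
    rw [← hb, eval_map_algebraMap, aeval_algebraMap_apply, ← eval_map_algebraMap, h0, map_zero]
  have hSne : S.Nonempty := by
    obtain ⟨n, hn⟩ := hne
    exact ⟨itn A B n (xt P), Finset.mem_biUnion.2 ⟨n, hn, self_mem_torb _⟩⟩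
  have hrpos : (0 : ℝ) < S.card := by
    exact_mod_cast hSne.card_pos
  have hk4 : 4 ^ a0 * 4 ^ (κ - a0) = 4 ^ κ := by
    rw [← pow_add]
    congr 1
    omega
  have key := H (IntermediateField.fixedField H1) L g b hne' S hSne j0 b' κ (4 ^ (κ - a0)) (4 ^ a0)
    hj (Nat.one_le_pow _ _ (by norm_num)) hk4 ?_ V hV t ht X hX ?_ hI
  · have hsum : ∑ s ∈ S, ∑ i, hx (W.baseChange L) (s i) ≤ S.card * ((Q : ℝ) ^ nm * h) := by
      rw [← nsmul_eq_mul]
      refine Finset.sum_le_card_nsmul _ _ _ ?_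
      intro s hs'
      obtain ⟨n, hn, hsn⟩ := Finset.mem_biUnion.1 hs'
      rw [sum_hx hs P hP n s hsn]
      exact mul_le_mul_of_nonneg_right (pow_le_pow_right₀ hQ1 (hNN n hn).2) hh0
    have h4 : (0 : ℝ) < 4 ^ κ := by positivity
    have h5 := key.trans (add_le_add_right (mul_le_mul_of_nonneg_left hsum h4.le) _)
    rw [← hcard]
    push_cast at h5
    refine le_of_mul_le_mul_right ?_ hrpos
    refine h5.trans (le_of_eq ?_)
    ring
  · intro s hs'
    obtain ⟨n, hn, hsn⟩ := Finset.mem_biUnion.1 hs'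
    obtain ⟨σ, hσ⟩ := (mem_torb _ _).1 hsn
    have h1 := hNN n hn
    refine ⟨σ, n - n1, by omega, fun i => ?_⟩
    rw [hb, ← hσ]
    have h2 : n - n1 + n1 = n := by omega
    rw [h2]
    rfl
  · rw [hcard]
    push_cast
    push_cast at hr
    exact hr

end LEG
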