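/-
LG/Rmv (S)  MP_022f22_nt, Lehmer problem in E^g, board modleg. Paper proof: /team-store/lehmer_eg_proof.md
Values at finite places.  ram_val: as in LH/Plc (plc_term): w.maximalIdeal.valuation (algebraMap ϖ) = exp(-1)^(ramificationIdx'), and w x = (absNorm P)^(-n) if the valuation is exp(-n).  lt_one: w x < 1, x != 0: valuation = exp(-n), n >= 1.  one_lt: absNorm of a nonzero prime is >= 2.
ram_pos: w ϖ < 1 (LH/Vab above_unif).
-/
import Mathlib
import Pool.Agent.Work.MP_022f22_nt.LG.Defs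
import Pool.Agent.Work.MP_022f22_nt.LH.Plc
import Pool.Agent.Work.MP_022f22_nt.LH.Vab

open NumberField IsDedekindDomain Polynomial Height Filter Topology LEH

namespace LEG

variable {K F : Type} [Field K] [NumberField K] [Field F] [NumberField F] [Algebra K F]

theorem one_lt_nw (w : FinitePlace F) : 1 < nw w := by
  unfold nw
  exact_mod_cast HeightOneSpectrum.one_lt_absNorm w.maximalIdeal

private theorem rmv_exp (w : FinitePlace F) :
    ((WithZeroMulInt.toNNReal (HeightOneSpectrum.absNorm_ne_zero w.maximalIdeal)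
      (WithZero.exp (-1 : ℤ)) : NNReal) : ℝ) = (nw w)⁻¹ := by
  rw [WithZeroMulInt.toNNReal_neg_apply _ WithZero.exp_ne_zero]
  have e : (WithZero.unzero (WithZero.exp_ne_zero (a := (-1 : ℤ)))) = Multiplicative.ofAdd (-1 : ℤ) := by
    rfl
  rw [e]
  simp [nw]

theorem ram_val {v : HeightOneSpectrum (𝓞 K)} {ϖ : K} (hϖ : Unif v ϖ) (w : FinitePlace F)
    (h : Above v w) : w (algebraMap K F ϖ) = (nw w ^ (ram v w))⁻¹ ∧ 0 < ram v w := by
  have hl : w.maximalIdeal.asIdeal.LiesOver v.asIdeal := ⟨by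
    rw [Ideal.under_def]
    exact h.symm⟩
  have h1 : w.maximalIdeal.valuation F (algebraMap K F ϖ) =
      WithZero.exp (-1 : ℤ) ^ v.asIdeal.ramificationIdx' w.maximalIdeal.asIdeal := by
    rw [← HeightOneSpectrum.valuation_liesOver F v w.maximalIdeal ϖ]
    unfold Unif at hϖ
    rw [hϖ]
  have h2 : w (algebraMap K F ϖ) = (nw w ^ (ram v w))⁻¹ := by
    rw [← FinitePlace.norm_embedding_eq w, FinitePlace.norm_embedding', h1, map_pow, NNReal.coe_pow,
      rmv_exp, inv_pow]
    rfl
  refine ⟨h2, ?_⟩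
  by_contra h3
  have h4 : ram v w = 0 := by omega
  have h5 := (above_unif h hϖ).2
  rw [h2, h4, pow_zero, inv_one] at h5
  exact lt_irrefl _ h5

theorem lt_one_le (w : FinitePlace F) (x : F) (h : w x < 1) : w x ≤ (nw w)⁻¹ := by
  rw [← FinitePlace.norm_embedding_eq w, FinitePlace.norm_embedding'] at h ⊢
  have h1 : w.maximalIdeal.valuation F x < 1 := by
    rw [← WithZeroMulInt.toNNReal_lt_one_iff (HeightOneSpectrum.one_lt_absNorm_nnreal w.maximalIdeal)]
    exact_mod_cast h
  have h2 : w.maximalIdeal.valuation F x ≤ WithZero.exp (-1 : ℤ) := by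
    rw [← WithZero.lt_mul_exp_iff_le WithZero.exp_ne_zero, ← WithZero.exp_add]
    simpa using h1
  rw [← rmv_exp]
  have h3 := (WithZeroMulInt.toNNReal_strictMono
    (HeightOneSpectrum.one_lt_absNorm_nnreal w.maximalIdeal)).monotone h2
  exact_mod_cast h3

theorem ram_sum {v : HeightOneSpectrum (𝓞 K)} {ϖ : K} (hϖ : Unif v ϖ)
    (V : Finset (FinitePlace F)) (hV : ∀ w, w ∈ V ↔ Above v w) :
    ∑ w ∈ V, (ram v w : ℝ) * Real.log (nw w) =
      (Module.finrank K F : ℝ) * Real.log (Ideal.absNorm v.asIdeal) := by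
  obtain ⟨V', hV', hs⟩ := places_above (K := K) (L := F) v hϖ
  have h1 : V = V' := by
    ext w
    rw [hV, hV']
  rw [h1, ← hs]
  refine Finset.sum_congr rfl fun w hw => ?_
  rw [(ram_val hϖ w ((hV' w).1 hw)).1, Real.log_inv, Real.log_pow, neg_neg]

end LEG
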