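/-
LG/SmB (S)  MP_022f22_nt, Lehmer problem in E^g, board modleg. Paper proof: /team-store/lehmer_eg_proof.md
Sums of fractional levels (paper 6, case B).  t w = ceil(ram v w / Q^b') (Nat.ceil of the real number).  ram_val: w ϖ = (nw w ^ ram)⁻¹, t w * Q^b' >= ram, nw w > 1 (one_lt_nw).  t w <= ram/Q^b' + 1 <= ram (Q^(-b') + 1/B0); sum: ram_sum.
small_r: t = ram, b' = 0.
-/
import Mathlib
import Pool.Agent.Work.MP_022f22_nt.LG.Defs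
import Pool.Agent.Work.MP_022f22_nt.LG.Rmv

open NumberField IsDedekindDomain Polynomial Height Filter Topology LEH

namespace LEG

variable {K F : Type} [Field K] [NumberField K] [Field F] [NumberField F] [Algebra K F]

theorem small_t {v : HeightOneSpectrum (𝓞 K)} {ϖ : K} (hϖ : Unif v ϖ) (Q b' : ℕ) (hQ : 1 ≤ Q)
    (B0 : ℝ) (hB0 : 0 < B0) (V : Finset (FinitePlace F)) (hV : ∀ w, w ∈ V ↔ Above v w)
    (hr : ∀ w ∈ V, B0 ≤ (ram v w : ℝ)) :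
    ∃ t : FinitePlace F → ℕ,
      (∀ w ∈ V, ((nw w ^ (t w))⁻¹) ^ (Q ^ b') ≤ w (algebraMap K F ϖ)) ∧
      ∑ w ∈ V, (t w : ℝ) * Real.log (nw w) ≤
        ((Module.finrank K F : ℝ) * (((Q : ℝ) ^ b')⁻¹ + B0⁻¹)) *
          Real.log (Ideal.absNorm v.asIdeal) := by
  have hQ0 : (0 : ℝ) < (Q : ℝ) ^ b' := by
    have : (0 : ℝ) < (Q : ℝ) := by exact_mod_cast hQ
    positivity
  refine ⟨fun w => ⌈(ram v w : ℝ) / (Q : ℝ) ^ b'⌉₊, ?_, ?_⟩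
  · intro w hw
    rw [(ram_val hϖ w ((hV w).1 hw)).1, inv_pow, ← pow_mul]
    have h1 : ram v w ≤ ⌈(ram v w : ℝ) / (Q : ℝ) ^ b'⌉₊ * Q ^ b' := by
      have h2 : (ram v w : ℝ) / (Q : ℝ) ^ b' ≤ (⌈(ram v w : ℝ) / (Q : ℝ) ^ b'⌉₊ : ℝ) :=
        Nat.le_ceil _
      rw [div_le_iff₀ hQ0] at h2
      exact_mod_cast h2
    have h3 := one_lt_nw w
    exact inv_anti₀ (pow_pos (by linarith) _) (pow_le_pow_right₀ h3.le h1)
  · have h1 : ∀ w ∈ V, ((⌈(ram v w : ℝ) / (Q : ℝ) ^ b'⌉₊ : ℕ) : ℝ) * Real.log (nw w) ≤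
        (((Q : ℝ) ^ b')⁻¹ + B0⁻¹) * ((ram v w : ℝ) * Real.log (nw w)) := by
      intro w hw
      have h2 : ((⌈(ram v w : ℝ) / (Q : ℝ) ^ b'⌉₊ : ℕ) : ℝ) ≤ (ram v w : ℝ) / (Q : ℝ) ^ b' + 1 :=
        (Nat.ceil_lt_add_one (div_nonneg (Nat.cast_nonneg _) hQ0.le)).le
      have h3 : (1 : ℝ) ≤ B0⁻¹ * (ram v w : ℝ) := by
        rw [inv_mul_eq_div, le_div_iff₀ hB0, one_mul]
        exact hr w hw
      have h4 : 0 ≤ Real.log (nw w) := Real.log_nonneg (one_lt_nw w).le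
      rw [← mul_assoc]
      refine mul_le_mul_of_nonneg_right (h2.trans ?_) h4
      rw [add_mul, div_eq_mul_inv, mul_comm (ram v w : ℝ)]
      linarith
    refine (Finset.sum_le_sum h1).trans ?_
    rw [← Finset.mul_sum, ram_sum hϖ V hV]
    exact le_of_eq (by ring)

theorem small_r {v : HeightOneSpectrum (𝓞 K)} {ϖ : K} (hϖ : Unif v ϖ) (Q : ℕ)
    (V : Finset (FinitePlace F)) (hV : ∀ w, w ∈ V ↔ Above v w) :
    ∃ t : FinitePlace F → ℕ,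
      (∀ w ∈ V, ((nw w ^ (t w))⁻¹) ^ (Q ^ 0) ≤ w (algebraMap K F ϖ)) ∧
      ∑ w ∈ V, (t w : ℝ) * Real.log (nw w) ≤
        (Module.finrank K F : ℝ) * Real.log (Ideal.absNorm v.asIdeal) := by
  refine ⟨fun w => ram v w, ?_, ?_⟩
  · intro w hw
    rw [(ram_val hϖ w ((hV w).1 hw)).1, pow_zero, pow_one]
  · exact (ram_sum hϖ V hV).le

end LEG
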