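/-
LG/CsA (M)  MP_022f22_nt, Lehmer problem in E^g, board modleg. Paper proof: /team-store/lehmer_eg_proof.md
Case A (paper 6).  level with n1 = k1, b' = 0, M = 2^(g+2) 4^(a0 g), NN = {k1 + 2 j0 + l : l < M} (image of range M, card M), nm = k1 + 2 j0 + M, H = Stb(N^k1 P), F = fixedField H, V = places above v (LH/Plc places_above), t from small_r, X = finrank K F = H.index (index_finrank).
For n in NN: 2^g |torb (itn n (xt P))| >= index Stb(N^n P) = X (lev_index, hk), so the sum is >= M X/2^g = 4 * 4^(a0 g) X.  log: each term <= (Stb P).index (lev_index), sum <= M * index.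
-/
import Mathlib
import Pool.Agent.Work.MP_022f22_nt.LG.Defs
import Pool.Agent.Work.MP_022f22_nt.LG.Lev
import Pool.Agent.Work.MP_022f22_nt.LG.SmB
import Pool.Agent.Work.MP_022f22_nt.LH.Plc

open NumberField IsDedekindDomain Polynomial Height Filter Topology LEH

namespace LEG

open Classical in
theorem case_A {K : Type} [Field K] [NumberField K] {v : HeightOneSpectrum (𝓞 K)}
    {W : WeierstrassCurve K} {p N Q : ℕ} {A B : K[X]} (hs : Setup K v W p N Q A B)
    {ϖ : K} (hϖ : Unif v ϖ) :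
    ∃ C1 : ℝ, 0 ≤ C1 ∧ ∀ (L : Type) [Field L] [NumberField L] [Algebra K L]
      [FiniteDimensional K L] [IsGalois K L] (g : ℕ) (_ : 1 ≤ g)
      (P : Fin g → (W.baseChange L).toAffine.Point) (_ : ∀ i, NT (P i)) (k1 : ℕ)
      (_ : ∀ n, k1 ≤ n → Stb (fun i => N ^ n • P i) = Stb (fun i => N ^ k1 • P i))
      (j0 ω Y a0 κ : ℕ) (_ : 1 ≤ j0) (_ : 1 ≤ ω) (_ : NoRel K ω (xt P))
      (_ : (Stb P).index * Q ^ ((k1 + 2 * j0 + 2 ^ (g + 2) * 4 ^ (a0 * g)) * g) ≤ Y * ω ^ g)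
      (_ : a0 ≤ κ) (_ : 2 ^ (g + 2) * 4 ^ (a0 * g) * (2 * Y ^ 3 * ω + 2) ≤ 4 ^ κ),
      Lam v * ((4 : ℝ) ^ a0 * j0 / 2) ≤
        Real.log (2 ^ (g + 2) * 4 ^ (a0 * g) * ((Stb P).index : ℝ)) + 3 * g * κ * C1 +
          (4 : ℝ) ^ κ * (Q : ℝ) ^ (k1 + 2 * j0 + 2 ^ (g + 2) * 4 ^ (a0 * g)) *
            ∑ i, hx (W.baseChange L) (xc (P i)) := by
  obtain ⟨C1, hC1, hlev⟩ := level hs hϖ
  refine ⟨C1, hC1, ?_⟩
  intro L _ _ _ _ _ g hg P hP k1 hk j0 ω Y a0 κ hj0 hω hNR hY ha0 hM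
  set M : ℕ := 2 ^ (g + 2) * 4 ^ (a0 * g) with hMdef
  have hMpos : 0 < M := by positivity
  set NN : Finset ℕ := (Finset.range M).image (fun l => k1 + 2 * j0 + l) with hNNdef
  have hNNcard : NN.card = M := by
    rw [hNNdef, Finset.card_image_of_injective _ (fun a b hab => Nat.add_left_cancel hab),
      Finset.card_range]
  have hNNne : NN.Nonempty := by
    rw [← Finset.card_pos, hNNcard]
    exact hMpos
  have hNN1 : ∀ n ∈ NN, k1 + 2 * j0 + 0 ≤ n ∧ n ≤ k1 + 2 * j0 + M := by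
    intro n hn
    rw [hNNdef, Finset.mem_image] at hn
    obtain ⟨l, hl, rfl⟩ := hn
    rw [Finset.mem_range] at hl
    omega
  set H : Subgroup (L ≃ₐ[K] L) := Stb (fun i => N ^ k1 • P i) with hHdef
  obtain ⟨V, hV, -⟩ := places_above (L := IntermediateField.fixedField H) v hϖ
  obtain ⟨t, ht1, ht2⟩ := small_r (F := IntermediateField.fixedField H) hϖ Q V hV
  have hfr : Module.finrank K (IntermediateField.fixedField H) = H.index := index_finrank H
  set tb : ℕ → ℕ := fun n => (torb K (itn A B n (xt P))).card with htb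
  have hidx : ∀ n ∈ NN, H.index ≤ 2 ^ g * tb n := by
    intro n hn
    have h1 := (lev_index (W := W) hs P hP n).2
    rw [hk n (by have := (hNN1 n hn).1; omega)] at h1
    exact h1
  have hub : ∀ n ∈ NN, tb n ≤ (Stb P).index := fun n _ => (lev_index (W := W) hs P hP n).1
  have hsum1 : M * H.index ≤ 2 ^ g * ∑ n ∈ NN, tb n := by
    rw [Finset.mul_sum, ← hNNcard, ← smul_eq_mul, ← Finset.sum_const]
    exact Finset.sum_le_sum hidx
  have hsum2 : 4 * 4 ^ (a0 * g) * H.index ≤ ∑ n ∈ NN, tb n := by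
    have h1 : 2 ^ g * (4 * 4 ^ (a0 * g) * H.index) ≤ 2 ^ g * ∑ n ∈ NN, tb n := by
      refine le_trans (le_of_eq ?_) hsum1
      rw [hMdef]
      ring
    exact Nat.le_of_mul_le_mul_left h1 (by positivity)
  have hsum3 : ∑ n ∈ NN, tb n ≤ M * (Stb P).index := by
    rw [← hNNcard, ← smul_eq_mul, ← Finset.sum_const]
    exact Finset.sum_le_sum hub
  have hpos : 0 < ∑ n ∈ NN, tb n := by
    refine Finset.sum_pos (fun n _ => ?_) hNNne
    exact Finset.card_pos.mpr (Finset.univ_nonempty.image _)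
  have hmain := hlev L g hg P hP k1 j0 0 (k1 + 2 * j0 + M) NN hNNne hNN1 hj0 H hHdef V hV t ht1
    (Module.finrank K (IntermediateField.fixedField H) : ℝ) ht2 ω Y a0 κ hω hNR hY ha0
    (by rw [hNNcard]; exact hM)
    (by
      rw [hfr]
      have h1 : ((4 * 4 ^ (a0 * g) * H.index : ℕ) : ℝ) ≤ ((∑ n ∈ NN, tb n : ℕ) : ℝ) := by
        exact_mod_cast hsum2
      refine le_trans (le_of_eq ?_) h1
      push_cast
      rw [pow_mul])
  refine hmain.trans ?_
  have hlog : Real.log ((∑ n ∈ NN, tb n : ℕ) : ℝ) ≤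
      Real.log (2 ^ (g + 2) * 4 ^ (a0 * g) * ((Stb P).index : ℝ)) := by
    refine Real.log_le_log (by exact_mod_cast hpos) ?_
    have h1 : ((∑ n ∈ NN, tb n : ℕ) : ℝ) ≤ ((M * (Stb P).index : ℕ) : ℝ) := by
      exact_mod_cast hsum3
    refine h1.trans (le_of_eq ?_)
    rw [hMdef]
    push_cast
    ring
  have h2 := add_le_add_left (add_le_add_left hlog (3 * g * κ * C1)) (0 : ℝ)
  linarith

end LEG
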