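/-
LG/Rmt (M)  MP_022f22_nt, Lehmer problem in E^g, board modleg. Paper proof: /team-store/lehmer_eg_proof.md
Ramification in towers.  Multiplicativity: ramificationIdx' v P_M = ramificationIdx' v P_F * ramificationIdx' P_F P_M (Ideal.ramificationIdx'_tower or via valuations: valuation_liesOver twice, or: compare u(ϖ) with place_restrict), and ramificationIdx' P_F P_M <= finrank F M
(one term of Ideal.sum_ramification_inertia, inertia degree >= 1).
-/
import Mathlib
import Pool.Agent.Work.MP_022f22_nt.LG.Defs
import Pool.Agent.Work.MP_022f22_nt.LG.Rmv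
import Pool.Agent.Work.MP_022f22_nt.LG.Rst

open NumberField IsDedekindDomain Polynomial Height Filter Topology LEH

namespace LEG

theorem ram_tower {K F M : Type} [Field K] [NumberField K] [Field F] [NumberField F] [Field M]
    [NumberField M] [Algebra K F] [Algebra K M] [Algebra F M] [IsScalarTower K F M]
    {v : HeightOneSpectrum (𝓞 K)} (w : FinitePlace F) (u : FinitePlace M) (hw : Above v w)
    (hu : u.maximalIdeal.asIdeal.comap (algebraMap (𝓞 F) (𝓞 M)) = w.maximalIdeal.asIdeal) :
    ram v u ≤ ram v w * Module.finrank F M := by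
  have hwl : w.maximalIdeal.asIdeal.LiesOver v.asIdeal := ⟨by rw [Ideal.under_def]; exact hw.symm⟩
  have hul : u.maximalIdeal.asIdeal.LiesOver w.maximalIdeal.asIdeal :=
    ⟨by rw [Ideal.under_def]; exact hu.symm⟩
  have hst : IsScalarTower (𝓞 K) (𝓞 F) (𝓞 M) := by
    refine IsScalarTower.of_algebraMap_eq' ?_
    ext x
    show algebraMap K M (x : K) = algebraMap F M (algebraMap K F (x : K))
    exact IsScalarTower.algebraMap_apply K F M _
  have h1 : ram v u = ram v w *
      w.maximalIdeal.asIdeal.ramificationIdx' u.maximalIdeal.asIdeal := by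
    unfold ram
    exact Ideal.ramificationIdx'_algebra_tower' v.asIdeal w.maximalIdeal.asIdeal
      u.maximalIdeal.asIdeal
  rw [h1]
  refine Nat.mul_le_mul_left _ ?_
  have hmax : w.maximalIdeal.asIdeal.IsMaximal := w.maximalIdeal.isMaximal
  have h2 := Ideal.sum_ramification_inertia (𝓞 M) F M w.maximalIdeal.ne_bot
  rw [← h2]
  have hmem : u.maximalIdeal.asIdeal ∈
      IsDedekindDomain.primesOverFinset w.maximalIdeal.asIdeal (𝓞 M) := by
    rw [IsDedekindDomain.mem_primesOverFinset_iff w.maximalIdeal.ne_bot]
    exact ⟨u.maximalIdeal.isPrime, hul⟩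
  refine le_trans ?_ (Finset.single_le_sum (fun P _ => Nat.zero_le _) hmem)
  refine Nat.le_mul_of_pos_right _ ?_
  exact Ideal.inertiaDeg'_pos _ _

end LEG
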