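/-
LG/Trs (M)  MP_022f22_nt, Lehmer problem in E^g, board modleg. Paper proof: /team-store/lehmer_eg_proof.md
Torsion coordinate (paper 5.3).  Some i with cj σ (N^(k-1) P i) != N^(k-1) P i.  T = cj σ (P i) - P i: N^k T = cj σ (N^k P i) - N^k P i = 0 (cj_nsmul), N^(k-1) T != 0.  z = xc T (T != 0).  τ in Stb P and in Stb(cj σ P): cj τ T = T (cj_add, cj_neg), τ z = z (cj_xc).
For j < k: N^j T != 0 and xc (N^j T) = F^j z as long as j <= k-1 (hs.mul with L: N • R != 0 -> xc (N • R) = Fm A B (xc R)); j + 1 < k: N • N^j T != 0 so B.eval(F^j z) != 0; j = k-1: N • N^(k-1) T = 0 so B.eval = 0.  See LH/Tpt for the same argument with signs.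
-/
import Mathlib
import Pool.Agent.Work.MP_022f22_nt.LG.Defs
import Pool.Agent.Work.MP_022f22_nt.LG.Stf
import Pool.Agent.Work.MP_022f22_nt.LH.Tpt

open NumberField IsDedekindDomain Polynomial Height Filter Topology LEH

namespace LEG

theorem torsion_coord {K : Type} [Field K] [NumberField K] {v : HeightOneSpectrum (𝓞 K)}
    {W : WeierstrassCurve K} {p N Q : ℕ} {A B : K[X]} (hs : Setup K v W p N Q A B)
    {L : Type} [Field L] [NumberField L] [Algebra K L] [FiniteDimensional K L] [DecidableEq L]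
    {g : ℕ} (P : Fin g → (W.baseChange L).toAffine.Point) (k : ℕ) (hk : 1 ≤ k)
    (σ : L ≃ₐ[K] L) (h1 : σ ∈ Stb (fun i => N ^ k • P i))
    (h2 : σ ∉ Stb (fun i => N ^ (k - 1) • P i)) :
    ∃ z : L, (∀ τ, τ ∈ Stb P → τ ∈ Stb (fun i => cj σ (P i)) → τ z = z) ∧
      (∀ i, i + 1 < k → (B.map (algebraMap K L)).eval ((Fm A B)^[i] z) ≠ 0) ∧
      (B.map (algebraMap K L)).eval ((Fm A B)^[k - 1] z) = 0 := by
  obtain ⟨s, hs0, hN⟩ := hs.N_pow
  have hg : ∀ i, cj σ (N ^ k • P i) = N ^ k • P i := h1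
  have hb : ∃ i, cj σ (N ^ (k - 1) • P i) ≠ N ^ (k - 1) • P i := by
    by_contra hcon
    push Not at hcon
    exact h2 hcon
  obtain ⟨i, hi⟩ := hb
  set T := cj σ (P i) - P i with hT
  have hkT : N ^ k • T = 0 := by
    rw [hT, smul_sub, ← cj_nsmul, hg i, sub_self]
  have hk1T : N ^ (k - 1) • T ≠ 0 := by
    intro h0
    rw [hT, smul_sub, sub_eq_zero, ← cj_nsmul] at h0
    exact hi h0
  have hiT : ∀ i, i ≤ k - 1 → N ^ i • T ≠ 0 := by
    intro i hi h0
    apply hk1T
    have e : N ^ (k - 1) = N ^ (k - 1 - i) * N ^ i := by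
      rw [← pow_add]; congr 1; omega
    rw [e, mul_smul, h0, smul_zero]
  have hstep : ∀ i, N • (N ^ i • T) = N ^ (i + 1) • T := by
    intro i
    rw [← mul_smul, pow_succ']
  have hiter : ∀ i, i ≤ k - 1 → (Fm A B)^[i] (xc T) = xc (N ^ i • T) := by
    intro i
    induction i with
    | zero => intro _; simp
    | succ i ih =>
      intro hi
      rw [Function.iterate_succ_apply', ih (by omega)]
      have h3 := (hs.mul L (N ^ i • T) (hiT i (by omega))).2
      rw [hstep] at h3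
      exact (h3 (hiT (i + 1) hi)).symm
  refine ⟨xc T, ?_, ?_, ?_⟩
  · intro τ hτ1 hτ2
    have e1 : cj τ (P i) = P i := hτ1 i
    have e2 : cj τ (cj σ (P i)) = cj σ (P i) := hτ2 i
    have hcT : cj τ T = T := by
      rw [hT, sub_eq_add_neg, cj_add, cj_neg, e1, e2]
    rw [← cj_xc, hcT]
  · intro i hi
    rw [hiter i (by omega)]
    intro h0
    have h3 := (hs.mul L (N ^ i • T) (hiT i (by omega))).1.mpr h0
    rw [hstep] at h3
    exact hiT (i + 1) (by omega) h3
  · rw [hiter (k - 1) le_rfl]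
    apply (hs.mul L (N ^ (k - 1) • T) hk1T).1.mp
    rw [hstep, Nat.sub_add_cancel hk]
    exact hkT

end LEG
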