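/-
LG/Rml (M)  MP_022f22_nt, Lehmer problem in E^g, board modleg. Paper proof: /team-store/lehmer_eg_proof.md
Ramification from a drop (paper 5.3).  e from LH/GMp exists_ord, C2 = (e+1) Q^(e+1).  w place of F = fixedField (Stb P) above v; choose a place w_L of L whose restriction to F is w (exists a prime of 𝓞 L over P_w; Above v w_L).  z from torsion_coord; good_of_setup (LH/GMp) at w_L and tor_bound
(LH/Tor): 1 < w_L z, log(cdi w_L z)/log ρ <= C2/Q^k, cdi = 1/w_L z.  M = fixedField (Stb P ⊓ Stb(σP)) contains F (antitone) and z.  u = restriction of w_L to M (place_restrict): u(z^-1) < 1 so u(z^-1) <= 1/nw u; u(ϖ) = nw u^(-ram v u): log cdi/log ρ =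
log u(z^-1)/log u(ϖ) >= 1/ram v u (same exponent c in place_restrict cancels).  So Q^k <= C2 ram v u <= C2 ram v w * finrank F M (ram_tower; u lies over w), finrank F M = relIndex of (Stb P ⊓ Stb σP) in Stb P = relindex.
[H : H ⊓ σHσ^-1] <= [H' : H], H = Stb P, H' = Stb(N^k P) containing H and σ: the cosets h σ H (h in H) are distinct mod H ⊓ σHσ^-1 and lie in H'/H.  Stb(σP) = σ (Stb P) σ^-1.
-/
import Mathlib
import Pool.Agent.Work.MP_022f22_nt.LG.Defs
import Pool.Agent.Work.MP_022f22_nt.LG.Stf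
import Pool.Agent.Work.MP_022f22_nt.LG.Trs
import Pool.Agent.Work.MP_022f22_nt.LG.Rmv
import Pool.Agent.Work.MP_022f22_nt.LG.Rmt
import Pool.Agent.Work.MP_022f22_nt.LG.Rst
import Pool.Agent.Work.MP_022f22_nt.LH.GMp
import Pool.Agent.Work.MP_022f22_nt.LH.Tor
import Pool.Agent.Work.MP_022f22_nt.LH.Vab

open NumberField IsDedekindDomain Polynomial Height Filter Topology LEH

namespace LEG

private theorem ram_aux {K F M L : Type} [Field K] [NumberField K] [Field F] [NumberField F]
    [Field M] [NumberField M] [Field L] [NumberField L] [Algebra K F] [Algebra K M] [Algebra K L]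
    [Algebra F M] [Algebra F L] [Algebra M L] [IsScalarTower K F M] [IsScalarTower K M L]
    [IsScalarTower F M L] [IsScalarTower K F L] {v : HeightOneSpectrum (𝓞 K)} {ϖ : K}
    (hϖ : Unif v ϖ) (w : FinitePlace F) (wL : FinitePlace L) (hwL : Above w.maximalIdeal wL)
    (hw : Above v w) (hwK : Above v wL) (z : M) (hz : 1 < wL (algebraMap M L z)) (C : ℝ)
    (hC : Real.log (cdi wL.val (algebraMap M L z)) / Real.log (wL (algebraMap K L ϖ)) ≤ C) :
    1 ≤ C * ((ram v w : ℝ) * (Module.finrank F M : ℝ)) := by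
  obtain ⟨u, c, hc, hu1, hu2, hu3⟩ := place_restrict (K := K) (F := M) (L := L) wL hwK
  have hcomp : (algebraMap (𝓞 M) (𝓞 L)).comp (algebraMap (𝓞 F) (𝓞 M)) =
      algebraMap (𝓞 F) (𝓞 L) := by
    ext x
    change algebraMap M L (algebraMap F M (x : F)) = algebraMap F L (x : F)
    exact (IsScalarTower.algebraMap_apply F M L (x : F)).symm
  have hu' : u.maximalIdeal.asIdeal.comap (algebraMap (𝓞 F) (𝓞 M)) =
      w.maximalIdeal.asIdeal := by
    rw [← hu2, Ideal.comap_comap, hcomp]
    exact hwL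
  have htow := ram_tower w u hw hu'
  obtain ⟨hr1, hr2⟩ := ram_val hϖ u hu1
  have ha1 := one_lt_nw u
  have ha : 0 < Real.log (nw u) := Real.log_pos ha1
  obtain ⟨a, hadef⟩ : ∃ a, a = Real.log (nw u) := ⟨_, rfl⟩
  rw [← hadef] at ha
  have hcr : (0 : ℝ) < c := by exact_mod_cast hc
  have hrr : (0 : ℝ) < ram v u := by exact_mod_cast hr2
  have hρ : Real.log (wL (algebraMap K L ϖ)) = -((c : ℝ) * ((ram v u : ℝ) * a)) := by
    rw [IsScalarTower.algebraMap_apply K M L, hu3, Real.log_pow, hr1, Real.log_inv, Real.log_pow,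
      ← hadef]
    ring
  rw [hu3] at hz
  have hz1 : 1 < u z := by
    by_contra hcon
    push Not at hcon
    exact absurd hz (not_lt.2 (pow_le_one₀ (apply_nonneg u _) hcon))
  have hz0 : 0 < u z := lt_trans one_pos hz1
  have hz2 : u z⁻¹ ≤ (nw u)⁻¹ := by
    apply lt_one_le
    have h1 : u z⁻¹ = (u z)⁻¹ := map_inv₀ u.val z
    rw [h1]
    exact inv_lt_one_of_one_lt₀ hz1
  have hz3 : a ≤ Real.log (u z) := by
    have h1 : u z⁻¹ = (u z)⁻¹ := map_inv₀ u.val z
    rw [h1] at hz2
    have h2 : nw u ≤ u z := (inv_le_inv₀ hz0 (lt_trans one_pos ha1)).1 hz2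
    rw [hadef]
    exact Real.log_le_log (lt_trans one_pos ha1) h2
  have hcdi : Real.log (cdi wL.val (algebraMap M L z)) = -((c : ℝ) * Real.log (u z)) := by
    have h1 : wL.val (algebraMap M L z) = u z ^ c := hu3 z
    unfold cdi
    rw [h1, max_eq_left hz.le, one_div, Real.log_inv, Real.log_pow]
  rw [hcdi, hρ, div_le_iff_of_neg (by
    rw [neg_lt_zero]
    positivity)] at hC
  have h1 : (c : ℝ) * Real.log (u z) ≤ c * (C * (ram v u : ℝ) * a) := by linarith
  have h2 : Real.log (u z) ≤ C * (ram v u : ℝ) * a := le_of_mul_le_mul_left h1 hcr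
  have h3 : 1 * a ≤ (C * (ram v u : ℝ)) * a := by linarith
  have h4 : 1 ≤ C * (ram v u : ℝ) := le_of_mul_le_mul_right h3 ha
  have hC0 : 0 ≤ C := by
    by_contra hcon
    push Not at hcon
    have := mul_neg_of_neg_of_pos hcon hrr
    linarith
  refine h4.trans (mul_le_mul_of_nonneg_left ?_ hC0)
  exact_mod_cast htow

private theorem conj_stb {K L : Type} [Field K] [NumberField K] [Field L] [NumberField L]
    [Algebra K L] [FiniteDimensional K L] [DecidableEq L] {W : WeierstrassCurve K} {g : ℕ}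
    (P : Fin g → (W.baseChange L).toAffine.Point) (σ : L ≃ₐ[K] L) :
    (Stb P).map (MulAut.conj σ).toMonoidHom = Stb (fun i => cj σ (P i)) := by
  ext τ
  constructor
  · rintro ⟨τ', hτ', rfl⟩ i
    have h1 : cj τ' (P i) = P i := hτ' i
    change cj (σ * τ' * σ⁻¹) (cj σ (P i)) = cj σ (P i)
    rw [← cj_mul, inv_mul_cancel_right, cj_mul, h1]
  · intro hτ
    refine ⟨σ⁻¹ * τ * σ, fun i => ?_, ?_⟩
    · have h1 : cj τ (cj σ (P i)) = cj σ (P i) := hτ i
      rw [cj_mul, cj_mul, h1, ← cj_mul, inv_mul_cancel, cj_one]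
    · change σ * (σ⁻¹ * τ * σ) * σ⁻¹ = τ
      group

private theorem conj_self {G : Type*} [Group G] (H : Subgroup G) {σ : G} (hσ : σ ∈ H) :
    H.map (MulAut.conj σ).toMonoidHom = H := by
  ext τ
  constructor
  · rintro ⟨τ', hτ', rfl⟩
    exact H.mul_mem (H.mul_mem hσ hτ') (H.inv_mem hσ)
  · intro hτ
    refine ⟨σ⁻¹ * τ * σ, H.mul_mem (H.mul_mem (H.inv_mem hσ) hτ) hσ, ?_⟩
    change σ * (σ⁻¹ * τ * σ) * σ⁻¹ = τ
    group

private theorem rel_le {K L : Type} [Field K] [NumberField K] [Field L] [NumberField L]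
    [Algebra K L] [FiniteDimensional K L] [DecidableEq L] {W : WeierstrassCurve K} {g : ℕ}
    (P : Fin g → (W.baseChange L).toAffine.Point) (n : ℕ) (σ : L ≃ₐ[K] L)
    (hσ : σ ∈ Stb (fun i => n • P i)) :
    (Stb P ⊓ Stb (fun i => cj σ (P i))).relIndex (Stb P) ≤
      (Stb P).relIndex (Stb (fun i => n • P i)) := by
  have h1 : (Stb P).relIndex (Stb (fun i => n • P i)) =
      (Stb (fun i => cj σ (P i))).relIndex (Stb (fun i => n • P i)) := by
    rw [← Subgroup.relIndex_map_map_of_injective (Stb P) (Stb (fun i => n • P i))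
      (f := (MulAut.conj σ).toMonoidHom) (MulAut.conj σ).injective, conj_stb, conj_self _ hσ]
  rw [h1, Subgroup.inf_relIndex_left]
  exact Subgroup.relIndex_le_of_le_right (stb_le P n)
    (Subgroup.index_ne_zero_of_finite (H := (Stb (fun i => cj σ (P i))).subgroupOf _))

theorem ram_low {K : Type} [Field K] [NumberField K] {v : HeightOneSpectrum (𝓞 K)}
    {W : WeierstrassCurve K} {p N Q : ℕ} {A B : K[X]} (hs : Setup K v W p N Q A B)
    {ϖ : K} (hϖ : Unif v ϖ) :
    ∃ C2 : ℝ, 0 < C2 ∧ ∀ (L : Type) [Field L] [NumberField L] [Algebra K L]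
      [FiniteDimensional K L] [IsGalois K L] [DecidableEq L] (g : ℕ)
      (P : Fin g → (W.baseChange L).toAffine.Point) (k : ℕ) (_ : 1 ≤ k) (σ : L ≃ₐ[K] L)
      (_ : σ ∈ Stb (fun i => N ^ k • P i)) (_ : σ ∉ Stb (fun i => N ^ (k - 1) • P i))
      (w : FinitePlace (IntermediateField.fixedField (Stb P))) (_ : Above v w),
      (Q : ℝ) ^ k ≤ C2 * (ram v w : ℝ) * ((Stb P).relIndex (Stb (fun i => N ^ k • P i)) : ℝ) := by
  obtain ⟨e, he⟩ := exists_ord hs hϖ
  have hQ0 : (0 : ℝ) < Q := by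
    obtain ⟨s, -, hsN⟩ := hs.N_pow
    rw [hs.Q_eq, hsN]
    have := hs.prime.pos
    positivity
  refine ⟨((e : ℝ) + 1) * (Q : ℝ) ^ (e + 1), by positivity, ?_⟩
  intro L _ _ _ _ _ _ g P k hk σ h1 h2 w hw
  obtain ⟨z, hz1, hz2, hz3⟩ := torsion_coord hs P k hk σ h1 h2
  obtain ⟨wL, hwL⟩ := exists_above (L := L) w.maximalIdeal
  have hwK : Above v wL := by
    have hcomp : (algebraMap (𝓞 (IntermediateField.fixedField (Stb P))) (𝓞 L)).comp
        (algebraMap (𝓞 K) (𝓞 (IntermediateField.fixedField (Stb P)))) =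
        algebraMap (𝓞 K) (𝓞 L) := by
      ext x
      rfl
    unfold Above at hwL hw ⊢
    rw [← hcomp, ← Ideal.comap_comap, hwL, hw]
  obtain ⟨hgood, hBtop⟩ := good_of_setup hs hwK hϖ
  have htor := tor_bound hgood hBtop e (he L wL hwK).symm.le z k hk hz2 hz3
  have hFM : IntermediateField.fixedField (Stb P) ≤
      IntermediateField.fixedField (Stb P ⊓ Stb (fun i => cj σ (P i))) :=
    IntermediateField.fixedField_antitone inf_le_left
  have hzM : z ∈ IntermediateField.fixedField (Stb P ⊓ Stb (fun i => cj σ (P i))) := by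
    rw [IntermediateField.mem_fixedField_iff]
    intro τ hτ
    exact hz1 τ hτ.1 hτ.2
  let _ : Algebra (IntermediateField.fixedField (Stb P))
      (IntermediateField.fixedField (Stb P ⊓ Stb (fun i => cj σ (P i)))) :=
    (IntermediateField.inclusion hFM).toRingHom.toAlgebra
  have hT1 : IsScalarTower K (IntermediateField.fixedField (Stb P))
      (IntermediateField.fixedField (Stb P ⊓ Stb (fun i => cj σ (P i)))) :=
    IsScalarTower.of_algebraMap_eq fun x => rfl
  have hT2 : IsScalarTower (IntermediateField.fixedField (Stb P))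
      (IntermediateField.fixedField (Stb P ⊓ Stb (fun i => cj σ (P i)))) L :=
    IsScalarTower.of_algebraMap_eq fun x => rfl
  have hmain := ram_aux (K := K) (F := IntermediateField.fixedField (Stb P))
    (M := IntermediateField.fixedField (Stb P ⊓ Stb (fun i => cj σ (P i)))) (L := L)
    hϖ w wL hwL hw hwK ⟨z, hzM⟩ htor.1 _ htor.2
  have hfr : Module.finrank (IntermediateField.fixedField (Stb P))
      (IntermediateField.fixedField (Stb P ⊓ Stb (fun i => cj σ (P i)))) =
      (Stb P ⊓ Stb (fun i => cj σ (P i))).relIndex (Stb P) := by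
    have h3 := Module.finrank_mul_finrank K (IntermediateField.fixedField (Stb P))
      (IntermediateField.fixedField (Stb P ⊓ Stb (fun i => cj σ (P i))))
    rw [index_finrank, index_finrank] at h3
    have h4 := Subgroup.relIndex_mul_index
      (inf_le_left : Stb P ⊓ Stb (fun i => cj σ (P i)) ≤ Stb P)
    have h5 : 0 < (Stb P).index := Nat.pos_of_ne_zero Subgroup.index_ne_zero_of_finite
    refine Nat.eq_of_mul_eq_mul_left h5 ?_
    rw [h3, ← h4, mul_comm]
  have hle := rel_le P (N ^ k) σ h1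
  rw [← hfr] at hle
  have hle' : (Module.finrank (IntermediateField.fixedField (Stb P))
      (IntermediateField.fixedField (Stb P ⊓ Stb (fun i => cj σ (P i)))) : ℝ) ≤
      ((Stb P).relIndex (Stb (fun i => N ^ k • P i)) : ℝ) := by exact_mod_cast hle
  have hQk : (0 : ℝ) < (Q : ℝ) ^ k := by positivity
  have h6 : 1 ≤ (((e : ℝ) + 1) * (Q : ℝ) ^ (e + 1) / (Q : ℝ) ^ k) * ((ram v w : ℝ) *
      ((Stb P).relIndex (Stb (fun i => N ^ k • P i)) : ℝ)) := by
    refine hmain.trans ?_
    gcongr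
  rw [div_mul_eq_mul_div, le_div_iff₀ hQk, one_mul] at h6
  calc (Q : ℝ) ^ k ≤ _ := h6
    _ = _ := by ring

end LEG
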