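/-
LG/CsB (M)  MP_022f22_nt, Lehmer problem in E^g, board modleg. Paper proof: /team-store/lehmer_eg_proof.md
Case B (paper 6).  C1 from level, C2 from ram_low.  level with n1 = 0, H = Stb P (= Stb(N^0 P)), NN = {2 j0 + b'}, nm = 2 j0 + b'; for w above v in F = fixedField (Stb P): Q^k1 <= C2 ram m, m = relIndex, and R0 C2 m <= Q^k1, so ram >= R0 (m >= 1: relIndex of finite groups
is nonzero).  t from small_t with B0 = R0, X = D (Q^(-b') + R0^(-1)), D = finrank K F = (Stb P).index.  r = |torb (itn n (xt P))| >= index Stb(N^n P)/2^g >= index Stb(N^k1 P)/2^g (n <= k1: Stb increasing; n >= k1: equal), D = m * index Stb(N^k1 P)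
(Subgroup.relIndex_mul_index), so 4 * 4^(a0 g) X <= r by hm.  log r <= log D.
-/
import Mathlib
import Pool.Agent.Work.MP_022f22_nt.LG.Defs
import Pool.Agent.Work.MP_022f22_nt.LG.Lev
import Pool.Agent.Work.MP_022f22_nt.LG.SmB
import Pool.Agent.Work.MP_022f22_nt.LG.Rml
import Pool.Agent.Work.MP_022f22_nt.LH.Plc

open NumberField IsDedekindDomain Polynomial Height Filter Topology LEH

namespace LEG

open Classical in
theorem case_B {K : Type} [Field K] [NumberField K] {v : HeightOneSpectrum (𝓞 K)}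
    {W : WeierstrassCurve K} {p N Q : ℕ} {A B : K[X]} (hs : Setup K v W p N Q A B)
    {ϖ : K} (hϖ : Unif v ϖ) :
    ∃ C1 C2 : ℝ, 0 ≤ C1 ∧ 0 < C2 ∧ ∀ (L : Type) [Field L] [NumberField L] [Algebra K L]
      [FiniteDimensional K L] [IsGalois K L] (g : ℕ) (_ : 1 ≤ g)
      (P : Fin g → (W.baseChange L).toAffine.Point) (_ : ∀ i, NT (P i)) (k1 : ℕ)
      (_ : ∀ n, k1 ≤ n → Stb (fun i => N ^ n • P i) = Stb (fun i => N ^ k1 • P i)) (_ : 1 ≤ k1)
      (σ : L ≃ₐ[K] L) (_ : σ ∈ Stb (fun i => N ^ k1 • P i))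
      (_ : σ ∉ Stb (fun i => N ^ (k1 - 1) • P i)) (R0 : ℝ) (_ : 0 < R0)
      (_ : R0 * C2 * ((Stb P).relIndex (Stb (fun i => N ^ k1 • P i)) : ℝ) ≤ (Q : ℝ) ^ k1)
      (b' j0 ω Y a0 κ : ℕ) (_ : 1 ≤ j0) (_ : 1 ≤ ω) (_ : NoRel K ω (xt P))
      (_ : (2 : ℝ) ^ (g + 2) * 4 ^ (a0 * g) *
        ((Stb P).relIndex (Stb (fun i => N ^ k1 • P i)) : ℝ) *
          (((Q : ℝ) ^ b')⁻¹ + R0⁻¹) ≤ 1)
      (_ : (Stb P).index * Q ^ ((2 * j0 + b') * g) ≤ Y * ω ^ g)
      (_ : a0 ≤ κ) (_ : 2 * Y ^ 3 * ω + 2 ≤ 4 ^ κ),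
      Lam v * ((4 : ℝ) ^ a0 * j0 / 2) ≤
        Real.log ((Stb P).index : ℝ) + 3 * g * κ * C1 +
          (4 : ℝ) ^ κ * (Q : ℝ) ^ (2 * j0 + b') * ∑ i, hx (W.baseChange L) (xc (P i)) := by
  obtain ⟨C1, hC1, hlev⟩ := level hs hϖ
  obtain ⟨C2, hC2, hram⟩ := ram_low hs hϖ
  refine ⟨C1, C2, hC1, hC2, ?_⟩
  intro L _ _ _ _ _ g hg P hP k1 hst hk1 σ hσ1 hσ2 R0 hR0 hR b' j0 ω Y a0 κ hj0 hω1 hω hm hY
    ha0 hκ
  have hQ : 1 ≤ Q := by
    rw [hs.Q_eq]
    obtain ⟨s, -, hN⟩ := hs.N_pow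
    rw [hN]
    exact pow_pos (pow_pos hs.prime.pos _) _
  obtain ⟨m, hmdef⟩ : ∃ m : ℕ, m = (Stb P).relIndex (Stb (fun i => N ^ k1 • P i)) := ⟨_, rfl⟩
  rw [← hmdef] at hR hm
  have hm0 : 0 < m := by
    rw [hmdef]
    exact Nat.pos_of_ne_zero Subgroup.index_ne_zero_of_finite
  have hm0' : (0 : ℝ) < m := by exact_mod_cast hm0
  obtain ⟨V, hV, -⟩ := places_above (L := IntermediateField.fixedField (Stb P)) v hϖ
  have hr : ∀ w ∈ V, R0 ≤ (ram v w : ℝ) := by
    intro w hw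
    have h1 := hram L g P k1 hk1 σ hσ1 hσ2 w ((hV w).1 hw)
    rw [← hmdef] at h1
    have h2 : (C2 * m) * R0 ≤ (C2 * m) * (ram v w : ℝ) := by
      calc (C2 * m) * R0 = R0 * C2 * m := by ring
        _ ≤ C2 * (ram v w : ℝ) * m := hR.trans h1
        _ = (C2 * m) * (ram v w : ℝ) := by ring
    exact le_of_mul_le_mul_left h2 (by positivity)
  obtain ⟨t, ht1, ht2⟩ := small_t hϖ Q b' hQ R0 hR0 V hV hr
  obtain ⟨n, hn⟩ : ∃ n, n = 2 * j0 + b' := ⟨_, rfl⟩
  have hsum : ∑ n ∈ ({n} : Finset ℕ), (torb K (itn A B n (xt P))).card =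
      (torb K (itn A B n (xt P))).card := Finset.sum_singleton _ _
  have hidx := lev_index hs P hP n
  have hI : (Stb (fun i => N ^ k1 • P i)).index ≤ 2 ^ g * (torb K (itn A B n (xt P))).card := by
    refine le_trans ?_ hidx.2
    rcases le_total k1 n with h | h
    · rw [hst n h]
    · refine Subgroup.index_antitone ?_
      have h1 := stb_le (fun i => N ^ n • P i) (N ^ (k1 - n))
      have h2 : (fun i => N ^ (k1 - n) • N ^ n • P i) = fun i => N ^ k1 • P i := by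
        funext i
        rw [← mul_nsmul', ← pow_add, Nat.sub_add_cancel h]
      rw [h2] at h1
      exact h1
  have hD : m * (Stb (fun i => N ^ k1 • P i)).index = (Stb P).index := by
    rw [hmdef]
    exact Subgroup.relIndex_mul_index (stb_le P (N ^ k1))
  have hfr : Module.finrank K (IntermediateField.fixedField (Stb P)) = (Stb P).index :=
    index_finrank (Stb P)
  have hfin := hlev L g hg P hP 0 j0 b' n {n} ⟨n, Finset.mem_singleton_self n⟩
    (by
      intro x hx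
      rw [Finset.mem_singleton] at hx
      omega) hj0 (Stb P) (by
        congr 1
        funext i
        rw [pow_zero, one_nsmul]) V hV t ht1 _ ht2 ω Y a0 κ hω1 hω (by rw [hn]; exact hY) ha0
    (by rw [Finset.card_singleton, one_mul]; exact hκ) (by
      rw [hsum, hfr, ← hD]
      have h1 : ((Stb (fun i => N ^ k1 • P i)).index : ℝ) ≤
          2 ^ g * ((torb K (itn A B n (xt P))).card : ℝ) := by exact_mod_cast hI
      have h2 : (0 : ℝ) < 2 ^ g := by positivity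
      have h3 : 2 ^ g * (4 * ((4 : ℝ) ^ a0) ^ g * (((m * (Stb (fun i => N ^ k1 • P i)).index : ℕ) : ℝ) *
          (((Q : ℝ) ^ b')⁻¹ + R0⁻¹))) ≤ 2 ^ g * ((torb K (itn A B n (xt P))).card : ℝ) := by
        calc 2 ^ g * (4 * ((4 : ℝ) ^ a0) ^ g *
              (((m * (Stb (fun i => N ^ k1 • P i)).index : ℕ) : ℝ) * (((Q : ℝ) ^ b')⁻¹ + R0⁻¹)))
            = ((2 : ℝ) ^ (g + 2) * 4 ^ (a0 * g) * m * (((Q : ℝ) ^ b')⁻¹ + R0⁻¹)) *
              ((Stb (fun i => N ^ k1 • P i)).index : ℝ) := by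
              push_cast
              rw [pow_mul]
              ring
          _ ≤ 1 * ((Stb (fun i => N ^ k1 • P i)).index : ℝ) :=
            mul_le_mul_of_nonneg_right hm (Nat.cast_nonneg _)
          _ ≤ _ := by rw [one_mul]; exact h1
      exact le_of_mul_le_mul_left h3 h2)
  rw [hsum, hn] at hfin
  rw [hn] at hidx hI
  refine hfin.trans ?_
  have h0 : 0 < (torb K (itn A B (2 * j0 + b') (xt P))).card :=
    Finset.card_pos.2 ⟨_, self_mem_torb _⟩
  have h1 : Real.log ((torb K (itn A B (2 * j0 + b') (xt P))).card : ℝ) ≤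
      Real.log ((Stb P).index : ℝ) :=
    Real.log_le_log (by exact_mod_cast h0) (by exact_mod_cast hidx.1)
  linarith

end LEG
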