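/-
LG/Drp (S)  MP_022f22_nt, Lehmer problem in E^g, board modleg. Paper proof: /team-store/lehmer_eg_proof.md
Last drop (paper 5.1).  The subgroups Stb(N^n P) of the finite group G increase with n (stb_le with N • ; N^(n+1) • P = N • N^n • P), so they are eventually constant; k = least index with constancy from k on (Nat.find); if k >= 1, Stb(N^(k-1) P) != Stb(N^k P), strictly smaller.
-/
import Mathlib
import Pool.Agent.Work.MP_022f22_nt.LG.Defs
import Pool.Agent.Work.MP_022f22_nt.LG.Stf

open NumberField IsDedekindDomain Polynomial Height Filter Topology LEH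

namespace LEG

theorem drop_level {K L : Type} [Field K] [NumberField K] [Field L] [NumberField L]
    [Algebra K L] [FiniteDimensional K L] [DecidableEq L] {W : WeierstrassCurve K} {g : ℕ}
    (P : Fin g → (W.baseChange L).toAffine.Point) (N : ℕ) :
    ∃ k : ℕ, (∀ n, k ≤ n → Stb (fun i => N ^ n • P i) = Stb (fun i => N ^ k • P i)) ∧
      (k = 0 ∨ ∃ σ, σ ∈ Stb (fun i => N ^ k • P i) ∧ σ ∉ Stb (fun i => N ^ (k - 1) • P i)) := by
  classical
  have hstep : ∀ n, Stb (fun i => N ^ n • P i) ≤ Stb (fun i => N ^ (n + 1) • P i) := by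
    intro n
    have h := stb_le (fun i => N ^ n • P i) N
    have h2 : (fun i => N ^ (n + 1) • P i) = (fun i => N • (N ^ n • P i)) := by
      funext i
      rw [← mul_smul, pow_succ, mul_comm]
    rw [h2]
    exact h
  have hmono : Monotone (fun n => Stb (fun i => N ^ n • P i)) := monotone_nat_of_le_succ hstep
  have hex : ∃ k : ℕ, ∀ n, k ≤ n → Stb (fun i => N ^ n • P i) = Stb (fun i => N ^ k • P i) := by
    haveI : Finite (Subgroup (L ≃ₐ[K] L)) := inferInstance
    obtain ⟨k, hk⟩ := WellFoundedGT.monotone_chain_condition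
      (⟨fun n => Stb (fun i => N ^ n • P i), hmono⟩ : ℕ →o Subgroup (L ≃ₐ[K] L))
    exact ⟨k, fun n hn => (hk n hn).symm⟩
  refine ⟨Nat.find hex, Nat.find_spec hex, ?_⟩
  by_cases h0 : Nat.find hex = 0
  · exact Or.inl h0
  · right
    by_contra hcon
    push Not at hcon
    have h1 : Stb (fun i => N ^ (Nat.find hex) • P i) ≤
        Stb (fun i => N ^ (Nat.find hex - 1) • P i) := fun σ hσ => hcon σ hσ
    have h2 : Stb (fun i => N ^ (Nat.find hex - 1) • P i) ≤
        Stb (fun i => N ^ (Nat.find hex) • P i) := hmono (Nat.sub_le _ _)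
    have h3 : Stb (fun i => N ^ (Nat.find hex) • P i) =
        Stb (fun i => N ^ (Nat.find hex - 1) • P i) := le_antisymm h1 h2
    have h4 : Nat.find hex - 1 < Nat.find hex := by omega
    apply Nat.find_min hex h4
    intro n hn
    by_cases h5 : Nat.find hex ≤ n
    · rw [Nat.find_spec hex n h5, h3]
    · have h6 : n = Nat.find hex - 1 := by omega
      rw [h6]

end LEG
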