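/-
LG/FDefs : definitions used in the final statement on powers of elliptic curves (MP_022f22_nt).
-/
import Mathlib

namespace LEG

/-- the `x`-coordinate of a point (`0` at the point at infinity) -/
def xCoord {F : Type*} [Field F] {E : WeierstrassCurve F} : E.toAffine.Point → F
  | .zero => 0
  | .some x _ _ => x

/-- the set of the affine coordinates of a point (empty for the point at infinity) -/
def coordSet {F : Type*} [Field F] {E : WeierstrassCurve F} : E.toAffine.Point → Set F
  | .zero => ∅
  | .some x y _ => {x, y}

/-- the degree `[K(P) : K]` of a tuple of points -/
noncomputable def tupDegree (K : Type*) {F : Type*} [Field K] [Field F] [Algebra K F]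
    {E : WeierstrassCurve F} {g : ℕ} (P : Fin g → E.toAffine.Point) : ℕ :=
  Module.finrank K (IntermediateField.adjoin K (⋃ i, coordSet (P i)))

end LEG
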