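/-
LG/Dsc (M)  MP_022f22_nt, Lehmer problem in E^g, board modleg. Paper proof: /team-store/lehmer_eg_proof.md
Descent of a tuple (definitions xCoord, tupDegree in LG/FDefs).  LH/Nrm exists_descent shows how one point is descended: take L = normal closure of the field generated by all coordinates of all P i (finitely many algebraic elements).  P' i = the point with the same
coordinates.  NT: map is injective and additive.  tupDegree = finrank K (adjoin K coords) and (Stb P').index = finrank K (fixedField (Stb P')) (index_finrank); fixedField (Stb P') = adjoin K of the coordinates of the P' i in L (Galois correspondence: fixingSubgroup of the adjoin is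
Stb P', IntermediateField.fixedField_fixingSubgroup), and L.val maps it isomorphically onto adjoin K coords (IntermediateField.adjoin_map).
-/
import Mathlib
import Pool.Agent.Work.MP_022f22_nt.LG.Defs
import Pool.Agent.Work.MP_022f22_nt.LG.FDefs
import Pool.Agent.Work.MP_022f22_nt.LG.Stf
import Pool.Agent.Work.MP_022f22_nt.LH.Nrm

open NumberField IsDedekindDomain Polynomial Height Filter Topology LEH

namespace LEG

private theorem cj_fix {K L : Type*} [Field K] [Field L] [Algebra K L] [DecidableEq L]
    {W : WeierstrassCurve K} (σ : L ≃ₐ[K] L) (P : (W.baseChange L).toAffine.Point) :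
    cj σ P = P ↔ ∀ z ∈ coordSet P, σ z = z := by
  cases P with
  | zero =>
    constructor
    · intro _ z hz
      exact absurd hz (Set.notMem_empty z)
    · intro _
      rfl
  | some x y h =>
    have e : cj σ (WeierstrassCurve.Affine.Point.some x y h : (W.baseChange L).toAffine.Point) =
        WeierstrassCurve.Affine.Point.some (σ x) (σ y)
          ((WeierstrassCurve.Affine.baseChange_nonsingular (W := W)
            (f := (σ : L →ₐ[K] L)) (hf := (σ : L →ₐ[K] L).injective) x y).mpr h) := rfl
    constructor
    · intro h1 z hz
      rw [e] at h1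
      injection h1 with h2 h3
      have hz' : z = x ∨ z = y := hz
      rcases hz' with rfl | rfl
      · exact h2
      · exact h3
    · intro h1
      have h2 : σ x = x := h1 x (Or.inl rfl)
      have h3 : σ y = y := h1 y (Or.inr rfl)
      rw [e]
      simp only [h2, h3]

private theorem stb_fix {K L : Type*} [Field K] [Field L] [Algebra K L] [DecidableEq L]
    {W : WeierstrassCurve K} {g : ℕ} (P : Fin g → (W.baseChange L).toAffine.Point) :
    (IntermediateField.adjoin K (⋃ i, coordSet (P i))).fixingSubgroup = Stb P := by
  ext σ
  rw [IntermediateField.mem_fixingSubgroup_iff]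
  constructor
  · intro h i
    rw [cj_fix]
    intro z hz
    exact h z (IntermediateField.subset_adjoin K _ (Set.mem_iUnion.2 ⟨i, hz⟩))
  · intro h z hz
    induction hz using IntermediateField.adjoin_induction with
    | mem x hx =>
      obtain ⟨i, hi⟩ := Set.mem_iUnion.1 hx
      exact (cj_fix σ (P i)).1 (h i) x hi
    | algebraMap x => exact σ.commutes x
    | add x y _ _ hx hy => rw [map_add, hx, hy]
    | inv x _ hx => rw [map_inv₀, hx]
    | mul x y _ _ hx hy => rw [map_mul, hx, hy]

private theorem coord_fin {F : Type*} [Field F] {E : WeierstrassCurve F} (P : E.toAffine.Point) :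
    (coordSet P).Finite := by
  cases P with
  | zero => exact Set.finite_empty
  | some x y h => exact (Set.finite_singleton y).insert x

private theorem desc1 {K F : Type*} [Field K] [Field F] [Algebra K F] (W : WeierstrassCurve K)
    (L : IntermediateField K F) (P : (W.baseChange F).toAffine.Point)
    (h : coordSet P ⊆ (L : Set F)) :
    ∃ P' : (W.baseChange L).toAffine.Point, coordSet P = L.val '' coordSet P' ∧
      (P ≠ .zero → L.val (xc P') = xCoord P) ∧
      ∀ [DecidableEq F] [DecidableEq L],
        WeierstrassCurve.Affine.Point.map (W' := W) L.val P' = P := by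
  rcases P with _ | ⟨x, y, hP⟩
  · refine ⟨.zero, (Set.image_empty _).symm, fun h => absurd rfl h, ?_⟩
    intro _ _
    rfl
  · have hx : x ∈ L := h (Or.inl rfl)
    have hy : y ∈ L := h (Or.inr rfl)
    have hP' : (W.baseChange L).toAffine.Nonsingular (⟨x, hx⟩ : L) (⟨y, hy⟩ : L) := by
      have := WeierstrassCurve.Affine.baseChange_nonsingular (W := W) (f := L.val)
        (hf := L.val.injective) (⟨x, hx⟩ : L) (⟨y, hy⟩ : L)
      exact this.mp hP
    refine ⟨.some _ _ hP', ?_, fun _ => rfl, ?_⟩
    · show ({x, y} : Set F) = L.val '' {(⟨x, hx⟩ : L), (⟨y, hy⟩ : L)}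
      rw [Set.image_pair]
      rfl
    · intro _ _
      rw [WeierstrassCurve.Affine.Point.map_some]
      rfl

private theorem deg_eq {K F : Type*} [Field K] [Field F] [Algebra K F] (L : IntermediateField K F)
    [IsGalois K L] [DecidableEq L] {W : WeierstrassCurve K} {g : ℕ}
    (P : Fin g → (W.baseChange F).toAffine.Point) (P' : Fin g → (W.baseChange L).toAffine.Point)
    (h : ∀ i, coordSet (P i) = L.val '' coordSet (P' i)) :
    (Stb P').index = tupDegree K P := by
  rw [← stb_fix, ← IntermediateField.finrank_eq_fixingSubgroup_index]
  unfold tupDegree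
  have e : (IntermediateField.adjoin K (⋃ i, coordSet (P' i))).map L.val =
      IntermediateField.adjoin K (⋃ i, coordSet (P i)) := by
    rw [IntermediateField.adjoin_map, Set.image_iUnion]
    simp only [h]
  rw [← e]
  exact (IntermediateField.equivMap _ _).toLinearEquiv.finrank_eq

open Classical in
theorem descend {K : Type} [Field K] [NumberField K] (W : WeierstrassCurve K) {g : ℕ}
    (P : Fin g → (W.baseChange (AlgebraicClosure K)).toAffine.Point)
    (hP : ∀ i, InfOrder (P i)) :
    ∃ (L : IntermediateField K (AlgebraicClosure K)) (_ : FiniteDimensional K L)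
      (_ : IsGalois K L) (P' : Fin g → (W.baseChange L).toAffine.Point),
      (∀ i, WeierstrassCurve.Affine.Point.map (W' := W) L.val (P' i) = P i) ∧
      (∀ i, NT (P' i)) ∧ (∀ i, L.val (xc (P' i)) = xCoord (P i)) ∧
      (Stb P').index = tupDegree K P := by
  have hP0 : ∀ i, P i ≠ .zero := by
    intro i h0
    refine hP i 1 one_pos ?_
    rw [h0]
    exact smul_zero 1
  have hfinS : (⋃ i, coordSet (P i)).Finite := Set.finite_iUnion fun i => coord_fin (P i)
  have hfS : Finite (⋃ i, coordSet (P i)) := hfinS.to_subtype
  have : FiniteDimensional K (IntermediateField.adjoin K (⋃ i, coordSet (P i))) := by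
    apply IntermediateField.finiteDimensional_adjoin
    intro z _
    exact Algebra.IsIntegral.isIntegral z
  let L : IntermediateField K (AlgebraicClosure K) :=
    IntermediateField.normalClosure K (IntermediateField.adjoin K (⋃ i, coordSet (P i)))
      (AlgebraicClosure K)
  have hfin : FiniteDimensional K L := inferInstance
  have hnor : Normal K L := inferInstance
  have hgal : IsGalois K L := ⟨⟩
  have hle : IntermediateField.adjoin K (⋃ i, coordSet (P i)) ≤ L :=
    IntermediateField.le_normalClosure _
  have hsub : ∀ i, coordSet (P i) ⊆ (L : Set (AlgebraicClosure K)) := by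
    intro i z hz
    exact hle (IntermediateField.subset_adjoin K _ (Set.mem_iUnion.2 ⟨i, hz⟩))
  choose P' h1 h2 h3 using fun i => desc1 W L (P i) (hsub i)
  refine ⟨L, hfin, hgal, P', fun i => h3 i, ?_, fun i => h2 i (hP0 i), ?_⟩
  · intro i n hn h0
    refine hP i n hn ?_
    have h4 := congrArg (WeierstrassCurve.Affine.Point.map (W' := W) L.val) h0
    rw [map_nsmul, h3 i, map_zero] at h4
    exact h4
  · exact deg_eq L P P' h1

end LEG
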