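/-
LG/Dsp (S)  MP_022f22_nt, Lehmer problem in E^g, board modleg. Paper proof: /team-store/lehmer_eg_proof.md
Span of the duplication products (one variable).  LH/Ind f_indep + f_deg (see how LH/Raw.lean applies them to dupP): the 4^κ polynomials f_I are linearly independent of degree < 4^κ, hence a basis of degreeLT L (4^κ) (finrank 4^κ):
X^j is in their span.
-/
import Mathlib
import Pool.Agent.Work.MP_022f22_nt.LG.Defs
import Pool.Agent.Work.MP_022f22_nt.LH.Ind
import Pool.Agent.Work.MP_022f22_nt.LH.Cop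

open NumberField IsDedekindDomain Polynomial Height Filter Topology LEH

namespace LEG

theorem dup_span {L : Type*} [Field L] (W : WeierstrassCurve L) (hΔ : W.Δ ≠ 0) (κ j : ℕ)
    (hj : j < 4 ^ κ) :
    ∃ α : (Fin κ → Fin 4) → L, (X : L[X]) ^ j = ∑ I, C (α I) *
      ∏ l : Fin κ, ((dupP W l).1 ^ (I l : ℕ) * (dupP W l).2 ^ (3 - (I l : ℕ))) := by
  have h1 := f_indep (fun l => (dupP W l).1) (fun l => (dupP W l).2)
    (fun l => (dupP_deg W l).2.1) (fun l => (dupP_deg W l).2.2) (fun l => dupP_coprime W hΔ l) κ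
  have h2 : ∀ I : Fin κ → Fin 4,
      (∏ l : Fin κ, ((dupP W l).1 ^ (I l : ℕ) * (dupP W l).2 ^ (3 - (I l : ℕ)))) ∈
        degreeLT L (4 ^ κ) := by
    intro I
    rw [mem_degreeLT]
    have h3 := f_deg (fun l => (dupP W l).1) (fun l => (dupP W l).2)
      (fun l => (dupP_deg W l).2.1) (fun l => (dupP_deg W l).2.2) κ I
    exact lt_of_le_of_lt degree_le_natDegree (by exact_mod_cast h3)
  let b : (Fin κ → Fin 4) → degreeLT L (4 ^ κ) := fun I => ⟨_, h2 I⟩
  have hb : LinearIndependent L b := by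
    apply LinearIndependent.of_comp (degreeLT L (4 ^ κ)).subtype
    exact h1
  have hfin : Module.finrank L (degreeLT L (4 ^ κ)) = 4 ^ κ := by
    rw [(degreeLTEquiv L (4 ^ κ)).finrank_eq, Module.finrank_fin_fun]
  have hcard : Fintype.card (Fin κ → Fin 4) = Module.finrank L (degreeLT L (4 ^ κ)) := by
    rw [hfin, Fintype.card_fun, Fintype.card_fin, Fintype.card_fin]
  haveI : FiniteDimensional L (degreeLT L (4 ^ κ)) :=
    Module.Finite.equiv (degreeLTEquiv L (4 ^ κ)).symm
  haveI : Nonempty (Fin κ → Fin 4) := ⟨fun _ => 0⟩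
  have hspan := hb.span_eq_top_of_card_eq_finrank hcard
  have hX : (X : L[X]) ^ j ∈ degreeLT L (4 ^ κ) := by
    rw [mem_degreeLT, degree_X_pow]
    exact_mod_cast hj
  have hmem : (⟨X ^ j, hX⟩ : degreeLT L (4 ^ κ)) ∈ Submodule.span L (Set.range b) := by
    rw [hspan]
    exact Submodule.mem_top
  rw [Submodule.mem_span_range_iff_exists_fun] at hmem
  obtain ⟨α, hα⟩ := hmem
  refine ⟨α, ?_⟩
  have h4 := congrArg (fun p : degreeLT L (4 ^ κ) => (p : L[X])) hα
  simp only [Submodule.coe_sum, Submodule.coe_smul] at h4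
  rw [← h4]
  refine Finset.sum_congr rfl fun I _ => ?_
  rw [smul_eq_C_mul]

end LEG
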