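/-
LG/OnP (M)  MP_022f22_nt, Lehmer problem in E^g, board modleg. Paper proof: /team-store/lehmer_eg_proof.md
One prime (paper 6).  C1 = max of the constants C1 of case_A, case_B; C2 of case_B; ana with Λ = Lam v > 0 (absNorm >= 2).  D = (Stb P).index, ω^g <= D: norel_rank, usp_le_adjoin (finrank usp <= finrank K(xt P)), torb_card, torb_index.
If Q^k1 <= D^(4δ): case_A, nm = k1 + 2 j0 + M0, Q^nm <= Q^M0 D^(5δ).  Otherwise k1 >= 1 (D^(4δ) >= 1 = Q^0), σ from hdrop; case_B with R0 = D^(3δ)/C2: R0 C2 m <= D^(4δ) < Q^k1; nm = 2 j0 + b', Q^nm <= D^δ Q D^(3δ) <= Q^M0 D^(5δ);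
log D <= log (M0 D), 2Y^3ω+2 <= M0 (..) <= 4^κ; R0^(-1) = C2 D^(-3δ), m <= D^δ in hm.
-/
import Mathlib
import Pool.Agent.Work.MP_022f22_nt.LG.Defs
import Pool.Agent.Work.MP_022f22_nt.LG.CsA
import Pool.Agent.Work.MP_022f22_nt.LG.CsB
import Pool.Agent.Work.MP_022f22_nt.LG.Ana
import Pool.Agent.Work.MP_022f22_nt.LG.Tcd
import Pool.Agent.Work.MP_022f22_nt.LG.Usm
import Pool.Agent.Work.MP_022f22_nt.LG.Nit

open NumberField IsDedekindDomain Polynomial Height Filter Topology LEH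

namespace LEG

open Classical in
theorem one_prime {K : Type} [Field K] [NumberField K] {v : HeightOneSpectrum (𝓞 K)}
    {W : WeierstrassCurve K} {p N Q : ℕ} {A B : K[X]} (hs : Setup K v W p N Q A B)
    (g : ℕ) (hg : 1 ≤ g) (δ : ℝ) (hδ : 0 < δ) :
    ∃ (D0 : ℕ) (c : ℝ), 0 < c ∧ ∀ (L : Type) [Field L] [NumberField L] [Algebra K L]
      [FiniteDimensional K L] [IsGalois K L]
      (P : Fin g → (W.baseChange L).toAffine.Point) (_ : ∀ i, NT (P i)) (k1 : ℕ)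
      (_ : ∀ n, k1 ≤ n → Stb (fun i => N ^ n • P i) = Stb (fun i => N ^ k1 • P i))
      (_ : k1 = 0 ∨ ∃ σ, σ ∈ Stb (fun i => N ^ k1 • P i) ∧ σ ∉ Stb (fun i => N ^ (k1 - 1) • P i))
      (_ : D0 ≤ (Stb P).index)
      (_ : ((Stb P).relIndex (Stb (fun i => N ^ k1 • P i)) : ℝ) ≤ ((Stb P).index : ℝ) ^ δ)
      (ω : ℕ) (_ : 1 ≤ ω) (_ : NoRel K ω (xt P)),
      c * ((Stb P).index : ℝ) ^ (-(5 * (3 * g + 1) * δ)) * (ω : ℝ)⁻¹ *
        ((ω : ℝ) ^ g / (Stb P).index) ^ 3 ≤ ∑ i, hx (W.baseChange L) (xc (P i)) := by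
  classical
  obtain ⟨ϖ, hϖ⟩ := v.valuation_exists_uniformizer K
  obtain ⟨C1A, hC1A, hA⟩ := case_A hs hϖ
  obtain ⟨C1B, C2, hC1B, hC2, hB⟩ := case_B hs hϖ
  have hN2 : 2 ≤ N := by
    obtain ⟨s, hs0, hNs⟩ := hs.N_pow
    rw [hNs]
    calc 2 ≤ p := hs.prime.two_le
      _ = p ^ 1 := (pow_one p).symm
      _ ≤ p ^ s := Nat.pow_le_pow_right hs.prime.pos hs0
  have hQ2 : 2 ≤ Q := by
    rw [hs.Q_eq]
    nlinarith
  have hΛ : 0 < Lam v := by
    unfold Lam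
    apply div_pos
    · apply Real.log_pos
      exact_mod_cast NumberField.HeightOneSpectrum.one_lt_absNorm v
    · exact_mod_cast Module.finrank_pos
  obtain ⟨a0, D0, c, hc, hD⟩ := ana g hg Q hQ2 (Lam v) (max C1A C1B) C2 δ hΛ
    (le_trans hC1A (le_max_left _ _)) hC2 hδ
  refine ⟨D0, c, hc, ?_⟩
  intro L _ _ _ _ _ P hP k1 hk hdrop hD0 hm ω hω hNR
  set D : ℕ := (Stb P).index with hDdef
  have hDpos : 1 ≤ D := Nat.one_le_iff_ne_zero.2 Subgroup.index_ne_zero_of_finite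
  have hD1 : (1 : ℝ) ≤ (D : ℝ) := by exact_mod_cast hDpos
  have hDp : (0 : ℝ) < (D : ℝ) := lt_of_lt_of_le one_pos hD1
  obtain ⟨j0, b', hj0, hQj0, hQb', hcond, hfin⟩ := hD D hD0
  have hωg : ω ^ g ≤ D := by
    have h1 := norel_rank hNR hω
    have h2 : Module.finrank K (usp K ω (xt P)) ≤
        Module.finrank K (IntermediateField.adjoin K (Set.range (xt P))) := by
      have h3 : usp K ω (xt P) ≤ Subalgebra.toSubmodule
          (IntermediateField.adjoin K (Set.range (xt P))).toSubalgebra := by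
        intro y hy
        exact usp_le_adjoin K ω (xt P) y hy
      exact Submodule.finrank_mono h3
    have h4 := torb_card (K := K) (xt P)
    have h5 := (torb_index P (fun i h0 => hP i 1 one_pos (by rw [one_smul]; exact h0))).1
    omega
  set M0 : ℕ := 2 ^ (g + 2) * 4 ^ (a0 * g) with hM0
  have hM0pos : 1 ≤ M0 := by
    rw [hM0]
    exact Nat.one_le_iff_ne_zero.2 (by positivity)
  have hM0R : (1 : ℝ) ≤ (M0 : ℝ) := by exact_mod_cast hM0pos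
  have hM0c : (2 : ℝ) ^ (g + 2) * 4 ^ (a0 * g) = (M0 : ℝ) := by
    rw [hM0]; push_cast; ring
  have hQR : (1 : ℝ) ≤ (Q : ℝ) := by
    have : (2 : ℝ) ≤ (Q : ℝ) := by exact_mod_cast hQ2
    linarith
  have hQp : (0 : ℝ) < (Q : ℝ) := lt_of_lt_of_le one_pos hQR
  rw [hM0c] at hcond
  rw [hM0c] at hfin
  by_cases hcase : (Q : ℝ) ^ k1 ≤ (D : ℝ) ^ (4 * δ)
  · -- case A
    have hnm : (Q : ℝ) ^ (k1 + 2 * j0 + M0) ≤ (Q : ℝ) ^ M0 * (D : ℝ) ^ (5 * δ) := by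
      have h1 : (D : ℝ) ^ (5 * δ) = (D : ℝ) ^ (4 * δ) * (D : ℝ) ^ δ := by
        rw [← Real.rpow_add hDp]
        congr 1
        ring
      rw [pow_add, pow_add, h1]
      calc (Q : ℝ) ^ k1 * (Q : ℝ) ^ (2 * j0) * (Q : ℝ) ^ M0
          ≤ (D : ℝ) ^ (4 * δ) * (D : ℝ) ^ δ * (Q : ℝ) ^ M0 := by
            apply mul_le_mul_of_nonneg_right _ (by positivity)
            exact mul_le_mul hcase hQj0 (by positivity) (by positivity)
        _ = (Q : ℝ) ^ M0 * ((D : ℝ) ^ (4 * δ) * (D : ℝ) ^ δ) := by ring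
    obtain ⟨Y, κ, hY, hκ, hY2, hfin'⟩ := hfin ω (k1 + 2 * j0 + M0) hω hωg hnm
    apply hfin'
    have h2 := hA L g hg P hP k1 hk j0 ω Y a0 κ hj0 hω hNR hY hκ hY2
    rw [hM0c] at h2
    refine le_trans h2 ?_
    have h3 : 3 * (g : ℝ) * κ * C1A ≤ 3 * (g : ℝ) * κ * max C1A C1B :=
      mul_le_mul_of_nonneg_left (le_max_left _ _) (by positivity)
    linarith
  · -- case B
    push Not at hcase
    have hk1 : 1 ≤ k1 := by
      by_contra hk0
      have hk0' : k1 = 0 := by omega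
      rw [hk0', pow_zero] at hcase
      have h1 : (1 : ℝ) ≤ (D : ℝ) ^ (4 * δ) := Real.one_le_rpow hD1 (by positivity)
      linarith
    obtain ⟨σ, hσ1, hσ2⟩ := hdrop.resolve_left (by omega)
    set m : ℝ := ((Stb P).relIndex (Stb (fun i => N ^ k1 • P i)) : ℝ) with hmdef
    have hm0 : 0 ≤ m := Nat.cast_nonneg _
    have hD3 : (0 : ℝ) < (D : ℝ) ^ (3 * δ) := Real.rpow_pos_of_pos hDp _
    have hR0 : 0 < (D : ℝ) ^ (3 * δ) / C2 := div_pos hD3 hC2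
    have hR0' : (D : ℝ) ^ (3 * δ) / C2 * C2 * m ≤ (Q : ℝ) ^ k1 := by
      rw [div_mul_cancel₀ _ hC2.ne']
      refine le_trans ?_ hcase.le
      have h1 : (D : ℝ) ^ (4 * δ) = (D : ℝ) ^ (3 * δ) * (D : ℝ) ^ δ := by
        rw [← Real.rpow_add hDp]
        congr 1
        ring
      rw [h1]
      exact mul_le_mul_of_nonneg_left hm hD3.le
    have hnm : (Q : ℝ) ^ (2 * j0 + b') ≤ (Q : ℝ) ^ M0 * (D : ℝ) ^ (5 * δ) := by
      have h1 : (D : ℝ) ^ δ * (D : ℝ) ^ (3 * δ) = (D : ℝ) ^ (4 * δ) := by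
        rw [← Real.rpow_add hDp]
        congr 1
        ring
      have h2 : (D : ℝ) ^ (4 * δ) ≤ (D : ℝ) ^ (5 * δ) :=
        Real.rpow_le_rpow_of_exponent_le hD1 (by linarith)
      have h3 : (Q : ℝ) ≤ (Q : ℝ) ^ M0 := by
        calc (Q : ℝ) = (Q : ℝ) ^ 1 := (pow_one _).symm
          _ ≤ (Q : ℝ) ^ M0 := pow_le_pow_right₀ hQR hM0pos
      rw [pow_add]
      calc (Q : ℝ) ^ (2 * j0) * (Q : ℝ) ^ b' ≤ (D : ℝ) ^ δ * (Q * (D : ℝ) ^ (3 * δ)) :=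
            mul_le_mul hQj0 hQb' (by positivity) (by positivity)
        _ = Q * ((D : ℝ) ^ δ * (D : ℝ) ^ (3 * δ)) := by ring
        _ = Q * (D : ℝ) ^ (4 * δ) := by rw [h1]
        _ ≤ (Q : ℝ) ^ M0 * (D : ℝ) ^ (5 * δ) := mul_le_mul h3 h2 (by positivity) (by positivity)
    have hcond' : (2 : ℝ) ^ (g + 2) * 4 ^ (a0 * g) * m *
        (((Q : ℝ) ^ b')⁻¹ + ((D : ℝ) ^ (3 * δ) / C2)⁻¹) ≤ 1 := by
      rw [hM0c]
      have h1 : ((D : ℝ) ^ (3 * δ) / C2)⁻¹ = C2 * (D : ℝ) ^ (-(3 * δ)) := by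
        rw [inv_div, Real.rpow_neg hDp.le, div_eq_mul_inv]
      rw [h1]
      refine le_trans ?_ hcond
      apply mul_le_mul_of_nonneg_right _ (by positivity)
      exact mul_le_mul_of_nonneg_left hm (by positivity)
    obtain ⟨Y, κ, hY, hκ, hY2, hfin'⟩ := hfin ω (2 * j0 + b') hω hωg hnm
    apply hfin'
    have hY2' : 2 * Y ^ 3 * ω + 2 ≤ 4 ^ κ := by
      refine le_trans ?_ hY2
      calc 2 * Y ^ 3 * ω + 2 = 1 * (2 * Y ^ 3 * ω + 2) := (one_mul _).symm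
        _ ≤ M0 * (2 * Y ^ 3 * ω + 2) := Nat.mul_le_mul_right _ hM0pos
    have h2 := hB L g hg P hP k1 hk hk1 σ hσ1 hσ2 _ hR0 hR0' b' j0 ω Y a0 κ hj0 hω hNR
      hcond' hY hκ hY2'
    refine le_trans h2 ?_
    have h3 : 3 * (g : ℝ) * κ * C1B ≤ 3 * (g : ℝ) * κ * max C1A C1B :=
      mul_le_mul_of_nonneg_left (le_max_right _ _) (by positivity)
    have h4 : Real.log (D : ℝ) ≤ Real.log ((M0 : ℝ) * D) := by
      apply Real.log_le_log hDp
      calc (D : ℝ) = 1 * D := (one_mul _).symm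
        _ ≤ M0 * D := mul_le_mul_of_nonneg_right hM0R hDp.le
    linarith

end LEG
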