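/-
LG/Prm (M)  MP_022f22_nt, Lehmer problem in E^g, board modleg. Paper proof: /team-store/lehmer_eg_proof.md
Many primes (paper 5.2).  Induction on t (or on a list): representatives of Stb(n_j P)/Stb P.  Statement for the induction: the set of tuples {σ_1 ... σ_t P : σ_j in Stb(n_j P)} (cj action on tuples) has at least prod_j relIndex elements, and it is contained in G.P, |G.P| = index.
Step: for σ_1 in Stb(n_1 P), Z = {σ_2..σ_t P}, every element of Z is P + T with M T = 0, M = n_2 .. n_t (as σ_j P - P is killed by n_j and cj is additive, T_(στ) = T_σ + σ T_τ).  The map (σ_1 P, z) ↦ σ_1 z (fixed representative σ_1 of σ_1 P) is injective on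
(orbit Stb(n_1 P).P) × Z: from y = σ_1 z: M y = M σ_1 P and n_1 σ_1 P = n_1 P; gcd(M, n_1) = 1 determines σ_1 P; then z = σ_1^(-1) y.  relIndex: (Stb P).relIndex (Stb (n_j P)) = size of the orbit of P under Stb(n_j P).
-/
import Mathlib
import Pool.Agent.Work.MP_022f22_nt.LG.Defs
import Pool.Agent.Work.MP_022f22_nt.LG.Stf

open NumberField IsDedekindDomain Polynomial Height Filter Topology LEH

namespace LEG

theorem primes_prod {K L : Type} [Field K] [NumberField K] [Field L] [NumberField L]
    [Algebra K L] [FiniteDimensional K L] [DecidableEq L] {W : WeierstrassCurve K} {g : ℕ}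
    (P : Fin g → (W.baseChange L).toAffine.Point) (t : ℕ) (n : Fin t → ℕ)
    (hn : ∀ i j, i ≠ j → Nat.Coprime (n i) (n j)) :
    ∏ j, (Stb P).relIndex (Stb (fun i => n j • P i)) ≤ (Stb P).index := by
  classical
  have hpos : ∀ H H' : Subgroup (L ≃ₐ[K] L), H.relIndex H' ≠ 0 := fun H H' =>
    Subgroup.index_ne_zero_of_finite (H := H.subgroupOf H')
  have key : ∀ s : Finset (Fin t), ∏ j ∈ s, (Stb P).relIndex (Stb (fun i => n j • P i)) ≤
      (Stb P).relIndex (Stb (fun i => (∏ j ∈ s, n j) • P i)) := by
    intro s
    induction s using Finset.induction_on with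
    | empty =>
      rw [Finset.prod_empty]
      exact Nat.one_le_iff_ne_zero.2 (hpos _ _)
    | insert a s ha ih =>
      rw [Finset.prod_insert ha, Finset.prod_insert ha]
      set M := ∏ j ∈ s, n j with hM
      have hcop : Nat.Coprime (n a) M := by
        rw [hM]
        exact Nat.Coprime.prod_right fun j hj => hn a j (fun h => ha (h ▸ hj))
      have hinf : Stb (fun i => M • P i) ⊓ Stb (fun i => n a • P i) = Stb P := by
        apply le_antisymm
        · intro σ hσ i
          have h1 : cj σ (M • P i) = M • P i := hσ.1 i
          have h2 : cj σ (n a • P i) = n a • P i := hσ.2 i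
          rw [cj_nsmul] at h1 h2
          have h3 : M • (cj σ (P i) - P i) = 0 := by rw [nsmul_sub, h1, sub_self]
          have h4 : n a • (cj σ (P i) - P i) = 0 := by rw [nsmul_sub, h2, sub_self]
          have h5 := addOrderOf_dvd_of_nsmul_eq_zero h3
          have h6 := addOrderOf_dvd_of_nsmul_eq_zero h4
          have h7 : addOrderOf (cj σ (P i) - P i) = 1 :=
            Nat.eq_one_of_dvd_coprimes hcop h6 h5
          exact sub_eq_zero.1 (AddMonoid.addOrderOf_eq_one_iff.1 h7)
        · exact le_inf (stb_le P M) (stb_le P (n a))
      have hle1 : Stb (fun i => M • P i) ≤ Stb (fun i => (n a * M) • P i) := by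
        have := stb_le (fun i => M • P i) (n a)
        simpa only [smul_smul] using this
      have hle2 : Stb (fun i => n a • P i) ≤ Stb (fun i => (n a * M) • P i) := by
        have := stb_le (fun i => n a • P i) M
        simpa only [smul_smul, mul_comm M (n a)] using this
      have h1 : (Stb P).relIndex (Stb (fun i => n a • P i)) ≤
          (Stb (fun i => M • P i)).relIndex (Stb (fun i => (n a * M) • P i)) := by
        have h2 : (Stb P).relIndex (Stb (fun i => n a • P i)) =
            (Stb (fun i => M • P i)).relIndex (Stb (fun i => n a • P i)) := by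
          conv_lhs => rw [← hinf]
          rw [Subgroup.inf_relIndex_right]
        rw [h2]
        exact Subgroup.relIndex_le_of_le_right hle2 (hpos _ _)
      calc (Stb P).relIndex (Stb (fun i => n a • P i)) *
            ∏ j ∈ s, (Stb P).relIndex (Stb (fun i => n j • P i))
          ≤ (Stb (fun i => M • P i)).relIndex (Stb (fun i => (n a * M) • P i)) *
            (Stb P).relIndex (Stb (fun i => M • P i)) := Nat.mul_le_mul h1 ih
        _ = (Stb P).relIndex (Stb (fun i => (n a * M) • P i)) := by
          rw [mul_comm]
          exact Subgroup.relIndex_mul_relIndex _ _ _ (stb_le P M) hle1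
  refine (key Finset.univ).trans ?_
  have h1 := Subgroup.relIndex_mul_index (stb_le P (∏ j, n j))
  rw [← h1]
  exact Nat.le_mul_of_pos_right _ (Nat.pos_of_ne_zero Subgroup.index_ne_zero_of_finite)

end LEG
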