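/-
LG/Lfi (M)  MP_022f22_nt, Lehmer problem in E^g, board modleg. Paper proof: /team-store/lehmer_eg_proof.md
Many primes (paper 6).  δ = ε/(5(3g+1)), t = natural number >= 1 with 1/t <= δ.  Take the t setups; one_prime for each: D0_j, c_j; D0' = max D0_j, bounded (for the first setup) with D0'.  D = (Stb P).index.  If D <= D0': the left side is <= c (D^(-ε) <= 1, ω^(-1) <= 1, ω^g <= D as in OnP).
Otherwise drop_level for N_j: k_j; primes_prod with n_j = N_j^(k_j) (coprime): prod relIndex <= D, so some relIndex_j satisfies relIndex_j^t <= D, relIndex_j <= D^(1/t) <= D^δ (D >= 1).  one_prime for this j.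
-/
import Mathlib
import Pool.Agent.Work.MP_022f22_nt.LG.Defs
import Pool.Agent.Work.MP_022f22_nt.LG.OnP
import Pool.Agent.Work.MP_022f22_nt.LG.Bdd
import Pool.Agent.Work.MP_022f22_nt.LG.Prm
import Pool.Agent.Work.MP_022f22_nt.LG.Drp
import Pool.Agent.Work.MP_022f22_nt.LG.Stf
import Pool.Agent.Work.MP_022f22_nt.LG.Nit
import Pool.Agent.Work.MP_022f22_nt.LG.Usm

open NumberField IsDedekindDomain Polynomial Height Filter Topology LEH

namespace LEG

open Classical in
theorem lehmer_L {K : Type} [Field K] [NumberField K] (W : WeierstrassCurve K)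
    (H : ∀ n : ℕ, ∃ (v : Fin n → HeightOneSpectrum (𝓞 K)) (p N Q : Fin n → ℕ)
      (A B : Fin n → K[X]), (∀ j, Setup K (v j) W (p j) (N j) (Q j) (A j) (B j)) ∧
        ∀ i j, i ≠ j → Nat.Coprime (N i) (N j))
    (g : ℕ) (hg : 1 ≤ g) (ε : ℝ) (hε : 0 < ε) :
    ∃ c : ℝ, 0 < c ∧ ∀ (L : Type) [Field L] [NumberField L] [Algebra K L]
      [FiniteDimensional K L] [IsGalois K L]
      (P : Fin g → (W.baseChange L).toAffine.Point) (_ : ∀ i, NT (P i))
      (ω : ℕ) (_ : 1 ≤ ω) (_ : NoRel K ω (xt P)),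
      c * ((Stb P).index : ℝ) ^ (-ε) * (ω : ℝ)⁻¹ *
        ((ω : ℝ) ^ g / (Stb P).index) ^ 3 ≤ ∑ i, hx (W.baseChange L) (xc (P i)) := by
  have hκpos : (0 : ℝ) < 5 * (3 * (g : ℝ) + 1) := by positivity
  obtain ⟨δ, hδdef⟩ : ∃ δ : ℝ, δ = ε / (5 * (3 * (g : ℝ) + 1)) := ⟨_, rfl⟩
  have hδ : 0 < δ := by rw [hδdef]; positivity
  have hκδ : 5 * (3 * (g : ℝ) + 1) * δ = ε := by
    rw [hδdef]
    field_simp
  obtain ⟨t, ht⟩ := exists_nat_gt (1 / δ)
  have htr : (0 : ℝ) < t := lt_trans (by positivity) ht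
  have ht0 : 0 < t := by exact_mod_cast htr
  have htδ : ((t : ℝ))⁻¹ ≤ δ := by
    rw [inv_le_comm₀ htr hδ]
    rw [one_div] at ht
    exact ht.le
  obtain ⟨v, p, N, Q, A, B, hS, hcop⟩ := H t
  choose D0 c hc hone using fun j => one_prime (hS j) g hg δ hδ
  obtain ⟨c2, hc2, hbd⟩ := bounded (hS ⟨0, ht0⟩) g hg (Finset.univ.sup D0)
  have : Nonempty (Fin t) := ⟨⟨0, ht0⟩⟩
  have hc1 : 0 < Finset.univ.inf' Finset.univ_nonempty c :=
    (Finset.lt_inf'_iff _).2 fun j _ => hc j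
  refine ⟨min (Finset.univ.inf' Finset.univ_nonempty c) c2, lt_min hc1 hc2, ?_⟩
  intro L _ _ _ _ _ P hP ω hω hrel
  obtain ⟨D, hD⟩ : ∃ D, D = (Stb P).index := ⟨_, rfl⟩
  have hDpos : 0 < D := by
    rw [hD]
    exact Nat.pos_of_ne_zero Subgroup.index_ne_zero_of_finite
  have hD1 : (1 : ℝ) ≤ D := by exact_mod_cast hDpos
  have hω1 : (1 : ℝ) ≤ ω := by exact_mod_cast hω
  rw [← hD]
  obtain ⟨X, hX⟩ : ∃ X : ℝ, X = (D : ℝ) ^ (-ε) * (ω : ℝ)⁻¹ * ((ω : ℝ) ^ g / D) ^ 3 := ⟨_, rfl⟩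
  have hX0 : 0 ≤ X := by rw [hX]; positivity
  have hre : ∀ c' : ℝ, c' * (D : ℝ) ^ (-ε) * (ω : ℝ)⁻¹ * ((ω : ℝ) ^ g / D) ^ 3 = c' * X := by
    intro c'
    rw [hX]
    ring
  rw [hre]
  by_cases hcase : D ≤ Finset.univ.sup D0
  · have hωD : ω ^ g ≤ D := by
      rw [← norel_rank hrel hω, hD, ← index_finrank (Stb P)]
      have hsub : usp K ω (xt P) ≤
          (IntermediateField.toSubalgebra (IntermediateField.fixedField (Stb P))).toSubmodule := by
        intro y hy
        have h1 := usp_le_adjoin K ω (xt P) y hy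
        have h2 : IntermediateField.adjoin K (Set.range (xt P)) ≤
            IntermediateField.fixedField (Stb P) := by
          rw [IntermediateField.adjoin_le_iff]
          rintro _ ⟨i, rfl⟩
          exact xc_mem P i
        exact h2 h1
      exact Submodule.finrank_mono hsub
    have hωDr : (ω : ℝ) ^ g ≤ D := by exact_mod_cast hωD
    have h1 : (D : ℝ) ^ (-ε) ≤ 1 := Real.rpow_le_one_of_one_le_of_nonpos hD1 (by linarith)
    have h2 : (ω : ℝ)⁻¹ ≤ 1 := inv_le_one_of_one_le₀ hω1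
    have h3 : ((ω : ℝ) ^ g / D) ^ 3 ≤ 1 :=
      pow_le_one₀ (by positivity) ((div_le_one (by linarith)).2 hωDr)
    have hX1 : X ≤ 1 := by
      rw [hX]
      have h4 : (D : ℝ) ^ (-ε) * (ω : ℝ)⁻¹ ≤ 1 :=
        mul_le_one₀ h1 (by positivity) h2
      exact mul_le_one₀ h4 (by positivity) h3
    calc min (Finset.univ.inf' Finset.univ_nonempty c) c2 * X ≤ c2 * 1 := by
          apply mul_le_mul (min_le_right _ _) hX1 hX0 hc2.le
      _ = c2 := mul_one _
      _ ≤ _ := hbd L P hP (by rw [← hD]; exact hcase)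
  · push Not at hcase
    choose k hk hk' using fun j => drop_level P (N j)
    have hprod := primes_prod P t (fun j => N j ^ k j) (fun i j hij => (hcop i j hij).pow _ _)
    obtain ⟨j, hj⟩ : ∃ j, ((Stb P).relIndex (Stb fun i => N j ^ k j • P i)) ^ t ≤ D := by
      by_contra hcon
      push Not at hcon
      have h1 : ∏ _j : Fin t, D <
          ∏ j, ((Stb P).relIndex (Stb fun i => N j ^ k j • P i)) ^ t :=
        Finset.prod_lt_prod_of_nonempty (fun _ _ => hDpos) (fun j _ => hcon j)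
          Finset.univ_nonempty
      rw [Finset.prod_const, Finset.card_univ, Fintype.card_fin, Finset.prod_pow] at h1
      have h2 := Nat.pow_le_pow_left hprod t
      rw [← hD] at h2
      exact absurd h1 (not_lt.2 h2)
    have hrj : (((Stb P).relIndex (Stb fun i => N j ^ k j • P i) : ℕ) : ℝ) ≤
        ((Stb P).index : ℝ) ^ δ := by
      rw [← hD]
      have h1 : ((((Stb P).relIndex (Stb fun i => N j ^ k j • P i) : ℕ) : ℝ)) ^ t ≤ (D : ℝ) := by
        exact_mod_cast hj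
      calc (((Stb P).relIndex (Stb fun i => N j ^ k j • P i) : ℕ) : ℝ)
          = (((((Stb P).relIndex (Stb fun i => N j ^ k j • P i) : ℕ) : ℝ)) ^ t) ^ ((t : ℝ)⁻¹) :=
            (Real.pow_rpow_inv_natCast (by positivity) ht0.ne').symm
        _ ≤ (D : ℝ) ^ ((t : ℝ)⁻¹) := Real.rpow_le_rpow (by positivity) h1 (by positivity)
        _ ≤ (D : ℝ) ^ δ := Real.rpow_le_rpow_of_exponent_le hD1 htδ
    have hDj : D0 j ≤ (Stb P).index := by
      rw [← hD]
      exact (Finset.le_sup (Finset.mem_univ j)).trans hcase.le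
    have hfin := hone j L P hP (k j) (hk j) (hk' j) hDj hrj ω hω hrel
    rw [hκδ, ← hD, hre] at hfin
    refine le_trans ?_ hfin
    apply mul_le_mul_of_nonneg_right _ hX0
    exact (min_le_left _ _).trans (Finset.inf'_le _ (Finset.mem_univ j))

end LEG
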