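/-
LG/Ssc (M)  MP_022f22_nt, Lehmer problem in E^g, board modleg. Paper proof: /team-store/lehmer_eg_proof.md
Infinitely many supersingular places from Elkies' theorem.  As in EL/Inf out_of_inf (exists_scale is private: copy it): for every v in the infinite set {SSRed W₁ v} outside the finite set {6 d in v} EL/Loc loc_out gives W₀; so the set in the conclusion contains the infinite set difference.
elkies_conj (EL/Cj) gives the hypothesis hel.  GoodSupersingular W₀ = IsUnit Δ ∧ Supersingular (reduction) unfolds to the conclusion of loc_out.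
-/
import Mathlib
import Pool.Agent.Work.MP_022f22_nt.LG.Defs
import Pool.Agent.Work.MP_022f22_nt.LH.FinDefs
import Pool.Agent.Work.MP_022f22_nt.EL.Inf
import Pool.Agent.Work.MP_022f22_nt.EL.Cj

open NumberField IsDedekindDomain Polynomial Height Filter Topology LEH

namespace LEG

/-- A multiple of a curve with integral coefficients. -/
private theorem exists_scale {K : Type} [Field K] [NumberField K] (W : WeierstrassCurve K) :
    ∃ (d : 𝓞 K) (W₁ : WeierstrassCurve (𝓞 K)),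
    d ≠ 0 ∧ (W₁.a₁ : K) = (d : K) * W.a₁ ∧ (W₁.a₂ : K) = (d : K) ^ 2 * W.a₂ ∧
    (W₁.a₃ : K) = (d : K) ^ 3 * W.a₃ ∧ (W₁.a₄ : K) = (d : K) ^ 4 * W.a₄ ∧
    (W₁.a₆ : K) = (d : K) ^ 6 * W.a₆ := by
  classical
  obtain ⟨⟨d, hd⟩, h⟩ := IsLocalization.exist_integer_multiples_of_finset
    (nonZeroDivisors (𝓞 K)) ({W.a₁, W.a₂, W.a₃, W.a₄, W.a₆} : Finset K)
  have hd0 : d ≠ 0 := nonZeroDivisors.ne_zero hd
  obtain ⟨b₁, h₁⟩ := h W.a₁ (by simp)
  obtain ⟨b₂, h₂⟩ := h W.a₂ (by simp)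
  obtain ⟨b₃, h₃⟩ := h W.a₃ (by simp)
  obtain ⟨b₄, h₄⟩ := h W.a₄ (by simp)
  obtain ⟨b₆, h₆⟩ := h W.a₆ (by simp)
  simp only [Algebra.smul_def] at h₁ h₂ h₃ h₄ h₆
  refine ⟨d, ⟨b₁, d * b₂, d ^ 2 * b₃, d ^ 3 * b₄, d ^ 5 * b₆⟩, hd0, h₁, ?_, ?_, ?_, ?_⟩
  · change algebraMap (𝓞 K) K (d * b₂) = _
    rw [map_mul, h₂]
    ring
  · change algebraMap (𝓞 K) K (d ^ 2 * b₃) = _
    rw [map_mul, map_pow, h₃]
    ring
  · change algebraMap (𝓞 K) K (d ^ 3 * b₄) = _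
    rw [map_mul, map_pow, h₄]
    ring
  · change algebraMap (𝓞 K) K (d ^ 5 * b₆) = _
    rw [map_mul, map_pow, h₆]
    ring

theorem ss_infinite {K : Type} [Field K] [NumberField K] (E : WeierstrassCurve K)
    (hE : E.Δ ≠ 0) (σ : K →+* ℂ) (hσ : (σ (E.c₄ ^ 3 / E.Δ)).im = 0) :
    {v : HeightOneSpectrum (𝓞 K) | ∃ W₀ : WeierstrassCurve (v.valuation K).valuationSubring,
      W₀.map (algebraMap _ K) = E ∧ GoodSupersingular W₀}.Infinite := by
  obtain ⟨d, W₁, hd0, h1, h2, h3, h4, h6⟩ := exists_scale E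
  have hdK : (d : K) ≠ 0 := by
    intro h
    exact hd0 (RingOfIntegers.coe_eq_zero_iff.1 h)
  have k1 : algebraMap (𝓞 K) K W₁.a₁ = (d : K) * E.a₁ := h1
  have k2 : algebraMap (𝓞 K) K W₁.a₂ = (d : K) ^ 2 * E.a₂ := h2
  have k3 : algebraMap (𝓞 K) K W₁.a₃ = (d : K) ^ 3 * E.a₃ := h3
  have k4 : algebraMap (𝓞 K) K W₁.a₄ = (d : K) ^ 4 * E.a₄ := h4
  have k6 : algebraMap (𝓞 K) K W₁.a₆ = (d : K) ^ 6 * E.a₆ := h6
  have hD : (W₁.Δ : K) = (d : K) ^ 12 * E.Δ := by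
    have e : (W₁.Δ : K) = (W₁.map (algebraMap (𝓞 K) K)).Δ := by
      rw [WeierstrassCurve.map_Δ]
    rw [e]
    simp only [WeierstrassCurve.Δ, WeierstrassCurve.b₂, WeierstrassCurve.b₄, WeierstrassCurve.b₆,
      WeierstrassCurve.b₈, WeierstrassCurve.map_a₁, WeierstrassCurve.map_a₂,
      WeierstrassCurve.map_a₃, WeierstrassCurve.map_a₄, WeierstrassCurve.map_a₆]
    rw [k1, k2, k3, k4, k6]
    ring
  have hC : (W₁.c₄ : K) = (d : K) ^ 4 * E.c₄ := by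
    have e : (W₁.c₄ : K) = (W₁.map (algebraMap (𝓞 K) K)).c₄ := by
      rw [WeierstrassCurve.map_c₄]
    rw [e]
    simp only [WeierstrassCurve.c₄, WeierstrassCurve.b₂, WeierstrassCurve.b₄,
      WeierstrassCurve.map_a₁, WeierstrassCurve.map_a₂,
      WeierstrassCurve.map_a₃, WeierstrassCurve.map_a₄]
    rw [k1, k2, k3, k4]
    ring
  have hΔ : W₁.Δ ≠ 0 := by
    intro h
    rw [h] at hD
    have h0 : (d : K) ^ 12 * E.Δ = 0 := by
      rw [← hD]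
      rfl
    exact mul_ne_zero (pow_ne_zero 12 hdK) hE h0
  have hj : (W₁.c₄ : K) ^ 3 / (W₁.Δ : K) = E.c₄ ^ 3 / E.Δ := by
    rw [hC, hD, mul_pow, ← pow_mul, mul_div_mul_left _ _ (pow_ne_zero 12 hdK)]
  have hinf : {v : HeightOneSpectrum (𝓞 K) | Pool.Agent.SS.SSRed W₁ v}.Infinite :=
    Pool.Agent.SS.EL.elkies_conj W₁ hΔ σ (by rw [hj]; exact hσ)
  have h6d : (6 : 𝓞 K) * d ≠ 0 := mul_ne_zero (by norm_num) hd0
  have hfin : {v : HeightOneSpectrum (𝓞 K) | (6 : 𝓞 K) * d ∈ v.asIdeal}.Finite := by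
    have hI : Ideal.span {(6 : 𝓞 K) * d} ≠ 0 := by
      rw [Ideal.zero_eq_bot, ne_eq, Ideal.span_singleton_eq_bot]
      exact h6d
    refine (Ideal.finite_factors hI).subset ?_
    intro v hv
    exact (Ideal.dvd_span_singleton).2 hv
  refine (hinf.sdiff hfin).mono ?_
  rintro v ⟨hv, hv'⟩
  have hnot : (6 : 𝓞 K) * d ∉ v.asIdeal := hv'
  have hdv : d ∉ v.asIdeal := fun h => hnot (Ideal.mul_mem_left _ _ h)
  have h6v : (6 : 𝓞 K) ∉ v.asIdeal := fun h => hnot (Ideal.mul_mem_right _ _ h)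
  obtain ⟨W₀, a, b, c⟩ := Pool.Agent.SS.EL.loc_out E W₁ d h1 h2 h3 h4 h6 v hdv h6v hv
  exact ⟨W₀, a, b, c⟩

end LEG
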