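/-
LG/Ssi (M)  MP_022f22_nt, Lehmer problem in E^g, board modleg. Paper proof: /team-store/lehmer_eg_proof.md
Many setups with different residue characteristics.  For v in the infinite set: LH/Stp exists_setup gives Setup K v E p N Q A B, p = ringChar of the residue field, v(p) < 1 (Setup.p_mem).  Induction on n: given v_1..v_n with primes p_1..p_n, only finitely many v have
v(p_i) < 1 for some i (finitely many primes of 𝓞 K divide p_1 ... p_n, as in EL/Inf), so there is v in the set with v(p_i) = 1 for all i; its p differs from all p_i.  N = p^s, different primes: coprime.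
-/
import Mathlib
import Pool.Agent.Work.MP_022f22_nt.LG.Defs
import Pool.Agent.Work.MP_022f22_nt.LH.FinDefs
import Pool.Agent.Work.MP_022f22_nt.LH.Stp

open NumberField IsDedekindDomain Polynomial Height Filter Topology LEH

namespace LEG

private theorem ssi_fin {K : Type} [Field K] [NumberField K] (m : ℕ) (hm : m ≠ 0) :
    {v : HeightOneSpectrum (𝓞 K) | v.valuation K (m : K) < 1}.Finite := by
  have hI : Ideal.span {((m : ℕ) : 𝓞 K)} ≠ 0 := by
    rw [Ideal.zero_eq_bot, ne_eq, Ideal.span_singleton_eq_bot]
    exact_mod_cast hm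
  refine (Ideal.finite_factors hI).subset ?_
  intro v hv
  refine (Ideal.dvd_span_singleton).2 ?_
  have h1 : v.valuation K (algebraMap (𝓞 K) K (m : 𝓞 K)) < 1 := by
    rw [map_natCast]
    exact hv
  exact (v.valuation_lt_one_iff_mem (K := K) _).1 h1

private theorem ssi_cop {K : Type} [Field K] [NumberField K] {E : WeierstrassCurve K}
    {v w : HeightOneSpectrum (𝓞 K)} {p N Q p' N' Q' : ℕ} {A B A' B' : K[X]}
    (h : Setup K v E p N Q A B) (h' : Setup K w E p' N' Q' A' B')
    (hw : ¬ w.valuation K (p : K) < 1) : Nat.Coprime N' N := by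
  obtain ⟨s, -, rfl⟩ := h.N_pow
  obtain ⟨s', -, rfl⟩ := h'.N_pow
  apply Nat.Coprime.pow
  rw [Nat.coprime_primes h'.prime h.prime]
  rintro rfl
  exact hw h'.p_mem

theorem many_setups {K : Type} [Field K] [NumberField K] (E : WeierstrassCurve K)
    (h : {v : HeightOneSpectrum (𝓞 K) | ∃ W₀ : WeierstrassCurve (v.valuation K).valuationSubring,
      W₀.map (algebraMap _ K) = E ∧ GoodSupersingular W₀}.Infinite) (n : ℕ) :
    ∃ (v : Fin n → HeightOneSpectrum (𝓞 K)) (p N Q : Fin n → ℕ) (A B : Fin n → K[X]),
      (∀ j, Setup K (v j) E (p j) (N j) (Q j) (A j) (B j)) ∧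
        ∀ i j, i ≠ j → Nat.Coprime (N i) (N j) := by
  induction n with
  | zero =>
    exact ⟨fun i => i.elim0, fun _ => 0, fun _ => 0, fun _ => 0, fun _ => 0, fun _ => 0,
      fun j => j.elim0, fun i => i.elim0⟩
  | succ n ih =>
    obtain ⟨v, p, N, Q, A, B, hS, hc⟩ := ih
    have hfin : {w : HeightOneSpectrum (𝓞 K) |
        w.valuation K ((∏ j, p j : ℕ) : K) < 1}.Finite := by
      apply ssi_fin
      exact Finset.prod_ne_zero_iff.2 fun j _ => (hS j).prime.ne_zero
    obtain ⟨w, hw, hw'⟩ := (h.sdiff hfin).nonempty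
    obtain ⟨W₀, hW, hu, hs⟩ := hw
    obtain ⟨p', N', Q', A', B', hS'⟩ : ∃ (p' N' Q' : ℕ) (A' B' : K[X]),
        Setup K w E p' N' Q' A' B' := by
      obtain ⟨N', Q', A', B', hS'⟩ := exists_setup w W₀ hu hs
      rw [hW] at hS'
      exact ⟨_, N', Q', A', B', hS'⟩
    have hnp : ∀ j, ¬ w.valuation K (p j : K) < 1 := by
      intro j hj
      apply hw'
      change w.valuation K ((∏ j, p j : ℕ) : K) < 1
      rw [Nat.cast_prod, map_prod]
      rw [← Finset.mul_prod_erase _ _ (Finset.mem_univ j)]
      refine lt_of_le_of_lt (mul_le_of_le_one_right' ?_) hj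
      refine Finset.prod_le_one' fun i _ => ?_
      have h1 := w.valuation_le_one (K := K) ((p i : ℕ) : 𝓞 K)
      change w.valuation K (algebraMap (𝓞 K) K ((p i : ℕ) : 𝓞 K)) ≤ 1 at h1
      rwa [map_natCast] at h1
    have hco : ∀ j, Nat.Coprime N' (N j) := fun j => ssi_cop (hS j) hS' (hnp j)
    refine ⟨Fin.cons w v, Fin.cons p' p, Fin.cons N' N, Fin.cons Q' Q, Fin.cons A' A,
      Fin.cons B' B, ?_, ?_⟩
    · intro j
      refine Fin.cases ?_ (fun j => ?_) j
      · simpa using hS'
      · simpa using hS j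
    · intro i j
      refine Fin.cases ?_ (fun i => ?_) i
      · refine Fin.cases ?_ (fun j => ?_) j
        · intro h
          exact absurd rfl h
        · intro _
          simpa using hco j
      · refine Fin.cases ?_ (fun j => ?_) j
        · intro _
          simpa using (hco i).symm
        · intro hij
          have : i ≠ j := fun h => hij (by rw [h])
          simpa using hc i j this

end LEG
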