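/-
LG/Wle (S)  MP_022f22_nt, Lehmer problem in E^g, board modleg. Paper proof: /team-store/lehmer_eg_proof.md
ω^g <= index of Stb P.  norel_rank: ω^g = finrank (usp K ω (xt P)) <= finrank K (xt P) (usp_le_adjoin) = |torb| (torb_card) <= index (torb_index).
-/
import Mathlib
import Pool.Agent.Work.MP_022f22_nt.LG.Defs
import Pool.Agent.Work.MP_022f22_nt.LG.Stf
import Pool.Agent.Work.MP_022f22_nt.LG.Tcd
import Pool.Agent.Work.MP_022f22_nt.LG.Usm
import Pool.Agent.Work.MP_022f22_nt.LG.Nit

open NumberField IsDedekindDomain Polynomial Height Filter Topology LEH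

namespace LEG

theorem omega_le {K L : Type} [Field K] [NumberField K] [Field L] [NumberField L] [Algebra K L]
    [FiniteDimensional K L] [IsGalois K L] [DecidableEq L] {W : WeierstrassCurve K} {g : ℕ}
    (P : Fin g → (W.baseChange L).toAffine.Point) (hP : ∀ i, P i ≠ 0) (ω : ℕ) (hω : 1 ≤ ω)
    (h : NoRel K ω (xt P)) : ω ^ g ≤ (Stb P).index := by
  rw [← norel_rank h hω]
  refine le_trans ?_ ((torb_card (xt P)).symm.le.trans (torb_index P hP).1)
  have hle : usp K ω (xt P) ≤
      Subalgebra.toSubmodule (IntermediateField.adjoin K (Set.range (xt P))).toSubalgebra := by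
    intro y hy
    exact usp_le_adjoin K ω (xt P) y hy
  exact Submodule.finrank_mono hle

end LEG
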