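/-
LG/Fin (S)  MP_022f22_nt, Lehmer problem in E^g, board modleg. Paper proof: /team-store/lehmer_eg_proof.md
Assembly: ss_infinite, many_setups, lehmer_L, descend, can_hx.  NoRel K ω over AlgebraicClosure K for xCoord (P i) = L.val (xc (P' i)) gives NoRel K ω (xt P') (aeval commutes with L.val).
-/
import Mathlib
import Pool.Agent.Work.MP_022f22_nt.LG.Defs
import Pool.Agent.Work.MP_022f22_nt.LG.FDefs
import Pool.Agent.Work.MP_022f22_nt.LG.Lfi
import Pool.Agent.Work.MP_022f22_nt.LG.Dsc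
import Pool.Agent.Work.MP_022f22_nt.LG.Can
import Pool.Agent.Work.MP_022f22_nt.LG.Ssc
import Pool.Agent.Work.MP_022f22_nt.LG.Ssi
import Pool.Agent.Work.MP_022f22_nt.LG.Wle

open NumberField IsDedekindDomain Polynomial Height Filter Topology LEH

namespace LEG

open Classical in
private theorem any_dec {K : Type} [Field K] [NumberField K] (W : WeierstrassCurve K)
    (g : ℕ) (ε c : ℝ)
    (H : ∀ (L : Type) [Field L] [NumberField L] [Algebra K L]
      [FiniteDimensional K L] [IsGalois K L]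
      (P : Fin g → (W.baseChange L).toAffine.Point) (_ : ∀ i, NT (P i))
      (ω : ℕ) (_ : 1 ≤ ω) (_ : NoRel K ω (xt P)),
      c * ((Stb P).index : ℝ) ^ (-ε) * (ω : ℝ)⁻¹ *
        ((ω : ℝ) ^ g / (Stb P).index) ^ 3 ≤ ∑ i, hx (W.baseChange L) (xc (P i)))
    (L : Type) [Field L] [NumberField L] [Algebra K L]
      [FiniteDimensional K L] [IsGalois K L] [dec : DecidableEq L]
      (P : Fin g → (W.baseChange L).toAffine.Point) (hP : ∀ i, NT (P i))
      (ω : ℕ) (hω : 1 ≤ ω) (hN : NoRel K ω (xt P)) :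
      c * ((Stb P).index : ℝ) ^ (-ε) * (ω : ℝ)⁻¹ *
        ((ω : ℝ) ^ g / (Stb P).index) ^ 3 ≤ ∑ i, hx (W.baseChange L) (xc (P i)) := by
  have hd : dec = fun a b => Classical.propDecidable (a = b) := Subsingleton.elim _ _
  subst hd
  exact H L P hP ω hω hN

open Classical in
theorem lehmer_power {K : Type} [Field K] [NumberField K] (E : WeierstrassCurve K)
    (hE : E.Δ ≠ 0) (h : (∃ σ : K →+* ℂ, (σ (E.c₄ ^ 3 / E.Δ)).im = 0) ∨
      {v : HeightOneSpectrum (𝓞 K) | ∃ W₀ : WeierstrassCurve (v.valuation K).valuationSubring,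
        W₀.map (algebraMap _ K) = E ∧ GoodSupersingular W₀}.Infinite)
    (g : ℕ) (hg : 1 ≤ g) (ε : ℝ) (hε : 0 < ε) :
    ∃ c : ℝ, 0 < c ∧ ∀ P : Fin g → (E.baseChange (AlgebraicClosure K)).toAffine.Point,
      (∀ i, InfOrder (P i)) →
      (∀ i, Tendsto (fun n : ℕ => naiveHeight (2 ^ n • P i) / 4 ^ n) atTop
        (𝓝 (canonicalHeight (P i)))) ∧
      ∀ ω : ℕ, 1 ≤ ω → NoRel K ω (fun i => xCoord (P i)) →
        ω ^ g ≤ tupDegree K P ∧
        c * (tupDegree K P : ℝ) ^ (-ε) * (ω : ℝ)⁻¹ * ((ω : ℝ) ^ g / tupDegree K P) ^ 3 ≤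
          ∑ i, canonicalHeight (P i) := by
  have hinf : {v : HeightOneSpectrum (𝓞 K) | ∃ W₀ : WeierstrassCurve
      (v.valuation K).valuationSubring,
        W₀.map (algebraMap _ K) = E ∧ GoodSupersingular W₀}.Infinite := by
    rcases h with ⟨σ, hσ⟩ | h
    · exact ss_infinite E hE σ hσ
    · exact h
  obtain ⟨c, hc, H⟩ := lehmer_L E (many_setups E hinf) g hg ε hε
  refine ⟨c, hc, fun P hP => ?_⟩
  obtain ⟨L, hfin, hgal, P', hmap, hNT, hxx, hdeg⟩ := descend E P hP
  have hnf : NumberField L := NumberField.of_module_finite K L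
  have hten : ∀ i, Tendsto (fun n : ℕ => naiveHeight (2 ^ n • P i) / 4 ^ n) atTop
        (𝓝 (hx (E.baseChange L) (xc (P' i)))) := fun i => by
    have h1 := can_hx E hE L (P' i) (hNT i)
    rwa [hmap i] at h1
  have hcan : ∀ i, canonicalHeight (P i) = hx (E.baseChange L) (xc (P' i)) :=
    fun i => (hten i).limUnder_eq
  refine ⟨fun i => by rw [hcan i]; exact hten i, fun ω hω hN => ?_⟩
  have hN' : NoRel K ω (xt P') := by
    intro f hf h0
    refine hN f hf ?_
    have h1 : (fun i => xCoord (P i)) = fun i => L.val (xt P' i) := by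
      funext i
      exact (hxx i).symm
    rw [h1]
    rw [← MvPolynomial.comp_aeval_apply, h0, map_zero]
  have hP0 : ∀ i, P' i ≠ 0 := by
    intro i h0
    have := hNT i 1 one_pos
    rw [one_nsmul] at this
    exact this h0
  have e1 := omega_le P' hP0 ω hω hN'
  have e2 := any_dec E g ε c H L P' hNT ω hω hN'
  have e3 : (Stb P').index = tupDegree K P := by
    rw [← hdeg]
  constructor
  · rw [← e3]
    exact e1
  · rw [← e3]
    simp only [hcan]
    exact e2

end LEG
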