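/-
LG/Mex (M)  MP_022f22_nt, Lehmer problem in E^g, board modleg. Paper proof: /team-store/lehmer_eg_proof.md
Nonzero minor (paper 1).  Let f_I(s) = prod_i prod_l (dupIt W l (s i)).1^(I i l) (dupIt W l (s i)).2^(3 - I i l), I : Fin g -> Fin κ -> Fin 4.  By dup_span (evaluated at s i: LH/Cop dupP_eval) and expanding the product over i (Finset.prod_univ_sum /
Fintype.piFinset), each monomial prod s_i^(u_i), u_i < 4^κ, is sum_I alpha_I f_I(s) with alpha independent of s.  So the rows (f_I(β b))_b span L^r: otherwise a nonzero c with sum_b c_b f_I(β b) = 0 for all I, hence for all monomials, contradicting Indep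
(c as a function on S through β, injective).  A spanning family of L^r contains a basis: Matrix with nonzero determinant (e.g. exists_linearIndependent / LH/Mnr exists_minor shows how it was done).
-/
import Mathlib
import Pool.Agent.Work.MP_022f22_nt.LG.Defs
import Pool.Agent.Work.MP_022f22_nt.LG.Dsp
import Pool.Agent.Work.MP_022f22_nt.LH.Cop
import Pool.Agent.Work.MP_022f22_nt.LH.Mnr

open NumberField IsDedekindDomain Polynomial Height Filter Topology LEH

namespace LEG

theorem minor_multi {L : Type} [Field L] [NumberField L] (W : WeierstrassCurve L)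
    (hΔ : W.Δ ≠ 0) {g : ℕ} (κ r : ℕ) (β : Fin r → Fin g → L) (hβ : Function.Injective β)
    (S : Finset (Fin g → L)) (hS : ∀ s, s ∈ S ↔ ∃ b, β b = s) (hI : Indep (4 ^ κ) S) :
    ∃ I : Fin r → (Fin g → Fin κ → Fin 4), (Matrix.of fun a b =>
      ∏ i, ∏ l : Fin κ, ((dupIt W l (β b i)).1 ^ (I a i l : ℕ) *
        (dupIt W l (β b i)).2 ^ (3 - (I a i l : ℕ)))).det ≠ 0 := by
  classical
  set f : (Fin g → Fin κ → Fin 4) → (Fin g → L) → L := fun J s =>
    ∏ i, ∏ l : Fin κ, ((dupIt W l (s i)).1 ^ (J i l : ℕ) *
      (dupIt W l (s i)).2 ^ (3 - (J i l : ℕ))) with hf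
  let R : (Fin g → Fin κ → Fin 4) → (Fin r → L) := fun J b => f J (β b)
  -- the monomials
  have hmon : ∀ u : Fin g → ℕ, (∀ i, u i < 4 ^ κ) → ∃ α : (Fin g → Fin κ → Fin 4) → L,
      ∀ s : Fin g → L, ∏ i, s i ^ u i = ∑ J, α J * f J s := by
    intro u hu
    choose α hα using fun i => dup_span W hΔ κ (u i) (hu i)
    refine ⟨fun J => ∏ i, α i (J i), fun s => ?_⟩
    have h1 : ∀ i, s i ^ u i = ∑ I : Fin κ → Fin 4, α i I *
        ∏ l : Fin κ, ((dupIt W l (s i)).1 ^ (I l : ℕ) *
          (dupIt W l (s i)).2 ^ (3 - (I l : ℕ))) := by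
      intro i
      have h := congrArg (Polynomial.eval (s i)) (hα i)
      rw [Polynomial.eval_pow, Polynomial.eval_X, Polynomial.eval_finsetSum] at h
      rw [h]
      refine Finset.sum_congr rfl (fun I _ => ?_)
      rw [Polynomial.eval_mul, Polynomial.eval_C, Polynomial.eval_prod]
      congr 1
      refine Finset.prod_congr rfl (fun l _ => ?_)
      rw [Polynomial.eval_mul, Polynomial.eval_pow, Polynomial.eval_pow,
        (dupP_eval W l (s i)).1, (dupP_eval W l (s i)).2]
    rw [Finset.prod_congr rfl (fun i _ => h1 i), Finset.prod_univ_sum, Fintype.piFinset_univ]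
    refine Finset.sum_congr rfl (fun J _ => ?_)
    rw [Finset.prod_mul_distrib]
  have hspan : Submodule.span L (Set.range R) = ⊤ := by
    by_contra hne
    obtain ⟨φ, hφ0, hφ⟩ := Submodule.exists_le_ker_of_lt_top _ (lt_top_iff_ne_top.2 hne)
    apply hφ0
    set c : Fin r → L := fun b => φ (Pi.single b 1) with hc
    have hφe : ∀ v, φ v = ∑ b, v b * c b := by
      intro v
      have h : v = ∑ b, v b • (Pi.single b (1 : L) : Fin r → L) := by
        funext b'
        rw [Finset.sum_apply]
        rw [Finset.sum_eq_single b']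
        · simp
        · intro b _ hb
          simp [Pi.single_apply, Ne.symm hb]
        · intro h
          exact absurd (Finset.mem_univ _) h
      conv_lhs => rw [h]
      rw [map_sum]
      refine Finset.sum_congr rfl (fun b _ => ?_)
      rw [map_smul, smul_eq_mul]
    have hJ : ∀ J, ∑ b, f J (β b) * c b = 0 := by
      intro J
      have h : R J ∈ LinearMap.ker φ := hφ (Submodule.subset_span ⟨J, rfl⟩)
      rw [LinearMap.mem_ker, hφe] at h
      exact h
    set c' : (Fin g → L) → L := fun s => ∑ b, if β b = s then c b else 0 with hc'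
    have hcb : ∀ b, c' (β b) = c b := by
      intro b
      rw [hc']
      show (∑ b', if β b' = β b then c b' else 0) = c b
      rw [Finset.sum_eq_single b]
      · rw [if_pos rfl]
      · intro b' _ hb'
        rw [if_neg (fun h => hb' (hβ h))]
      · intro h
        exact absurd (Finset.mem_univ _) h
    have hSi : S = Finset.univ.image β := by
      ext s
      rw [hS s, Finset.mem_image]
      constructor
      · rintro ⟨b, hb⟩
        exact ⟨b, Finset.mem_univ _, hb⟩
      · rintro ⟨b, -, hb⟩
        exact ⟨b, hb⟩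
    have hz := hI c' (by
      intro u hu
      rw [hSi, Finset.sum_image (fun b _ b' _ h => hβ h)]
      obtain ⟨α, hα⟩ := hmon u hu
      have h1 : ∀ b, c' (β b) * ∏ i, β b i ^ u i = ∑ J, α J * (f J (β b) * c b) := by
        intro b
        rw [hcb, hα, Finset.mul_sum]
        refine Finset.sum_congr rfl (fun J _ => ?_)
        ring
      rw [Finset.sum_congr rfl (fun b _ => h1 b), Finset.sum_comm]
      refine Finset.sum_eq_zero (fun J _ => ?_)
      rw [← Finset.mul_sum, hJ, mul_zero])
    ext v
    rw [LinearMap.comp_apply, LinearMap.zero_comp, LinearMap.zero_apply]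
    exact (hcb v).symm.trans (hz _ ((hS _).2 ⟨v, rfl⟩))
  obtain ⟨G, hg1, -, hg3⟩ := Submodule.exists_fun_fin_finrank_span_eq L (Set.range R)
  have hn' : Module.finrank L (Submodule.span L (Set.range R)) = r := by
    rw [hspan, finrank_top]
    simp
  choose I0 hI0 using hg1
  refine ⟨fun i => I0 (Fin.cast hn'.symm i), ?_⟩
  have hli : LinearIndependent L (fun i : Fin r => G (Fin.cast hn'.symm i)) :=
    hg3.comp _ (Fin.cast_injective _)
  have hrow : (Matrix.of fun a b => f (I0 (Fin.cast hn'.symm a)) (β b)).row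
      = fun i : Fin r => G (Fin.cast hn'.symm i) := by
    funext i
    rw [← hI0]
    rfl
  have hunit : IsUnit (Matrix.of fun a b => f (I0 (Fin.cast hn'.symm a)) (β b)) := by
    rw [← Matrix.linearIndependent_rows_iff_isUnit, hrow]
    exact hli
  exact ((Matrix.isUnit_iff_isUnit_det _).mp hunit).ne_zero

end LEG
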